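import Mathlib

/-!
# helper31: graded systems and the Charney-Davis inequality: definitions

`V` is a finite linearly ordered vertex type, `G` a graph on it; a finite set `A` of vertices stands for the
flag complex (clique complex) of the induced graph. Coefficients are real vector spaces `U`.

A *graded system* on `A` is a family of operators `a v`, `b v` (`v ∈ A`) on `U` with `a v ^ 2 = b v ^ 2 = 0`,
`a v * b v + b v * a v = 1`, such that for adjacent `v`, `w` each of `a v`, `b v` ANTICOMMUTES with each of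
`a w`, `b w`. Cochains of degree `i`: functions `y` on the simplices `s` of `A` with `i` elements, with
`y s ∈ Cell a s` (`a v (y s) = 0` for `v ∈ s`), coboundary `cob a y s = ∑ v ∈ s, a v (y (s.erase v))`.
There are no signs: they are hidden in the anticommutation.
-/

namespace Pool.Agent.H31.GS

open Finset

/-! ## combinatorics -/

section Comb

variable {V : Type} [Fintype V] [LinearOrder V]

/-- `s` is a simplex of `A`: a clique contained in `A`. -/
def Cl (G : SimpleGraph V) (A s : Finset V) : Prop := s ⊆ A ∧ G.IsClique (s : Set V)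

open Classical in
/-- The vertex set of the link in `A` of the simplex `r`: the common neighbours in `A` of all the
vertices of `r`. -/
noncomputable def lk (G : SimpleGraph V) (A r : Finset V) : Finset V :=
  A.filter (fun x => ∀ v ∈ r, G.Adj v x)

open Classical in
/-- The vertices of `A` outside the closed star of `v`. -/
noncomputable def far (G : SimpleGraph V) (A : Finset V) (v : V) : Finset V :=
  A.filter (fun w => w ≠ v ∧ ¬ G.Adj v w)

open Classical in
/-- The vertices of `D` which are equal or adjacent to every vertex of `s`. -/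
noncomputable def nb (G : SimpleGraph V) (D s : Finset V) : Finset V :=
  D.filter (fun x => ∀ v ∈ s, x = v ∨ G.Adj v x)

/-- The sign `(-1)^(number of elements of s smaller than v)`. -/
def sgn (v : V) (s : Finset V) : ℝ := (-1) ^ (s.filter (fun u => u < v)).card

/-- The flag complex of `D` has no reduced real cohomology: every cocycle `f` (a function on the simplices of
`D`, the empty one included) is a coboundary. -/
def AcyclicR (G : SimpleGraph V) (D : Finset V) : Prop :=
  ∀ f : Finset V → ℝ, (∀ s, Cl G D s → ∑ v ∈ s, sgn v s * f (s.erase v) = 0) →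
    ∃ h : Finset V → ℝ, ∀ s, Cl G D s → f s = ∑ v ∈ s, sgn v s * h (s.erase v)

/-- `A` is a flag (real homology) sphere of rank `d` (dimension `d - 1`). Rank `0`: `A` is empty.
Rank `d + 1`: `A` is nonempty and for every vertex `v` the link of `v` is a flag sphere of rank `d`
and the vertices outside the star of `v` span an acyclic complex. -/
def FlagSphere (G : SimpleGraph V) : ℕ → Finset V → Prop
  | 0, A => A = ∅
  | d + 1, A => A.Nonempty ∧ ∀ v ∈ A, FlagSphere G d (lk G A {v}) ∧ AcyclicR G (far G A v)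

open Classical in
/-- `omega A = ∑ (-1/2)^|s|` over all simplices (cliques) `s ⊆ A`, the empty one included. -/
noncomputable def omega (G : SimpleGraph V) (A : Finset V) : ℚ :=
  ∑ s ∈ A.powerset.filter (fun s : Finset V => G.IsClique (s : Set V)), (-1 / 2 : ℚ) ^ s.card

end Comb

/-! ## graded systems -/

section Sys

variable {V : Type} [Fintype V] [LinearOrder V] {U : Type} [AddCommGroup U] [Module ℝ U]

/-- graded system on `A` -/
structure GSys (G : SimpleGraph V) (A : Finset V) (a b : V → Module.End ℝ U) : Prop where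
  aa : ∀ v ∈ A, ∀ x, a v (a v x) = 0
  bb : ∀ v ∈ A, ∀ x, b v (b v x) = 0
  ab : ∀ v ∈ A, ∀ x, a v (b v x) + b v (a v x) = x
  caa : ∀ v ∈ A, ∀ w ∈ A, G.Adj v w → ∀ x, a v (a w x) = - a w (a v x)
  cab : ∀ v ∈ A, ∀ w ∈ A, G.Adj v w → ∀ x, a v (b w x) = - b w (a v x)
  cbb : ∀ v ∈ A, ∀ w ∈ A, G.Adj v w → ∀ x, b v (b w x) = - b w (b v x)

/-- The vectors killed by all `a v`, `v ∈ s`. -/
def Cell (a : V → Module.End ℝ U) (s : Finset V) : Submodule ℝ U where
  carrier := {x | ∀ v ∈ s, a v x = 0}
  add_mem' := by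
    intro x y hx hy v hv
    rw [map_add, hx v hv, hy v hv, add_zero]
  zero_mem' := fun v _ => map_zero _
  smul_mem' := by
    intro c x hx v hv
    rw [map_smul, hx v hv, smul_zero]

/-- coboundary -/
def cob (a : V → Module.End ℝ U) (y : Finset V → U) (s : Finset V) : U :=
  ∑ v ∈ s, a v (y (s.erase v))

/-- `y` is a cochain of degree `i` (its values on other sets are irrelevant). -/
def InC (G : SimpleGraph V) (a : V → Module.End ℝ U) (A : Finset V) (i : ℕ) (y : Finset V → U) :
    Prop :=
  ∀ s, Cl G A s → s.card = i → y s ∈ Cell a s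

/-- closed in degree `i` -/
def Clo (G : SimpleGraph V) (a : V → Module.End ℝ U) (A : Finset V) (i : ℕ) (y : Finset V → U) :
    Prop :=
  ∀ s, Cl G A s → s.card = i + 1 → cob a y s = 0

/-- a coboundary in degree `i` -/
def Bd (G : SimpleGraph V) (a : V → Module.End ℝ U) (A : Finset V) (i : ℕ) (y : Finset V → U) :
    Prop :=
  ∃ x : Finset V → U, (∀ s, Cl G A s → s.card + 1 = i → x s ∈ Cell a s) ∧
    ∀ s, Cl G A s → s.card = i → y s = cob a x s

/-- exactness in degree `i` -/
def ExC (G : SimpleGraph V) (a : V → Module.End ℝ U) (A : Finset V) (i : ℕ) : Prop :=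
  ∀ y : Finset V → U, InC G a A i y → Clo G a A i y → Bd G a A i y

end Sys

/-! ## systems with forms -/

section Form

variable {V : Type} [Fintype V] [LinearOrder V] {U : Type} [AddCommGroup U] [Module ℝ U]

/-- A formed system on the flag sphere `A` of rank `d`: a graded system, positive numbers `N v w` for distinct
non-adjacent vertices with `a v a w + a w a v = - N v w`, and for every facet `F` a bilinear form `B F` with
`B F (a v x) y = - B F x (b v y)`, `B F (b v x) y = - B F x (a v y)` for `v ∈ F`,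
`B F (a v x) y = - B F x (a v y)` for `v ∉ F`, the ridge relation, and positive definite on
`⋂ v ∈ F, ker (b v)`. -/
structure FSys (G : SimpleGraph V) (A : Finset V) (d : ℕ) (a b : V → Module.End ℝ U)
    (N : V → V → ℝ) (B : Finset V → U →ₗ[ℝ] U →ₗ[ℝ] ℝ) : Prop where
  sys : GSys G A a b
  npos : ∀ v ∈ A, ∀ w ∈ A, v ≠ w → ¬ G.Adj v w → 0 < N v w
  anti : ∀ v ∈ A, ∀ w ∈ A, v ≠ w → ¬ G.Adj v w → ∀ x, a v (a w x) + a w (a v x) = - (N v w • x)
  fa : ∀ F, Cl G A F → F.card = d → ∀ v ∈ F, ∀ x y, B F (a v x) y = - B F x (b v y)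
  fb : ∀ F, Cl G A F → F.card = d → ∀ v ∈ F, ∀ x y, B F (b v x) y = - B F x (a v y)
  fo : ∀ F, Cl G A F → F.card = d → ∀ v ∈ A, v ∉ F → ∀ x y, B F (a v x) y = - B F x (a v y)
  ridge : ∀ ρ, Cl G A ρ → ρ.card + 1 = d → ∀ x y,
    ∑ u ∈ lk G A ρ, B (insert u ρ) x (a u y - b u y) = 0
  pos : ∀ F, Cl G A F → F.card = d → ∀ x, x ≠ 0 → (∀ v ∈ F, b v x = 0) → 0 < B F x x

open Classical in
/-- The form of the link of `r`: sum over the facets `F ⊇ r` and the subsets `s` of `F \ r` with `i` elements
of `B F (y s) (y' ((F \ r) \ s))`. -/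
noncomputable def om (G : SimpleGraph V) (A : Finset V) (d : ℕ)
    (B : Finset V → U →ₗ[ℝ] U →ₗ[ℝ] ℝ) (i : ℕ) (r : Finset V) (y y' : Finset V → U) : ℝ :=
  ∑ F ∈ A.powerset.filter (fun F => Cl G A F ∧ F.card = d ∧ r ⊆ F),
    ∑ s ∈ (F \ r).powersetCard i, B F (y s) (y' ((F \ r) \ s))

/-- `y` has values in `⋂ v ∈ r, ker (b v)` (on the simplices of `L` of size `i`) -/
def Vl (G : SimpleGraph V) (b : V → Module.End ℝ U) (L : Finset V) (i : ℕ) (r : Finset V)
    (y : Finset V → U) : Prop :=
  ∀ s, Cl G L s → s.card = i → y s ∈ Cell b r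

/-- positivity of the form of the link of `r` in the middle degree `m` -/
def PosAt (G : SimpleGraph V) (A : Finset V) (d : ℕ) (a b : V → Module.End ℝ U)
    (B : Finset V → U →ₗ[ℝ] U →ₗ[ℝ] ℝ) (m : ℕ) (r : Finset V) : Prop :=
  ∀ y : Finset V → U, InC G a (lk G A r) m y → Clo G a (lk G A r) m y →
    Vl G b (lk G A r) m r y →
    0 ≤ (-1) ^ m * om G A d B m r y y ∧ (om G A d B m r y y = 0 → Bd G a (lk G A r) m y)

end Form

end Pool.Agent.H31.GS
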