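import Mathlib

/-!
# helper31, GS, module CLIFF: real Clifford matrices

For every finite type `I` there are real square matrices `X i` symmetric, `Y i` skew, `γ` symmetric, all anticommuting, with
`X i ^ 2 = 1`, `Y i ^ 2 = - 1`, `γ ^ 2 = 1`.

PROOF. First for `I = Fin n` by induction on `n` (then transport along `Fintype.equivFin`). `n = 0`: `ι = Unit`, `γ = 1`
(nothing else). Step: from `ι, X, Y, γ` for `n` build index type `ι ⊕ ι` and (`Matrix.fromBlocks`)
`X' i = [[X i, 0], [0, - X i]]`, `Y' i = [[Y i, 0], [0, - Y i]]`, `γ' = [[γ, 0], [0, - γ]]` for the old indices, and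
`X' new = [[0, 1], [1, 0]]`, `Y' new = [[0, 1], [-1, 0]]`. Check with `Matrix.fromBlocks_multiply`, `fromBlocks_transpose`,
`fromBlocks_one`, `fromBlocks_add`. (Use `Fin.cases`/`Fin.cons` or do the induction over `Option`:
`Fintype.induction_empty_option` gives it directly for all finite types.)
-/

namespace Pool.Agent.H31.GS

open Matrix

/-- anticommuting real matrices -/
structure CliffM {I ι : Type} [DecidableEq I] [Fintype ι] [DecidableEq ι]
    (X Y : I → Matrix ι ι ℝ) (γ : Matrix ι ι ℝ) : Prop where
  Xt : ∀ i, (X i)ᵀ = X i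
  Yt : ∀ i, (Y i)ᵀ = - Y i
  gt : γᵀ = γ
  XX : ∀ i j, X i * X j + X j * X i = if i = j then 2 else 0
  YY : ∀ i j, Y i * Y j + Y j * Y i = if i = j then - 2 else 0
  XY : ∀ i j, X i * Y j + Y j * X i = 0
  gg : γ * γ = 1
  gX : ∀ i, γ * X i = - (X i * γ)
  gY : ∀ i, γ * Y i = - (Y i * γ)

theorem exists_cliff_fin (n : ℕ) :
    ∃ (ι : Type) (_ : Fintype ι) (_ : DecidableEq ι) (_ : Nonempty ι)
      (X Y : Fin n → Matrix ι ι ℝ) (γ : Matrix ι ι ℝ), CliffM X Y γ := by
  induction n with
  | zero =>
    refine ⟨Unit, inferInstance, inferInstance, inferInstance, fun i => i.elim0,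
      fun i => i.elim0, 1, ⟨fun i => i.elim0, fun i => i.elim0, by simp, fun i => i.elim0,
      fun i => i.elim0, fun i => i.elim0, by simp, fun i => i.elim0, fun i => i.elim0⟩⟩
  | succ n ih =>
    obtain ⟨ι, i1, i2, i3, X, Y, γ, h⟩ := ih
    obtain ⟨i0⟩ := i3
    refine ⟨ι ⊕ ι, inferInstance, inferInstance, ⟨Sum.inl i0⟩,
      Fin.cons (fromBlocks 0 1 1 0) (fun i => fromBlocks (X i) 0 0 (-X i)),
      Fin.cons (fromBlocks 0 1 (-1) 0) (fun i => fromBlocks (Y i) 0 0 (-Y i)),
      fromBlocks γ 0 0 (-γ), ?_⟩
    have h2 : (2 : Matrix (ι ⊕ ι) (ι ⊕ ι) ℝ) = fromBlocks 2 0 0 2 := by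
      have : (2 : Matrix (ι ⊕ ι) (ι ⊕ ι) ℝ) = 1 + 1 := by norm_num
      rw [this, ← fromBlocks_one, fromBlocks_add]
      norm_num
    constructor
    · refine Fin.cases ?_ (fun i => ?_)
      · simp [fromBlocks_transpose]
      · simp [fromBlocks_transpose, h.Xt i]
    · refine Fin.cases ?_ (fun i => ?_)
      · simp [fromBlocks_transpose, fromBlocks_neg]
      · simp [fromBlocks_transpose, fromBlocks_neg, h.Yt i]
    · simp [fromBlocks_transpose, h.gt]
    · refine Fin.cases (Fin.cases ?_ (fun j => ?_)) (fun i => Fin.cases ?_ (fun j => ?_))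
      · simp [fromBlocks_multiply, h2]
        norm_num
        exact h2
      · simp [fromBlocks_multiply, fromBlocks_add, (Fin.succ_ne_zero j).symm]
      · simp [fromBlocks_multiply, fromBlocks_add, Fin.succ_ne_zero]
      · simp only [Fin.cons_succ, fromBlocks_multiply, fromBlocks_add]
        by_cases hij : i = j
        · subst hij
          have := h.XX i i
          simp only [if_true] at this
          simp [this, h2]
        · have := h.XX i j
          rw [if_neg hij] at this
          have hij' : ¬ (i.succ = j.succ) := fun hh => hij (Fin.succ_injective _ hh)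
          simp [this, hij]
    · refine Fin.cases (Fin.cases ?_ (fun j => ?_)) (fun i => Fin.cases ?_ (fun j => ?_))
      · simp [fromBlocks_multiply, fromBlocks_add, h2, fromBlocks_neg]
        norm_num
      · simp [fromBlocks_multiply, fromBlocks_add, (Fin.succ_ne_zero j).symm]
      · simp [fromBlocks_multiply, fromBlocks_add, Fin.succ_ne_zero]
      · simp only [Fin.cons_succ, fromBlocks_multiply, fromBlocks_add]
        by_cases hij : i = j
        · subst hij
          have := h.YY i i
          simp only [if_true] at this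
          simp [this, h2, fromBlocks_neg]
        · have := h.YY i j
          rw [if_neg hij] at this
          simp [this, hij]
    · refine Fin.cases (Fin.cases ?_ (fun j => ?_)) (fun i => Fin.cases ?_ (fun j => ?_))
      · simp [fromBlocks_multiply, fromBlocks_add]
      · simp [fromBlocks_multiply, fromBlocks_add]
      · simp [fromBlocks_multiply, fromBlocks_add]
      · simp [fromBlocks_multiply, fromBlocks_add, h.XY i j]
    · simp [fromBlocks_multiply, h.gg]
    · refine Fin.cases ?_ (fun i => ?_)
      · simp [fromBlocks_multiply, fromBlocks_neg]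
      · simp [fromBlocks_multiply, fromBlocks_neg, h.gX i]
    · refine Fin.cases ?_ (fun i => ?_)
      · simp [fromBlocks_multiply, fromBlocks_neg]
      · simp [fromBlocks_multiply, fromBlocks_neg, h.gY i]

theorem exists_cliff (I : Type) [Fintype I] [DecidableEq I] :
    ∃ (ι : Type) (_ : Fintype ι) (_ : DecidableEq ι) (_ : Nonempty ι)
      (X Y : I → Matrix ι ι ℝ) (γ : Matrix ι ι ℝ), CliffM X Y γ := by
  obtain ⟨ι, i1, i2, i3, X, Y, γ, h⟩ := exists_cliff_fin (Fintype.card I)
  refine ⟨ι, i1, i2, i3, fun i => X (Fintype.equivFin I i), fun i => Y (Fintype.equivFin I i), γ,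
    fun i => h.Xt _, fun i => h.Yt _, h.gt, fun i j => ?_, fun i j => ?_, fun i j => h.XY _ _,
    h.gg, fun i => h.gX _, fun i => h.gY _⟩
  · rw [h.XX]
    simp only [EmbeddingLike.apply_eq_iff_eq]
  · rw [h.YY]
    simp only [EmbeddingLike.apply_eq_iff_eq]

end Pool.Agent.H31.GS
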