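import Pool.Agent.H31.GS.Comb

/-!
# helper31, GS, module COB: the coboundary

`cob_cob`: `∑ v ∈ s, a v (∑ w ∈ s.erase v, a w (y ((s.erase v).erase w)))`; the terms `(v, w)` and `(w, v)` cancel
because `a v (a w _) = - a w (a v _)` for the adjacent `v ≠ w ∈ s` and `(s.erase v).erase w = (s.erase w).erase v`.
Use `map_sum`, `Finset.sum_sigma'` and `Finset.sum_involution` (see `bd_bd` in `Pool/Agent/H37/CD/Bd.lean`).

`cob_anti` / `cob_comm`: `map_sum`, `Finset.sum_congr`.

`cob_insert`: `cob a y (insert v t) = a v (y t) + ∑ u ∈ t, a u (y (insert v (t.erase u)))`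
(`Finset.sum_insert`, `erase_insert`, `(insert v t).erase u = insert v (t.erase u)` for `u ≠ v`).

`cob_mem`: `a v (y (s.erase v))` is killed by `a v` (`aa`) and by `a w`, `w ∈ s.erase v` (`caa` and
`y (s.erase v) ∈ Cell a (s.erase v)`).
-/

namespace Pool.Agent.H31.GS

open Finset

set_option linter.unusedSectionVars false
set_option linter.unusedVariables false

variable {V : Type} [Fintype V] [LinearOrder V] {G : SimpleGraph V}
variable {U : Type} [AddCommGroup U] [Module ℝ U] {a b : V → Module.End ℝ U} {A : Finset V}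

theorem mem_Cell {s : Finset V} {x : U} : x ∈ Cell a s ↔ ∀ v ∈ s, a v x = 0 := Iff.rfl

theorem GSys.mono {A' : Finset V} (h : GSys G A a b) (hA : A' ⊆ A) : GSys G A' a b :=
  ⟨fun v hv => h.aa v (hA hv), fun v hv => h.bb v (hA hv), fun v hv => h.ab v (hA hv),
    fun v hv w hw => h.caa v (hA hv) w (hA hw), fun v hv w hw => h.cab v (hA hv) w (hA hw),
    fun v hv w hw => h.cbb v (hA hv) w (hA hw)⟩

/-- `b v` and `a w` anticommute too, in this order -/
theorem GSys.cba (h : GSys G A a b) {v w : V} (hv : v ∈ A) (hw : w ∈ A) (e : G.Adj v w) (x : U) :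
    b v (a w x) = - a w (b v x) := by
  rw [h.cab w hw v hv e.symm, neg_neg]

theorem Cell_anti {s t : Finset V} (h : s ⊆ t) : Cell a t ≤ Cell a s :=
  fun _ hx v hv => hx v (h hv)

theorem cob_add (y z : Finset V → U) (s : Finset V) :
    cob a (fun t => y t + z t) s = cob a y s + cob a z s := by
  simp only [cob, map_add, sum_add_distrib]

theorem cob_sub (y z : Finset V → U) (s : Finset V) :
    cob a (fun t => y t - z t) s = cob a y s - cob a z s := by
  simp only [cob, map_sub, sum_sub_distrib]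

theorem cob_neg (y : Finset V → U) (s : Finset V) : cob a (fun t => - y t) s = - cob a y s := by
  simp only [cob, map_neg, sum_neg_distrib]

theorem cob_smul (c : ℝ) (y : Finset V → U) (s : Finset V) :
    cob a (fun t => c • y t) s = c • cob a y s := by
  simp only [cob, map_smul, smul_sum]

theorem cob_sum {κ : Type} (S : Finset κ) (y : κ → Finset V → U) (s : Finset V) :
    cob a (fun t => ∑ k ∈ S, y k t) s = ∑ k ∈ S, cob a (y k) s := by
  simp only [cob, map_sum]
  rw [sum_comm]

theorem cob_congr {y z : Finset V → U} {s : Finset V} (h : ∀ v ∈ s, y (s.erase v) = z (s.erase v)) :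
    cob a y s = cob a z s := by
  unfold cob
  exact sum_congr rfl (fun v hv => by rw [h v hv])

/-- operators anticommuting with all `a v`, `v ∈ s` -/
theorem cob_anti {T : Module.End ℝ U} {y : Finset V → U} {s : Finset V}
    (h : ∀ v ∈ s, ∀ x, a v (T x) = - T (a v x)) : cob a (fun t => T (y t)) s = - T (cob a y s) := by
  unfold cob
  rw [map_sum, ← sum_neg_distrib]
  exact sum_congr rfl (fun v hv => h v hv _)

/-- operators commuting with all `a v`, `v ∈ s` -/
theorem cob_comm {T : Module.End ℝ U} {y : Finset V → U} {s : Finset V}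
    (h : ∀ v ∈ s, ∀ x, a v (T x) = T (a v x)) : cob a (fun t => T (y t)) s = T (cob a y s) := by
  unfold cob
  rw [map_sum]
  exact sum_congr rfl (fun v hv => h v hv _)

theorem cob_insert {y : Finset V → U} {v : V} {t : Finset V} (hv : v ∉ t) :
    cob a y (insert v t) = a v (y t) + ∑ u ∈ t, a u (y (insert v (t.erase u))) := by
  unfold cob
  rw [sum_insert hv, erase_insert hv]
  congr 1
  refine sum_congr rfl (fun u hu => ?_)
  have hne : u ≠ v := fun h => hv (h ▸ hu)
  rw [erase_insert_of_ne hne.symm]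

theorem cob_cob (h : GSys G A a b) (y : Finset V → U) {s : Finset V} (hs : Cl G A s) :
    cob a (fun t => cob a y t) s = 0 := by
  unfold cob
  simp only [map_sum]
  rw [Finset.sum_sigma']
  refine Finset.sum_involution (fun x _ => ⟨x.2, x.1⟩) ?_ ?_ ?_ ?_
  · rintro ⟨v, w⟩ hx
    simp only [mem_sigma, mem_erase] at hx ⊢
    obtain ⟨hv, hne, hw⟩ := hx
    rw [Finset.erase_right_comm (a := w) (b := v)]
    rw [h.caa v (hs.1 hv) w (hs.1 hw) (hs.adj hv hw hne.symm), neg_add_cancel]
  · rintro ⟨v, w⟩ hx _ h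
    simp only [mem_sigma, mem_erase] at hx
    simp only [Sigma.mk.injEq] at h
    exact hx.2.1 h.1
  · rintro ⟨v, w⟩ hx
    simp only [mem_sigma, mem_erase] at hx ⊢
    exact ⟨hx.2.2, fun h => hx.2.1 h.symm, hx.1⟩
  · rintro ⟨v, w⟩ hx
    rfl

theorem cob_mem (h : GSys G A a b) {y : Finset V → U} {s : Finset V} (hs : Cl G A s)
    (hy : ∀ v ∈ s, y (s.erase v) ∈ Cell a (s.erase v)) : cob a y s ∈ Cell a s := by
  unfold cob
  refine Submodule.sum_mem _ (fun v hv => ?_)
  intro w hw
  by_cases hwv : w = v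
  · rw [hwv]
    exact h.aa v (hs.1 hv) _
  · rw [h.caa w (hs.1 hw) v (hs.1 hv) (hs.adj hw hv hwv),
      hy v hv w (mem_erase.2 ⟨hwv, hw⟩), map_zero, neg_zero]

/-- a coboundary of a cochain is a cochain -/
theorem Bd.inC (h : GSys G A a b) {i : ℕ} {y : Finset V → U} (hy : Bd G a A i y) :
    InC G a A i y := by
  obtain ⟨x, h1, h2⟩ := hy
  intro s hs hi
  rw [h2 s hs hi]
  refine cob_mem h hs (fun v hv => h1 _ (hs.erase v) ?_)
  rw [card_erase_of_mem hv, hi]
  have : 0 < s.card := card_pos.2 ⟨v, hv⟩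
  omega

/-- a coboundary is closed -/
theorem Bd.clo (h : GSys G A a b) {i : ℕ} {y : Finset V → U} (hy : Bd G a A i y) :
    Clo G a A i y := by
  obtain ⟨x, h1, h2⟩ := hy
  intro s hs hi
  rw [cob_congr (z := fun t => cob a x t) (fun v hv => h2 _ (hs.erase v) (by
    rw [card_erase_of_mem hv, hi]; omega))]
  exact cob_cob h x hs

theorem Bd.add {i : ℕ} {y z : Finset V → U} (hy : Bd G a A i y) (hz : Bd G a A i z) :
    Bd G a A i (fun s => y s + z s) := by
  obtain ⟨x, h1, h2⟩ := hy
  obtain ⟨x', h1', h2'⟩ := hz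
  exact ⟨fun s => x s + x' s, fun s hs hi => Submodule.add_mem _ (h1 s hs hi) (h1' s hs hi),
    fun s hs hi => by rw [cob_add, ← h2 s hs hi, ← h2' s hs hi]⟩

theorem Bd.sub {i : ℕ} {y z : Finset V → U} (hy : Bd G a A i y) (hz : Bd G a A i z) :
    Bd G a A i (fun s => y s - z s) := by
  obtain ⟨x, h1, h2⟩ := hy
  obtain ⟨x', h1', h2'⟩ := hz
  exact ⟨fun s => x s - x' s, fun s hs hi => Submodule.sub_mem _ (h1 s hs hi) (h1' s hs hi),
    fun s hs hi => by rw [cob_sub, ← h2 s hs hi, ← h2' s hs hi]⟩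

theorem Bd.congr {i : ℕ} {y z : Finset V → U} (hy : Bd G a A i y)
    (e : ∀ s, Cl G A s → s.card = i → y s = z s) : Bd G a A i z := by
  obtain ⟨x, h1, h2⟩ := hy
  exact ⟨x, h1, fun s hs hi => by rw [← e s hs hi, h2 s hs hi]⟩

/-- operators which preserve the cells and commute with all `a v`, `v ∈ A`, preserve coboundaries -/
theorem Bd.map_comm {i : ℕ} {y : Finset V → U} (hy : Bd G a A i y) {T : Module.End ℝ U}
    (h : ∀ v ∈ A, ∀ x, a v (T x) = T (a v x)) : Bd G a A i (fun s => T (y s)) := by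
  obtain ⟨x, h1, h2⟩ := hy
  refine ⟨fun s => T (x s), fun s hs hi v hv => ?_, fun s hs hi => ?_⟩
  · rw [h v (hs.1 hv), h1 s hs hi v hv, map_zero]
  · rw [cob_comm (fun v hv => h v (hs.1 hv)), ← h2 s hs hi]

/-- operators which anticommute with all `a v`, `v ∈ A`, preserve coboundaries -/
theorem Bd.map_anti {i : ℕ} {y : Finset V → U} (hy : Bd G a A i y) {T : Module.End ℝ U}
    (h : ∀ v ∈ A, ∀ x, a v (T x) = - T (a v x)) : Bd G a A i (fun s => T (y s)) := by
  obtain ⟨x, h1, h2⟩ := hy
  refine ⟨fun s => - T (x s), fun s hs hi v hv => ?_, fun s hs hi => ?_⟩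
  · rw [map_neg, h v (hs.1 hv), h1 s hs hi v hv, map_zero, neg_zero, neg_zero]
  · rw [cob_neg (fun s => T (x s)), cob_anti (fun v hv => h v (hs.1 hv)), neg_neg, ← h2 s hs hi]

theorem Bd.mono {A' : Finset V} {i : ℕ} {y : Finset V → U} (hy : Bd G a A i y) (h : A' ⊆ A) :
    Bd G a A' i y := by
  obtain ⟨x, h1, h2⟩ := hy
  exact ⟨x, fun s hs hi => h1 s (hs.mono h) hi, fun s hs hi => h2 s (hs.mono h) hi⟩

theorem InC.mono {A' : Finset V} {i : ℕ} {y : Finset V → U} (hy : InC G a A i y) (h : A' ⊆ A) :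
    InC G a A' i y := fun s hs hi => hy s (hs.mono h) hi

theorem Clo.mono {A' : Finset V} {i : ℕ} {y : Finset V → U} (hy : Clo G a A i y) (h : A' ⊆ A) :
    Clo G a A' i y := fun s hs hi => hy s (hs.mono h) hi

/-- values in degree `i` only matter -/
theorem Clo.congr {i : ℕ} {y z : Finset V → U} (hy : Clo G a A i y)
    (e : ∀ s, Cl G A s → s.card = i → y s = z s) : Clo G a A i z := by
  intro s hs hi
  rw [← hy s hs hi]
  refine cob_congr (fun v hv => (e _ (hs.erase v) ?_).symm)
  rw [card_erase_of_mem hv, hi]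
  omega

/-- exactness of the empty complex in positive degrees -/
theorem exC_empty {i : ℕ} (hi : 0 < i) : ExC G a ∅ i := by
  intro y _ _
  refine ⟨fun _ => 0, fun s _ _ => Submodule.zero_mem _, fun s hs hsi => ?_⟩
  have : s = ∅ := subset_empty.1 hs.1
  rw [this, card_empty] at hsi
  omega

end Pool.Agent.H31.GS
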