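import Pool.Agent.H31.GS.Comb1

/-!
# helper31, GS, module COMB2: acyclic complexes and flag spheres

`sphere_lk`: induction on `d` generalizing `A r`: for `r = ∅` use `lk_empty`; for `v ∈ r` use
`lk G A {v}` (a flag sphere of rank `d - 1`), `r.erase v` is a clique of it (`cl_erase`) and `lk_lk`.
(compare `sphere_lk` in `Pool/Agent/H37/CD/Sphere.lean`, same proof; also `sphere_nb` there.)

`acyclic_cone`: let `f` be a cocycle on `D`, `v` adjacent to all other elements of `D`. Put
`h t = if v ∈ t then 0 else sgn v t * f (insert v t)`. For a clique `s` of `D`: if `v ∈ s`, only the term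
`v` of `∑ u ∈ s, sgn u s * h (s.erase u)` is nonzero (`v ∈ s.erase u` for `u ≠ v`) and it is
`sgn v s * sgn v (s.erase v) * f s = f s` (`sgn_erase_self`, `sgn_mul_self`). If `v ∉ s`: the cocycle condition
at `insert v s` reads `sgn v (insert v s) * f s + ∑ u ∈ s, sgn u (insert v s) * f (insert v (s.erase u)) = 0`,
`sgn v (insert v s) = sgn v s`; multiply by `sgn v s`; the claim is then
`sgn u s * sgn v (s.erase u) = - sgn v s * sgn u (insert v s)` for `u ∈ s`, which is `sgn_anti` for the set
`insert v s`, (with `sgn_erase_self`).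

`sphere_nb`: if some `z ∈ s` is not adjacent to `x` then `z ∈ nb G (far G A x) s` and it is adjacent or equal to
all elements of this set: cone. Otherwise `nb G (far G A x) s = far G (lk G A s) x`, `x ∈ lk G A s`, which is a
sphere of rank `d - s.card` (nonzero because nonempty): definition.

`sphere_one`: rank one: all links of vertices are empty, so there are no edges in `A`; `far G A v = A.erase v` is
acyclic. An acyclic `D` is nonempty (`acyclic_nonempty`: for `D = ∅` the cocycle `f = 1` at `∅` is not a
coboundary, as `f ∅` would be the empty sum). If `D` has no edges and two elements `u ≠ w` then `f = 1` on `{u}` and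
`0` elsewhere is a cocycle (no cliques of size `2`, `f ∅ = 0`) and not a coboundary (`f {u} = h ∅ = f {w}`).
-/

namespace Pool.Agent.H31.GS

open Finset

set_option linter.unusedSectionVars false
set_option linter.unusedVariables false

variable {V : Type} [Fintype V] [LinearOrder V] {G : SimpleGraph V}

/-! ### acyclic complexes and spheres -/

theorem acyclic_nonempty {D : Finset V} (h : AcyclicR G D) : D.Nonempty := by
  rw [nonempty_iff_ne_empty]
  rintro rfl
  obtain ⟨g, hg⟩ := h (fun s => if s = ∅ then 1 else 0) (fun s hs => by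
    have h0 : s = ∅ := subset_empty.1 hs.1
    subst h0
    simp)
  have h1 := hg ∅ (cl_empty _)
  simp at h1

theorem acyclic_cone {D : Finset V} {v : V} (hv : v ∈ D) (hc : ∀ x ∈ D, x ≠ v → G.Adj v x) :
    AcyclicR G D := by
  intro f hf
  refine ⟨fun t => if v ∈ t then 0 else sgn v t * f (insert v t), fun s hs => ?_⟩
  show f s = ∑ u ∈ s, sgn u s * (if v ∈ s.erase u then 0 else
    sgn v (s.erase u) * f (insert v (s.erase u)))
  by_cases hvs : v ∈ s
  · rw [sum_eq_single v]
    · rw [if_neg (notMem_erase v s), insert_erase hvs, sgn_erase_self, ← mul_assoc, sgn_mul_self,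
        one_mul]
    · intro u hu huv
      rw [if_pos (mem_erase.2 ⟨huv.symm, hvs⟩), mul_zero]
    · intro h
      exact absurd hvs h
  · have hcl : Cl G D (insert v s) := by
      refine ⟨insert_subset hv hs.1, ?_⟩
      rw [coe_insert, SimpleGraph.isClique_insert]
      exact ⟨hs.2, fun x hx _ => hc x (hs.1 hx) (fun h => hvs (h ▸ hx))⟩
    have h1 := hf (insert v s) hcl
    rw [sum_insert hvs, erase_insert hvs] at h1
    have hins : ∀ t : Finset V, v ∉ t → sgn v (insert v t) = sgn v t := by
      intro t ht
      have h3 := sgn_erase_self v (insert v t)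
      rw [erase_insert ht] at h3
      exact h3.symm
    rw [hins s hvs] at h1
    have h4 : ∑ u ∈ s, sgn u s * (if v ∈ s.erase u then 0 else
        sgn v (s.erase u) * f (insert v (s.erase u))) =
        - (sgn v s * ∑ u ∈ s, sgn u (insert v s) * f ((insert v s).erase u)) := by
      rw [mul_sum, ← sum_neg_distrib]
      refine sum_congr rfl fun u hu => ?_
      have huv : u ≠ v := fun h => hvs (h ▸ hu)
      have hve : v ∉ s.erase u := fun h => hvs (mem_of_mem_erase h)
      rw [if_neg hve, erase_insert_of_ne huv.symm]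
      have h5 := sgn_anti (mem_insert_self v s) (mem_insert_of_mem hu) huv.symm
      rw [erase_insert hvs, erase_insert_of_ne huv.symm, hins s hvs, hins _ hve] at h5
      have h6 := sgn_mul_self v s
      have h7 := sgn_mul_self v (s.erase u)
      have h8 : sgn u s * sgn v (s.erase u) = - (sgn v s * sgn u (insert v s)) := by
        have h9 : sgn v s * (sgn v s * sgn u s) * sgn v (s.erase u) =
            sgn v s * (-(sgn u (insert v s) * sgn v (s.erase u))) * sgn v (s.erase u) := by
          rw [h5]
        have h10 : sgn v s * (sgn v s * sgn u s) * sgn v (s.erase u) =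
            (sgn v s * sgn v s) * (sgn u s * sgn v (s.erase u)) := by ring
        have h11 : sgn v s * (-(sgn u (insert v s) * sgn v (s.erase u))) * sgn v (s.erase u) =
            - (sgn v s * sgn u (insert v s)) * (sgn v (s.erase u) * sgn v (s.erase u)) := by ring
        rw [h10, h11, h6, h7, one_mul, mul_one] at h9
        exact h9
      rw [← mul_assoc, h8]
      ring
    rw [h4]
    have h12 : ∑ u ∈ s, sgn u (insert v s) * f ((insert v s).erase u) = - (sgn v s * f s) := by
      linarith
    rw [h12]
    have h6 := sgn_mul_self v s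
    calc f s = (sgn v s * sgn v s) * f s := by rw [h6, one_mul]
      _ = _ := by ring

theorem sphere_lk {d : ℕ} {A : Finset V} (hA : FlagSphere G d A) {r : Finset V} (hr : Cl G A r) :
    r.card ≤ d ∧ FlagSphere G (d - r.card) (lk G A r) := by
  induction d generalizing A r with
  | zero =>
    have hA0 : A = ∅ := hA
    subst hA0
    have hr0 : r = ∅ := subset_empty.1 hr.1
    subst hr0
    rw [lk_empty]
    exact ⟨le_rfl, rfl⟩
  | succ d ih =>
    rcases r.eq_empty_or_nonempty with rfl | ⟨v, hv⟩
    · rw [lk_empty]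
      exact ⟨Nat.zero_le _, hA⟩
    · have h1 := (hA.2 v (hr.1 hv)).1
      obtain ⟨h4, h5⟩ := ih h1 (cl_erase hr hv)
      have h6 : (r.erase v).card = r.card - 1 := card_erase_of_mem hv
      have h7 : 0 < r.card := card_pos.2 ⟨v, hv⟩
      rw [lk_lk] at h5
      have h8 : {v} ∪ r.erase v = r := by
        rw [← insert_eq, insert_erase hv]
      rw [h8] at h5
      refine ⟨by omega, ?_⟩
      have h9 : d + 1 - r.card = d - (r.erase v).card := by omega
      rw [h9]
      exact h5

theorem comb2_clique {d : ℕ} {A : Finset V} (hA : FlagSphere G d A) :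
    ∃ σ, Cl G A σ ∧ σ.card = d := by
  induction d generalizing A with
  | zero => exact ⟨∅, cl_empty A, rfl⟩
  | succ d ih =>
    obtain ⟨v, hv⟩ := hA.1
    obtain ⟨σ, h1, h3⟩ := ih (hA.2 v hv).1
    obtain ⟨h4, h5⟩ := cl_insert hv h1
    exact ⟨insert v σ, h4, by rw [card_insert_of_notMem h5, h3]⟩

theorem sphere_nonempty {d : ℕ} {A : Finset V} (hA : FlagSphere G d A) (hd : 0 < d) : A.Nonempty := by
  cases d with
  | zero => exact absurd hd (lt_irrefl _)
  | succ d => exact hA.1

theorem sphere_far {d : ℕ} {A : Finset V} (hA : FlagSphere G d A) {x : V} (hx : x ∈ A) :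
    AcyclicR G (far G A x) := by
  cases d with
  | zero =>
    have h : A = ∅ := hA
    rw [h] at hx
    exact absurd hx (notMem_empty x)
  | succ d => exact (hA.2 x hx).2

theorem sphere_nb {d : ℕ} {A : Finset V} (hA : FlagSphere G d A) {x : V} (hx : x ∈ A)
    {s : Finset V} (hs : Cl G A s) (hxs : x ∉ s) : AcyclicR G (nb G (far G A x) s) := by
  by_cases h : ∃ z ∈ s, ¬ G.Adj x z
  · obtain ⟨z, hz, hvz⟩ := h
    refine acyclic_cone (v := z) ?_ ?_
    · rw [mem_nb, mem_far]
      refine ⟨⟨hs.1 hz, fun h => hxs (h ▸ hz), hvz⟩, fun w hw => ?_⟩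
      by_cases hwz : z = w
      · exact Or.inl hwz
      · exact Or.inr (hs.adj hw hz (Ne.symm hwz))
    · intro y hy hyz
      exact ((mem_nb.1 hy).2 z hz).resolve_left hyz
  · push Not at h
    have e : nb G (far G A x) s = far G (lk G A s) x := by
      ext y
      rw [mem_nb, mem_far, mem_far, mem_lk]
      constructor
      · rintro ⟨⟨h1, h2, h3⟩, h4⟩
        refine ⟨⟨h1, fun z hz => (h4 z hz).resolve_left ?_⟩, h2, h3⟩
        rintro rfl
        exact h3 (h y hz)
      · rintro ⟨⟨h1, h4⟩, h2, h3⟩
        exact ⟨⟨h1, h2, h3⟩, fun z hz => Or.inr (h4 z hz)⟩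
    rw [e]
    obtain ⟨-, h2⟩ := sphere_lk hA hs
    have hvl : x ∈ lk G A s := mem_lk.2 ⟨hx, fun z hz => (h z hz).symm⟩
    exact sphere_far h2 hvl

theorem sphere_one {A : Finset V} (hA : FlagSphere G 1 A) :
    ∃ u w, u ≠ w ∧ ¬ G.Adj u w ∧ A = {u, w} := by
  have hno : ∀ u ∈ A, ∀ w ∈ A, ¬ G.Adj u w := by
    intro u hu w hw huw
    have h1 : lk G A {u} = ∅ := (hA.2 u hu).1
    have h2 : w ∈ lk G A {u} := mem_lk_singleton.2 ⟨hw, huw⟩
    rw [h1] at h2
    exact notMem_empty w h2
  obtain ⟨u, hu⟩ := hA.1
  have hac := (hA.2 u hu).2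
  obtain ⟨w, hw⟩ := acyclic_nonempty hac
  have hwf := mem_far.1 hw
  refine ⟨u, w, hwf.2.1.symm, hwf.2.2, ?_⟩
  have hs1 : ∀ x : V, sgn x {x} = 1 := by
    intro x
    unfold sgn
    have h0 : ({x} : Finset V).filter (fun u => u < x) = ∅ := by
      rw [filter_eq_empty_iff]
      intro y hy
      rw [mem_singleton.1 hy]
      exact lt_irrefl x
    rw [h0, card_empty, pow_zero]
  have huniq : ∀ z ∈ far G A u, z = w := by
    intro z hz
    by_contra hzw
    obtain ⟨g, hg⟩ := hac (fun t => if t = {w} then 1 else 0) (fun s hs => by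
      refine sum_eq_zero fun y hy => ?_
      by_cases h1 : s.erase y = {w}
      · exfalso
        have hws : w ∈ s.erase y := by rw [h1]; exact mem_singleton_self w
        have h2 := mem_erase.1 hws
        exact hno y (far_subset _ _ (hs.1 hy)) w hwf.1 (hs.adj hy h2.2 h2.1.symm)
      · simp only [h1, if_false, mul_zero])
    have h3 := hg {w} (cl_singleton hw)
    have h4 := hg {z} (cl_singleton hz)
    have hne : ({z} : Finset V) ≠ {w} := fun h => hzw (singleton_injective h)
    simp only [if_true, sum_singleton, hs1, one_mul, erase_singleton] at h3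
    simp only [hne, if_false, sum_singleton, hs1, one_mul, erase_singleton] at h4
    rw [← h4] at h3
    exact one_ne_zero h3
  ext x
  rw [mem_insert, mem_singleton]
  constructor
  · intro hx
    by_cases hxu : x = u
    · exact Or.inl hxu
    · exact Or.inr (huniq x (mem_far.2 ⟨hx, hxu, hno u hu x hx⟩))
  · rintro (rfl | rfl)
    · exact hu
    · exact hwf.1

/-- in a sphere of rank `d` every simplex is contained in a simplex with `d` elements -/
theorem sphere_facet {d : ℕ} {A : Finset V} (hA : FlagSphere G d A) {r : Finset V} (hr : Cl G A r) :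
    ∃ F, Cl G A F ∧ F.card = d ∧ r ⊆ F := by
  obtain ⟨h1, h2⟩ := sphere_lk hA hr
  obtain ⟨σ, h3, h4⟩ := comb2_clique h2
  obtain ⟨h5, h6⟩ := cl_union hr h3
  refine ⟨r ∪ σ, h5, ?_, subset_union_left⟩
  rw [card_union_of_disjoint h6, h4]
  omega

end Pool.Agent.H31.GS
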