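import Pool.Agent.H31.GS.Comb1
import Pool.Agent.H31.GS.Comb2

/-!
# helper31, GS, module COMB: links, cliques, acyclic complexes and flag spheres (COMB1 and COMB2)
-/
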