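import Pool.Agent.H31.GS.Basic

/-!
# helper31, GS, module COMB1: combinatorics of links and cliques

Most statements are immediate from the definitions (`simp [lk, far, nb]`, `SimpleGraph.isClique_insert`,
`SimpleGraph.IsClique.subset`).

`sgn_anti`: both `sgn v s` and `sgn w s` change sign when the SMALLER of `v`, `w` is erased, otherwise not: for `v < w`:
`sgn w (s.erase v) = - sgn w s` and `sgn v (s.erase w) = sgn v s`.
`sgn_dd`: the terms `(v, w)` and `(w, v)` cancel by `sgn_anti` (`Finset.smul_sum`, `Finset.sum_sigma'`,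
`Finset.sum_involution`).
-/

namespace Pool.Agent.H31.GS

open Finset

set_option linter.unusedSectionVars false
set_option linter.unusedVariables false

variable {V : Type} [Fintype V] [LinearOrder V] {G : SimpleGraph V}

theorem mem_lk {A r : Finset V} {x : V} : x ∈ lk G A r ↔ x ∈ A ∧ ∀ v ∈ r, G.Adj v x := by
  simp [lk]

theorem mem_lk_singleton {A : Finset V} {v x : V} : x ∈ lk G A {v} ↔ x ∈ A ∧ G.Adj v x := by
  simp [lk]

theorem mem_far {A : Finset V} {v x : V} : x ∈ far G A v ↔ x ∈ A ∧ x ≠ v ∧ ¬ G.Adj v x := by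
  simp [far]

theorem mem_nb {D s : Finset V} {x : V} : x ∈ nb G D s ↔ x ∈ D ∧ ∀ v ∈ s, x = v ∨ G.Adj v x := by
  simp [nb]

theorem lk_empty (A : Finset V) : lk G A ∅ = A := by
  ext x; simp [mem_lk]

theorem lk_lk (A r s : Finset V) : lk G (lk G A r) s = lk G A (r ∪ s) := by
  ext x
  simp only [mem_lk, mem_union]
  constructor
  · rintro ⟨⟨h1, h2⟩, h3⟩
    exact ⟨h1, fun v hv => hv.elim (h2 v) (h3 v)⟩
  · rintro ⟨h1, h2⟩
    exact ⟨⟨h1, fun v hv => h2 v (Or.inl hv)⟩, fun v hv => h2 v (Or.inr hv)⟩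

theorem lk_subset (A r : Finset V) : lk G A r ⊆ A := fun _ hx => (mem_lk.1 hx).1

theorem far_subset (A : Finset V) (v : V) : far G A v ⊆ A := fun _ hx => (mem_far.1 hx).1

/-- links in subsets -/
theorem lk_mono {A A' : Finset V} (h : A ⊆ A') (r : Finset V) : lk G A r ⊆ lk G A' r :=
  fun _ hx => mem_lk.2 ⟨h (mem_lk.1 hx).1, (mem_lk.1 hx).2⟩

theorem cl_empty (A : Finset V) : Cl G A ∅ := ⟨empty_subset _, by simp⟩

theorem Cl.mono {A A' s : Finset V} (hs : Cl G A s) (h : A ⊆ A') : Cl G A' s := ⟨hs.1.trans h, hs.2⟩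

theorem Cl.subset {A s t : Finset V} (hs : Cl G A s) (h : t ⊆ s) : Cl G A t :=
  ⟨h.trans hs.1, hs.2.subset (by exact_mod_cast h)⟩

theorem Cl.erase {A s : Finset V} (hs : Cl G A s) (v : V) : Cl G A (s.erase v) :=
  hs.subset (erase_subset _ _)

theorem Cl.adj {A s : Finset V} (hs : Cl G A s) {v w : V} (hv : v ∈ s) (hw : w ∈ s) (h : v ≠ w) :
    G.Adj v w := hs.2 (mem_coe.2 hv) (mem_coe.2 hw) h

theorem cl_singleton {A : Finset V} {v : V} (hv : v ∈ A) : Cl G A {v} :=
  ⟨singleton_subset_iff.2 hv, by simp⟩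

/-- a simplex of `A` avoiding `v` is a simplex of `A.erase v` -/
theorem Cl.of_erase_set {A s : Finset V} {v : V} (hs : Cl G A s) (hv : v ∉ s) : Cl G (A.erase v) s :=
  ⟨fun x hx => mem_erase.2 ⟨fun h => hv (h ▸ hx), hs.1 hx⟩, hs.2⟩

theorem comb1_cl_iff {A s : Finset V} :
    Cl G A s ↔ s ⊆ A ∧ ∀ x ∈ s, ∀ y ∈ s, x ≠ y → G.Adj x y := by
  constructor
  · exact fun h => ⟨h.1, fun x hx y hy hxy => h.adj hx hy hxy⟩
  · exact fun h => ⟨h.1, fun x hx y hy hxy => h.2 x (mem_coe.1 hx) y (mem_coe.1 hy) hxy⟩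

theorem cl_union {A r s : Finset V} (hr : Cl G A r) (hs : Cl G (lk G A r) s) :
    Cl G A (r ∪ s) ∧ Disjoint r s := by
  constructor
  · rw [comb1_cl_iff]
    refine ⟨union_subset hr.1 (hs.1.trans (lk_subset A r)), ?_⟩
    intro x hx y hy hxy
    rcases mem_union.1 hx with hx | hx <;> rcases mem_union.1 hy with hy | hy
    · exact hr.adj hx hy hxy
    · exact (mem_lk.1 (hs.1 hy)).2 x hx
    · exact ((mem_lk.1 (hs.1 hx)).2 y hy).symm
    · exact hs.adj hx hy hxy
  · rw [disjoint_left]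
    intro x hx hx'
    exact G.loopless.irrefl x ((mem_lk.1 (hs.1 hx')).2 x hx)

theorem cl_insert {A s : Finset V} {v : V} (hv : v ∈ A) (hs : Cl G (lk G A {v}) s) :
    Cl G A (insert v s) ∧ v ∉ s := by
  have h := cl_union (cl_singleton hv) hs
  refine ⟨by rw [insert_eq]; exact h.1, fun hvs => ?_⟩
  exact disjoint_left.1 h.2 (mem_singleton_self v) hvs

theorem cl_sdiff {A F r : Finset V} (hF : Cl G A F) (hr : r ⊆ F) : Cl G (lk G A r) (F \ r) := by
  rw [comb1_cl_iff]
  constructor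
  · intro x hx
    rw [mem_sdiff] at hx
    refine mem_lk.2 ⟨hF.1 hx.1, fun v hv => hF.adj (hr hv) hx.1 ?_⟩
    rintro rfl
    exact hx.2 hv
  · intro x hx y hy hxy
    exact hF.adj (mem_sdiff.1 hx).1 (mem_sdiff.1 hy).1 hxy

theorem cl_erase {A s : Finset V} {v : V} (hs : Cl G A s) (hv : v ∈ s) :
    Cl G (lk G A {v}) (s.erase v) := by
  rw [erase_eq]
  exact cl_sdiff hs (singleton_subset_iff.2 hv)

/-- `insert v r` is a simplex for `v` in the link of `r` -/
theorem cl_insert_lk {A r : Finset V} {v : V} (hr : Cl G A r) (hv : v ∈ lk G A r) :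
    Cl G A (insert v r) ∧ v ∉ r := by
  have h := cl_union hr (cl_singleton hv)
  refine ⟨by rw [insert_eq, union_comm]; exact h.1, fun hvr => ?_⟩
  exact disjoint_left.1 h.2 hvr (mem_singleton_self v)

/-- simplices of the star of `r` -/
theorem cl_star {L r s : Finset V} (hr : Cl G L r) :
    Cl G (r ∪ lk G L r) s ↔ Cl G L (r ∪ s) := by
  constructor
  · intro hs
    rw [comb1_cl_iff]
    refine ⟨union_subset hr.1 (hs.1.trans (union_subset hr.1 (lk_subset L r))), ?_⟩
    have key : ∀ x ∈ r, ∀ y ∈ s, x ≠ y → G.Adj x y := by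
      intro x hx y hy hxy
      rcases mem_union.1 (hs.1 hy) with hy' | hy'
      · exact hr.adj hx hy' hxy
      · exact (mem_lk.1 hy').2 x hx
    intro x hx y hy hxy
    rcases mem_union.1 hx with hx | hx <;> rcases mem_union.1 hy with hy | hy
    · exact hr.adj hx hy hxy
    · exact key x hx y hy hxy
    · exact (key y hy x hx hxy.symm).symm
    · exact hs.adj hx hy hxy
  · intro hs
    rw [comb1_cl_iff]
    refine ⟨fun x hx => ?_, fun x hx y hy hxy =>
      hs.adj (mem_union_right _ hx) (mem_union_right _ hy) hxy⟩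
    by_cases hxr : x ∈ r
    · exact mem_union_left _ hxr
    · refine mem_union_right _ (mem_lk.2 ⟨hs.1 (mem_union_right _ hx), fun v hv => ?_⟩)
      refine hs.adj (mem_union_left _ hv) (mem_union_right _ hx) ?_
      rintro rfl
      exact hxr hv

/-- simplices of `nb G D s` for a simplex `s` of `L` and `D ⊆ L` -/
theorem cl_nb {L D r s : Finset V} (hD : D ⊆ L) (hs : Cl G L s) :
    Cl G (nb G D s) r ↔ r ⊆ D ∧ Cl G L (r ∪ s) := by
  constructor
  · intro hr
    have hrD : r ⊆ D := fun x hx => (mem_nb.1 (hr.1 hx)).1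
    refine ⟨hrD, ?_⟩
    rw [comb1_cl_iff]
    refine ⟨union_subset (hrD.trans hD) hs.1, ?_⟩
    have key : ∀ x ∈ r, ∀ y ∈ s, x ≠ y → G.Adj y x := by
      intro x hx y hy hxy
      exact ((mem_nb.1 (hr.1 hx)).2 y hy).resolve_left hxy
    intro x hx y hy hxy
    rcases mem_union.1 hx with hx | hx <;> rcases mem_union.1 hy with hy | hy
    · exact hr.adj hx hy hxy
    · exact (key x hx y hy hxy).symm
    · exact key y hy x hx hxy.symm
    · exact hs.adj hx hy hxy
  · rintro ⟨hrD, hc⟩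
    rw [comb1_cl_iff]
    refine ⟨fun x hx => mem_nb.2 ⟨hrD hx, fun v hv => ?_⟩, fun x hx y hy hxy =>
      hc.adj (mem_union_left _ hx) (mem_union_left _ hy) hxy⟩
    by_cases hxv : x = v
    · exact Or.inl hxv
    · exact Or.inr (hc.adj (mem_union_right _ hv) (mem_union_left _ hx) (fun h => hxv h.symm))

/-- the link of `insert v r` is the link of `v` in the link of `r` -/
theorem lk_insert {A r : Finset V} (v : V) : lk G A (insert v r) = lk G (lk G A r) {v} := by
  rw [lk_lk, union_comm, insert_eq]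

/-! ### signs -/

theorem sgn_mul_self (v : V) (s : Finset V) : sgn v s * sgn v s = 1 := by
  unfold sgn
  rw [← mul_pow]
  norm_num

theorem comb1_sgn_erase_of_not_lt {v w : V} (h : ¬ w < v) (s : Finset V) :
    sgn v (s.erase w) = sgn v s := by
  unfold sgn
  have e : (s.erase w).filter (fun u => u < v) = s.filter (fun u => u < v) := by
    ext x
    simp only [mem_filter, mem_erase]
    constructor
    · rintro ⟨⟨-, h1⟩, h2⟩
      exact ⟨h1, h2⟩
    · rintro ⟨h1, h2⟩
      refine ⟨⟨?_, h1⟩, h2⟩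
      rintro rfl
      exact h h2
  rw [e]

theorem comb1_sgn_erase_of_lt {s : Finset V} {v w : V} (hw : w ∈ s) (h : w < v) :
    sgn v (s.erase w) = - sgn v s := by
  unfold sgn
  have e : (s.erase w).filter (fun u => u < v) = (s.filter (fun u => u < v)).erase w := by
    ext x
    simp only [mem_filter, mem_erase]
    tauto
  have hm : w ∈ s.filter (fun u => u < v) := mem_filter.2 ⟨hw, h⟩
  rw [e, ← card_erase_add_one hm, pow_succ]
  ring

theorem sgn_erase_self (v : V) (s : Finset V) : sgn v (s.erase v) = sgn v s :=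
  comb1_sgn_erase_of_not_lt (lt_irrefl v) s

theorem sgn_anti {s : Finset V} {v w : V} (hv : v ∈ s) (hw : w ∈ s) (h : v ≠ w) :
    sgn v s * sgn w (s.erase v) = - (sgn w s * sgn v (s.erase w)) := by
  rcases lt_or_gt_of_ne h with hvw | hvw
  · rw [comb1_sgn_erase_of_lt hv hvw, comb1_sgn_erase_of_not_lt (not_lt_of_gt hvw)]
    ring
  · rw [comb1_sgn_erase_of_lt hw hvw, comb1_sgn_erase_of_not_lt (not_lt_of_gt hvw)]
    ring

/-- the signed coboundary has square zero -/
theorem sgn_dd {U : Type} [AddCommGroup U] [Module ℝ U] (h : Finset V → U) (s : Finset V) :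
    ∑ v ∈ s, sgn v s • (∑ w ∈ s.erase v, sgn w (s.erase v) • h ((s.erase v).erase w)) = 0 := by
  classical
  have e : ∀ v ∈ s, sgn v s • (∑ w ∈ s.erase v, sgn w (s.erase v) • h ((s.erase v).erase w)) =
      ∑ w ∈ s, if v = w then 0 else (sgn v s * sgn w (s.erase v)) • h ((s.erase v).erase w) := by
    intro v hv
    rw [smul_sum, ← add_sum_erase s _ hv, if_pos rfl, zero_add]
    refine sum_congr rfl fun w hw => ?_
    rw [if_neg (ne_of_mem_erase hw).symm, smul_smul]
  rw [sum_congr rfl e]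
  have anti : (∑ v ∈ s, ∑ w ∈ s,
      if v = w then 0 else (sgn v s * sgn w (s.erase v)) • h ((s.erase v).erase w)) =
      - ∑ v ∈ s, ∑ w ∈ s,
      if v = w then 0 else (sgn v s * sgn w (s.erase v)) • h ((s.erase v).erase w) := by
    conv_lhs => rw [sum_comm]
    rw [← sum_neg_distrib]
    refine sum_congr rfl fun v hv => ?_
    rw [← sum_neg_distrib]
    refine sum_congr rfl fun w hw => ?_
    by_cases hvw : v = w
    · rw [if_pos hvw, if_pos hvw.symm, neg_zero]
    · rw [if_neg hvw, if_neg (fun h => hvw h.symm), ← neg_smul, sgn_anti hv hw hvw, neg_neg,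
        erase_right_comm]
  have h2 := add_eq_zero_iff_eq_neg.2 anti
  rw [← two_smul ℝ] at h2
  exact (smul_eq_zero.1 h2).resolve_left two_ne_zero

end Pool.Agent.H31.GS
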