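import Pool.Agent.H31.GS.Rules

/-!
# helper31, GS, module ZIGFIN: the last step of the zigzag

`hcV`: `y s = cob a W s` for every simplex `s` with `m` elements which has a common neighbour-or-equal in
`far G L x`. For a simplex `s` of `L` with `m` elements, `x ∉ s`: `nb G (far G L x) s` is acyclic (`hRE`), so nonempty
(`acyclic_nonempty`); an element `v` of it satisfies `Cl G L (insert v s)` (`cl_nb` for `r = {v}`), so `y s = cob a W s`.
If `m = 0`: done (`s = ∅` does not contain `x`): `Bd` with `W`. If `m = k + 1`: let
`z t = y (insert x t) - cob a W (insert x t)` for `t` a simplex of `lk G L {x}`, degree `k`: in `Cell a (insert x t)`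
(`cob_mem`), closed: for `t.card = k + 1`, with `y' = y - cob a W` (closed on `L`, zero on simplices without `x`):
`0 = cob a y' (insert x t) = a x (y' t) + ∑ u ∈ t, a u (y' (insert x (t.erase u))) = 0 + cob a z t`.
By `ExC G a (lk G L {x}) k` and `lk_val` (module RULES), `z = cob a x'` with `a x (x' t) = 0`. Then `y = cob a (W + x'')` with
`x'' s = if x ∈ s then x' (s.erase x) else 0`: for `x ∉ s` all terms of `cob a x'' s` are zero; for `s = insert x t`:
`cob a x'' s = a x 0 + ∑ u ∈ t, a u (x' (t.erase u)) = z t`.
-/

namespace Pool.Agent.H31.GS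

open Finset

set_option linter.unusedSectionVars false
set_option linter.unusedVariables false

variable {V : Type} [Fintype V] [LinearOrder V] {G : SimpleGraph V}
variable {U : Type} [AddCommGroup U] [Module ℝ U] [FiniteDimensional ℝ U]
variable {a b : V → Module.End ℝ U}

theorem zigFin {L : Finset V} (h : GSys G L a b) {x : V} (hx : x ∈ L)
    (hRE : ∀ s, Cl G L s → x ∉ s → AcyclicR G (nb G (far G L x) s)) {m : ℕ}
    {y W : Finset V → U} (hy : InC G a L m y) (hcl : Clo G a L m y)
    (hW : ∀ s, Cl G L s → s.card + 1 = m → W s ∈ Cell a s)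
    (hcV : ∀ v s, v ∈ far G L x → Cl G L (insert v s) → s.card = m → y s = cob a W s)
    (hlk : ∀ k, m = k + 1 → ExC G a (lk G L {x}) k) : Bd G a L m y := by
  classical
  have hno : ∀ s, Cl G L s → x ∉ s → s.card = m → y s = cob a W s := by
    intro s hs hxs hm
    obtain ⟨v, hv⟩ := acyclic_nonempty (hRE s hs hxs)
    have h1 := (cl_nb (r := {v}) (far_subset L x) hs).1 (cl_singleton hv)
    have hvf : v ∈ far G L x := (mem_nb.1 hv).1
    refine hcV v s hvf ?_ hm
    rw [insert_eq]
    exact h1.2
  rcases Nat.eq_zero_or_pos m with hm0 | hmpos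
  · subst hm0
    refine ⟨W, hW, fun s hs hs0 => ?_⟩
    refine hno s hs ?_ hs0
    rw [card_eq_zero.1 hs0]
    exact notMem_empty x
  · obtain ⟨k, rfl⟩ : ∃ k, m = k + 1 := ⟨m - 1, by omega⟩
    have hcobW : ∀ s, Cl G L s → s.card = k + 1 → cob a W s ∈ Cell a s := by
      intro s hs hc
      refine cob_mem h hs (fun v hv => hW _ (hs.erase v) ?_)
      rw [card_erase_of_mem hv, hc]
      rfl
    have hcell : ∀ t, Cl G (lk G L {x}) t → t.card = k →
        y (insert x t) - cob a W (insert x t) ∈ Cell a (insert x t) := by
      intro t ht hc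
      obtain ⟨h1, h2⟩ := cl_insert hx ht
      have h3 : (insert x t).card = k + 1 := by rw [card_insert_of_notMem h2, hc]
      exact Submodule.sub_mem _ (hy _ h1 h3) (hcobW _ h1 h3)
    have hclo : ∀ t, Cl G (lk G L {x}) t → t.card = k + 1 →
        cob a (fun t => y (insert x t) - cob a W (insert x t)) t = 0 := by
      intro t ht hc
      obtain ⟨h1, h2⟩ := cl_insert hx ht
      have h3 : (insert x t).card = k + 1 + 1 := by rw [card_insert_of_notMem h2, hc]
      have h4 : cob a (fun s => y s - cob a W s) (insert x t) = 0 := by
        rw [cob_sub, hcl _ h1 h3, cob_cob h W h1, sub_zero]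
      rw [cob_insert h2, hno t (ht.mono (lk_subset L {x})) h2 hc, sub_self, map_zero, zero_add] at h4
      exact h4
    have hBd : Bd G a (lk G L {x}) k (fun t => y (insert x t) - cob a W (insert x t)) := by
      refine hlk k rfl _ ?_ hclo
      intro t ht hc
      exact Cell_anti (subset_insert x t) (hcell t ht hc)
    obtain ⟨x', hx1, hx2, hx3⟩ := lk_val h hx hBd
      (fun s hs hc => hcell s hs hc x (mem_insert_self x s))
    refine ⟨fun s => W s + (if x ∈ s then x' (s.erase x) else 0), ?_, ?_⟩
    · intro s hs hc
      refine Submodule.add_mem _ (hW s hs hc) ?_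
      by_cases hxs : x ∈ s
      · rw [if_pos hxs]
        intro v hv
        by_cases hvx : v = x
        · rw [hvx]; exact hx2 _
        · refine hx1 _ (cl_erase hs hxs) ?_ v (mem_erase.2 ⟨hvx, hv⟩)
          rw [card_erase_of_mem hxs]
          have : 0 < s.card := card_pos.2 ⟨x, hxs⟩
          omega
      · rw [if_neg hxs]
        exact Submodule.zero_mem _
    · intro s hs hc
      rw [cob_add]
      by_cases hxs : x ∈ s
      · have ht : Cl G (lk G L {x}) (s.erase x) := cl_erase hs hxs
        have htc : (s.erase x).card = k := by rw [card_erase_of_mem hxs, hc]; rfl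
        have hins : insert x (s.erase x) = s := insert_erase hxs
        have hxe : x ∉ s.erase x := notMem_erase x s
        have h5 := hx3 _ ht htc
        rw [hins] at h5
        have h6 : cob a (fun s => if x ∈ s then x' (s.erase x) else 0) (insert x (s.erase x)) =
            cob a x' (s.erase x) := by
          rw [cob_insert hxe, if_neg hxe, map_zero, zero_add]
          unfold cob
          refine sum_congr rfl (fun u hu => ?_)
          have hxu : x ∉ (s.erase x).erase u := fun hh => hxe (mem_of_mem_erase hh)
          rw [if_pos (mem_insert_self _ _), erase_insert hxu]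
        rw [hins] at h6
        rw [h6, ← h5]
        abel
      · have h7 : cob a (fun s => if x ∈ s then x' (s.erase x) else 0) s = 0 := by
          unfold cob
          refine sum_eq_zero (fun u hu => ?_)
          have hxu : x ∉ s.erase u := fun hh => hxs (mem_of_mem_erase hh)
          have h8 : (fun s : Finset V => if x ∈ s then x' (s.erase x) else 0) (s.erase u) = 0 :=
            if_neg hxu
          rw [h8, map_zero]
        rw [h7, add_zero]
        exact hno s hs hxs hc

end Pool.Agent.H31.GS
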