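import Pool.Agent.H31.GS.ZigQ
import Pool.Agent.H31.GS.ZigFin

/-!
# helper31, GS, module ZIG: three consequences of the zigzag

In all three: start with `Y0 r s = y s` (only `r = ∅` matters).

`zig0`: `zigQ` with `p = 0`, `i = m`, `Y = Y0` (the hypothesis `hc` is `Clo`: `r = {v}`, and `s` is a simplex of `L`), get
`W`; for `r = {v}` the conclusion is `y s = cob a (W ∅) s`; `zigFin`.

`zig1`: (`m = k + 1`; for `m = 0` any `v` in the nonempty `far G L x` shows `y ∅ = 0`, `Bd` in degree `0` says so, and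
the claim follows.) For `v ∈ far G L x` choose by `star_clique` (with `r = {v}`) a cochain `Z v` of degree `k` on
`{v} ∪ lk G L {v}` with `y = cob a (Z v)` there; `Y1 {v} s = Z v s`. `zigQ` with `p = 1`, `i = k`, `Y = Y1`: hypothesis `hc`
for `r = {v, w}`: both `cob a (Z v) s` and `cob a (Z w) s` are `y s` and the signs `sgn v r`, `sgn w r` are opposite
(or use `sgn_dd` for the function `Y0`). Then `zigDL` with `p = 0`, `i = k`, `Y = Y0`, `Y' = Y1` (`sgn v {v} = 1`), then
`zigFin`.

`zig2`: `m = k + 1`, `Z v` given. If `k = 0`: `Z v ∅ - Z w ∅ = 0` for adjacent `v`, `w` in `far` (`Bd` in degree `0`), so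
`d Y1 = 0` on `r.card = 2`, `s.card = 0`, i.e. `zigDL` applies directly with `W' = 0`. If `k = l + 1`: for adjacent
`v, w ∈ far G L x`, `r = {v, w}`, `y_r s = ∑ u ∈ r, sgn u r • Y1 (r.erase u) s` is `± (Z v s - Z w s)`, a closed cochain of
degree `k` on `r ∪ lk G L r`, `Bd` on `lk G L r`, so by `star_clique` `y_r = cob a (Y2 r)`, `Y2` of bidegree `(2, l)`.
`zigQ` with `p = 2`, `i = l`, `Y = Y2` (`hc` by `sgn_dd`); `zigDL` with `(p, i) = (1, l)`, `Y = Y1`, `Y' = Y2`; `zigDL` with
`(p, i) = (0, k)`, `Y = Y0`, `Y' = Y1`; `zigFin`.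
-/

namespace Pool.Agent.H31.GS

open Finset

set_option linter.unusedSectionVars false
set_option linter.unusedVariables false

variable {V : Type} [Fintype V] [LinearOrder V] {G : SimpleGraph V}
variable {U : Type} [AddCommGroup U] [Module ℝ U] [FiniteDimensional ℝ U]
variable {a b : V → Module.End ℝ U}

theorem zig_sgn_one (v : V) : sgn v ({v} : Finset V) = 1 := by
  have : ({v} : Finset V).filter (fun u => u < v) = ∅ := by
    ext u
    simp only [mem_filter, mem_singleton, notMem_empty, iff_false, not_and, not_lt]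
    rintro rfl
    exact le_refl _
  simp [sgn, this]

theorem zig_two {r : Finset V} (hr : r.card = 2) (u : U) : ∑ v ∈ r, sgn v r • u = 0 := by
  have h1 := sgn_dd (fun _ : Finset V => u) r
  rw [← h1]
  refine sum_congr rfl (fun v hv => ?_)
  have h2 : (r.erase v).card = 1 := by rw [card_erase_of_mem hv, hr]
  obtain ⟨w, hw⟩ := card_eq_one.1 h2
  rw [hw, sum_singleton, zig_sgn_one, one_smul]

theorem zig_pr_cl {L : Finset V} {x : V} {r s : Finset V} (h : Pr G L x r s) :
    Cl G (r ∪ lk G L r) s :=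
  (cl_star (h.2.subset subset_union_left)).2 h.2

theorem zig_pr_sub {L : Finset V} {x : V} {r r' s : Finset V} (h : Pr G L x r s) (hr : r' ⊆ r) :
    Pr G L x r' s :=
  ⟨hr.trans h.1, h.2.subset (union_subset_union_left hr)⟩

theorem zig_end {L : Finset V} (h : GSys G L a b) {x : V} (hx : x ∈ L)
    (hRE : ∀ s, Cl G L s → x ∉ s → AcyclicR G (nb G (far G L x) s)) {m : ℕ}
    (hlk : ∀ k, m = k + 1 → ExC G a (lk G L {x}) k)
    {y : Finset V → U} (hy : InC G a L m y) (hcl : Clo G a L m y) (W : Finset V → Finset V → U)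
    (h1 : ∀ r s, Pr G L x r s → r.card = 0 → s.card + 1 = m → W r s ∈ Cell a s)
    (h2 : ∀ r s, Pr G L x r s → r.card = 1 → s.card = m →
      ∑ v ∈ r, sgn v r • (y s - cob a (W (r.erase v)) s) = 0) : Bd G a L m y := by
  refine zigFin h hx hRE hy hcl (W := W ∅) ?_ ?_ hlk
  · intro s hs hm
    exact h1 ∅ s ⟨empty_subset _, by rwa [empty_union]⟩ card_empty hm
  · intro v s hv hs hm
    have h3 := h2 {v} s ⟨singleton_subset_iff.2 hv, by rwa [← insert_eq]⟩ (card_singleton v) hm
    rw [sum_singleton, zig_sgn_one, one_smul, erase_singleton] at h3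
    exact sub_eq_zero.1 h3

theorem zig0 {L : Finset V} (h : GSys G L a b) {x : V} (hx : x ∈ L)
    (hRE : ∀ s, Cl G L s → x ∉ s → AcyclicR G (nb G (far G L x) s)) {m : ℕ}
    (hlk : ∀ k, m = k + 1 → ExC G a (lk G L {x}) k)
    (hcol : ∀ r, r ⊆ far G L x → Cl G L r → 1 ≤ r.card → ∀ j, j + r.card = m + 1 →
      ExC G a (lk G L r) j) : ExC G a L m := by
  intro y hy hcl
  obtain ⟨W, hW1, hW2⟩ := zigQ h hx hRE m 0 (fun r hr1 hr2 hr3 j hj =>
    hcol r hr1 hr2 (by omega) j (by omega)) (fun _ s => y s)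
    (fun r s hp _ hs => hy s (hp.2.subset subset_union_right) hs)
    (fun r s hp _ hs => by
      have h0 : cob a y s = 0 := hcl s (hp.2.subset subset_union_right) hs
      have h0' : ∀ v ∈ r, sgn v r • cob a ((fun _ s => y s : Finset V → Finset V → U) (r.erase v)) s
          = 0 := by
        intro v _
        change sgn v r • cob a y s = 0
        rw [h0, smul_zero]
      exact sum_eq_zero h0')
  exact zig_end h hx hRE hlk hy hcl W hW1 hW2

/-- the cochains attached to the vertices -/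
def zig_Y (Z : V → Finset V → U) (r s : Finset V) : U := ∑ v ∈ r, Z v s

theorem zig_Y_single (Z : V → Finset V → U) (v : V) : zig_Y Z {v} = Z v := by
  funext s
  simp [zig_Y]

/-- the last two steps -/
theorem zig_last {L : Finset V} (h : GSys G L a b) {x : V} (hx : x ∈ L)
    (hRE : ∀ s, Cl G L s → x ∉ s → AcyclicR G (nb G (far G L x) s)) {k : ℕ}
    (hlk : ExC G a (lk G L {x}) k)
    {y : Finset V → U} (hy : InC G a L (k + 1) y) (hcl : Clo G a L (k + 1) y)
    (Z : V → Finset V → U)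
    (hZ : ∀ v ∈ far G L x, InC G a ({v} ∪ lk G L {v}) k (Z v))
    (hZy : ∀ v ∈ far G L x, ∀ s, Cl G ({v} ∪ lk G L {v}) s → s.card = k + 1 →
      y s = cob a (Z v) s) (W : Finset V → Finset V → U)
    (h1 : ∀ r s, Pr G L x r s → r.card = 1 → s.card + 1 = k → W r s ∈ Cell a s)
    (h2 : ∀ r s, Pr G L x r s → r.card = 2 → s.card = k →
      ∑ v ∈ r, sgn v r • (zig_Y Z (r.erase v) s - cob a (W (r.erase v)) s) = 0) :
    Bd G a L (k + 1) y := by
  obtain ⟨W0, hW1, hW2⟩ := zigDL h hx hRE (p := 0) (i := k) (Y := fun _ s => y s)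
    (Y' := zig_Y Z) (W' := W)
    (fun r s hp hr hs => by
      obtain ⟨v, rfl⟩ := card_eq_one.1 hr
      rw [zig_Y_single]
      exact hZ v (hp.1 (mem_singleton_self v)) s (zig_pr_cl hp) hs)
    (fun r s hp hr hs => h1 r s hp hr hs)
    (fun r s hp hr hs => by
      obtain ⟨v, rfl⟩ := card_eq_one.1 hr
      rw [zig_Y_single, sum_singleton, zig_sgn_one, one_smul]
      exact hZy v (hp.1 (mem_singleton_self v)) s (zig_pr_cl hp) hs)
    (fun r s hp hr hs => h2 r s hp hr hs)
  exact zig_end h hx hRE (m := k + 1) (fun k' hk' => by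
    have : k' = k := by omega
    rw [this]
    exact hlk) hy hcl W0 hW1 hW2

theorem zig1 {L : Finset V} (h : GSys G L a b) {x : V} (hx : x ∈ L)
    (hRE : ∀ s, Cl G L s → x ∉ s → AcyclicR G (nb G (far G L x) s)) {m : ℕ}
    (hlk : ∀ k, m = k + 1 → ExC G a (lk G L {x}) k)
    (hcol : ∀ r, r ⊆ far G L x → Cl G L r → 2 ≤ r.card → ∀ j, j + r.card = m + 1 →
      ExC G a (lk G L r) j)
    {y : Finset V → U} (hy : InC G a L m y) (hcl : Clo G a L m y)
    (hv : ∀ v ∈ far G L x, Bd G a (lk G L {v}) m y) : Bd G a L m y := by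
  cases m with
  | zero =>
    obtain ⟨v, hvm⟩ := acyclic_nonempty (hRE ∅ (cl_empty L) (notMem_empty x))
    have hvf : v ∈ far G L x := (mem_nb.1 hvm).1
    obtain ⟨x', -, hx'⟩ := hv v hvf
    refine ⟨fun _ => 0, fun s _ _ => Submodule.zero_mem _, fun s hs h0 => ?_⟩
    have hs0 : s = ∅ := card_eq_zero.1 h0
    rw [hs0, hx' ∅ (cl_empty _) card_empty]
    simp [cob]
  | succ k =>
    have hex : ∀ v, ∃ Z : Finset V → U, v ∈ far G L x →
        (∀ s, Cl G ({v} ∪ lk G L {v}) s → s.card + 1 = k + 1 → Z s ∈ Cell a s) ∧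
        ∀ s, Cl G ({v} ∪ lk G L {v}) s → s.card = k + 1 → y s = cob a Z s := by
      intro v
      by_cases hvf : v ∈ far G L x
      · have hvL : v ∈ L := far_subset L x hvf
        have hsub : ({v} ∪ lk G L {v} : Finset V) ⊆ L :=
          union_subset (singleton_subset_iff.2 hvL) (lk_subset L {v})
        obtain ⟨Z, h1, h2⟩ := star_clique h (cl_singleton hvL) (hy.mono hsub) (hcl.mono hsub)
          (hv v hvf)
        exact ⟨Z, fun _ => ⟨h1, h2⟩⟩
      · exact ⟨fun _ => 0, fun hh => absurd hh hvf⟩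
    choose Z hZ using hex
    have hZ1 : ∀ v ∈ far G L x, InC G a ({v} ∪ lk G L {v}) k (Z v) :=
      fun v hvf s hs hk => (hZ v hvf).1 s hs (by omega)
    have hZ2 : ∀ v ∈ far G L x, ∀ s, Cl G ({v} ∪ lk G L {v}) s → s.card = k + 1 →
      y s = cob a (Z v) s := fun v hvf => (hZ v hvf).2
    obtain ⟨W, hW1, hW2⟩ := zigQ h hx hRE k 1 (fun r hr1 hr2 hr3 j hj =>
      hcol r hr1 hr2 (by omega) j (by omega)) (zig_Y Z)
      (fun r s hp hr hs => by
        obtain ⟨v, rfl⟩ := card_eq_one.1 hr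
        rw [zig_Y_single]
        exact hZ1 v (hp.1 (mem_singleton_self v)) s (zig_pr_cl hp) hs)
      (fun r s hp hr hs => by
        rw [← zig_two hr (y s)]
        refine sum_congr rfl (fun v hvr => ?_)
        have hc1 : (r.erase v).card = 1 := by rw [card_erase_of_mem hvr, hr]
        have hp' := zig_pr_sub hp (erase_subset v r)
        obtain ⟨w, hw⟩ := card_eq_one.1 hc1
        rw [hw] at hp' ⊢
        rw [zig_Y_single, ← hZ2 w (hp'.1 (mem_singleton_self w)) s (zig_pr_cl hp') hs])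
    exact zig_last h hx hRE (hlk k rfl) hy hcl Z hZ1 hZ2 W hW1 hW2

theorem zig2 {L : Finset V} (h : GSys G L a b) {x : V} (hx : x ∈ L)
    (hRE : ∀ s, Cl G L s → x ∉ s → AcyclicR G (nb G (far G L x) s)) {k : ℕ}
    (hlk : ExC G a (lk G L {x}) k)
    (hcol : ∀ r, r ⊆ far G L x → Cl G L r → 3 ≤ r.card → ∀ j, j + r.card = k + 2 →
      ExC G a (lk G L r) j)
    {y : Finset V → U} (hy : InC G a L (k + 1) y) (hcl : Clo G a L (k + 1) y)
    (Z : V → Finset V → U)
    (hZ : ∀ v ∈ far G L x, InC G a ({v} ∪ lk G L {v}) k (Z v))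
    (hZy : ∀ v ∈ far G L x, ∀ s, Cl G ({v} ∪ lk G L {v}) s → s.card = k + 1 →
      y s = cob a (Z v) s)
    (hvw : ∀ v ∈ far G L x, ∀ w ∈ far G L x, G.Adj v w →
      Bd G a (lk G L {v, w}) k (fun s => Z v s - Z w s)) : Bd G a L (k + 1) y := by
  -- the cochains on the stars of the edges
  have hB : ∀ r, r ⊆ far G L x → Cl G L r → r.card = 2 → Bd G a (r ∪ lk G L r) k
      (fun s => ∑ u ∈ r, sgn u r • zig_Y Z (r.erase u) s) := by
    intro r hr1 hr2 hr3
    obtain ⟨v, w, hne, rfl⟩ := card_eq_two.1 hr3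
    have hvf : v ∈ far G L x := hr1 (by simp)
    have hwf : w ∈ far G L x := hr1 (by simp)
    have hadj : G.Adj v w := hr2.adj (by simp) (by simp) hne
    have hev : ({v, w} : Finset V).erase v = {w} := by
      ext t
      simp only [mem_erase, mem_insert, mem_singleton]
      constructor
      · rintro ⟨h1, h2 | h2⟩
        · exact absurd h2 h1
        · exact h2
      · rintro rfl
        exact ⟨fun h => hne h.symm, Or.inr rfl⟩
    have hew : ({v, w} : Finset V).erase w = {v} := by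
      ext t
      simp only [mem_erase, mem_insert, mem_singleton]
      constructor
      · rintro ⟨h1, h2 | h2⟩
        · exact h2
        · exact absurd h2 h1
      · rintro rfl
        exact ⟨hne, Or.inl rfl⟩
    set c : ℝ := sgn w {v, w} with hc
    have hform : ∀ s, ∑ u ∈ ({v, w} : Finset V), sgn u {v, w} • zig_Y Z (({v, w} : Finset V).erase u) s
        = c • (Z v s - Z w s) := by
      intro s
      rw [sum_pair hne, hev, hew, zig_Y_single, zig_Y_single, smul_sub]
      have h0 := zig_two hr3 (Z w s)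
      rw [sum_pair hne] at h0
      rw [eq_neg_of_add_eq_zero_left h0]
      rw [← hc]
      abel
    have hclv : ∀ s, Cl G ({v, w} ∪ lk G L {v, w}) s → Cl G ({v} ∪ lk G L {v}) s := by
      intro s hs
      have h1 := (cl_star hr2).1 hs
      exact (cl_star (hr2.subset (by simp))).2 (h1.subset (union_subset_union_left (by simp)))
    have hclw : ∀ s, Cl G ({v, w} ∪ lk G L {v, w}) s → Cl G ({w} ∪ lk G L {w}) s := by
      intro s hs
      have h1 := (cl_star hr2).1 hs
      exact (cl_star (hr2.subset (by simp))).2 (h1.subset (union_subset_union_left (by simp)))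
    have hfun : (fun s => ∑ u ∈ ({v, w} : Finset V), sgn u {v, w} •
        zig_Y Z (({v, w} : Finset V).erase u) s) = fun s => c • (Z v s - Z w s) := funext hform
    rw [hfun]
    refine star_clique h hr2 ?_ ?_ ?_
    · intro s hs hk
      exact Submodule.smul_mem _ _ (Submodule.sub_mem _ (hZ v hvf s (hclv s hs) hk)
        (hZ w hwf s (hclw s hs) hk))
    · intro s hs hk
      rw [cob_smul c (fun s => Z v s - Z w s), cob_sub, ← hZy v hvf s (hclv s hs) hk,
        ← hZy w hwf s (hclw s hs) hk, sub_self, smul_zero]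
    · have h1 := (hvw v hvf w hwf hadj).map_comm (T := c • LinearMap.id) (by
        intro u _ t
        simp)
      exact h1.congr (fun s _ _ => by simp)
  have hex : ∀ r, ∃ X : Finset V → U, r ⊆ far G L x → Cl G L r → r.card = 2 →
      (∀ s, Cl G (r ∪ lk G L r) s → s.card + 1 = k → X s ∈ Cell a s) ∧
      ∀ s, Cl G (r ∪ lk G L r) s → s.card = k →
        ∑ u ∈ r, sgn u r • zig_Y Z (r.erase u) s = cob a X s := by
    intro r
    by_cases hr : r ⊆ far G L x ∧ Cl G L r ∧ r.card = 2
    · obtain ⟨X, h1, h2⟩ := hB r hr.1 hr.2.1 hr.2.2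
      exact ⟨X, fun _ _ _ => ⟨h1, h2⟩⟩
    · exact ⟨fun _ => 0, fun h1 h2 h3 => absurd ⟨h1, h2, h3⟩ hr⟩
  choose Y2 hY2 using hex
  have hY2a : ∀ r s, Pr G L x r s → r.card = 2 → s.card + 1 = k → Y2 r s ∈ Cell a s :=
    fun r s hp hr hs => (hY2 r hp.1 (hp.2.subset subset_union_left) hr).1 s (zig_pr_cl hp) hs
  have hY2b : ∀ r s, Pr G L x r s → r.card = 2 → s.card = k →
      ∑ u ∈ r, sgn u r • zig_Y Z (r.erase u) s = cob a (Y2 r) s :=
    fun r s hp hr hs => (hY2 r hp.1 (hp.2.subset subset_union_left) hr).2 s (zig_pr_cl hp) hs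
  cases k with
  | zero =>
    refine zig_last h hx hRE hlk hy hcl Z hZ hZy (fun _ _ => 0)
      (fun r s hp hr hs => Submodule.zero_mem _) (fun r s hp hr hs => ?_)
    have h1 := hY2b r s hp hr hs
    have hs0 : s = ∅ := card_eq_zero.1 hs
    subst hs0
    have h2 : cob a (Y2 r) ∅ = 0 := by simp [cob]
    rw [h2] at h1
    refine Eq.trans (sum_congr rfl (fun v _ => ?_)) h1
    have h3 : cob a ((fun _ _ => 0 : Finset V → Finset V → U) (r.erase v)) ∅ = 0 := by simp [cob]
    rw [h3, sub_zero]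
  | succ l =>
    obtain ⟨W2, hW2a, hW2b⟩ := zigQ h hx hRE l 2 (fun r hr1 hr2 hr3 j hj =>
      hcol r hr1 hr2 (by omega) j (by omega)) Y2
      (fun r s hp hr hs => hY2a r s hp hr (by omega))
      (fun r s hp hr hs => by
        rw [← sgn_dd (fun t => zig_Y Z t s) r]
        refine sum_congr rfl (fun v hvr => ?_)
        rw [hY2b (r.erase v) s (zig_pr_sub hp (erase_subset v r))
          (by rw [card_erase_of_mem hvr, hr]) hs])
    obtain ⟨W1, hW1a, hW1b⟩ := zigDL h hx hRE (p := 1) (i := l) (Y := zig_Y Z)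
      (Y' := Y2) (W' := W2)
      (fun r s hp hr hs => hY2a r s hp hr (by omega))
      (fun r s hp hr hs => hW2a r s hp hr hs)
      (fun r s hp hr hs => hY2b r s hp hr hs)
      (fun r s hp hr hs => hW2b r s hp hr hs)
    exact zig_last h hx hRE hlk hy hcl Z hZ hZy W1 hW1a hW1b

end Pool.Agent.H31.GS
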