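import Pool.Agent.H31.GS.Upper
import Pool.Agent.H31.GS.Zig

/-!
# helper31, GS, module CONC: concentration, one step

`exAll_of`: for `r = ∅` use `hL` (`lk_empty`), otherwise `v ∈ r`, `lk G L r = lk G (lk G L {v}) (r.erase v)` (`lk_lk`,
`insert_erase`), `cl_erase`.

`conc_step`: `e + 1 < 2 * i`: `upper_weak` for `E = L`; its hypothesis: `w ∈ L`, `lk G L {w}` is a sphere of rank `e - 1`,
`up_of_ex` for it and `r = ∅` (`lk_empty`) needs `e - 1 < 2 * i`, fine (`e ≥ 1` because `w ∈ L`).
`2 * i + 1 < e`: `L` is nonempty (`sphere_nonempty`), take `x ∈ L`, `zig0` with `hRE` = `sphere_nb`, `hlk`: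
`ExC G a (lk G L {x}) k` for `i = k + 1` from `hlink x` with `r = ∅`: `2 * k ≠ e - 1`; `hcol`: `r ⊆ far`, `v ∈ r`,
`lk G L r = lk G (lk G L {v}) (r.erase v)`, `2 * j + (r.card - 1) ≠ e - 1` because `2 * j + r.card = 2 * i + 2 - r.card < e`.

`conc`: by induction on `e` (generalizing `L`): if all links of odd rank are exact then `ExAll`. `e = 0`: `L = ∅`, only
`r = ∅`, `exC_empty`. Step: for `v ∈ L`, `lk G L {v}` satisfies the hypothesis (rank `e - 1`, `lk_lk`), so
`ExAll (lk G L {v}) (e - 1)`; `exAll_of` with: if `e` is odd use the hypothesis for `r = ∅`, if `e` is even `conc_step`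
(`2 * i ≠ e` implies `e + 1 < 2 * i` or `2 * i + 1 < e`).
-/

namespace Pool.Agent.H31.GS

open Finset

set_option linter.unusedSectionVars false
set_option linter.unusedVariables false

variable {V : Type} [Fintype V] [LinearOrder V] {G : SimpleGraph V}
variable {U : Type} [AddCommGroup U] [Module ℝ U] [FiniteDimensional ℝ U]
variable {a b : V → Module.End ℝ U}

theorem conc_lk {L r : Finset V} {v : V} (hv : v ∈ r) :
    lk G (lk G L {v}) (r.erase v) = lk G L r := by
  rw [lk_lk, ← insert_eq, insert_erase hv]

theorem conc_card {r : Finset V} {v : V} (hv : v ∈ r) : (r.erase v).card + 1 = r.card :=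
  card_erase_add_one hv

theorem exAll_of {L : Finset V} {e : ℕ} (he : 0 < e)
    (hlink : ∀ v ∈ L, ExAll G a (lk G L {v}) (e - 1))
    (hL : ∀ i, 2 * i ≠ e → ExC G a L i) : ExAll G a L e := by
  intro r hr i hi
  rcases r.eq_empty_or_nonempty with rfl | ⟨v, hv⟩
  · rw [lk_empty]
    rw [card_empty, add_zero] at hi
    exact hL i hi
  · rw [← conc_lk hv]
    have hc := conc_card hv
    exact hlink v (hr.1 hv) (r.erase v) (cl_erase hr hv) i (by omega)

theorem conc_step {L : Finset V} (h : GSys G L a b) {e : ℕ} (hS : FlagSphere G e L)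
    (hlink : ∀ v ∈ L, ExAll G a (lk G L {v}) (e - 1)) :
    ∀ i, (e + 1 < 2 * i ∨ 2 * i + 1 < e) → ExC G a L i := by
  intro i hi
  rcases hi with hi | hi
  · refine upper_weak h (e := e) ?_ L (Subset.refl L) i hi
    intro w hw E hE j hj
    have hw1 := sphere_lk hS (cl_singleton hw)
    have h1 : 1 ≤ e := by
      have := hw1.1
      rwa [card_singleton] at this
    have hS' : FlagSphere G (e - 1) (lk G L {w}) := by
      have := hw1.2
      rwa [card_singleton] at this
    refine up_of_ex (h.mono (lk_subset L {w})) hS' (hlink w hw) (cl_empty _) E ?_ j ?_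
    · rw [lk_empty]
      exact hE
    · rw [card_empty]
      omega
  · obtain ⟨x, hx⟩ := sphere_nonempty hS (by omega)
    refine zig0 h hx (fun s hs hxs => sphere_nb hS hx hs hxs) ?_ ?_
    · intro k hk
      have := hlink x hx ∅ (cl_empty _) k (by rw [card_empty]; omega)
      rwa [lk_empty] at this
    · intro r hr hrc h1 j hj
      obtain ⟨v, hv⟩ := card_pos.1 (by omega : 0 < r.card)
      rw [← conc_lk hv]
      have hc := conc_card hv
      exact hlink v (hrc.1 hv) (r.erase v) (cl_erase hrc hv) j (by omega)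

theorem conc {L : Finset V} (h : GSys G L a b) {e : ℕ} (hS : FlagSphere G e L)
    (hodd : ∀ r, Cl G L r → Odd (e - r.card) → ∀ i, ExC G a (lk G L r) i) : ExAll G a L e := by
  induction e generalizing L with
  | zero =>
    have hL : L = ∅ := hS
    subst hL
    intro r hr i hi
    have hr0 : r = ∅ := subset_empty.1 hr.1
    subst hr0
    rw [lk_empty]
    rw [card_empty] at hi
    exact exC_empty (by omega)
  | succ e ih =>
    have hlink : ∀ v ∈ L, ExAll G a (lk G L {v}) (e + 1 - 1) := by
      intro v hv
      have hw1 := sphere_lk hS (cl_singleton hv)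
      rw [card_singleton] at hw1
      refine ih (h.mono (lk_subset L {v})) hw1.2 ?_
      intro r hr ho i
      obtain ⟨h1, h2⟩ := cl_insert hv hr
      have hc := card_insert_of_notMem h2
      have := hodd (insert v r) h1 (by rw [hc, Nat.add_sub_add_right]; exact ho) i
      rwa [insert_eq, ← lk_lk] at this
    refine exAll_of (Nat.succ_pos e) hlink ?_
    intro i hi
    rcases Nat.even_or_odd (e + 1) with he | he
    · refine conc_step h hS hlink i ?_
      obtain ⟨k, hk⟩ := he
      omega
    · have := hodd ∅ (cl_empty L) (by rw [card_empty]; exact he) i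
      rwa [lk_empty] at this

end Pool.Agent.H31.GS
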