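import Mathlib

/-!
# helper31, GS, module DEF: definiteness of products of Clifford vectors

`Anti l`: the matrices of the list `l` have square one and anticommute pairwise.

`definite`: induction on the length of the lists. `Xs = []`: `es = []`, product `1`, `κ = 1`.
`Xs = X :: Xs'`, `es = e :: es'`. `e X + X e = 2 h` for a scalar `h` (`sq` for `e + X`, `e`, `X`). Let `η = 1` if `1 + h ≠ 0`,
`η = -1` otherwise; `w = e + η X ∈ 𝓛`, `w w = 2 (1 + η h) = λ ≠ 0`. Put `w⁻¹ = λ⁻¹ w`. Then `w X = η e w` (both are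
`e X + η`, resp. `η (1 + η e X)`), so `w X w⁻¹ = η e`, `w⁻¹ e w = η X`. For `f ∈ es'` let `f' = w⁻¹ f w`; it is in `𝓛`
(`w f w = w (2 μ - w f) = 2 μ w - λ f` where `f w + w f = 2 μ`), square one, anticommutes with `η X = w⁻¹ e w` and with the
other `f'`. Let `𝓛' = {u ∈ 𝓛 | u X + X u = 0}`: a submodule, squares scalar, contains `Xs'` and the `f'`, and if `u ∈ 𝓛'`
anticommutes with all of `Xs'` then it does with all of `Xs`, so `uᵀ = - u`. Induction: `κ' * (x ⬝ᵥ (Xs'.prod * es''.prod) *ᵥ x) > 0` for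
`x ≠ 0`, `es'' = es'.map (fun f => w⁻¹ f w)`, `es''.prod = w⁻¹ es'.prod w`.
`trans`: for `w ∈ 𝓛` and `P = Xs.prod`, `n = Xs.length`: `wᵀ * P = (-1)^(n-1) P * w`, i.e. `wᵀ P = (-1)^(n+1) P w`:
write `w = ∑ h_i X_i + w'`, `w' ∈ 𝓛` anticommuting with all `X_i`, `w'ᵀ = - w'`; `X_i P = (-1)^(n+1) P X_i`
(`X_i` commutes with itself and anticommutes with the `n - 1` others), `w' P = (-1)^n P w'`.
Let `M = Xs.prod * es.prod = P e es'.prod`. Then `wᵀ M w = (-1)^(n+1) P w e es'.prod w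
= (-1)^(n+1) P w w (w⁻¹ e w) (w⁻¹ es'.prod w) = (-1)^(n+1) λ η P X es''.prod` and `P X = X Xs'.prod X = (-1)^(n-1) Xs'.prod` (as `X` anticommutes with the
`n - 1` elements of `Xs'`). So `wᵀ M w = λ η Xs'.prod es''.prod`. For `x ≠ 0` put `x = w z`: `x ⬝ᵥ M *ᵥ x = z ⬝ᵥ (wᵀ M w) *ᵥ z`,
`κ = κ' * sign (λ η)`.
It is convenient to normalise `κ` to `1` or `-1`.

`trans` is used again in module GRAMSYS, so it is stated separately.
-/

namespace Pool.Agent.H31.GS

open Matrix

variable {ι : Type} [Fintype ι] [DecidableEq ι]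

/-- pairwise anticommuting, squares one -/
def AntiL (l : List (Matrix ι ι ℝ)) : Prop :=
  (∀ e ∈ l, e * e = 1) ∧ l.Pairwise (fun e f => e * f = - (f * e))

/-- a space of vectors: squares are scalar; the vectors anticommuting with all of `Xs` are skew;
the `Xs` are symmetric vectors -/
structure VecSp (𝓛 : Submodule ℝ (Matrix ι ι ℝ)) (Xs : List (Matrix ι ι ℝ)) : Prop where
  sq : ∀ w ∈ 𝓛, ∃ c : ℝ, w * w = c • (1 : Matrix ι ι ℝ)
  mem : ∀ X ∈ Xs, X ∈ 𝓛
  symm : ∀ X ∈ Xs, Xᵀ = X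
  skew : ∀ w ∈ 𝓛, (∀ X ∈ Xs, w * X = - (X * w)) → wᵀ = - w

/-- polarisation: the anticommutator of two vectors is scalar -/
theorem def_polar {𝓛 : Submodule ℝ (Matrix ι ι ℝ)}
    (hsq : ∀ w ∈ 𝓛, ∃ c : ℝ, w * w = c • (1 : Matrix ι ι ℝ))
    {u v : Matrix ι ι ℝ} (hu : u ∈ 𝓛) (hv : v ∈ 𝓛) :
    ∃ c : ℝ, u * v + v * u = c • (1 : Matrix ι ι ℝ) := by
  obtain ⟨c, hc⟩ := hsq (u + v) (𝓛.add_mem hu hv)
  obtain ⟨c1, h1⟩ := hsq u hu
  obtain ⟨c2, h2⟩ := hsq v hv
  refine ⟨c - c1 - c2, ?_⟩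
  have : u * v + v * u = (u + v) * (u + v) - u * u - v * v := by noncomm_ring
  rw [this, hc, h1, h2, sub_smul, sub_smul]

theorem def_anti_prod {w : Matrix ι ι ℝ} : ∀ (l : List (Matrix ι ι ℝ)),
    (∀ X ∈ l, w * X = -(X * w)) → w * l.prod = (-1 : ℝ) ^ l.length • (l.prod * w)
  | [], _ => by simp
  | X :: l, h => by
    have ih := def_anti_prod l (fun Y hY => h Y (List.mem_cons_of_mem _ hY))
    rw [List.prod_cons, ← mul_assoc, h X (by simp), neg_mul, mul_assoc, ih, List.length_cons,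
      pow_succ, mul_smul_comm, mul_neg_one, neg_smul, mul_assoc]

theorem def_mem_prod : ∀ (l : List (Matrix ι ι ℝ)), AntiL l → ∀ X ∈ l,
    X * l.prod = (-1 : ℝ) ^ (l.length + 1) • (l.prod * X)
  | [], _, X, hX => by simp at hX
  | Y :: l, h, X, hX => by
    have h2 := List.pairwise_cons.1 h.2
    have hl : AntiL l := ⟨fun e he => h.1 e (List.mem_cons_of_mem _ he), h2.2⟩
    rcases List.mem_cons.1 hX with rfl | hX'
    · have h3 := def_anti_prod l (fun Z hZ => h2.1 Z hZ)
      have h4 : X * X = 1 := h.1 X (by simp)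
      rw [List.prod_cons, List.length_cons, mul_assoc X l.prod X]
      have h5 : l.prod * X = (-1 : ℝ) ^ l.length • (X * l.prod) := by
        rw [h3, smul_smul, ← pow_add, Even.neg_one_pow ⟨l.length, rfl⟩, one_smul]
      rw [h5, mul_smul_comm, smul_smul, ← mul_assoc, h4, one_mul, ← pow_add,
        Even.neg_one_pow ⟨l.length + 1, by ring⟩, one_smul]
    · have ih := def_mem_prod l hl X hX'
      have h3 : X * Y = - (Y * X) := by rw [h2.1 X hX', neg_neg]
      rw [List.prod_cons, ← mul_assoc, h3, neg_mul, mul_assoc, ih, List.length_cons, pow_succ (-1 : ℝ) (l.length + 1),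
        mul_smul_comm, mul_neg_one, neg_smul, mul_assoc]

theorem def_decomp {𝓛 : Submodule ℝ (Matrix ι ι ℝ)}
    (hsq : ∀ w ∈ 𝓛, ∃ c : ℝ, w * w = c • (1 : Matrix ι ι ℝ)) {w : Matrix ι ι ℝ} (hw : w ∈ 𝓛) :
    ∀ (l : List (Matrix ι ι ℝ)), AntiL l → (∀ X ∈ l, X ∈ 𝓛) →
    ∃ w' ∈ 𝓛, (∀ X ∈ l, w' * X = - (X * w')) ∧ w - w' ∈ Submodule.span ℝ {X | X ∈ l}
  | [], _, _ => ⟨w, hw, by simp, by simp⟩
  | X :: l, h, hm => by
    have h2 := List.pairwise_cons.1 h.2
    have hl : AntiL l := ⟨fun e he => h.1 e (List.mem_cons_of_mem _ he), h2.2⟩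
    obtain ⟨w1, h3, h4, h5⟩ := def_decomp hsq hw l hl (fun Y hY => hm Y (List.mem_cons_of_mem _ hY))
    have hXm : X ∈ 𝓛 := hm X (by simp)
    have hX1 : X * X = 1 := h.1 X (by simp)
    obtain ⟨c, hc⟩ := def_polar hsq h3 hXm
    refine ⟨w1 - (c / 2) • X, 𝓛.sub_mem h3 (𝓛.smul_mem _ hXm), ?_, ?_⟩
    · intro Y hY
      rcases List.mem_cons.1 hY with rfl | hY'
      · rw [eq_neg_iff_add_eq_zero, sub_mul, mul_sub, smul_mul_assoc, mul_smul_comm, hX1]
        have : w1 * Y - (c / 2) • (1 : Matrix ι ι ℝ) + (Y * w1 - (c / 2) • (1 : Matrix ι ι ℝ)) =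
            (w1 * Y + Y * w1) - (c / 2 + c / 2) • (1 : Matrix ι ι ℝ) := by
          rw [add_smul]; abel
        rw [this, hc, add_halves, sub_self]
      · rw [sub_mul, mul_sub, h4 Y hY', smul_mul_assoc, mul_smul_comm, h2.1 Y hY', smul_neg]
        abel
    · have e1 : w - (w1 - (c / 2) • X) = (w - w1) + (c / 2) • X := by abel
      rw [e1]
      refine Submodule.add_mem _ (Submodule.span_mono ?_ h5) (Submodule.smul_mem _ _
        (Submodule.subset_span (by simp)))
      intro Y hY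
      exact List.mem_cons_of_mem _ hY

theorem vec_trans {𝓛 : Submodule ℝ (Matrix ι ι ℝ)} {Xs : List (Matrix ι ι ℝ)} (h : VecSp 𝓛 Xs)
    (hX : AntiL Xs) {w : Matrix ι ι ℝ} (hw : w ∈ 𝓛) :
    wᵀ * Xs.prod = (-1 : ℝ) ^ (Xs.length + 1) • (Xs.prod * w) := by
  obtain ⟨w', h1, h2, h3⟩ := def_decomp h.sq hw Xs hX h.mem
  have key : ∀ u ∈ Submodule.span ℝ {X | X ∈ Xs},
      uᵀ * Xs.prod = (-1 : ℝ) ^ (Xs.length + 1) • (Xs.prod * u) := by
    intro u hu
    induction hu using Submodule.span_induction with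
    | mem x hx => rw [h.symm x hx]; exact def_mem_prod Xs hX x hx
    | zero => simp
    | add x y _ _ hx hy => rw [transpose_add, add_mul, hx, hy, mul_add, smul_add]
    | smul c x _ hx => rw [transpose_smul, smul_mul_assoc, hx, mul_smul_comm, smul_comm]
  have h4 : w'ᵀ * Xs.prod = (-1 : ℝ) ^ (Xs.length + 1) • (Xs.prod * w') := by
    rw [h.skew w' h1 h2, neg_mul, def_anti_prod Xs h2, pow_succ, mul_neg_one, neg_smul]
  have h5 : w = (w - w') + w' := by abel
  rw [h5, transpose_add, add_mul, key _ h3, h4, mul_add, smul_add]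

theorem def_prod_conj {w wi : Matrix ι ι ℝ} (h1 : w * wi = 1) (h2 : wi * w = 1) :
    ∀ (l : List (Matrix ι ι ℝ)), (l.map (fun f => wi * f * w)).prod = wi * l.prod * w
  | [] => by simp [h2]
  | f :: l => by
    rw [List.map_cons, List.prod_cons, def_prod_conj h1 h2 l, List.prod_cons]
    calc wi * f * w * (wi * l.prod * w) = wi * f * (w * wi) * l.prod * w := by noncomm_ring
      _ = wi * (f * l.prod) * w := by rw [h1]; noncomm_ring

omit [DecidableEq ι] in
theorem def_congr (w M : Matrix ι ι ℝ) (z : ι → ℝ) :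
    (w *ᵥ z) ⬝ᵥ M *ᵥ (w *ᵥ z) = z ⬝ᵥ (wᵀ * M * w) *ᵥ z := by
  rw [mul_assoc, ← mulVec_mulVec, ← mulVec_mulVec, Matrix.dotProduct_mulVec z wᵀ,
    vecMul_transpose]

theorem definite {𝓛 : Submodule ℝ (Matrix ι ι ℝ)} {Xs es : List (Matrix ι ι ℝ)} (h : VecSp 𝓛 Xs)
    (hX : AntiL Xs) (he : AntiL es) (hmem : ∀ e ∈ es, e ∈ 𝓛) (hlen : es.length = Xs.length) :
    ∃ κ : ℝ, (κ = 1 ∨ κ = -1) ∧
      ∀ x : ι → ℝ, x ≠ 0 → 0 < κ * (x ⬝ᵥ (Xs.prod * es.prod) *ᵥ x) := by
  induction Xs generalizing 𝓛 es with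
  | nil =>
    have : es = [] := List.length_eq_zero_iff.1 (by simpa using hlen)
    subst this
    refine ⟨1, Or.inl rfl, fun x hx => ?_⟩
    simp only [List.prod_nil, mul_one, one_mulVec, one_mul]
    have h0 : 0 ≤ x ⬝ᵥ x := Finset.sum_nonneg (fun i _ => mul_self_nonneg (x i))
    rcases h0.lt_or_eq with h1 | h1
    · exact h1
    · exact absurd (dotProduct_self_eq_zero.1 h1.symm) hx
  | cons X Xs' ih =>
    rcases es with _ | ⟨e, es'⟩
    · simp at hlen
    have hlen' : es'.length = Xs'.length := by simpa using hlen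
    have hX2 := List.pairwise_cons.1 hX.2
    have he2 := List.pairwise_cons.1 he.2
    have hX' : AntiL Xs' := ⟨fun e he => hX.1 e (List.mem_cons_of_mem _ he), hX2.2⟩
    have he' : AntiL es' := ⟨fun f hf => he.1 f (List.mem_cons_of_mem _ hf), he2.2⟩
    have hXm : X ∈ 𝓛 := h.mem X (by simp)
    have hem : e ∈ 𝓛 := hmem e (by simp)
    have hX1 : X * X = 1 := hX.1 X (by simp)
    have he1 : e * e = 1 := he.1 e (by simp)
    obtain ⟨c, hc⟩ := def_polar h.sq hem hXm
    -- the sign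
    obtain ⟨η, hη, hηc⟩ : ∃ η : ℝ, (η = 1 ∨ η = -1) ∧ 2 + η * c ≠ 0 := by
      by_cases h0 : 2 + c = 0
      · refine ⟨-1, Or.inr rfl, ?_⟩
        intro h1
        linarith
      · exact ⟨1, Or.inl rfl, by rwa [one_mul]⟩
    have hηη : η * η = 1 := by rcases hη with h0 | h0 <;> rw [h0] <;> norm_num
    obtain ⟨w, hw⟩ : ∃ w, w = e + η • X := ⟨_, rfl⟩
    obtain ⟨lam, hlam⟩ : ∃ lam : ℝ, lam = 2 + η * c := ⟨_, rfl⟩
    have hlam0 : lam ≠ 0 := hlam ▸ hηc
    have hwm : w ∈ 𝓛 := by rw [hw]; exact 𝓛.add_mem hem (𝓛.smul_mem _ hXm)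
    have hww : w * w = lam • (1 : Matrix ι ι ℝ) := by
      rw [hw, add_mul, mul_add, mul_add, he1, mul_smul_comm, smul_mul_assoc, smul_mul_assoc,
        mul_smul_comm, hX1, smul_smul, hηη, one_smul]
      have : (1 : Matrix ι ι ℝ) + η • (e * X) + (η • (X * e) + 1) =
          (2 : ℝ) • (1 : Matrix ι ι ℝ) + η • (e * X + X * e) := by
        rw [smul_add, two_smul]; abel
      rw [this, hc, smul_smul, ← add_smul, hlam]
    have hwX : w * X = η • (e * w) := by
      rw [hw, add_mul, smul_mul_assoc, hX1, mul_add, he1, mul_smul_comm, smul_add, smul_smul, hηη,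
        one_smul, add_comm]
    obtain ⟨wi, hwi⟩ : ∃ wi, wi = lam⁻¹ • w := ⟨_, rfl⟩
    have hwwi : w * wi = 1 := by
      rw [hwi, mul_smul_comm, hww, smul_smul, inv_mul_cancel₀ hlam0, one_smul]
    have hwiw : wi * w = 1 := by
      rw [hwi, smul_mul_assoc, hww, smul_smul, inv_mul_cancel₀ hlam0, one_smul]
    -- conj of e
    have hconj : wi * e * w = η • X := by
      have : η • (wi * (w * X)) = wi * e * w := by
        rw [hwX, mul_smul_comm, smul_smul, hηη, one_smul, mul_assoc]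
      rw [← this, ← mul_assoc, hwiw, one_mul]
    have hXc : X = η • (wi * e * w) := by
      rw [hconj, smul_smul, hηη, one_smul]
    -- conj of vectors
    have hcm : ∀ f ∈ 𝓛, wi * f * w ∈ 𝓛 := by
      intro f hf
      obtain ⟨μ, hμ⟩ := def_polar h.sq hf hwm
      have e1 : w * f * w = μ • w - lam • f := by
        have : w * f * w = w * (f * w + w * f) - (w * w) * f := by noncomm_ring
        rw [this, hμ, hww, mul_smul_comm, mul_one, smul_mul_assoc, one_mul]
      rw [hwi, smul_mul_assoc, smul_mul_assoc, e1]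
      exact 𝓛.smul_mem _ (𝓛.sub_mem (𝓛.smul_mem _ hwm) (𝓛.smul_mem _ hf))
    have hmulc : ∀ f g : Matrix ι ι ℝ, (wi * f * w) * (wi * g * w) = wi * (f * g) * w := by
      intro f g
      calc wi * f * w * (wi * g * w) = wi * f * (w * wi) * g * w := by noncomm_ring
        _ = wi * (f * g) * w := by rw [hwwi]; noncomm_ring
    obtain ⟨es'', hes''⟩ : ∃ es'', es'' = es'.map (fun f => wi * f * w) := ⟨_, rfl⟩
    have hes : AntiL es'' := by
      rw [hes'']
      constructor
      · intro g hg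
        obtain ⟨f, hf, rfl⟩ := List.mem_map.1 hg
        rw [hmulc, he'.1 f hf, mul_one, hwiw]
      · rw [List.pairwise_map]
        refine he'.2.imp ?_
        intro f g hfg
        rw [hmulc, hmulc, hfg, mul_neg, neg_mul]
    -- the new space
    let 𝓛' : Submodule ℝ (Matrix ι ι ℝ) :=
      { carrier := {u | u ∈ 𝓛 ∧ u * X = - (X * u)}
        add_mem' := by
          rintro x y ⟨hx1, hx2⟩ ⟨hy1, hy2⟩
          refine ⟨𝓛.add_mem hx1 hy1, ?_⟩
          rw [add_mul, mul_add, hx2, hy2, neg_add]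
        zero_mem' := ⟨𝓛.zero_mem, by simp⟩
        smul_mem' := by
          rintro t x ⟨hx1, hx2⟩
          refine ⟨𝓛.smul_mem _ hx1, ?_⟩
          rw [smul_mul_assoc, mul_smul_comm, hx2, smul_neg] }
    have hL' : VecSp 𝓛' Xs' := by
      refine ⟨fun u hu => h.sq u hu.1, fun Y hY => ⟨h.mem Y (List.mem_cons_of_mem _ hY), ?_⟩,
        fun Y hY => h.symm Y (List.mem_cons_of_mem _ hY), fun u hu hu2 => h.skew u hu.1 ?_⟩
      · rw [hX2.1 Y hY, neg_neg]
      · intro Y hY
        rcases List.mem_cons.1 hY with rfl | hY'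
        · exact hu.2
        · exact hu2 Y hY'
    have hmem'' : ∀ g ∈ es'', g ∈ 𝓛' := by
      intro g hg
      rw [hes''] at hg
      obtain ⟨f, hf, rfl⟩ := List.mem_map.1 hg
      refine ⟨hcm f (hmem f (List.mem_cons_of_mem _ hf)), ?_⟩
      have hfe : f * e = - (e * f) := by rw [he2.1 f hf, neg_neg]
      rw [hXc, mul_smul_comm, smul_mul_assoc, hmulc, hmulc, hfe, mul_neg, neg_mul, smul_neg]
    obtain ⟨κ', hκ', hpos⟩ := ih hL' hX' hes hmem'' (by rw [hes'', List.length_map, hlen'])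
    -- the matrix
    have hM : wᵀ * ((X :: Xs').prod * (e :: es').prod) * w =
        (lam * η) • (Xs'.prod * es''.prod) := by
      have t1 := vec_trans h hX hwm
      have t2 : w * e * w = (lam * η) • X := by
        have : w = lam • wi := by rw [hwi, smul_smul, mul_inv_cancel₀ hlam0, one_smul]
        calc w * e * w = (lam • wi) * e * w := by rw [← this]
          _ = lam • (wi * e * w) := by rw [smul_mul_assoc, smul_mul_assoc]
          _ = (lam * η) • X := by rw [hconj, smul_smul]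
      have t3 : wi * es'.prod * w = es''.prod := by rw [hes'', def_prod_conj hwwi hwiw]
      have t4 : w * (e :: es').prod * w = (lam * η) • (X * es''.prod) := by
        rw [List.prod_cons, ← t3]
        calc w * (e * es'.prod) * w = w * e * (w * wi) * es'.prod * w := by
              rw [hwwi]; noncomm_ring
          _ = (w * e * w) * (wi * es'.prod * w) := by noncomm_ring
          _ = (lam * η) • (X * (wi * es'.prod * w)) := by rw [t2, smul_mul_assoc]
      have t5 : (X :: Xs').prod * X = (-1 : ℝ) ^ Xs'.length • Xs'.prod := by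
        have t6 := def_anti_prod Xs' (fun Z hZ => hX2.1 Z hZ)
        have t7 : Xs'.prod * X = (-1 : ℝ) ^ Xs'.length • (X * Xs'.prod) := by
          rw [t6, smul_smul, ← pow_add, Even.neg_one_pow ⟨Xs'.length, rfl⟩, one_smul]
        rw [List.prod_cons, mul_assoc, t7, mul_smul_comm, ← mul_assoc, hX1, one_mul]
      calc wᵀ * ((X :: Xs').prod * (e :: es').prod) * w
          = (wᵀ * (X :: Xs').prod) * ((e :: es').prod * w) := by noncomm_ring
        _ = (-1 : ℝ) ^ ((X :: Xs').length + 1) • ((X :: Xs').prod * (w * (e :: es').prod * w)) := by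
            rw [t1, smul_mul_assoc]; congr 1; noncomm_ring
        _ = (-1 : ℝ) ^ ((X :: Xs').length + 1) •
            ((lam * η) • (((X :: Xs').prod * X) * es''.prod)) := by
            rw [t4, mul_smul_comm]; congr 2; noncomm_ring
        _ = (lam * η) • (Xs'.prod * es''.prod) := by
            rw [t5, smul_mul_assoc, smul_smul, smul_smul, List.length_cons]
            congr 1
            have : (-1 : ℝ) ^ (Xs'.length + 1 + 1) * (lam * η) * (-1) ^ Xs'.length =
              (lam * η) * (-1) ^ (Xs'.length + Xs'.length + 2) := by ring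
            rw [this, Even.neg_one_pow ⟨Xs'.length + 1, by ring⟩, mul_one]
    have hη0 : η ≠ 0 := by rcases hη with h0 | h0 <;> rw [h0] <;> norm_num
    have hlη : lam * η ≠ 0 := mul_ne_zero hlam0 hη0
    have main : ∀ x : ι → ℝ, x ⬝ᵥ ((X :: Xs').prod * (e :: es').prod) *ᵥ x =
        (lam * η) * ((wi *ᵥ x) ⬝ᵥ (Xs'.prod * es''.prod) *ᵥ (wi *ᵥ x)) := by
      intro x
      have e1 : x = w *ᵥ (wi *ᵥ x) := by rw [mulVec_mulVec, hwwi, one_mulVec]
      obtain ⟨z, hz⟩ : ∃ z, z = wi *ᵥ x := ⟨_, rfl⟩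
      rw [← hz] at e1 ⊢
      have e2 : (z ⬝ᵥ ((lam * η) • (Xs'.prod * es''.prod)) *ᵥ z) =
          (lam * η) * (z ⬝ᵥ (Xs'.prod * es''.prod) *ᵥ z) := by
        rw [smul_mulVec, dotProduct_smul, smul_eq_mul]
      rw [← e2, ← hM, e1, def_congr]
    refine ⟨κ' * (if 0 < lam * η then 1 else -1), ?_, fun x hx => ?_⟩
    · rcases hκ' with h0 | h0 <;> rw [h0] <;> split_ifs <;> norm_num
    · have hz : wi *ᵥ x ≠ 0 := by
        intro h0
        apply hx
        have : x = w *ᵥ (wi *ᵥ x) := by rw [mulVec_mulVec, hwwi, one_mulVec]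
        rw [this, h0, mulVec_zero]
      have hp := hpos _ hz
      rw [main]
      split_ifs with hs
      · have := mul_pos hs hp
        nlinarith
      · have hs' : 0 < - (lam * η) := by
          rcases lt_or_gt_of_ne hlη with h0 | h0
          · linarith
          · exact absurd h0 hs
        have := mul_pos hs' hp
        nlinarith

end Pool.Agent.H31.GS
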