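import Pool.Agent.H31.GS.Basic

/-!
# helper31, GS, module DEFS: graded systems of real matrices, Gram matrices, the class `Red`

All definitions used in the final statement are in `Basic.lean` and here.
-/

namespace Pool.Agent.H31.GS

open Finset

variable {V : Type} [Fintype V] [LinearOrder V]

section Mat

variable {ι : Type} [Fintype ι] [DecidableEq ι]

/-- Graded system of real matrices on `A`, with grading operator `γ`: `a v ^ 2 = b v ^ 2 = 0`,
`a v * b v + b v * a v = 1`, for adjacent `v`, `w` each of `a v`, `b v` anticommutes with each of `a w`, `b w`;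
`γ ^ 2 = 1` and `γ` anticommutes with all `a v`, `b v`. -/
structure GrM (G : SimpleGraph V) (A : Finset V) (a b : V → Matrix ι ι ℝ) (γ : Matrix ι ι ℝ) :
    Prop where
  aa : ∀ v ∈ A, a v * a v = 0
  bb : ∀ v ∈ A, b v * b v = 0
  ab : ∀ v ∈ A, a v * b v + b v * a v = 1
  caa : ∀ v ∈ A, ∀ w ∈ A, G.Adj v w → a v * a w = - (a w * a v)
  cab : ∀ v ∈ A, ∀ w ∈ A, G.Adj v w → a v * b w = - (b w * a v)
  cbb : ∀ v ∈ A, ∀ w ∈ A, G.Adj v w → b v * b w = - (b w * b v)
  gg : γ * γ = 1
  ga : ∀ v ∈ A, γ * a v = - (a v * γ)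
  gb : ∀ v ∈ A, γ * b v = - (b v * γ)

/-- The complex of `A` with coefficients in the system is exact (in all degrees). -/
def ExM (G : SimpleGraph V) (a : V → Matrix ι ι ℝ) (A : Finset V) : Prop :=
  ∀ i, ExC G (fun v => Matrix.toLin' (a v)) A i

end Mat

/-- `A` is acyclic for some graded system of real matrices. -/
def RAcy (G : SimpleGraph V) (A : Finset V) : Prop :=
  ∃ (ι : Type) (_ : Fintype ι) (_ : DecidableEq ι) (_ : Nonempty ι)
    (a b : V → Matrix ι ι ℝ) (γ : Matrix ι ι ℝ), GrM G A a b γ ∧ ExM G a A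

/-- The vertices of `A` have a right-angled reflection Gram matrix with at most `d` positive eigenvalues:
`m v w = ∑ P v i * P w i - ∑ Q v j * Q w j` (`d` positive, `q` negative coordinates) is `1` for `v = w`, `0` for adjacent
`v`, `w` and negative for distinct non-adjacent `v`, `w`. -/
def Gram (G : SimpleGraph V) (A : Finset V) (d : ℕ) : Prop :=
  ∃ (q : ℕ) (P : V → Fin d → ℝ) (Q : V → Fin q → ℝ), ∀ v ∈ A, ∀ w ∈ A,
    (v = w → ∑ i, P v i * P w i - ∑ j, Q v j * Q w j = 1) ∧
    (G.Adj v w → ∑ i, P v i * P w i - ∑ j, Q v j * Q w j = 0) ∧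
    (v ≠ w → ¬ G.Adj v w → ∑ i, P v i * P w i - ∑ j, Q v j * Q w j < 0)

/-- The graph in which the neighbours of `u` are added to those of `c` (then deleting `u` contracts
`u` into `c`). -/
def contract (G : SimpleGraph V) (u c : V) : SimpleGraph V where
  Adj x y := x ≠ y ∧ (G.Adj x y ∨ (x = c ∧ G.Adj u y) ∨ (y = c ∧ G.Adj u x))
  symm := ⟨by
    intro x y h
    refine ⟨h.1.symm, ?_⟩
    rcases h.2 with h | h | h
    · exact Or.inl h.symm
    · exact Or.inr (Or.inr h)
    · exact Or.inr (Or.inl h)⟩
  loopless := ⟨fun _ h => h.1 rfl⟩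

/-- The graph `G` with the edge `x y` added. -/
def addEdge (G : SimpleGraph V) (x y : V) : SimpleGraph V where
  Adj u v := u ≠ v ∧ (G.Adj u v ∨ (u = x ∧ v = y) ∨ (u = y ∧ v = x))
  symm := ⟨by
    intro u v h
    refine ⟨h.1.symm, ?_⟩
    rcases h.2 with h | h | h
    · exact Or.inl h.symm
    · exact Or.inr (Or.inr ⟨h.2, h.1⟩)
    · exact Or.inr (Or.inl ⟨h.2, h.1⟩)⟩
  loopless := ⟨fun _ h => h.1 rfl⟩

/-- `Sep G A B`: no edge of `G` joins `A \ B` to `B \ A`. -/
def Sep (G : SimpleGraph V) (A B : Finset V) : Prop :=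
  ∀ x ∈ A, x ∉ B → ∀ y ∈ B, y ∉ A → ¬ G.Adj x y

/-- `NoSq G A u c`: the edge `u c` is in no induced 4-cycle `u x y c` of `A`. -/
def NoSq (G : SimpleGraph V) (A : Finset V) (u c : V) : Prop :=
  ∀ x ∈ A, ∀ y ∈ A, G.Adj u x → x ≠ c → ¬ G.Adj c x → G.Adj c y → y ≠ u → ¬ G.Adj u y →
    ¬ G.Adj x y

/-- The real reducible sets: the least family containing the links of odd rank of all flag spheres with a
right-angled reflection Gram matrix, all sets acyclic for some graded system of real matrices and the
suspensions (for a graph in which `p`, `q` are not adjacent, and adjacent to all other vertices), and closed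
under two-out-of-three for `A.erase v`, `A`, `lk A v`, two-out-of-three for `A ∩ B`, `A ∪ B`, (`A` and `B`) when no
edge joins `A \ B` to `B \ A`, deletion of an edge with reducible link, splitting of a vertex into an edge which is
in no induced 4-cycle and has a reducible link, and change of the graph outside `A`. -/
inductive Red : SimpleGraph V → Finset V → Prop
  /-- links of odd rank of a flag sphere of rank `d` with a right-angled reflection Gram matrix -/
  | gram (G : SimpleGraph V) (A : Finset V) (d : ℕ) (r : Finset V) : FlagSphere G d A → Gram G A d →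
      Cl G A r → Odd (d - r.card) → Red G (lk G A r)
  /-- acyclic for some graded system -/
  | gen (G : SimpleGraph V) (A : Finset V) : RAcy G A → Red G A
  /-- suspensions `{p, q} * B` -/
  | susp (G : SimpleGraph V) (A : Finset V) (p q : V) : p ∈ A → q ∈ A → p ≠ q → ¬ G.Adj p q →
      (∀ x ∈ A, x ≠ p → x ≠ q → G.Adj p x ∧ G.Adj q x) → Red G A
  /-- only the graph on `A` matters -/
  | congr (G G' : SimpleGraph V) (A : Finset V) : (∀ x ∈ A, ∀ y ∈ A, (G.Adj x y ↔ G'.Adj x y)) →
      Red G A → Red G' A
  /-- `A.erase v` and the link of `v` give `A` -/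
  | vertexA (G : SimpleGraph V) (A : Finset V) (v : V) : v ∈ A → Red G (A.erase v) →
      Red G (lk G A {v}) → Red G A
  /-- `A` and the link of `v` give `A.erase v` -/
  | vertexB (G : SimpleGraph V) (A : Finset V) (v : V) : v ∈ A → Red G A →
      Red G (lk G A {v}) → Red G (A.erase v)
  /-- `A` and `A.erase v` give the link of `v` -/
  | vertexC (G : SimpleGraph V) (A : Finset V) (v : V) : v ∈ A → Red G A →
      Red G (A.erase v) → Red G (lk G A {v})
  | unionA (G : SimpleGraph V) (A B : Finset V) : Sep G A B → Red G A → Red G B →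
      Red G (A ∩ B) → Red G (A ∪ B)
  | unionB (G : SimpleGraph V) (A B : Finset V) : Sep G A B → Red G (A ∪ B) →
      Red G (A ∩ B) → Red G A
  | unionC (G : SimpleGraph V) (A B : Finset V) : Sep G A B → Red G A → Red G B →
      Red G (A ∪ B) → Red G (A ∩ B)
  /-- deletion of an edge `x y` with reducible link -/
  | edge (G : SimpleGraph V) (A : Finset V) (x y : V) : x ∈ A → y ∈ A → x ≠ y → ¬ G.Adj x y →
      Red (addEdge G x y) A → Red G (lk G A {x, y}) → Red G A
  /-- `u c` is an edge in no induced 4-cycle; `A.erase u` with the graph `contract G u c` is the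
  contraction of `A` along `u c` -/
  | split (G : SimpleGraph V) (A : Finset V) (u c : V) : u ∈ A → c ∈ A → G.Adj u c → NoSq G A u c →
      Red (contract G u c) (A.erase u) → Red G (lk G A {u, c}) → Red G A

end Pool.Agent.H31.GS
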