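import Pool.Agent.H31.GS.Rules1

/-!
# helper31, GS, module RULES2: deleting a vertex, exactness of the link

Throughout `v ∈ A`, `A' = A.erase v`, `L = lk G A {v}`; the simplices of `A` containing `v` are `insert v t`, `t` a
simplex of `L` (`cl_insert`, `cl_erase`), the others are the simplices of `A'`.

`R2`: `y` closed on `A'`, degree `i`. `z t = a v (y t)` for `t` a simplex of `L` with `i` elements is closed on `L` and
killed by `a v`, so `z = cob a x'`. Put `y' t = if v ∈ t then - x' (t.erase v) else y t`: closed on `A` (for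
`t = insert v t'`, `t'.card = i`: `a v (y t') - ∑ u ∈ t', a u (x' (t'.erase u)) = 0`), so `y' = cob a x` on `A` and
`y = cob a x` on `A'`.

`R3`: `y` closed on `L`, degree `j`, values in the cells (coefficients in `U`). Write `y = a v (b v y) + b v (a v y)`;
it suffices to treat `z = a v (b v (y t))` (killed by `a v`) and `w = a v (y t)` (killed by `a v`,
and `b v (a v (y t)) = b v (w t)`; `b v` anticommutes with the `a u`, `u ∈ L`, use `Bd.map_anti`). So let `z` be closed on
`L`, degree `j`, killed by `a v`. Put `y' t = if v ∈ t then z (t.erase v) else 0`, degree `j + 1`, closed on `A` (for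
`t = insert v t'`, `t'.card = j + 1`: `a v 0 + cob a z t' = 0`). So `y' = cob a x` on `A`. On `A'`, `cob a x = 0`, `x` of
degree `j`; so `x = cob a x1` on `A'`, `x1` of degree `j - 1` (if `j = 0` this says `x ∅ = 0`). For `t` a simplex of `L`
with `j` elements: `z t = cob a x (insert v t) = a v (x t) + ∑ u ∈ t, a u (x (insert v (t.erase u)))` and
`a v (x t) = a v (cob a x1 t) = - ∑ u ∈ t, a u (a v (x1 (t.erase u)))`. So `z = cob a x2` on `L` with
`x2 t = x (insert v t) - a v (x1 t)`.
-/

namespace Pool.Agent.H31.GS

open Finset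

set_option linter.unusedSectionVars false
set_option linter.unusedVariables false

variable {V : Type} [Fintype V] [LinearOrder V] {G : SimpleGraph V}
variable {U : Type} [AddCommGroup U] [Module ℝ U] {a b : V → Module.End ℝ U}

theorem R2 {A : Finset V} (h : GSys G A a b) {v : V} (hv : v ∈ A) {i : ℕ}
    (hA : ExC G a A i) (hL : ExC G a (lk G A {v}) i) : ExC G a (A.erase v) i := by
  classical
  intro y hy hcl
  have hLA : ∀ t, Cl G (lk G A {v}) t → Cl G (A.erase v) t := fun t ht =>
    (ht.mono (lk_subset A {v})).of_erase_set (cl_insert hv ht).2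
  have hz1 : InC G a (lk G A {v}) i (fun t => a v (y t)) := by
    intro t ht hi u hu
    have hadj : G.Adj u v := (mem_lk_singleton.1 (ht.1 hu)).2.symm
    show a u (a v (y t)) = 0
    rw [h.caa u (lk_subset _ _ (ht.1 hu)) v hv hadj, hy t (hLA t ht) hi u hu, map_zero, neg_zero]
  have hz2 : Clo G a (lk G A {v}) i (fun t => a v (y t)) := by
    intro t ht hi
    rw [cob_anti (T := a v) (fun u hu x =>
      h.caa u (lk_subset _ _ (ht.1 hu)) v hv (mem_lk_singleton.1 (ht.1 hu)).2.symm x),
      hcl t (hLA t ht) hi, map_zero, neg_zero]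
  obtain ⟨x', hx1, hx2, hx3⟩ := lk_val h hv (hL _ hz1 hz2) (fun t _ _ => h.aa v hv _)
  have hy1 : InC G a A i (fun t => if v ∈ t then - x' (t.erase v) else y t) := by
    intro s hs hi
    by_cases hvs : v ∈ s
    · simp only [if_pos hvs]
      intro u hu
      rw [map_neg, neg_eq_zero]
      by_cases huv : u = v
      · rw [huv]; exact hx2 _
      · exact hx1 _ (cl_erase hs hvs) (by rw [card_erase_add_one hvs, hi]) u
          (mem_erase.2 ⟨huv, hu⟩)
    · simp only [if_neg hvs]
      exact hy s (hs.of_erase_set hvs) hi
  have hy2 : Clo G a A i (fun t => if v ∈ t then - x' (t.erase v) else y t) := by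
    intro s hs hi
    by_cases hvs : v ∈ s
    · have hs' : s = insert v (s.erase v) := (insert_erase hvs).symm
      have hvt : v ∉ s.erase v := notMem_erase v s
      have htc : (s.erase v).card = i := by
        have := card_erase_add_one hvs
        omega
      have h5 := hx3 _ (cl_erase hs hvs) htc
      rw [hs', cob_insert hvt]
      have h0 : ∑ u ∈ s.erase v, a u ((fun t => if v ∈ t then - x' (t.erase v) else y t)
          (insert v ((s.erase v).erase u))) = - cob a x' (s.erase v) := by
        rw [cob, ← sum_neg_distrib]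
        refine sum_congr rfl fun u _ => ?_
        have hn : v ∉ (s.erase v).erase u := fun hh => hvt (mem_of_mem_erase hh)
        simp only [if_pos (mem_insert_self v _), erase_insert hn, map_neg]
      rw [h0, ← h5]
      simp only [if_neg hvt]
      abel
    · have hcg : cob a (fun t => if v ∈ t then - x' (t.erase v) else y t) s = cob a y s := by
        refine cob_congr fun u hu => ?_
        have : v ∉ s.erase u := fun hh => hvs (mem_of_mem_erase hh)
        simp only [if_neg this]
      rw [hcg]
      exact hcl s (hs.of_erase_set hvs) hi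
  obtain ⟨x, h1, h2⟩ := hA _ hy1 hy2
  refine ⟨x, fun s hs hi => h1 s (hs.mono (erase_subset _ _)) hi, fun s hs hi => ?_⟩
  have h3 := h2 s (hs.mono (erase_subset _ _)) hi
  have hvs : v ∉ s := fun hh => (notMem_erase v A) (hs.1 hh)
  simp only [if_neg hvs] at h3
  exact h3

theorem rules2_kill {A : Finset V} (h : GSys G A a b) {v : V} (hv : v ∈ A) {j : ℕ}
    (hA : ExC G a A (j + 1)) (hE : ExC G a (A.erase v) j) {z : Finset V → U}
    (hz : InC G a (lk G A {v}) j z) (hcl : Clo G a (lk G A {v}) j z)
    (hk : ∀ s, Cl G (lk G A {v}) s → s.card = j → a v (z s) = 0) :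
    Bd G a (lk G A {v}) j z := by
  classical
  have hLA : ∀ t, Cl G (lk G A {v}) t → Cl G (A.erase v) t := fun t ht =>
    (ht.mono (lk_subset A {v})).of_erase_set (cl_insert hv ht).2
  have hy1 : InC G a A (j + 1) (fun t => if v ∈ t then z (t.erase v) else 0) := by
    intro s hs hi
    by_cases hvs : v ∈ s
    · simp only [if_pos hvs]
      have htc : (s.erase v).card = j := by
        have := card_erase_add_one hvs
        omega
      intro u hu
      by_cases huv : u = v
      · rw [huv]; exact hk _ (cl_erase hs hvs) htc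
      · exact hz _ (cl_erase hs hvs) htc u (mem_erase.2 ⟨huv, hu⟩)
    · simp only [if_neg hvs]
      exact Submodule.zero_mem _
  have hy2 : Clo G a A (j + 1) (fun t => if v ∈ t then z (t.erase v) else 0) := by
    intro s hs hi
    by_cases hvs : v ∈ s
    · have hs' : s = insert v (s.erase v) := (insert_erase hvs).symm
      have hvt : v ∉ s.erase v := notMem_erase v s
      have htc : (s.erase v).card = j + 1 := by
        have := card_erase_add_one hvs
        omega
      rw [hs', cob_insert hvt]
      have h0 : ∑ u ∈ s.erase v, a u ((fun t => if v ∈ t then z (t.erase v) else 0)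
          (insert v ((s.erase v).erase u))) = cob a z (s.erase v) := by
        refine sum_congr rfl fun u _ => ?_
        have hn : v ∉ (s.erase v).erase u := fun hh => hvt (mem_of_mem_erase hh)
        simp only [if_pos (mem_insert_self v _), erase_insert hn]
      rw [h0, hcl _ (cl_erase hs hvs) htc]
      simp only [if_neg hvt, map_zero, add_zero]
    · have hcg : cob a (fun t => if v ∈ t then z (t.erase v) else 0) s
          = cob a (fun _ => (0 : U)) s := by
        refine cob_congr fun u hu => ?_
        have : v ∉ s.erase u := fun hh => hvs (mem_of_mem_erase hh)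
        simp only [if_neg this]
      rw [hcg]
      simp only [cob, map_zero, sum_const_zero]
  obtain ⟨x, h1, h2⟩ := hA _ hy1 hy2
  have hx1 : InC G a (A.erase v) j x := fun s hs hi =>
    h1 s (hs.mono (erase_subset _ _)) (by rw [hi])
  have hx2 : Clo G a (A.erase v) j x := by
    intro s hs hi
    have hvs : v ∉ s := fun hh => (notMem_erase v A) (hs.1 hh)
    have h3 := h2 s (hs.mono (erase_subset _ _)) hi
    simp only [if_neg hvs] at h3
    exact h3.symm
  obtain ⟨x1, h3, h4⟩ := hE x hx1 hx2
  refine ⟨fun t => x (insert v t) - a v (x1 t), ?_, ?_⟩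
  · intro t ht hi u hu
    obtain ⟨hc, hvt⟩ := cl_insert hv ht
    have hadj : G.Adj u v := (mem_lk_singleton.1 (ht.1 hu)).2.symm
    have h5 := h1 (insert v t) hc (by rw [card_insert_of_notMem hvt, hi]) u (mem_insert_of_mem hu)
    have h6 := h3 t (hLA t ht) hi u hu
    show a u (x (insert v t) - a v (x1 t)) = 0
    rw [map_sub, h5, h.caa u (lk_subset _ _ (ht.1 hu)) v hv hadj, h6, map_zero]
    simp
  · intro t ht hi
    obtain ⟨hc, hvt⟩ := cl_insert hv ht
    have h5 := h2 (insert v t) hc (by rw [card_insert_of_notMem hvt, hi])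
    simp only [if_pos (mem_insert_self v t), erase_insert hvt] at h5
    rw [cob_insert hvt, h4 t (hLA t ht) hi] at h5
    have h6 : cob a (fun s => a v (x1 s)) t = - a v (cob a x1 t) := by
      refine cob_anti ?_
      intro u hu w
      exact h.caa u (lk_subset _ _ (ht.1 hu)) v hv (mem_lk_singleton.1 (ht.1 hu)).2.symm w
    have h7 : cob a (fun s => x (insert v s)) t = ∑ u ∈ t, a u (x (insert v (t.erase u))) := rfl
    rw [cob_sub, h6, h7, h5]
    abel

theorem R3 {A : Finset V} (h : GSys G A a b) {v : V} (hv : v ∈ A) {j : ℕ}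
    (hA : ExC G a A (j + 1)) (hE : ExC G a (A.erase v) j) : ExC G a (lk G A {v}) j := by
  intro y hy hcl
  have hadj : ∀ t, Cl G (lk G A {v}) t → ∀ u ∈ t, u ∈ A ∧ G.Adj u v := fun t ht u hu =>
    ⟨lk_subset _ _ (ht.1 hu), (mem_lk_singleton.1 (ht.1 hu)).2.symm⟩
  have hab : ∀ u ∈ lk G A {v}, ∀ x, a u (a v (b v x)) = a v (b v (a u x)) := by
    intro u hu x
    have huA : u ∈ A := lk_subset _ _ hu
    have e : G.Adj u v := (mem_lk_singleton.1 hu).2.symm
    rw [h.caa u huA v hv e, h.cab u huA v hv e, map_neg, neg_neg]
  have hz : Bd G a (lk G A {v}) j (fun t => a v (b v (y t))) := by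
    refine rules2_kill h hv hA hE ?_ ?_ (fun _ _ _ => h.aa v hv _)
    · intro t ht hi u hu
      show a u (a v (b v (y t))) = 0
      rw [hab u (ht.1 hu), hy t ht hi u hu, map_zero, map_zero]
    · intro t ht hi
      have hcm : cob a (fun t => (a v * b v) (y t)) t = (a v * b v) (cob a y t) := by
        refine cob_comm ?_
        intro u hu x
        simp only [Module.End.mul_apply]
        exact hab u (ht.1 hu) x
      have h4 : cob a (fun t => a v (b v (y t))) t = a v (b v (cob a y t)) := hcm
      rw [h4, hcl t ht hi, map_zero, map_zero]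
  have hw : Bd G a (lk G A {v}) j (fun t => a v (y t)) := by
    refine rules2_kill h hv hA hE ?_ ?_ (fun _ _ _ => h.aa v hv _)
    · intro t ht hi u hu
      obtain ⟨huA, e⟩ := hadj t ht u hu
      show a u (a v (y t)) = 0
      rw [h.caa u huA v hv e, hy t ht hi u hu, map_zero, neg_zero]
    · intro t ht hi
      rw [cob_anti (T := a v) (fun u hu x => h.caa u (hadj t ht u hu).1 v hv (hadj t ht u hu).2 x),
        hcl t ht hi, map_zero, neg_zero]
  have hbw : Bd G a (lk G A {v}) j (fun t => b v (a v (y t))) := by
    refine hw.map_anti (T := b v) ?_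
    intro u hu x
    exact h.cab u (lk_subset _ _ hu) v hv (mem_lk_singleton.1 hu).2.symm x
  exact (hz.add hbw).congr (fun s _ _ => h.ab v hv (y s))

end Pool.Agent.H31.GS
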