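import Pool.Agent.H31.GS.Rules1
import Pool.Agent.H31.GS.Rules2

/-!
# helper31, GS, module RULES: RULES1 and RULES2
-/
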