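import Pool.Agent.H31.GS.Defs
import Pool.Agent.H31.GS.Cob
import Pool.Agent.H31.GS.Rules

/-!
# helper31, GS, module ED: deletion of an edge; suspensions

`ex_edge`. `G' = addEdge G x y`, `L = lk G A {x, y}` (not containing `x`, `y`; `G` and `G'` agree on `L`, and on pairs different from
`{x, y}`). The simplices of `A` for `G'` are those for `G` and the `insert x (insert y t)`, `t` a simplex of `L`.
Let `y0` be closed for `(G, A)`, degree `i`; extend by zero: `y1 s = 0` if `x ∈ s ∧ y ∈ s`, else `y0 s`. For a simplex `t` of `L` with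
`t.card + 1 = i`: `z t = cob y1 (insert x (insert y t)) = a x (y0 (insert y t)) + a y (y0 (insert x t))` (the other terms are values of
`y1` at sets containing `x` and `y`). `z t ∈ Cell a (insert x (insert y t))` (`cob_mem`), so it is killed by `a x`, `a y`; `z` is closed on
`L` of degree `i - 1`: for a simplex `t` of `L`, `0 = cob (cob y1) (insert x (insert y t))`, where `cob y1` vanishes on the faces
`insert x t`, `insert y t` (`y0` is closed for `G`), so `0 = ∑ u ∈ t, a u (z (t.erase u))`. (`i = 0`: nothing to do, `y1 = y0` is closed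
for `G'`: the only faces of size `0`...: for `i = 0` use `t` with `t.card + 2 = i + 1` impossible.)
By exactness of `L` and `lk_val` twice (or directly: replace `w t` by `a x (b x (a y (b y (w t))))`, which commutes with the `a u`,
`u ∈ L`, and does not change `z`): `z = cob w` on `L`, `w t` in the cell and killed by `a x`, `a y`, degree `i - 2`. Put
`y2 s = y1 s - w ((s.erase x).erase y)` if `x ∈ s ∧ y ∈ s`, `y1 s` otherwise, a closed cochain for `(G', A)` of degree `i`: at
`insert x (insert y t)`: `z t - ∑ u ∈ t, a u (w (t.erase u)) = 0`; at simplices not containing both: `cob y1 = cob y0 = 0`.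
So `y2 = cob X` for `G'`, and on the simplices of `G` (which do not contain both `x`, `y`) `y0 = y2 = cob X`.

`ex_susp`. `p`, `q` not adjacent, all other elements of `A` adjacent to both; `b p = a q`, `b q = a p`. `y` closed on `A`, degree `i`. Put
`x s = if p ∈ s ∨ q ∈ s then 0 else b p (y (insert p s)) + b q (y (insert q s))`, for simplices `s` with `s.card + 1 = i`, `p, q ∉ s`: `insert p s`
and `insert q s` are simplices. `x s ∈ Cell a s` (`b p`, `b q` anticommute with `a u`, `u ∈ s`). For a simplex `s` with `i`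
elements, `p, q ∉ s`: `cob x s = - b p (∑ u ∈ s, a u (y (insert p (s.erase u)))) - b q (...)`, and by closedness at `insert p s`:
`∑ u ∈ s, a u (y (insert p (s.erase u))) = - a p (y s)`; so `cob x s = b p (a p (y s)) + b q (a q (y s)) = b p (a p (y s)) + a p (b p (y s)) = y s`.
For `s = insert p t`: `cob x s = a p (x t) + 0 = a p (b p (y s)) + a p (b q (y (insert q t))) = a p (b p (y s)) + a p (a p _) = y s - b p (a p (y s)) = y s`
(other terms are `x` of sets containing `p`). Similarly for `q`. (No simplex contains both.) For `i = 0`: `y ∅ = b p (a p (y ∅)) + a p (b p (y ∅))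
= b p (a p (y ∅)) + b q (a q (y ∅)) = 0`, the same formula.
-/

namespace Pool.Agent.H31.GS

open Finset

set_option linter.unusedSectionVars false
set_option linter.unusedVariables false

variable {V : Type} [Fintype V] [LinearOrder V] {G : SimpleGraph V}
variable {U : Type} [AddCommGroup U] [Module ℝ U] {a b : V → Module.End ℝ U}

theorem ed_ins2 {f : Finset V → U} {x y : V} {t : Finset V} (hx : x ∉ insert y t) (hy : y ∉ t) :
    cob a f (insert x (insert y t)) = a x (f (insert y t)) + (a y (f (insert x t)) +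
      ∑ u ∈ t, a u (f (insert x (insert y (t.erase u))))) := by
  rw [cob_insert hx, sum_insert hy, erase_insert hy]
  congr 2
  refine sum_congr rfl (fun u hu => ?_)
  have hne : u ≠ y := fun h => hy (h ▸ hu)
  rw [erase_insert_of_ne hne.symm]

theorem ed_adj {x y u v : V} (h : G.Adj u v) : (addEdge G x y).Adj u v :=
  ⟨h.ne, Or.inl h⟩

theorem ed_sys {A : Finset V} {x y : V} (h : GSys (addEdge G x y) A a b) : GSys G A a b :=
  ⟨h.aa, h.bb, h.ab, fun v hv w hw e => h.caa v hv w hw (ed_adj e),
    fun v hv w hw e => h.cab v hv w hw (ed_adj e), fun v hv w hw e => h.cbb v hv w hw (ed_adj e)⟩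

theorem ed_cl {A s : Finset V} {x y : V} (h : Cl G A s) : Cl (addEdge G x y) A s :=
  ⟨h.1, fun u hu v hv huv => ed_adj (h.2 hu hv huv)⟩

theorem ed_cl_of {A s : Finset V} {x y : V} (h : Cl (addEdge G x y) A s) (hxy : ¬ (x ∈ s ∧ y ∈ s)) :
    Cl G A s := by
  rw [comb1_cl_iff]
  refine ⟨h.1, fun u hu v hv huv => ?_⟩
  rcases (h.adj hu hv huv).2 with h1 | h1 | h1
  · exact h1
  · exact absurd ⟨h1.1 ▸ hu, h1.2 ▸ hv⟩ hxy
  · exact absurd ⟨h1.2 ▸ hv, h1.1 ▸ hu⟩ hxy

theorem ed_bd {A : Finset V} {x y : V} {i : ℕ} {z : Finset V → U}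
    (h : Bd (addEdge G x y) a A i z) : Bd G a A i z := by
  obtain ⟨w, h1, h2⟩ := h
  exact ⟨w, fun s hs hi => h1 s (ed_cl hs) hi, fun s hs hi => h2 s (ed_cl hs) hi⟩

theorem ed_mem_lk {A : Finset V} {x y u : V} : u ∈ lk G A {x, y} ↔ u ∈ A ∧ G.Adj x u ∧ G.Adj y u := by
  simp [mem_lk]

/-- simplices of the link of the new edge -/
theorem ed_lk {A t : Finset V} {x y : V} (hx : x ∈ A) (hy : y ∈ A) (hxy : x ≠ y)
    (ht : Cl G (lk G A {x, y}) t) :
    x ∉ insert y t ∧ y ∉ t ∧ x ∉ t ∧ Cl G A (insert x t) ∧ Cl G A (insert y t) ∧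
      Cl (addEdge G x y) A (insert x (insert y t)) := by
  have hA : ∀ u ∈ t, u ∈ A ∧ G.Adj x u ∧ G.Adj y u := fun u hu => ed_mem_lk.1 (ht.1 hu)
  have hxt : x ∉ t := fun h => G.loopless.irrefl x (hA x h).2.1
  have hyt : y ∉ t := fun h => G.loopless.irrefl y (hA y h).2.2
  refine ⟨?_, hyt, hxt, ?_, ?_, ?_⟩
  · rw [mem_insert]
    rintro (h | h)
    · exact hxy h
    · exact hxt h
  · rw [comb1_cl_iff]
    refine ⟨insert_subset_iff.2 ⟨hx, fun u hu => (hA u hu).1⟩, fun u hu v hv huv => ?_⟩
    rcases mem_insert.1 hu with rfl | hu1 <;> rcases mem_insert.1 hv with rfl | hv1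
    · exact absurd rfl huv
    · exact (hA v hv1).2.1
    · exact (hA u hu1).2.1.symm
    · exact ht.adj hu1 hv1 huv
  · rw [comb1_cl_iff]
    refine ⟨insert_subset_iff.2 ⟨hy, fun u hu => (hA u hu).1⟩, fun u hu v hv huv => ?_⟩
    rcases mem_insert.1 hu with rfl | hu1 <;> rcases mem_insert.1 hv with rfl | hv1
    · exact absurd rfl huv
    · exact (hA v hv1).2.2
    · exact (hA u hu1).2.2.symm
    · exact ht.adj hu1 hv1 huv
  · rw [comb1_cl_iff]
    refine ⟨insert_subset_iff.2 ⟨hx, insert_subset_iff.2 ⟨hy, fun u hu => (hA u hu).1⟩⟩,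
      fun u hu v hv huv => ⟨huv, ?_⟩⟩
    rcases mem_insert.1 hu with rfl | hu1
    · rcases mem_insert.1 hv with rfl | hv1
      · exact absurd rfl huv
      · rcases mem_insert.1 hv1 with rfl | hv2
        · exact Or.inr (Or.inl ⟨rfl, rfl⟩)
        · exact Or.inl (hA v hv2).2.1
    · rcases mem_insert.1 hu1 with rfl | hu2
      · rcases mem_insert.1 hv with rfl | hv1
        · exact Or.inr (Or.inr ⟨rfl, rfl⟩)
        · rcases mem_insert.1 hv1 with rfl | hv2
          · exact absurd rfl huv
          · exact Or.inl (hA v hv2).2.2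
      · rcases mem_insert.1 hv with rfl | hv1
        · exact Or.inl (hA u hu2).2.1.symm
        · rcases mem_insert.1 hv1 with rfl | hv2
          · exact Or.inl (hA u hu2).2.2.symm
          · exact Or.inl (ht.adj hu2 hv2 huv)

/-- simplices containing the new edge -/
theorem ed_both {A s : Finset V} {x y : V} (hxy : x ≠ y) (hs : Cl (addEdge G x y) A s)
    (hxs : x ∈ s) (hys : y ∈ s) : Cl G (lk G A {x, y}) ((s.erase x).erase y) ∧
      insert x (insert y ((s.erase x).erase y)) = s ∧ ((s.erase x).erase y).card + 2 = s.card := by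
  have hys' : y ∈ s.erase x := mem_erase.2 ⟨hxy.symm, hys⟩
  have hm : ∀ u ∈ (s.erase x).erase y, u ≠ x ∧ u ≠ y ∧ u ∈ s := fun u hu =>
    ⟨(mem_erase.1 (mem_erase.1 hu).2).1, (mem_erase.1 hu).1, (mem_erase.1 (mem_erase.1 hu).2).2⟩
  have hadj : ∀ u ∈ s, ∀ v ∈ s, u ≠ v → ¬ (u = x ∧ v = y) → ¬ (u = y ∧ v = x) → G.Adj u v := by
    intro u hu v hv huv h1 h2
    rcases (hs.adj hu hv huv).2 with h3 | h3 | h3
    · exact h3
    · exact absurd h3 h1
    · exact absurd h3 h2
  refine ⟨?_, ?_, ?_⟩
  · rw [comb1_cl_iff]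
    refine ⟨fun u hu => ?_, fun u hu v hv huv => ?_⟩
    · obtain ⟨h1, h2, h3⟩ := hm u hu
      refine ed_mem_lk.2 ⟨hs.1 h3, hadj x hxs u h3 h1.symm (fun h => h2 h.2) (fun h => h1 h.2),
        hadj y hys u h3 h2.symm (fun h => h2 h.2) (fun h => h1 h.2)⟩
    · obtain ⟨h1, h2, h3⟩ := hm u hu
      obtain ⟨h4, h5, h6⟩ := hm v hv
      exact hadj u h3 v h6 huv (fun h => h1 h.1) (fun h => h2 h.1)
  · rw [insert_erase hys', insert_erase hxs]
  · have h1 := card_erase_add_one hys'
    have h2 := card_erase_add_one hxs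
    omega

theorem ex_edge {A : Finset V} {x y : V} (hx : x ∈ A) (hy : y ∈ A) (hxy : x ≠ y)
    (hna : ¬ G.Adj x y) (h : GSys (addEdge G x y) A a b)
    (hA : ∀ i, ExC (addEdge G x y) a A i) (hL : ∀ i, ExC G a (lk G A {x, y}) i) :
    ∀ i, ExC G a A i := by
  classical
  have hno : ∀ s, Cl G A s → ¬ (x ∈ s ∧ y ∈ s) := fun s hs h1 => hna (hs.adj h1.1 h1.2 hxy)
  have hxy' : (addEdge G x y).Adj x y := ⟨hxy, Or.inr (Or.inl ⟨rfl, rfl⟩)⟩
  intro i y0 hin hcl
  rcases i with _ | j
  · refine ed_bd (hA 0 y0 ?_ ?_)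
    · intro s hs hi v hv
      rw [card_eq_zero.1 hi] at hv
      exact absurd hv (notMem_empty _)
    · intro s hs hi
      refine hcl s (ed_cl_of hs ?_) hi
      rintro ⟨h1, h2⟩
      obtain ⟨c, hc⟩ := card_eq_one.1 hi
      rw [hc, mem_singleton] at h1 h2
      exact hxy (h1.trans h2.symm)
  · -- the obstruction on the link
    set y1 : Finset V → U := fun s => if x ∈ s ∧ y ∈ s then 0 else y0 s with hy1
    have hy1b : ∀ s, x ∈ s → y ∈ s → y1 s = 0 := fun s h1 h2 => if_pos ⟨h1, h2⟩
    have hy1n : ∀ s, ¬ (x ∈ s ∧ y ∈ s) → y1 s = y0 s := fun s h1 => if_neg h1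
    set z : Finset V → U := fun t => cob a y1 (insert x (insert y t)) with hz
    have hzval : ∀ t, Cl G (lk G A {x, y}) t →
        z t = a x (y0 (insert y t)) + a y (y0 (insert x t)) := by
      intro t ht
      obtain ⟨e1, e2, e3, e4, e5, e6⟩ := ed_lk hx hy hxy ht
      show cob a y1 (insert x (insert y t)) = _
      rw [ed_ins2 e1 e2, hy1n _ (hno _ e5), hy1n _ (hno _ e4)]
      rw [sum_eq_zero, add_zero]
      intro u hu
      rw [hy1b _ (mem_insert_self _ _) (mem_insert_of_mem (mem_insert_self _ _)), map_zero]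
    have hzcell : ∀ t, Cl G (lk G A {x, y}) t → t.card = j →
        z t ∈ Cell a (insert x (insert y t)) := by
      intro t ht hj
      obtain ⟨e1, e2, e3, e4, e5, e6⟩ := ed_lk hx hy hxy ht
      refine cob_mem h e6 (fun v hv => ?_)
      by_cases hb : x ∈ (insert x (insert y t)).erase v ∧ y ∈ (insert x (insert y t)).erase v
      · rw [hy1b _ hb.1 hb.2]
        exact Submodule.zero_mem _
      · rw [hy1n _ hb]
        refine hin _ (ed_cl_of (e6.erase v) hb) ?_
        rw [card_erase_of_mem hv, card_insert_of_notMem e1, card_insert_of_notMem e2, hj]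
        omega
    have hz1 : InC G a (lk G A {x, y}) j z := by
      intro t ht hj u hu
      exact hzcell t ht hj u (mem_insert_of_mem (mem_insert_of_mem hu))
    have hz2 : Clo G a (lk G A {x, y}) j z := by
      intro t ht hj
      obtain ⟨e1, e2, e3, e4, e5, e6⟩ := ed_lk hx hy hxy ht
      have h0 := cob_cob h y1 e6
      rw [ed_ins2 e1 e2] at h0
      have h1 : cob a y1 (insert y t) = 0 := by
        rw [cob_congr (z := y0) (fun v hv => hy1n _ (hno _ (e5.erase v)))]
        exact hcl _ e5 (by rw [card_insert_of_notMem e2, hj])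
      have h2 : cob a y1 (insert x t) = 0 := by
        rw [cob_congr (z := y0) (fun v hv => hy1n _ (hno _ (e4.erase v)))]
        exact hcl _ e4 (by rw [card_insert_of_notMem e3, hj])
      rw [h1, h2, map_zero, map_zero, zero_add, zero_add] at h0
      exact h0
    obtain ⟨w, hw1, hw2⟩ := hL j z hz1 hz2
    set w' : Finset V → U := fun t => a x (b x (a y (b y (w t)))) with hw'
    have hadjx : ∀ u ∈ lk G A {x, y}, (addEdge G x y).Adj u x := fun u hu =>
      ed_adj (ed_mem_lk.1 hu).2.1.symm
    have hadjy : ∀ u ∈ lk G A {x, y}, (addEdge G x y).Adj u y := fun u hu =>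
      ed_adj (ed_mem_lk.1 hu).2.2.symm
    have hcx : ∀ u ∈ lk G A {x, y}, ∀ p, a u (a x (b x p)) = a x (b x (a u p)) := by
      intro u hu p
      rw [h.caa u (lk_subset _ _ hu) x hx (hadjx u hu), h.cab u (lk_subset _ _ hu) x hx (hadjx u hu),
        map_neg, neg_neg]
    have hcy : ∀ u ∈ lk G A {x, y}, ∀ p, a u (a y (b y p)) = a y (b y (a u p)) := by
      intro u hu p
      rw [h.caa u (lk_subset _ _ hu) y hy (hadjy u hu), h.cab u (lk_subset _ _ hu) y hy (hadjy u hu),
        map_neg, neg_neg]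
    have hw'x : ∀ t, a x (w' t) = 0 := fun t => h.aa x hx _
    have hw'y : ∀ t, a y (w' t) = 0 := by
      intro t
      show a y (a x (b x (a y (b y (w t))))) = 0
      rw [h.caa y hy x hx hxy'.symm, h.cab y hy x hx hxy'.symm, h.aa y hy]
      simp
    have hw'1 : ∀ t, Cl G (lk G A {x, y}) t → t.card + 1 = j → w' t ∈ Cell a t := by
      intro t ht hj u hu
      show a u (a x (b x (a y (b y (w t))))) = 0
      rw [hcx u (ht.1 hu), hcy u (ht.1 hu), hw1 t ht hj u hu]
      simp
    have hw'2 : ∀ t, Cl G (lk G A {x, y}) t → t.card = j → z t = cob a w' t := by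
      intro t ht hj
      have h1 : cob a w' t = (a x * b x * (a y * b y)) (cob a w t) := by
        refine cob_comm (T := a x * b x * (a y * b y)) ?_
        intro u hu p
        simp only [Module.End.mul_apply]
        rw [hcx u (ht.1 hu), hcy u (ht.1 hu)]
      have hzx : a x (z t) = 0 := hzcell t ht hj x (mem_insert_self _ _)
      have hzy : a y (z t) = 0 := hzcell t ht hj y (mem_insert_of_mem (mem_insert_self _ _))
      have h2 : a y (b y (z t)) = z t := by
        have := h.ab y hy (z t)
        rwa [hzy, map_zero, add_zero] at this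
      have h3 : a x (b x (z t)) = z t := by
        have := h.ab x hx (z t)
        rwa [hzx, map_zero, add_zero] at this
      rw [h1, ← hw2 t ht hj]
      simp only [Module.End.mul_apply]
      rw [h2, h3]
    set y2 : Finset V → U := fun s => if x ∈ s ∧ y ∈ s then - w' ((s.erase x).erase y) else y0 s
      with hy2
    have hy2n : ∀ s, ¬ (x ∈ s ∧ y ∈ s) → y2 s = y0 s := fun s h1 => if_neg h1
    have hy2b : ∀ s, x ∈ s → y ∈ s → y2 s = - w' ((s.erase x).erase y) := fun s h1 h2 =>
      if_pos ⟨h1, h2⟩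
    have hb2 : Bd (addEdge G x y) a A (j + 1) y2 := by
      refine hA (j + 1) y2 ?_ ?_
      · intro s hs hi
        by_cases hb : x ∈ s ∧ y ∈ s
        · obtain ⟨e1, e2, e3⟩ := ed_both hxy hs hb.1 hb.2
          rw [hy2b s hb.1 hb.2]
          refine Submodule.neg_mem _ ?_
          intro u hu
          by_cases hux : u = x
          · rw [hux]
            exact hw'x _
          · by_cases huy : u = y
            · rw [huy]
              exact hw'y _
            · exact hw'1 _ e1 (by omega) u (mem_erase.2 ⟨huy, mem_erase.2 ⟨hux, hu⟩⟩)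
        · rw [hy2n s hb]
          exact hin s (ed_cl_of hs hb) hi
      · intro s hs hi
        by_cases hb : x ∈ s ∧ y ∈ s
        · obtain ⟨e1, e2, e3⟩ := ed_both hxy hs hb.1 hb.2
          obtain ⟨f1, f2, f3, f4, f5, f6⟩ := ed_lk hx hy hxy e1
          have hj : ((s.erase x).erase y).card = j := by omega
          have h1 := hw'2 _ e1 hj
          rw [hzval _ e1] at h1
          rw [← e2]
          generalize (s.erase x).erase y = t at *
          rw [ed_ins2 f1 f2, hy2n _ (hno _ f5), hy2n _ (hno _ f4), ← add_assoc, h1]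
          have h4 : ∀ u ∈ t, a u (y2 (insert x (insert y (t.erase u)))) = - a u (w' (t.erase u)) := by
            intro u hu
            have g1 : x ∉ insert y (t.erase u) := fun h => f1 (by
              rcases mem_insert.1 h with h | h
              · exact mem_insert.2 (Or.inl h)
              · exact mem_insert_of_mem (mem_of_mem_erase h))
            have g2 : y ∉ t.erase u := fun h => f2 (mem_of_mem_erase h)
            rw [hy2b _ (mem_insert_self _ _) (mem_insert_of_mem (mem_insert_self _ _)),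
              erase_insert g1, erase_insert g2, map_neg]
          rw [sum_congr rfl h4, sum_neg_distrib]
          unfold cob
          rw [add_neg_cancel]
        · rw [cob_congr (z := y0) (fun v hv => hy2n _ (fun h1 =>
            hb ⟨mem_of_mem_erase h1.1, mem_of_mem_erase h1.2⟩))]
          exact hcl s (ed_cl_of hs hb) hi
    exact (ed_bd hb2).congr (fun s hs hi => hy2n s (hno s hs))

theorem ed_susp_aux {A : Finset V} {p q : V} (hp : p ∈ A)
    (h : GSys G A a b) (h2 : ∀ x, b q x = a p x) {i : ℕ} {y : Finset V → U} {x : Finset V → U}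
    (hin : InC G a A i y) {s : Finset V} (hs : Cl G A s) (hi : s.card = i) (hps : p ∈ s)
    (hx0 : ∀ t, p ∈ t → x t = 0)
    (hx1 : x (s.erase p) = b p (y (insert p (s.erase p))) + b q (y (insert q (s.erase p)))) :
    y s = cob a x s := by
  have h3 : cob a x s = a p (x (s.erase p)) := by
    unfold cob
    rw [← add_sum_erase s _ hps, sum_eq_zero, add_zero]
    intro u hu
    rw [hx0 _ (mem_erase.2 ⟨(mem_erase.1 hu).1.symm, hps⟩), map_zero]
  have h4 := h.ab p hp (y s)
  rw [hin s hs hi p hps, map_zero, add_zero] at h4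
  rw [h3, hx1, insert_erase hps, map_add, h2, h.aa p hp, add_zero, h4]

theorem ex_susp {A : Finset V} {p q : V} (hp : p ∈ A) (hq : q ∈ A) (hpq : p ≠ q)
    (hna : ¬ G.Adj p q) (hall : ∀ x ∈ A, x ≠ p → x ≠ q → G.Adj p x ∧ G.Adj q x)
    (h : GSys G A a b) (h1 : ∀ x, b p x = a q x) (h2 : ∀ x, b q x = a p x) :
    ∀ i, ExC G a A i := by
  classical
  intro i y hin hcl
  have hno : ∀ s, Cl G A s → p ∈ s → q ∉ s := fun s hs h3 h4 => hna (hs.adj h3 h4 hpq)
  have hadj : ∀ s, Cl G A s → p ∉ s → q ∉ s → ∀ u ∈ s, G.Adj p u ∧ G.Adj q u := by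
    intro s hs h3 h4 u hu
    exact hall u (hs.1 hu) (fun h => h3 (h ▸ hu)) (fun h => h4 (h ▸ hu))
  have hcl' : ∀ s, Cl G A s → p ∉ s → q ∉ s → Cl G A (insert p s) ∧ Cl G A (insert q s) := by
    intro s hs h3 h4
    have h5 := hadj s hs h3 h4
    constructor
    · refine (cl_insert hp ?_).1
      exact ⟨fun u hu => mem_lk_singleton.2 ⟨hs.1 hu, (h5 u hu).1⟩, hs.2⟩
    · refine (cl_insert hq ?_).1
      exact ⟨fun u hu => mem_lk_singleton.2 ⟨hs.1 hu, (h5 u hu).2⟩, hs.2⟩
  set x : Finset V → U := fun s => if p ∈ s ∨ q ∈ s then 0 else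
    b p (y (insert p s)) + b q (y (insert q s)) with hx
  have hx0 : ∀ t, p ∈ t → x t = 0 := fun t ht => if_pos (Or.inl ht)
  have hx0' : ∀ t, q ∈ t → x t = 0 := fun t ht => if_pos (Or.inr ht)
  have hx1 : ∀ t, p ∉ t → q ∉ t → x t = b p (y (insert p t)) + b q (y (insert q t)) := by
    intro t h3 h4
    exact if_neg (fun h => h.elim h3 h4)
  refine ⟨x, ?_, ?_⟩
  · intro s hs hi
    by_cases h3 : p ∈ s
    · rw [hx0 s h3]
      exact Submodule.zero_mem _
    · by_cases h4 : q ∈ s
      · rw [hx0' s h4]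
        exact Submodule.zero_mem _
      · rw [hx1 s h3 h4]
        obtain ⟨h5, h6⟩ := hcl' s hs h3 h4
        intro u hu
        obtain ⟨h7, h8⟩ := hadj s hs h3 h4 u hu
        have huA := hs.1 hu
        rw [map_add, h.cab u huA p hp h7.symm, h.cab u huA q hq h8.symm,
          hin _ h5 (by rw [card_insert_of_notMem h3, hi]) u (mem_insert_of_mem hu),
          hin _ h6 (by rw [card_insert_of_notMem h4, hi]) u (mem_insert_of_mem hu)]
        simp
  · intro s hs hi
    by_cases h3 : p ∈ s
    · have h4 := hno s hs h3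
      exact ed_susp_aux hp h h2 hin hs hi h3 hx0
        (hx1 _ (notMem_erase p s) (fun h => h4 (mem_of_mem_erase h)))
    · by_cases h4 : q ∈ s
      · refine ed_susp_aux hq h h1 hin hs hi h4 hx0' ?_
        rw [hx1 _ (fun h => h3 (mem_of_mem_erase h)) (notMem_erase q s), add_comm]
      · obtain ⟨h5, h6⟩ := hcl' s hs h3 h4
        have h7 := hcl _ h5 (by rw [card_insert_of_notMem h3, hi])
        have h8 := hcl _ h6 (by rw [card_insert_of_notMem h4, hi])
        rw [cob_insert h3] at h7
        rw [cob_insert h4] at h8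
        have h9 : cob a x s = - b p (∑ u ∈ s, a u (y (insert p (s.erase u)))) -
            b q (∑ u ∈ s, a u (y (insert q (s.erase u)))) := by
          unfold cob
          rw [map_sum, map_sum, ← sum_neg_distrib, ← sum_sub_distrib]
          refine sum_congr rfl (fun u hu => ?_)
          obtain ⟨g1, g2⟩ := hadj s hs h3 h4 u hu
          have huA := hs.1 hu
          rw [hx1 _ (fun h => h3 (mem_of_mem_erase h)) (fun h => h4 (mem_of_mem_erase h)), map_add,
            h.cab u huA p hp g1.symm, h.cab u huA q hq g2.symm, sub_eq_add_neg]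
        rw [h9, eq_neg_of_add_eq_zero_right h7, eq_neg_of_add_eq_zero_right h8, map_neg, neg_neg,
          map_neg, sub_neg_eq_add, h2, ← h1 (y s), add_comm, h.ab p hp]

end Pool.Agent.H31.GS
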