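import Pool.Agent.H31.GS.EulerAbs
import Pool.Agent.H31.GS.Cob

/-!
# helper31, GS, module EULER: Euler characteristic of the complex of a graded system

`dim_cell`: for a simplex `s` of `L`, `2 ^ s.card * finrank (Cell a s) = finrank U`. Induction on `s` (`Finset.induction_on`);
for `v ∉ s`, `insert v s` a simplex: the space `Cell a s` is preserved by `a v`, `b v` (they anticommute with `a u`, `u ∈ s`),
and `Cell a s ≃ Cell a (insert v s) × Cell a (insert v s)` via `x ↦ (a v x, a v (b v x))` with inverse `(p, q) ↦ b v p + q`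
(`a v (b v p + q) = a v (b v p) = p` as `a v p = 0`, `a v (b v (b v p + q)) = a v (b v q) = q`;
`b v (a v x) + a v (b v x) = x`).

`euler`: apply `euler_abs` to `X = (Finset V → U)`,
`C i = {y | y s ∈ Cell a s for all simplices s of L with s.card = i, y s = 0 for all other s}`,
`D y s = if Cl G L s then cob a y s else 0` (classical), `n = Fintype.card V`. `D (C i) ⊆ C (i+1)`: for a simplex `s` with
`s.card ≠ i + 1` all `y (s.erase v)` vanish; `cob_mem`. `D D = 0`: `cob_cob` (all `s.erase v` are simplices).
`ExC G a L i → ExAbs C D i`: given `y ∈ C i`, `D y = 0`, `ExC` gives `x`; truncate: `z s = x s` if `s` is a simplex with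
`s.card + 1 = i`, `0` otherwise. If `i = 0`, `y = 0`. And conversely `ExAbs C D m → ExC G a L m` (truncate a given
`y` to an element of `C m`).
`finrank (C i) = ∑ s simplex with s.card = i, finrank (Cell a s)` (see `finrank_Ch` in `Pool/Agent/H37/CD/Euler.lean`), so the
alternating sum is `finrank U * omega G L`.
-/

namespace Pool.Agent.H31.GS

open Finset

set_option linter.unusedSectionVars false
set_option linter.unusedVariables false

variable {V : Type} [Fintype V] [LinearOrder V] {G : SimpleGraph V}
variable {U : Type} [AddCommGroup U] [Module ℝ U] [FiniteDimensional ℝ U]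
variable {a b : V → Module.End ℝ U}

namespace EulerAux

omit [FiniteDimensional ℝ U] in
theorem a_mem {L : Finset V} (h : GSys G L a b) {v : V} {s : Finset V} (hv : v ∉ s)
    (hs : Cl G L (insert v s)) {x : U} (hx : x ∈ Cell a s) : a v x ∈ Cell a (insert v s) := by
  have hvL : v ∈ L := hs.1 (mem_insert_self v s)
  intro w hw
  rcases mem_insert.1 hw with rfl | hw'
  · exact h.aa _ hvL x
  · have hwL : w ∈ L := hs.1 (mem_insert_of_mem hw')
    have hadj : G.Adj w v := hs.adj (mem_insert_of_mem hw') (mem_insert_self v s)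
      (fun e => hv (e ▸ hw'))
    rw [h.caa w hwL v hvL hadj, hx w hw', map_zero, neg_zero]

omit [FiniteDimensional ℝ U] in
theorem b_mem {L : Finset V} (h : GSys G L a b) {v : V} {s : Finset V} (hv : v ∉ s)
    (hs : Cl G L (insert v s)) {x : U} (hx : x ∈ Cell a s) : b v x ∈ Cell a s := by
  have hvL : v ∈ L := hs.1 (mem_insert_self v s)
  intro w hw'
  have hwL : w ∈ L := hs.1 (mem_insert_of_mem hw')
  have hadj : G.Adj w v := hs.adj (mem_insert_of_mem hw') (mem_insert_self v s)
    (fun e => hv (e ▸ hw'))
  rw [h.cab w hwL v hvL hadj, hx w hw', map_zero, neg_zero]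

omit [FiniteDimensional ℝ U] in
theorem insert_le {v : V} {s : Finset V} {x : U} (hx : x ∈ Cell a (insert v s)) : x ∈ Cell a s :=
  fun w hw => hx w (mem_insert_of_mem hw)

/-- splitting a cell -/
noncomputable def splitEquiv {L : Finset V} (h : GSys G L a b) {v : V} {s : Finset V} (hv : v ∉ s)
    (hs : Cl G L (insert v s)) :
    Cell a s ≃ₗ[ℝ] Cell a (insert v s) × Cell a (insert v s) where
  toFun x := (⟨a v x.1, a_mem h hv hs x.2⟩, ⟨a v (b v x.1), a_mem h hv hs (b_mem h hv hs x.2)⟩)
  map_add' := by
    intro x y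
    ext1 <;> ext1 <;> simp only [Submodule.coe_add, map_add, Prod.mk_add_mk,
      AddMemClass.mk_add_mk]
  map_smul' := by
    intro c x
    ext1 <;> ext1 <;> simp only [Submodule.coe_smul, map_smul, Prod.smul_mk,
      RingHom.id_apply, SetLike.mk_smul_mk]
  invFun y := ⟨b v y.1.1 + y.2.1, (Cell a s).add_mem (b_mem h hv hs (insert_le y.1.2))
    (insert_le y.2.2)⟩
  left_inv := by
    intro x
    ext1
    simp only
    rw [add_comm]
    exact h.ab v (hs.1 (mem_insert_self v s)) x.1
  right_inv := by
    rintro ⟨⟨y, hy⟩, ⟨z, hz⟩⟩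
    have hvL : v ∈ L := hs.1 (mem_insert_self v s)
    have hy' : a v y = 0 := hy v (mem_insert_self v s)
    have hz' : a v z = 0 := hz v (mem_insert_self v s)
    have e1 := h.ab v hvL y
    have e2 := h.ab v hvL z
    rw [hy', map_zero, add_zero] at e1
    rw [hz', map_zero, add_zero] at e2
    ext1
    · ext1
      simp only
      rw [map_add, e1, hz', add_zero]
    · ext1
      simp only
      rw [map_add, h.bb v hvL, zero_add, e2]

end EulerAux

theorem dim_cell {L : Finset V} (h : GSys G L a b) {s : Finset V} (hs : Cl G L s) :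
    2 ^ s.card * Module.finrank ℝ (Cell a s) = Module.finrank ℝ U := by
  induction s using Finset.induction_on with
  | empty =>
    have h1 : Cell a ∅ = ⊤ := by
      rw [eq_top_iff]
      intro x _ v hv
      simp at hv
    rw [h1]
    simp
  | insert v s hv ih =>
    have h1 := ih (hs.subset (subset_insert v s))
    rw [(EulerAux.splitEquiv h hv hs).finrank_eq, Module.finrank_prod] at h1
    rw [card_insert_of_notMem hv, pow_succ, ← h1]
    ring

namespace EulerAux

/-- cochains of degree `i` with values in `Y` -/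
def Ch (Y : Finset V → Submodule ℝ U) (i : ℕ) : Submodule ℝ (Finset V → U) where
  carrier := {f | (∀ s, f s ∈ Y s) ∧ ∀ s, s.card ≠ i → f s = 0}
  add_mem' := by
    rintro f g ⟨h1, h2⟩ ⟨h3, h4⟩
    refine ⟨fun s => (Y s).add_mem (h1 s) (h3 s), fun s hs => ?_⟩
    rw [Pi.add_apply, h2 s hs, h4 s hs, add_zero]
  zero_mem' := ⟨fun s => (Y s).zero_mem, fun s _ => rfl⟩
  smul_mem' := by
    rintro c f ⟨h1, h2⟩
    refine ⟨fun s => (Y s).smul_mem c (h1 s), fun s hs => ?_⟩
    rw [Pi.smul_apply, h2 s hs, smul_zero]

/-- cochains of degree `i` as a product of cells -/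
noncomputable def chEquiv (Y : Finset V → Submodule ℝ U) (i : ℕ) :
    Ch Y i ≃ₗ[ℝ] (∀ s : {s : Finset V // s.card = i}, Y s.1) where
  toFun f := fun s => ⟨f.1 s.1, f.2.1 s.1⟩
  map_add' := by
    intro f g
    rfl
  map_smul' := by
    intro c f
    rfl
  invFun g := ⟨fun s => if h : s.card = i then (g ⟨s, h⟩ : U) else 0, by
    constructor
    · intro s
      simp only
      split_ifs with h
      · exact (g ⟨s, h⟩).2
      · exact (Y s).zero_mem
    · intro s h
      exact dif_neg h⟩
  left_inv := by
    intro f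
    ext1
    funext s
    simp only
    split_ifs with h
    · rfl
    · exact (f.2.2 s h).symm
  right_inv := by
    intro g
    funext s
    ext1
    simp only
    exact dif_pos s.2

theorem finrank_Ch (Y : Finset V → Submodule ℝ U) (i : ℕ) :
    Module.finrank ℝ (Ch Y i)
      = ∑ s : Finset V with s.card = i, Module.finrank ℝ (Y s) := by
  rw [(chEquiv Y i).finrank_eq, Module.finrank_pi_fintype]
  exact (Finset.sum_subtype (univ.filter (fun s : Finset V => s.card = i))
    (fun s => by simp) (fun s => Module.finrank ℝ (Y s))).symm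

theorem sum_Ch (Y : Finset V → Submodule ℝ U) :
    ∑ i ∈ range (Fintype.card V + 1), (-1 : ℚ) ^ i * (Module.finrank ℝ (Ch Y i) : ℚ)
      = ∑ s : Finset V, (-1 : ℚ) ^ s.card * (Module.finrank ℝ (Y s) : ℚ) := by
  rw [← Finset.sum_fiberwise_of_maps_to (s := univ) (t := range (Fintype.card V + 1))
    (g := fun s : Finset V => s.card)
    (fun s _ => mem_range.2 (Nat.lt_succ_of_le (card_le_univ s)))]
  refine sum_congr rfl (fun i _ => ?_)
  rw [finrank_Ch, Nat.cast_sum, mul_sum]
  refine sum_congr rfl (fun s hs => ?_)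
  rw [(mem_filter.1 hs).2]

open Classical in
/-- the cells of the simplices of `L` -/
noncomputable def Ycell (G : SimpleGraph V) (L : Finset V) (a : V → Module.End ℝ U)
    (s : Finset V) : Submodule ℝ U :=
  if Cl G L s then Cell a s else ⊥

open Classical in
/-- the coboundary as a linear map -/
noncomputable def cobL (G : SimpleGraph V) (L : Finset V) (a : V → Module.End ℝ U) :
    (Finset V → U) →ₗ[ℝ] (Finset V → U) where
  toFun y := fun s => if Cl G L s then cob a y s else 0
  map_add' := by
    intro x y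
    funext s
    rw [Pi.add_apply]
    split_ifs
    · simp only [cob, Pi.add_apply, map_add, sum_add_distrib]
    · rw [add_zero]
  map_smul' := by
    intro c y
    funext s
    rw [Pi.smul_apply]
    split_ifs
    · simp only [cob, Pi.smul_apply, map_smul, RingHom.id_apply, smul_sum]
    · rw [smul_zero]

theorem cobL_pos {L s : Finset V} (hs : Cl G L s) (y : Finset V → U) :
    cobL G L a y s = cob a y s := if_pos hs

theorem cobL_neg {L s : Finset V} (hs : ¬ Cl G L s) (y : Finset V → U) :
    cobL G L a y s = 0 := if_neg hs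

theorem mem_Ch {L : Finset V} {i : ℕ} {y : Finset V → U} :
    y ∈ Ch (Ycell G L a) i ↔ (∀ s, Cl G L s → s.card = i → y s ∈ Cell a s) ∧
      ∀ s, ¬ (Cl G L s ∧ s.card = i) → y s = 0 := by
  constructor
  · rintro ⟨h1, h2⟩
    refine ⟨fun s hs _ => ?_, fun s hs => ?_⟩
    · have := h1 s
      unfold Ycell at this
      rwa [if_pos hs] at this
    · by_cases hc : s.card = i
      · have := h1 s
        unfold Ycell at this
        rw [if_neg (fun h => hs ⟨h, hc⟩)] at this
        exact this
      · exact h2 s hc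
  · rintro ⟨h1, h2⟩
    refine ⟨fun s => ?_, fun s hs => h2 s (fun h => hs h.2)⟩
    unfold Ycell
    split_ifs with hc
    · by_cases hi : s.card = i
      · exact h1 s hc hi
      · rw [h2 s (fun h => hi h.2)]
        exact (Cell a s).zero_mem
    · rw [h2 s (fun h => hc h.1)]
      exact Submodule.zero_mem _

/-- the coboundary of a cochain of degree `i` vanishes outside of degree `i + 1` -/
theorem cob_zero_of {i : ℕ} {y : Finset V → U} (hy : ∀ s, s.card ≠ i → y s = 0) {s : Finset V}
    (hs : s.card ≠ i + 1) : cob a y s = 0 := by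
  unfold cob
  refine sum_eq_zero (fun v hv => ?_)
  rw [hy (s.erase v), map_zero]
  rw [card_erase_of_mem hv]
  have : 0 < s.card := card_pos.2 ⟨v, hv⟩
  omega

open Classical in
/-- truncation -/
noncomputable def tr (G : SimpleGraph V) (L : Finset V) (i : ℕ) (y : Finset V → U) : Finset V → U :=
  fun s => if Cl G L s ∧ s.card = i then y s else 0

theorem tr_pos {L s : Finset V} {i : ℕ} (hs : Cl G L s) (hi : s.card = i) (y : Finset V → U) :
    tr G L i y s = y s := by
  unfold tr
  rw [if_pos ⟨hs, hi⟩]

theorem tr_neg {L s : Finset V} {i : ℕ} (hs : ¬ (Cl G L s ∧ s.card = i)) (y : Finset V → U) :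
    tr G L i y s = 0 := by
  unfold tr
  rw [if_neg hs]

theorem tr_mem {L : Finset V} {i : ℕ} {y : Finset V → U}
    (hy : ∀ s, Cl G L s → s.card = i → y s ∈ Cell a s) : tr G L i y ∈ Ch (Ycell G L a) i := by
  rw [mem_Ch]
  refine ⟨fun s hs hi => ?_, fun s hs => tr_neg hs y⟩
  rw [tr_pos hs hi]
  exact hy s hs hi

theorem cob_tr {L s : Finset V} {i : ℕ} (hs : Cl G L s) (hi : s.card = i + 1) (y : Finset V → U) :
    cob a (tr G L i y) s = cob a y s := by
  unfold cob
  refine sum_congr rfl (fun v hv => ?_)
  rw [tr_pos (hs.erase v) (by rw [card_erase_of_mem hv]; omega)]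

theorem cob_tr_zero {L s : Finset V} {i : ℕ} (hi : s.card ≠ i + 1) (y : Finset V → U) :
    cob a (tr G L i y) s = 0 :=
  cob_zero_of (fun t ht => tr_neg (fun h => ht h.2) y) hi

theorem exAbs_of {L : Finset V} {i : ℕ} (hex : ExC G a L i) :
    ExAbs (Ch (Ycell G L a)) (cobL G L a) i := by
  intro y hy hy0
  rw [mem_Ch] at hy
  have hclo : Clo G a L i y := by
    intro s hs _
    have := congrFun hy0 s
    rw [cobL_pos hs] at this
    exact this
  obtain ⟨x, hx1, hx2⟩ := hex y hy.1 hclo
  cases i with
  | zero =>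
    left
    refine ⟨rfl, ?_⟩
    funext s
    by_cases h : Cl G L s ∧ s.card = 0
    · rw [hx2 s h.1 h.2, card_eq_zero.1 h.2]
      simp [cob]
    · exact hy.2 s h
  | succ j =>
    right
    refine ⟨j, tr G L j x, tr_mem (fun s hs hi => hx1 s hs (by omega)), rfl, ?_⟩
    funext s
    by_cases hs : Cl G L s
    · rw [cobL_pos hs]
      by_cases hi : s.card = j + 1
      · rw [cob_tr hs hi, hx2 s hs hi]
      · rw [cob_tr_zero hi, hy.2 s (fun h => hi h.2)]
    · rw [cobL_neg hs, hy.2 s (fun h => hs h.1)]

theorem exC_of {L : Finset V} {i : ℕ} (hex : ExAbs (Ch (Ycell G L a)) (cobL G L a) i) :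
    ExC G a L i := by
  intro y hy hclo
  have h1 : tr G L i y ∈ Ch (Ycell G L a) i := tr_mem hy
  have h2 : cobL G L a (tr G L i y) = 0 := by
    funext s
    by_cases hs : Cl G L s
    · rw [cobL_pos hs]
      by_cases hi : s.card = i + 1
      · rw [cob_tr hs hi, hclo s hs hi]
        rfl
      · rw [cob_tr_zero hi]
        rfl
    · rw [cobL_neg hs]
      rfl
  rcases hex _ h1 h2 with ⟨hi, h3⟩ | ⟨j, z, hz, hi, h3⟩
  · subst hi
    refine ⟨fun _ => 0, fun s _ h => by omega, fun s hs h => ?_⟩
    have := congrFun h3 s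
    rw [tr_pos hs h] at this
    rw [this, card_eq_zero.1 h]
    simp [cob]
  · subst hi
    rw [mem_Ch] at hz
    refine ⟨z, fun s hs h => hz.1 s hs (by omega), fun s hs h => ?_⟩
    have := congrFun h3 s
    rw [tr_pos hs h, cobL_pos hs] at this
    exact this.symm

end EulerAux

open EulerAux in
theorem euler {L : Finset V} (h : GSys G L a b) {m : ℕ} (hex : ∀ i, i ≠ m → ExC G a L i) :
    ∃ k : ℕ, (Module.finrank ℝ U : ℚ) * omega G L = (-1) ^ m * k ∧ (k = 0 → ExC G a L m) := by
  classical
  obtain ⟨k, hk1, hk2⟩ := euler_abs (Ch (Ycell G L a)) (cobL G L a) (by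
    intro i y hy
    rw [mem_Ch] at hy ⊢
    refine ⟨fun s hs hi => ?_, fun s hs => ?_⟩
    · rw [cobL_pos hs]
      refine cob_mem h hs (fun v hv => ?_)
      exact hy.1 _ (hs.erase v) (by rw [card_erase_of_mem hv]; omega)
    · by_cases hc : Cl G L s
      · rw [cobL_pos hc]
        exact cob_zero_of (fun t ht => hy.2 t (fun h => ht h.2)) (fun e => hs ⟨hc, e⟩)
      · exact cobL_neg hc _) (by
    intro i y hy
    funext s
    by_cases hc : Cl G L s
    · rw [cobL_pos hc]
      have : cob a (cobL G L a y) s = cob a (fun t => cob a y t) s :=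
        cob_congr (fun v _ => cobL_pos (hc.erase v) y)
      rw [this, cob_cob h y hc]
      rfl
    · rw [cobL_neg hc]
      rfl) (Fintype.card V) (by
    intro i hi
    rw [eq_bot_iff]
    intro y hy
    rw [Submodule.mem_bot]
    funext s
    exact hy.2 s (fun e => absurd (card_le_univ s) (by omega))) m
    (fun i hi => exAbs_of (hex i hi))
  refine ⟨k, ?_, fun h0 => exC_of (hk2 h0)⟩
  rw [← hk1, sum_Ch]
  unfold omega
  rw [mul_sum]
  rw [← sum_subset (subset_univ (L.powerset.filter
    (fun s : Finset V => G.IsClique (s : Set V))))]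
  · refine sum_congr (by congr) (fun s hs => ?_)
    rw [mem_filter, mem_powerset] at hs
    have h3 := dim_cell h (s := s) hs
    have h4 : Ycell G L a s = Cell a s := if_pos hs
    rw [h4, ← h3]
    push_cast
    rw [div_pow]
    field_simp
  · intro s _ hs
    rw [mem_filter, mem_powerset] at hs
    have h4 : Ycell G L a s = ⊥ := if_neg hs
    rw [h4, finrank_bot, Nat.cast_zero, mul_zero]

end Pool.Agent.H31.GS
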