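import Mathlib

/-!
# helper31, GS, module EULERABS: Euler characteristic of a finite complex

`C i` are submodules of a finite dimensional space `X`, `D : X → X` linear with `D (C i) ⊆ C (i+1)`, `D D = 0` on them.
`c i = finrank (C i)`, `z i = finrank (C i ⊓ ker D)`, `b i = finrank (map D (C i))`; `c i = z i + b i` (rank-nullity for
`D` restricted to `C i`, see `Euler.rank_nullity` in `Pool/Agent/H37/CD/Euler.lean`). Let `h 0 = z 0`,
`h (j+1) = z (j+1) - b j`; `h i ≥ 0` (`map D (C j) ≤ C (j+1) ⊓ ker D`), `h i = 0` iff exact at `i`.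
`∑ i ≤ n, (-1)^i c i = ∑ i ≤ n, (-1)^i h i + (-1)^n b n` (induction on `n`) and `b n = 0` because `C (n+1) = ⊥` (so
`D (C n) ⊆ ⊥`). All `h i = 0` for `i ≠ m`, so the sum is `(-1)^m h m` (if `m > n` then `C m = ⊥`, `h m = 0`, because `z m = 0`).
Take `k = h m`.
-/

namespace Pool.Agent.H31.GS

open Finset

/-- exactness of the complex at `i` -/
def ExAbs {X : Type} [AddCommGroup X] [Module ℝ X] (C : ℕ → Submodule ℝ X) (D : X →ₗ[ℝ] X)
    (i : ℕ) : Prop :=
  ∀ x ∈ C i, D x = 0 → (i = 0 ∧ x = 0) ∨ ∃ j, ∃ z ∈ C j, i = j + 1 ∧ D z = x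

namespace EulerAbsAux

variable {X : Type} [AddCommGroup X] [Module ℝ X]

/-- cycles -/
def Z (C : ℕ → Submodule ℝ X) (D : X →ₗ[ℝ] X) (i : ℕ) : Submodule ℝ X := C i ⊓ LinearMap.ker D

/-- images -/
def Im (C : ℕ → Submodule ℝ X) (D : X →ₗ[ℝ] X) (i : ℕ) : Submodule ℝ X := (C i).map D

theorem rank_nullity [FiniteDimensional ℝ X] (C : ℕ → Submodule ℝ X) (D : X →ₗ[ℝ] X) (i : ℕ) :
    Module.finrank ℝ (C i) = Module.finrank ℝ (Z C D i) + Module.finrank ℝ (Im C D i) := by
  have h := LinearMap.finrank_range_add_finrank_ker (D.domRestrict (C i))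
  rw [LinearMap.range_domRestrict, LinearMap.ker_domRestrict] at h
  have h2 : Module.finrank ℝ (Submodule.comap (C i).subtype (LinearMap.ker D))
      = Module.finrank ℝ (Z C D i) := by
    rw [← Submodule.finrank_map_subtype_eq, Submodule.map_comap_subtype]
    rfl
  rw [h2] at h
  rw [← h, add_comm]
  rfl

theorem alt_sum (c z b h : ℕ → ℚ) (hc : ∀ i, c i = z i + b i) (h0 : h 0 = z 0)
    (h1 : ∀ j, h (j + 1) + b j = z (j + 1)) (n : ℕ) :
    ∑ i ∈ range (n + 1), (-1 : ℚ) ^ i * c i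
      = ∑ i ∈ range (n + 1), (-1 : ℚ) ^ i * h i + (-1) ^ n * b n := by
  induction n with
  | zero =>
    simp [h0, hc]
  | succ n ih =>
    rw [sum_range_succ, ih, sum_range_succ _ (n + 1), hc, ← h1, pow_succ]
    ring

theorem mem_Z {C : ℕ → Submodule ℝ X} {D : X →ₗ[ℝ] X} {i : ℕ} {x : X} :
    x ∈ Z C D i ↔ x ∈ C i ∧ D x = 0 := by
  unfold Z
  rw [Submodule.mem_inf, LinearMap.mem_ker]

theorem mem_Im {C : ℕ → Submodule ℝ X} {D : X →ₗ[ℝ] X} {i : ℕ} {x : X} :
    x ∈ Im C D i ↔ ∃ y ∈ C i, D y = x := by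
  unfold Im
  exact Submodule.mem_map

end EulerAbsAux

open EulerAbsAux in
theorem euler_abs {X : Type} [AddCommGroup X] [Module ℝ X] [FiniteDimensional ℝ X]
    (C : ℕ → Submodule ℝ X) (D : X →ₗ[ℝ] X) (hD : ∀ i, ∀ x ∈ C i, D x ∈ C (i + 1))
    (hDD : ∀ i, ∀ x ∈ C i, D (D x) = 0) (n : ℕ) (hn : ∀ i, n < i → C i = ⊥) (m : ℕ)
    (hex : ∀ i, i ≠ m → ExAbs C D i) :
    ∃ k : ℕ, ∑ i ∈ range (n + 1), (-1 : ℚ) ^ i * (Module.finrank ℝ (C i) : ℚ) = (-1) ^ m * k ∧
      (k = 0 → ExAbs C D m) := by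
  have hle : ∀ j, Im C D j ≤ Z C D (j + 1) := by
    intro j x hx
    obtain ⟨y, hy, rfl⟩ := mem_Im.1 hx
    exact mem_Z.2 ⟨hD j y hy, hDD j y hy⟩
  obtain ⟨h, hh0, hh1⟩ : ∃ h : ℕ → ℕ, h 0 = Module.finrank ℝ (Z C D 0) ∧
      ∀ j, h (j + 1) + Module.finrank ℝ (Im C D j) = Module.finrank ℝ (Z C D (j + 1)) := by
    refine ⟨fun i => Nat.rec (Module.finrank ℝ (Z C D 0))
      (fun j _ => Module.finrank ℝ (Z C D (j + 1)) - Module.finrank ℝ (Im C D j)) i, rfl, fun j => ?_⟩
    exact Nat.sub_add_cancel (Submodule.finrank_mono (hle j))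
  have hz : ∀ i, h i = 0 ↔ ExAbs C D i := by
    intro i
    cases i with
    | zero =>
      rw [hh0, Submodule.finrank_eq_zero]
      constructor
      · intro e x hx hx0
        left
        have : x ∈ Z C D 0 := mem_Z.2 ⟨hx, hx0⟩
        rw [e, Submodule.mem_bot] at this
        exact ⟨rfl, this⟩
      · intro e
        rw [eq_bot_iff]
        intro x hx
        rw [mem_Z] at hx
        rw [Submodule.mem_bot]
        rcases e x hx.1 hx.2 with e | ⟨j, z, _, e, _⟩
        · exact e.2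
        · omega
    | succ j =>
      have e1 := hh1 j
      constructor
      · intro e x hx hx0
        rw [e, zero_add] at e1
        have e2 := Submodule.eq_of_le_of_finrank_eq (hle j) e1
        have : x ∈ Z C D (j + 1) := mem_Z.2 ⟨hx, hx0⟩
        rw [← e2, mem_Im] at this
        obtain ⟨y, hy, hy2⟩ := this
        exact Or.inr ⟨j, y, hy, rfl, hy2⟩
      · intro e
        have e2 : Z C D (j + 1) ≤ Im C D j := by
          intro x hx
          rw [mem_Z] at hx
          rcases e x hx.1 hx.2 with e | ⟨j', z, hz, e, e'⟩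
          · omega
          · have : j' = j := by omega
            subst this
            exact mem_Im.2 ⟨z, hz, e'⟩
        have := Submodule.finrank_mono e2
        omega
  refine ⟨h m, ?_, (hz m).1⟩
  rw [alt_sum (fun i => (Module.finrank ℝ (C i) : ℚ)) (fun i => (Module.finrank ℝ (Z C D i) : ℚ))
    (fun i => (Module.finrank ℝ (Im C D i) : ℚ)) (fun i => (h i : ℚ))
    (fun i => by exact_mod_cast rank_nullity C D i) (by exact_mod_cast hh0)
    (fun j => by exact_mod_cast hh1 j)]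
  have hb : Im C D n = ⊥ := by
    rw [eq_bot_iff]
    intro x hx
    obtain ⟨y, hy, rfl⟩ := mem_Im.1 hx
    have := hD n y hy
    rw [hn (n + 1) (by omega)] at this
    exact this
  rw [hb, finrank_bot, Nat.cast_zero, mul_zero, add_zero]
  have hz' : ∀ i, i ≠ m → (-1 : ℚ) ^ i * (h i : ℚ) = 0 := by
    intro i hi
    rw [(hz i).2 (hex i hi), Nat.cast_zero, mul_zero]
  by_cases hm : m ∈ range (n + 1)
  · rw [sum_eq_single_of_mem m hm (fun i _ hi => hz' i hi)]
  · rw [sum_eq_zero (fun i hi => hz' i (fun e => hm (e ▸ hi)))]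
    have hm' : n < m := by
      rw [mem_range] at hm
      omega
    have : h m = 0 := by
      rw [hz m]
      intro x hx _
      have hx0 : x = 0 := by
        rw [hn m hm', Submodule.mem_bot] at hx
        exact hx
      right
      refine ⟨m - 1, 0, (C (m - 1)).zero_mem, by omega, ?_⟩
      rw [map_zero, hx0]
    rw [this, Nat.cast_zero, mul_zero]

end Pool.Agent.H31.GS
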