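import Pool.Agent.H31.GS.OddStep

/-!
# helper31, GS, module EVEN1: the auxiliary cochain of the even step

`r` a simplex of `A`, `L = lk G A r`, `x ∈ L`, `Φ = far G L x`, `y` closed on `L`, degree `k + 1`, values in `Cell b r`; for
`v ∈ Φ`: `Z v` of degree `k` on the star `{v} ∪ lk G L {v}` with `cob a (Z v) = y` there, `Z v s = 0` for `v ∈ s`, values in
`Cell b r`. `Dat` collects this.

`zz s = (if x ∈ s then 0 else a x (y s)) + ∑ v ∈ Φ, N x v • xm v (Z v) s`.

`dat_av`: for `v ∈ Φ`, `v ∉ t`, `insert v t` a simplex of `L` with `k + 1` elements: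
`a v (Z v t) = y (insert v t)`: `cob_insert`, all other terms are `Z v` of a set containing `v`.

`cob_xm`: for `v ∈ t` the term `u = v` of `cob a (xm v z) t` is zero and the others give `cob a z (t.erase v)`; for `v ∉ t`
everything is zero.

`zz_inC`: `s` a simplex of `L`, `k + 1` elements, `u ∈ s`; to show `a u (zz s) = 0`. If `x ∈ s` then no `v ∈ Φ` is in `s`
(simplex, `v` not adjacent to `x`), so `zz s = 0`. Let `x ∉ s`. For `v ∈ Φ ∩ s`, `v ≠ u`: `a u (Z v (s.erase v)) = 0`
(`Z v` is a cochain, `u ∈ s.erase v`, a simplex of the star of `v`). If `u ∈ Φ`: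
`a u (a x (y s)) = - a x (a u (y s)) - N x u • y s = - N x u • y s` and `N x u • a u (Z u (s.erase u)) = N x u • y s`
(`dat_av`). If `u ∉ Φ`: `u` is adjacent to `x`, `a u (a x (y s)) = - a x (a u (y s)) = 0`.

`zz_clo`: `t` a simplex of `L` with `k + 2` elements: `cob_ax` and `cob a y t = 0`:
`- ∑ v ∈ Φ, N x v • xm v y t`; `cob_xm`: `∑ v ∈ Φ, N x v • xm v (cob a (Z v)) t`, and
`cob a (Z v) (t.erase v) = y (t.erase v)` for `v ∈ t`.

`zz_vl`: `b u`, `u ∈ r`, anticommutes with `a x`; values of `y`, `Z v` are killed by `b u`.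
-/

namespace Pool.Agent.H31.GS

open Finset

set_option linter.unusedSectionVars false
set_option linter.unusedVariables false

variable {V : Type} [Fintype V] [LinearOrder V] {G : SimpleGraph V}
variable {U : Type} [AddCommGroup U] [Module ℝ U] {a b : V → Module.End ℝ U}
variable {A : Finset V} {d : ℕ} {N : V → V → ℝ} {B : Finset V → U →ₗ[ℝ] U →ₗ[ℝ] ℝ}

/-- the data of the even step -/
structure Dat (G : SimpleGraph V) (A : Finset V) (a b : V → Module.End ℝ U) (r : Finset V) (x : V)
    (k : ℕ) (y : Finset V → U) (Z : V → Finset V → U) : Prop where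
  inC : InC G a (lk G A r) (k + 1) y
  clo : Clo G a (lk G A r) (k + 1) y
  vl : Vl G b (lk G A r) (k + 1) r y
  n1 : ∀ v ∈ far G (lk G A r) x, ∀ s, v ∈ s → Z v s = 0
  n2 : ∀ v ∈ far G (lk G A r) x, InC G a ({v} ∪ lk G (lk G A r) {v}) k (Z v)
  n3 : ∀ v ∈ far G (lk G A r) x, ∀ s, Z v s ∈ Cell b r
  n4 : ∀ v ∈ far G (lk G A r) x, ∀ s, Cl G ({v} ∪ lk G (lk G A r) {v}) s → s.card = k + 1 →
    y s = cob a (Z v) s

/-- the auxiliary cochain -/
noncomputable def zz (N : V → V → ℝ) (a : V → Module.End ℝ U) (Φ : Finset V) (x : V)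
    (y : Finset V → U) (Z : V → Finset V → U) (s : Finset V) : U :=
  (if x ∈ s then 0 else a x (y s)) + ∑ v ∈ Φ, N x v • xm v (Z v) s

theorem cob_xm (v : V) (z : Finset V → U) (t : Finset V) :
    cob a (xm v z) t = xm v (fun s => cob a z s) t := by
  unfold cob xm
  by_cases hv : v ∈ t
  · rw [if_pos hv, ← Finset.sum_erase_add _ _ hv]
    have h0 : a v (if v ∈ t.erase v then z ((t.erase v).erase v) else 0) = 0 := by simp
    rw [h0, add_zero]
    refine sum_congr rfl (fun u hu => ?_)
    have hu' := mem_erase.1 hu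
    rw [if_pos (mem_erase.2 ⟨hu'.1.symm, hv⟩), Finset.erase_right_comm]
  · rw [if_neg hv]
    refine sum_eq_zero (fun u hu => ?_)
    rw [if_neg (fun h => hv (mem_of_mem_erase h)), map_zero]

theorem dat_av {r : Finset V} {x : V} {k : ℕ} {y : Finset V → U} {Z : V → Finset V → U}
    (hD : Dat G A a b r x k y Z) {v : V} (hv : v ∈ far G (lk G A r) x) {t : Finset V} (hvt : v ∉ t)
    (ht : Cl G (lk G A r) (insert v t)) (hk : t.card = k) :
    a v (Z v t) = y (insert v t) := by
  have ht' : Cl G (lk G (lk G A r) {v}) t := by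
    have := cl_erase ht (mem_insert_self v t)
    rwa [erase_insert hvt] at this
  have h0 : Cl G ({v} ∪ lk G (lk G A r) {v}) (insert v t) := by
    refine ⟨fun u hu => ?_, ht.2⟩
    rcases mem_insert.1 hu with h | h
    · rw [h]
      exact mem_union_left _ (mem_singleton_self _)
    · exact mem_union_right _ (ht'.1 h)
  rw [hD.n4 v hv (insert v t) h0 (by rw [card_insert_of_notMem hvt, hk]), cob_insert hvt,
    sum_eq_zero (fun u hu => ?_), add_zero]
  rw [hD.n1 v hv _ (mem_insert_self _ _), map_zero]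

/-- the simplex `s.erase v` lies in the star of `v` -/
theorem star_erase {L s : Finset V} {v : V} (hs : Cl G L s) (hv : v ∈ s) :
    Cl G ({v} ∪ lk G L {v}) (s.erase v) :=
  (cl_erase hs hv).mono subset_union_right

theorem zz_inC (hF : FSys G A d a b N B) {r : Finset V} (hr : Cl G A r) {x : V}
    (hx : x ∈ lk G A r) {k : ℕ} {y : Finset V → U} {Z : V → Finset V → U}
    (hD : Dat G A a b r x k y Z) :
    InC G a (lk G A r) (k + 1) (zz N a (far G (lk G A r) x) x y Z) := by
  intro s hs hc u hu
  unfold zz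
  by_cases hxs : x ∈ s
  · rw [if_pos hxs, zero_add, sum_eq_zero (fun v hv => ?_), map_zero]
    have hv' := mem_far.1 hv
    have : v ∉ s := fun h => hv'.2.2 (hs.adj hxs h hv'.2.1.symm)
    rw [xm, if_neg this, smul_zero]
  · rw [if_neg hxs, map_add, map_sum]
    have huL : u ∈ lk G A r := hs.1 hu
    have huA : u ∈ A := lk_subset _ _ huL
    have hxA : x ∈ A := lk_subset _ _ hx
    have hux : u ≠ x := fun h => hxs (h ▸ hu)
    have hyu : a u (y s) = 0 := hD.inC s hs hc u hu
    have hz : ∀ v ∈ far G (lk G A r) x, v ≠ u → a u (N x v • xm v (Z v) s) = 0 := by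
      intro v hv hvu
      rw [map_smul]
      by_cases hvs : v ∈ s
      · rw [xm, if_pos hvs]
        have : a u (Z v (s.erase v)) = 0 := by
          refine hD.n2 v hv (s.erase v) (star_erase hs hvs) ?_ u (mem_erase.2 ⟨hvu.symm, hu⟩)
          rw [card_erase_of_mem hvs, hc]
          rfl
        rw [this, smul_zero]
      · rw [xm, if_neg hvs, map_zero, smul_zero]
    by_cases huf : u ∈ far G (lk G A r) x
    · rw [sum_eq_single u (fun v hv hvu => hz v hv hvu) (fun h => absurd huf h)]
      have h1 : a u (Z u (s.erase u)) = y s := by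
        have := dat_av hD huf (t := s.erase u) (by simp) (by rwa [insert_erase hu])
          (by rw [card_erase_of_mem hu, hc]; rfl)
        rwa [insert_erase hu] at this
      rw [map_smul, xm, if_pos hu, h1]
      have h2 := hF.anti x hxA u huA hux.symm (mem_far.1 huf).2.2 (y s)
      rw [hyu, map_zero, zero_add] at h2
      rw [h2, neg_add_cancel]
    · rw [sum_eq_zero (fun v hv => hz v hv (fun h => huf (h ▸ hv))), add_zero]
      have hadj : G.Adj x u := by
        by_contra h
        exact huf (mem_far.2 ⟨huL, hux, h⟩)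
      rw [hF.sys.caa u huA x hxA hadj.symm, hyu, map_zero, neg_zero]

theorem zz_clo (hF : FSys G A d a b N B) {r : Finset V} (hr : Cl G A r) {x : V}
    (hx : x ∈ lk G A r) {k : ℕ} {y : Finset V → U} {Z : V → Finset V → U}
    (hD : Dat G A a b r x k y Z) :
    Clo G a (lk G A r) (k + 1) (zz N a (far G (lk G A r) x) x y Z) := by
  intro t ht hc
  have e : zz N a (far G (lk G A r) x) x y Z = fun s =>
      (fun s => if x ∈ s then 0 else a x (y s)) s
        + (fun s => ∑ v ∈ far G (lk G A r) x, (fun s => N x v • xm v (Z v) s) s) s := rfl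
  rw [e, cob_add, cob_ax hF (lk_subset A r) hx y ht, hD.clo t ht hc, map_zero, ite_self, neg_zero,
    zero_sub, cob_sum, neg_add_eq_zero]
  refine sum_congr rfl (fun v hv => ?_)
  rw [cob_smul, cob_xm]
  congr 1
  unfold xm
  by_cases hvt : v ∈ t
  · rw [if_pos hvt, if_pos hvt]
    refine hD.n4 v hv (t.erase v) (star_erase ht hvt) ?_
    rw [card_erase_of_mem hvt, hc]
    rfl
  · rw [if_neg hvt, if_neg hvt]

theorem zz_vl (hF : FSys G A d a b N B) {r : Finset V} (hr : Cl G A r) {x : V}
    (hx : x ∈ lk G A r) {k : ℕ} {y : Finset V → U} {Z : V → Finset V → U}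
    (hD : Dat G A a b r x k y Z) :
    Vl G b (lk G A r) (k + 1) r (zz N a (far G (lk G A r) x) x y Z) := by
  intro s hs hc
  unfold zz
  refine Submodule.add_mem _ ?_ (Submodule.sum_mem _ (fun v hv => Submodule.smul_mem _ _ ?_))
  · split_ifs with h
    · exact Submodule.zero_mem _
    · intro u hu
      have hxA := mem_lk.1 hx
      rw [hF.sys.cba (hr.1 hu) hxA.1 (hxA.2 u hu), hD.vl s hs hc u hu, map_zero, neg_zero]
  · unfold xm
    split_ifs with h
    · exact hD.n3 v hv _
    · exact Submodule.zero_mem _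

end Pool.Agent.H31.GS
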