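import Pool.Agent.H31.GS.Even1

/-!
# helper31, GS, module EVEN2: the form of the auxiliary cochain

Notation: `Φ = far G (lk G A r) x`, `Y s = if x ∈ s then 0 else a x (y s)`, `n v = N x v`, `⟨p, q⟩_{i, R} = om G A d B i R p q`,
`rv = insert v r`, `rvw = insert w (insert v r)`. `r.card + 2 (k+1) = d`.

`om_YY`: `⟨Y, Y⟩_{k+1, r} = 0`: for a facet `F ⊇ r` and `s ⊆ F \ r`, `t = (F \ r) \ s`: if `x ∈ F` then `x ∈ s` or `x ∈ t`
(`x ∉ r`) and `Y s = 0` or `Y t = 0`; if `x ∉ F`: `B F (a x (y s)) (a x (y t)) = - B F (y s) (a x (a x (y t))) = 0` (`fo`, `aa`).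

`om_cross`: for `v ∈ Φ`:
`⟨Y, xm v (Z v)⟩_{k+1, r} + ⟨xm v (Z v), Y⟩_{k+1, r} = - ∑ w ∈ Φ.erase v, n w * ⟨Z v, Z v⟩_{k, rvw}`.
PROOF. `⟨Y, xm v (Z v)⟩_{k+1, r} = ⟨Y, Z v⟩_{k+1, rv}` (`om_xm_right`) `= ⟨a x y, Z v⟩_{k+1, rv}` (`om_congr`: simplices of
`lk G A rv` do not contain `x`, not adjacent to `v`). On simplices `s` of `lk G A rv` with `k + 1` elements
`a x (y s) = a x (cob a (Z v) s) = - cob a W s - ∑ w ∈ Φ, n w • xm w (Z v) s`, where
`W s = if x ∈ s then 0 else a x (Z v s)` (`cob_ax` applied to `Z v`, `x ∉ s`); the term `w = v` is zero (`v ∉ s`). So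
`⟨a x y, Z v⟩_{k+1, rv} = - ⟨cob a W, Z v⟩_{k+1, rv} - ∑ w ∈ Φ.erase v, n w ⟨xm w (Z v), Z v⟩_{k+1, rv}`
`= ⟨W, cob a (Z v)⟩_{k, rv} - ∑ w, n w ⟨Z v, Z v⟩_{k, rvw}` (`om_stokes`, `om_xm_left`, `w ∉ rv`) and
`⟨W, cob a (Z v)⟩_{k, rv} = ⟨a x (Z v), y⟩_{k, rv} = - ⟨Z v, a x y⟩_{k, rv}` (`om_congr`, `om_ax`). Finally
`⟨xm v (Z v), Y⟩_{k+1, r} = ⟨Z v, Y⟩_{k, rv} = ⟨Z v, a x y⟩_{k, rv}` (`om_xm_left`, `om_congr`).

`om_zz`: expand `zz = Y + ∑ v, n v • xm v (Z v)` (`om_add_left`, `om_sum_left`, ...):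
`⟨zz, zz⟩ = 0 + ∑ v, n v * (cross v) + ∑ v, ∑ w, n v * n w * ⟨xm v (Z v), xm w (Z w)⟩_{k+1, r}`, and
`⟨xm v (Z v), xm w (Z w)⟩_{k+1, r} = ⟨Z v, xm w (Z w)⟩_{k, rv}`, which is `⟨Z v, Z w⟩_{k, rvw}` for `w ≠ v` and zero for
`w = v` (`om_congr`: `v` is in no simplex of `lk G A rv`). So
`⟨zz, zz⟩ = ∑ v, ∑ w ≠ v, n v * n w * (⟨Z v, Z w⟩_{k, rvw} - ⟨Z v, Z v⟩_{k, rvw})`; `rvw = rwv` (`insert_comm`); add the
same sum with `v`, `w` exchanged and divide by two. For `v = w` the summand of the claim is zero.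
-/

namespace Pool.Agent.H31.GS

open Finset

set_option linter.unusedSectionVars false
set_option linter.unusedVariables false

variable {V : Type} [Fintype V] [LinearOrder V] {G : SimpleGraph V}
variable {U : Type} [AddCommGroup U] [Module ℝ U] {a b : V → Module.End ℝ U}
variable {A : Finset V} {d : ℕ} {N : V → V → ℝ} {B : Finset V → U →ₗ[ℝ] U →ₗ[ℝ] ℝ}

theorem even2_notMem {A' r : Finset V} {x : V} (hx : x ∈ lk G A' r) : x ∉ r :=
  fun h => G.loopless.irrefl x ((mem_lk.1 hx).2 x h)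

theorem om_YY (hF : FSys G A d a b N B) {r : Finset V} (hr : Cl G A r) {x : V}
    (hx : x ∈ lk G A r) (i : ℕ) (y : Finset V → U) :
    om G A d B i r (fun s => if x ∈ s then 0 else a x (y s))
      (fun s => if x ∈ s then 0 else a x (y s)) = 0 := by
  classical
  unfold om
  refine sum_eq_zero (fun F hFm => sum_eq_zero (fun s hs => ?_))
  obtain ⟨-, hFc, hFd, hrF⟩ := mem_filter.1 hFm
  obtain ⟨hs1, hs2⟩ := mem_powersetCard.1 hs
  have hxr : x ∉ r := even2_notMem hx
  have hxA : x ∈ A := (mem_lk.1 hx).1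
  by_cases hxs : x ∈ s
  · simp only [if_pos hxs, map_zero, LinearMap.zero_apply]
  · by_cases hxt : x ∈ (F \ r) \ s
    · simp only [if_pos hxt, map_zero]
    · have hxF : x ∉ F := fun h => hxt (mem_sdiff.2 ⟨mem_sdiff.2 ⟨h, hxr⟩, hxs⟩)
      simp only [if_neg hxs, if_neg hxt]
      rw [hF.fo F hFc hFd x hxA hxF, hF.sys.aa x hxA, map_zero, neg_zero]

theorem om_cross (hF : FSys G A d a b N B) {r : Finset V} (hr : Cl G A r) {k : ℕ}
    (he : r.card + 2 * (k + 1) = d) {x : V} (hx : x ∈ lk G A r) {y : Finset V → U}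
    {Z : V → Finset V → U} (hD : Dat G A a b r x k y Z) {v : V} (hv : v ∈ far G (lk G A r) x) :
    om G A d B (k + 1) r (fun s => if x ∈ s then 0 else a x (y s)) (xm v (Z v))
      + om G A d B (k + 1) r (xm v (Z v)) (fun s => if x ∈ s then 0 else a x (y s))
      = - ∑ w ∈ (far G (lk G A r) x).erase v,
          N x w * om G A d B k (insert w (insert v r)) (Z v) (Z v) := by
  classical
  obtain ⟨hvL, hvx, hvadj⟩ := mem_far.1 hv
  have hvr : v ∉ r := even2_notMem hvL
  have hxA : x ∈ A := (mem_lk.1 hx).1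
  have hR : Cl G A (insert v r) := (cl_insert_lk hr hvL).1
  have hlk : lk G A (insert v r) = lk G (lk G A r) {v} := lk_insert v
  have hRc : (insert v r).card = r.card + 1 := card_insert_of_notMem hvr
  -- simplices of the link of `rv`
  have hxs : ∀ s, Cl G (lk G A (insert v r)) s → x ∉ s := by
    intro s hs hxs
    have h1 := (mem_lk.1 (hs.1 hxs)).2 v (mem_insert_self v r)
    exact hvadj h1.symm
  have hvs : ∀ s, Cl G (lk G A (insert v r)) s → v ∉ s := by
    intro s hs hvs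
    exact even2_notMem (hs.1 hvs) (mem_insert_self v r)
  have hsL : ∀ s, Cl G (lk G A (insert v r)) s → Cl G (lk G A r) s := by
    intro s hs
    rw [hlk] at hs
    exact hs.mono (lk_subset _ _)
  have hss : ∀ s, Cl G (lk G A (insert v r)) s → Cl G ({v} ∪ lk G (lk G A r) {v}) s := by
    intro s hs
    rw [hlk] at hs
    exact hs.mono subset_union_right
  -- first term
  have e1 : om G A d B (k + 1) r (fun s => if x ∈ s then 0 else a x (y s)) (xm v (Z v)) =
      om G A d B (k + 1) (insert v r) (fun s => (- cob a (fun s => if x ∈ s then 0 else a x (Z v s)) s)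
        - ∑ w ∈ (far G (lk G A r) x).erase v, N x w • xm w (Z v) s) (Z v) := by
    rw [om_xm_right (k + 1) hvr]
    refine om_congr (fun s hs hk => ?_) (fun s _ _ => rfl)
    have h1 := cob_ax hF (lk_subset A r) hx (Z v) (hsL s hs)
    rw [if_neg (hxs s hs), ← hD.n4 v hv s (hss s hs) hk] at h1
    have h2 : ∑ w ∈ far G (lk G A r) x, N x w • xm w (Z v) s =
        ∑ w ∈ (far G (lk G A r) x).erase v, N x w • xm w (Z v) s := by
      refine (sum_erase _ ?_).symm
      rw [xm, if_neg (hvs s hs), smul_zero]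
    rw [← h2, h1, if_neg (hxs s hs)]
    abel
  have e2 : om G A d B (k + 1) (insert v r) (fun s => (- cob a (fun s => if x ∈ s then 0 else a x (Z v s)) s)
        - ∑ w ∈ (far G (lk G A r) x).erase v, N x w • xm w (Z v) s) (Z v) =
      - om G A d B (k + 1) (insert v r) (fun s => cob a (fun s => if x ∈ s then 0 else a x (Z v s)) s) (Z v)
        - ∑ w ∈ (far G (lk G A r) x).erase v,
          N x w * om G A d B k (insert w (insert v r)) (Z v) (Z v) := by
    rw [om_sub_left (k + 1) (insert v r)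
      (fun s => - cob a (fun s => if x ∈ s then 0 else a x (Z v s)) s)
      (fun s => ∑ w ∈ (far G (lk G A r) x).erase v, N x w • xm w (Z v) s) (Z v), om_neg_left,
      om_sum_left _ (k + 1) (insert v r) (fun w s => N x w • xm w (Z v) s)]
    congr 1
    refine sum_congr rfl (fun w hw => ?_)
    obtain ⟨hwv, hwf⟩ := mem_erase.1 hw
    have hwr : w ∉ insert v r := by
      rw [mem_insert, not_or]
      exact ⟨hwv, even2_notMem (mem_far.1 hwf).1⟩
    rw [om_smul_left, om_xm_left k hwr]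
  have e3 : om G A d B (k + 1) (insert v r)
      (fun s => cob a (fun s => if x ∈ s then 0 else a x (Z v s)) s) (Z v) =
      om G A d B k (insert v r) (Z v) (fun s => a x (y s)) := by
    rw [om_stokes hF k hR]
    have h1 : om G A d B k (insert v r) (fun s => if x ∈ s then 0 else a x (Z v s))
        (fun s => cob a (Z v) s) = om G A d B k (insert v r) (fun s => a x (Z v s)) y := by
      refine om_congr (fun s hs hk => ?_) (fun s hs hk => ?_)
      · rw [if_neg (hxs s hs)]
      · exact (hD.n4 v hv s (hss s hs) (by omega)).symm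
    rw [h1, om_ax hF k (mem_insert_self v r) hxA hvx (fun h => hvadj h.symm) (Z v) y, neg_neg]
  -- second term
  have e4 : om G A d B (k + 1) r (xm v (Z v)) (fun s => if x ∈ s then 0 else a x (y s)) =
      om G A d B k (insert v r) (Z v) (fun s => a x (y s)) := by
    rw [om_xm_left k hvr]
    refine om_congr (fun s _ _ => rfl) (fun s hs hk => ?_)
    rw [if_neg (hxs s hs)]
  rw [e1, e2, e3, e4]
  ring

theorem om_zz (hF : FSys G A d a b N B) {r : Finset V} (hr : Cl G A r) {k : ℕ}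
    (he : r.card + 2 * (k + 1) = d) {x : V} (hx : x ∈ lk G A r) {y : Finset V → U}
    {Z : V → Finset V → U} (hD : Dat G A a b r x k y Z) :
    om G A d B (k + 1) r (zz N a (far G (lk G A r) x) x y Z)
        (zz N a (far G (lk G A r) x) x y Z)
      = - (1 / 2) * ∑ v ∈ far G (lk G A r) x, ∑ w ∈ far G (lk G A r) x,
          N x v * N x w * om G A d B k (insert w (insert v r)) (fun s => Z v s - Z w s)
            (fun s => Z v s - Z w s) := by
  classical
  set Φ := far G (lk G A r) x with hΦ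
  set Y : Finset V → U := fun s => if x ∈ s then 0 else a x (y s) with hY
  set S : Finset V → U := fun s => ∑ v ∈ Φ, N x v • xm v (Z v) s with hS
  have hzz : zz N a Φ x y Z = fun s => Y s + S s := rfl
  have hΦr : ∀ v ∈ Φ, v ∉ r := fun v hv => even2_notMem (mem_far.1 hv).1
  -- expansion
  have e1 : om G A d B (k + 1) r (fun s => Y s + S s) (fun s => Y s + S s) =
      om G A d B (k + 1) r Y Y + om G A d B (k + 1) r Y S +
        (om G A d B (k + 1) r S Y + om G A d B (k + 1) r S S) := by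
    rw [om_add_left (k + 1) r Y S, om_add_right (k + 1) r Y Y S, om_add_right (k + 1) r S Y S]
  have e2 : om G A d B (k + 1) r Y S = ∑ v ∈ Φ, N x v * om G A d B (k + 1) r Y (xm v (Z v)) := by
    rw [hS, om_sum_right Φ (k + 1) r Y (fun v s => N x v • xm v (Z v) s)]
    exact sum_congr rfl (fun v _ => om_smul_right _ _ _ _ _)
  have e3 : om G A d B (k + 1) r S Y = ∑ v ∈ Φ, N x v * om G A d B (k + 1) r (xm v (Z v)) Y := by
    rw [hS, om_sum_left Φ (k + 1) r (fun v s => N x v • xm v (Z v) s) Y]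
    exact sum_congr rfl (fun v _ => om_smul_left _ _ _ _ _)
  have e4 : om G A d B (k + 1) r S S = ∑ v ∈ Φ, ∑ w ∈ Φ.erase v, N x v * N x w *
      om G A d B k (insert w (insert v r)) (Z v) (Z w) := by
    have h1 : om G A d B (k + 1) r S S =
        ∑ v ∈ Φ, N x v * om G A d B (k + 1) r (xm v (Z v)) S := by
      conv_lhs => rw [hS]
      rw [om_sum_left Φ (k + 1) r (fun v s => N x v • xm v (Z v) s)]
      exact sum_congr rfl (fun v _ => om_smul_left _ _ _ _ _)
    rw [h1]
    refine sum_congr rfl (fun v hv => ?_)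
    have h2 : om G A d B (k + 1) r (xm v (Z v)) S =
        ∑ w ∈ Φ, N x w * om G A d B (k + 1) r (xm v (Z v)) (xm w (Z w)) := by
      rw [hS, om_sum_right Φ (k + 1) r (xm v (Z v)) (fun v s => N x v • xm v (Z v) s)]
      exact sum_congr rfl (fun v _ => om_smul_right _ _ _ _ _)
    have h3 : om G A d B (k + 1) r (xm v (Z v)) (xm v (Z v)) = 0 := by
      rw [om_xm_left k (hΦr v hv)]
      rw [om_congr (z := Z v) (z' := fun s => (0 : ℝ) • Z v s) (fun s _ _ => rfl)
        (fun s hs _ => by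
          rw [xm, if_neg, zero_smul]
          intro hvs
          exact even2_notMem (hs.1 hvs) (mem_insert_self v r)), om_smul_right, zero_mul]
    rw [h2, ← sum_erase Φ (a := v) (by rw [h3, mul_zero]), mul_sum]
    refine sum_congr rfl (fun w hw => ?_)
    obtain ⟨hwv, hwΦ⟩ := mem_erase.1 hw
    have hwr : w ∉ insert v r := by
      rw [mem_insert, not_or]
      exact ⟨hwv, hΦr w hwΦ⟩
    rw [om_xm_left k (hΦr v hv), om_xm_right k hwr]
    ring
  have e5 : om G A d B (k + 1) r Y S + om G A d B (k + 1) r S Y =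
      ∑ v ∈ Φ, ∑ w ∈ Φ.erase v, - (N x v * N x w *
        om G A d B k (insert w (insert v r)) (Z v) (Z v)) := by
    rw [e2, e3, ← sum_add_distrib]
    refine sum_congr rfl (fun v hv => ?_)
    rw [← mul_add, hY, om_cross hF hr he hx hD hv, ← sum_neg_distrib, mul_sum]
    refine sum_congr rfl (fun w _ => ?_)
    ring
  -- the summand
  let c : V → V → ℝ := fun v w => N x v * N x w *
    (om G A d B k (insert w (insert v r)) (Z v) (Z w) -
      om G A d B k (insert w (insert v r)) (Z v) (Z v))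
  have hc0 : ∀ v, c v v = 0 := by
    intro v
    simp [c]
  have e6 : om G A d B (k + 1) r (fun s => Y s + S s) (fun s => Y s + S s) =
      ∑ v ∈ Φ, ∑ w ∈ Φ, c v w := by
    have h1 : om G A d B (k + 1) r Y Y = 0 := om_YY hF hr hx (k + 1) y
    rw [e1, h1]
    have h2 : (0 : ℝ) + om G A d B (k + 1) r Y S +
        (om G A d B (k + 1) r S Y + om G A d B (k + 1) r S S) =
        (om G A d B (k + 1) r Y S + om G A d B (k + 1) r S Y) + om G A d B (k + 1) r S S := by ring
    rw [h2, e5, e4, ← sum_add_distrib]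
    refine sum_congr rfl (fun v _ => ?_)
    rw [← sum_erase Φ (a := v) (hc0 v), ← sum_add_distrib]
    refine sum_congr rfl (fun w _ => ?_)
    simp only [c]
    ring
  have e7 : ∀ v w, N x v * N x w * om G A d B k (insert w (insert v r)) (fun s => Z v s - Z w s)
            (fun s => Z v s - Z w s) = - c v w - c w v := by
    intro v w
    rw [om_sub_left k (insert w (insert v r)) (Z v) (Z w),
      om_sub_right k (insert w (insert v r)) (Z v) (Z v) (Z w),
      om_sub_right k (insert w (insert v r)) (Z w) (Z v) (Z w)]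
    simp only [c]
    rw [Finset.insert_comm v w r]
    ring
  rw [hzz, e6]
  simp only [e7]
  have h3 : ∑ v ∈ Φ, ∑ w ∈ Φ, (- c v w - c w v) =
      - (∑ v ∈ Φ, ∑ w ∈ Φ, c v w) - ∑ v ∈ Φ, ∑ w ∈ Φ, c w v := by
    simp only [sum_sub_distrib, sum_neg_distrib]
  have h4 : ∑ v ∈ Φ, ∑ w ∈ Φ, c w v = ∑ v ∈ Φ, ∑ w ∈ Φ, c v w := sum_comm
  rw [h3, h4]
  ring

end Pool.Agent.H31.GS
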