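import Pool.Agent.H31.GS.Even1

/-!
# helper31, GS, module EVEN3: the differences `Z v - Z w`

`v, w ∈ Φ = far G (lk G A r) x` adjacent, `R = insert w (insert v r)` (a simplex of `A`: `v`, `w` are adjacent to all of
`r`), `D s = Z v s - Z w s` on `lk G A R`, `k + k + R.card = d`. `lk G A R ⊆ lk G (lk G A r) {v}` and `⊆ ... {w}`.

`D` is a cochain of degree `k` (`n2`) and closed: for a simplex `t` of `lk G A R` with `k + 1` elements
`cob a (Z v) t = y t = cob a (Z w) t` (`n4`, `cob_sub`).
For a simplex `s` of `lk G A R` with `k` elements: `a v (Z v s) = y (insert v s)` (`dat_av`), and by `n4` for `w` at the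
simplex `insert v s` (which is a simplex of `lk G (lk G A r) {w}`): `y (insert v s) = a v (Z w s) + cob a Z1 s` with
`Z1 t = Z w (insert v t)` (`cob_insert`). So `a v (D s) = cob a Z1 s`. Similarly `a w (D s) = cob a Z2 s` with
`Z2 t = - Z v (insert w t)`. Apply `red_two`: with `c s = b w (b v (D s))`: `om D D = om c c`, `c` closed cochain,
with values in `Cell b R` (`b w b w = 0`, `b v b w b v = - b w b v b v = 0`, and `b u`, `u ∈ r`, anticommutes with `b v`, `b w`
and kills the values of `Z v`, `Z w` by `n3`). `PosAt k R` gives both claims.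
-/

namespace Pool.Agent.H31.GS

open Finset

set_option linter.unusedSectionVars false
set_option linter.unusedVariables false

variable {V : Type} [Fintype V] [LinearOrder V] {G : SimpleGraph V}
variable {U : Type} [AddCommGroup U] [Module ℝ U] {a b : V → Module.End ℝ U}
variable {A : Finset V} {d : ℕ} {N : V → V → ℝ} {B : Finset V → U →ₗ[ℝ] U →ₗ[ℝ] ℝ}

theorem dat_diff (hF : FSys G A d a b N B) {r : Finset V} (hr : Cl G A r) {k : ℕ}
    (he : r.card + 2 * (k + 1) = d) {x : V} (hx : x ∈ lk G A r) {y : Finset V → U}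
    {Z : V → Finset V → U} (hD : Dat G A a b r x k y Z) {v w : V}
    (hv : v ∈ far G (lk G A r) x) (hw : w ∈ far G (lk G A r) x) (hvw : G.Adj v w)
    (hpos : PosAt G A d a b B k (insert w (insert v r))) :
    0 ≤ (-1) ^ k * om G A d B k (insert w (insert v r)) (fun s => Z v s - Z w s)
        (fun s => Z v s - Z w s) ∧
    (om G A d B k (insert w (insert v r)) (fun s => Z v s - Z w s)
        (fun s => Z v s - Z w s) = 0 →
      Bd G a (lk G (lk G A r) {v, w}) k (fun s => Z v s - Z w s)) := by
  have hvL : v ∈ lk G A r := (mem_far.1 hv).1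
  have hwL : w ∈ lk G A r := (mem_far.1 hw).1
  have hvA : v ∈ A := (mem_lk.1 hvL).1
  have hwA : w ∈ A := (mem_lk.1 hwL).1
  have hva : ∀ u ∈ r, G.Adj u v := (mem_lk.1 hvL).2
  have hwa : ∀ u ∈ r, G.Adj u w := (mem_lk.1 hwL).2
  obtain ⟨hr1, hvr⟩ := cl_insert_lk hr hvL
  have hwl : w ∈ lk G A (insert v r) := by
    rw [mem_lk]
    refine ⟨hwA, fun u hu => ?_⟩
    rcases mem_insert.1 hu with rfl | hu
    · exact hvw
    · exact hwa u hu
  obtain ⟨hR, hwr⟩ := cl_insert_lk hr1 hwl
  have hcard : k + k + (insert w (insert v r)).card = d := by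
    rw [card_insert_of_notMem hwr, card_insert_of_notMem hvr]
    omega
  have hvR : v ∈ insert w (insert v r) := mem_insert_of_mem (mem_insert_self _ _)
  have hwR : w ∈ insert w (insert v r) := mem_insert_self _ _
  -- the link
  have hML : lk G A (insert w (insert v r)) ⊆ lk G A r := by
    intro u hu
    rw [mem_lk] at hu ⊢
    exact ⟨hu.1, fun z hz => hu.2 z (mem_insert_of_mem (mem_insert_of_mem hz))⟩
  have hMv : lk G A (insert w (insert v r)) ⊆ lk G (lk G A r) {v} := by
    intro u hu
    rw [mem_lk_singleton]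
    exact ⟨hML hu, (mem_lk.1 hu).2 v hvR⟩
  have hMw : lk G A (insert w (insert v r)) ⊆ lk G (lk G A r) {w} := by
    intro u hu
    rw [mem_lk_singleton]
    exact ⟨hML hu, (mem_lk.1 hu).2 w hwR⟩
  have hMv' : lk G A (insert w (insert v r)) ⊆ {v} ∪ lk G (lk G A r) {v} :=
    hMv.trans subset_union_right
  have hMw' : lk G A (insert w (insert v r)) ⊆ {w} ∪ lk G (lk G A r) {w} :=
    hMw.trans subset_union_right
  -- simplices with one more vertex
  have hcv : ∀ s, Cl G (lk G A (insert w (insert v r))) s →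
      Cl G ({w} ∪ lk G (lk G A r) {w}) (insert v s) ∧ Cl G (lk G A r) (insert v s) ∧ v ∉ s := by
    intro s hs
    obtain ⟨h1, h2⟩ := cl_insert hvL (hs.mono hMv)
    refine ⟨⟨?_, h1.2⟩, h1, h2⟩
    intro u hu
    rw [mem_union]
    right
    rcases mem_insert.1 hu with rfl | hu
    · rw [mem_lk_singleton]
      exact ⟨hvL, hvw.symm⟩
    · exact hMw (hs.1 hu)
  have hcw : ∀ s, Cl G (lk G A (insert w (insert v r))) s →
      Cl G ({v} ∪ lk G (lk G A r) {v}) (insert w s) ∧ Cl G (lk G A r) (insert w s) ∧ w ∉ s := by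
    intro s hs
    obtain ⟨h1, h2⟩ := cl_insert hwL (hs.mono hMw)
    refine ⟨⟨?_, h1.2⟩, h1, h2⟩
    intro u hu
    rw [mem_union]
    right
    rcases mem_insert.1 hu with rfl | hu
    · rw [mem_lk_singleton]
      exact ⟨hwL, hvw⟩
    · exact hMv (hs.1 hu)
  have hDin : InC G a (lk G A (insert w (insert v r))) k (fun s => Z v s - Z w s) := by
    intro s hs hk
    exact Submodule.sub_mem _ (hD.n2 v hv s (hs.mono hMv') hk) (hD.n2 w hw s (hs.mono hMw') hk)
  have hDcl : Clo G a (lk G A (insert w (insert v r))) k (fun s => Z v s - Z w s) := by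
    intro s hs hk
    rw [cob_sub, ← hD.n4 v hv s (hs.mono hMv') hk, ← hD.n4 w hw s (hs.mono hMw') hk, sub_self]
  have hZ1 : ∀ s, Cl G (lk G A (insert w (insert v r))) s → s.card + 1 = k →
      (fun t => Z w (insert v t)) s ∈ Cell a s := by
    intro s hs hk
    obtain ⟨h1, _, h2⟩ := hcv s hs
    exact Cell_anti (subset_insert _ _) (hD.n2 w hw _ h1 (by rw [card_insert_of_notMem h2]; exact hk))
  have hZ2 : ∀ s, Cl G (lk G A (insert w (insert v r))) s → s.card + 1 = k →
      (fun t => - Z v (insert w t)) s ∈ Cell a s := by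
    intro s hs hk
    obtain ⟨h1, _, h2⟩ := hcw s hs
    exact Submodule.neg_mem _ (Cell_anti (subset_insert _ _)
      (hD.n2 v hv _ h1 (by rw [card_insert_of_notMem h2]; exact hk)))
  have hDZ1 : ∀ s, Cl G (lk G A (insert w (insert v r))) s → s.card = k →
      a v ((fun s => Z v s - Z w s) s) = cob a (fun t => Z w (insert v t)) s := by
    intro s hs hk
    obtain ⟨h1, h3, h2⟩ := hcv s hs
    have e1 := dat_av hD hv h2 h3 hk
    have e2 := hD.n4 w hw _ h1 (by rw [card_insert_of_notMem h2, hk])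
    rw [cob_insert h2] at e2
    simp only [map_sub]
    rw [e1, e2, add_sub_cancel_left]
    rfl
  have hDZ2 : ∀ s, Cl G (lk G A (insert w (insert v r))) s → s.card = k →
      a w ((fun s => Z v s - Z w s) s) = cob a (fun t => - Z v (insert w t)) s := by
    intro s hs hk
    obtain ⟨h1, h3, h2⟩ := hcw s hs
    have e1 := dat_av hD hw h2 h3 hk
    have e2 := hD.n4 v hv _ h1 (by rw [card_insert_of_notMem h2, hk])
    rw [cob_insert h2] at e2
    rw [cob_neg (fun t => Z v (insert w t))]
    simp only [map_sub]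
    rw [e1, e2, sub_add_cancel_left]
    rfl
  obtain ⟨r1, r2, r3, r4⟩ := red_two hF hR hvR hwR hvw.ne hcard hDin hDcl hZ1 hDZ1 hZ2 hDZ2
  have hvl : Vl G b (lk G A (insert w (insert v r))) k (insert w (insert v r))
      (fun s => b w (b v ((fun s => Z v s - Z w s) s))) := by
    intro s hs hk u hu
    simp only
    rcases mem_insert.1 hu with rfl | hu
    · exact hF.sys.bb _ hwA _
    · rcases mem_insert.1 hu with rfl | hu
      · rw [hF.sys.cbb u hvA w hwA hvw, hF.sys.bb u hvA, map_zero, neg_zero]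
      · have huA : u ∈ A := hr.1 hu
        rw [hF.sys.cbb u huA w hwA (hwa u hu), hF.sys.cbb u huA v hvA (hva u hu), map_sub,
          hD.n3 v hv s u hu, hD.n3 w hw s u hu, sub_zero, map_zero, neg_zero, map_zero, neg_zero]
  obtain ⟨p1, p2⟩ := hpos _ r1 r2 hvl
  have hlk : lk G (lk G A r) {v, w} = lk G A (insert w (insert v r)) := by
    rw [lk_lk]
    congr 1
    ext u
    simp only [mem_union, mem_insert, mem_singleton]
    tauto
  rw [hlk]
  refine ⟨?_, fun h0 => ?_⟩
  · rw [r3]
    exact p1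
  · apply r4
    apply p2
    rw [← r3]
    exact h0

end Pool.Agent.H31.GS
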