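import Pool.Agent.H31.GS.Cob

/-!
# helper31, GS, module STAR: coboundaries on a star

`star_lemma`. `v ∈ S` is adjacent to all other elements of `S`. Let `S' = S.erase v` and `y = cob a X` on `S'`
(degree `i`, `X` cochain of degree `i - 1` on `S'`). For a simplex `t` of `S'` with `t.card + 1 = i` put
`z t = y (insert v t) - a v (X t)`. Then `z t` is killed by `a v` and by `a u`, `u ∈ t`. For a simplex `t` of `S'` with
`t.card = i`, `cob a z t = 0`: by `cob_insert`, `0 = cob a y (insert v t) = a v (y t) + ∑ u ∈ t, a u (y (insert v (t.erase u)))`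
and `∑ u ∈ t, a u (a v (X (t.erase u))) = - a v (cob a X t) = - a v (y t)`.
Put `x t = if v ∈ t then 0 else X t + b v (z t)`. It is a cochain of degree `i - 1` on `S` (`b v` anticommutes with
`a u`, `u ∈ t`). For a simplex `t` of `S` with `t.card = i`, `v ∉ t`: `cob a x t = cob a X t - b v (cob a z t) = y t`.
For `t = insert v t'`: `cob a x t = a v (x t') + 0 = a v (X t') + a v (b v (z t')) = a v (X t') + z t' = y t`
(`a v (b v z) = z - b v (a v z)`).
(If `i = 0` take `x = 0`: `y ∅ = cob a X ∅ = 0`.)

`star_clique`: induction on `r'` (`Finset.induction_on`) for the statement: `∀ r' ⊆ r, Bd G a (r' ∪ lk G L r) i y`;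
`r' = ∅` is the hypothesis; for `insert v r'` apply `star_lemma` to `S = insert v r' ∪ lk G L r`, and
`S.erase v = r' ∪ lk G L r` (`v ∉ lk G L r` since `v ∈ r`). All elements of `S` other than `v` are adjacent to `v`:
elements of `r' ⊆ r` (`r` is a clique) and of the link. `S ⊆ L`.
-/

namespace Pool.Agent.H31.GS

open Finset

set_option linter.unusedSectionVars false
set_option linter.unusedVariables false

variable {V : Type} [Fintype V] [LinearOrder V] {G : SimpleGraph V}
variable {U : Type} [AddCommGroup U] [Module ℝ U] {a b : V → Module.End ℝ U}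

theorem star_mem_cell {S : Finset V} (h : GSys G S a b) {v : V} (hv : v ∈ S) {i : ℕ}
    {y X : Finset V → U} (hy : InC G a S i y)
    (hX : ∀ s, Cl G (S.erase v) s → s.card + 1 = i → X s ∈ Cell a s) {t : Finset V}
    (ht : Cl G (lk G S {v}) t) (hi : t.card + 1 = i) :
    (y (insert v t) - a v (X t)) ∈ Cell a t ∧ a v (y (insert v t) - a v (X t)) = 0 := by
  obtain ⟨hc, hvt⟩ := cl_insert hv ht
  have hyv : y (insert v t) ∈ Cell a (insert v t) :=
    hy _ hc (by rw [card_insert_of_notMem hvt, hi])
  have hXt : X t ∈ Cell a t := by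
    refine hX t ?_ hi
    exact (ht.mono (lk_subset S {v})).of_erase_set hvt
  refine ⟨?_, ?_⟩
  · intro u hu
    have hadj : G.Adj u v := (mem_lk_singleton.1 (ht.1 hu)).2.symm
    have huS : u ∈ S := lk_subset _ _ (ht.1 hu)
    rw [map_sub, hyv u (mem_insert_of_mem hu), h.caa u huS v hv hadj, hXt u hu, map_zero]
    simp
  · rw [map_sub, hyv v (mem_insert_self _ _), h.aa v hv, sub_zero]

theorem star_cob_zero {S : Finset V} (h : GSys G S a b) {v : V} (hv : v ∈ S) {i : ℕ}
    {y X : Finset V → U} (hcl : Clo G a S i y)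
    (hX : ∀ s, Cl G (S.erase v) s → s.card = i → y s = cob a X s) {t : Finset V}
    (ht : Cl G (lk G S {v}) t) (hi : t.card = i) :
    cob a (fun s => y (insert v s) - a v (X s)) t = 0 := by
  obtain ⟨hc, hvt⟩ := cl_insert hv ht
  have h1 := hcl _ hc (by rw [card_insert_of_notMem hvt, hi])
  rw [cob_insert hvt] at h1
  have h2 : cob a (fun s => a v (X s)) t = - a v (cob a X t) := by
    refine cob_anti ?_
    intro u hu x
    exact h.caa u (lk_subset _ _ (ht.1 hu)) v hv (mem_lk_singleton.1 (ht.1 hu)).2.symm x
  have h3 : y t = cob a X t := hX t ((ht.mono (lk_subset S {v})).of_erase_set hvt) hi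
  rw [cob_sub, h2, ← h3, sub_neg_eq_add]
  have h4 : cob a (fun s => y (insert v s)) t = ∑ u ∈ t, a u (y (insert v (t.erase u))) := rfl
  rw [h4, add_comm]
  exact h1

theorem star_lemma {S : Finset V} (h : GSys G S a b) {v : V} (hv : v ∈ S)
    (hc : ∀ x ∈ S, x ≠ v → G.Adj v x) {i : ℕ} {y : Finset V → U} (hy : InC G a S i y)
    (hcl : Clo G a S i y) (hb : Bd G a (S.erase v) i y) :
    ∃ x : Finset V → U, (∀ s, v ∈ s → x s = 0) ∧
      (∀ s, Cl G S s → s.card + 1 = i → x s ∈ Cell a s) ∧
      ∀ s, Cl G S s → s.card = i → y s = cob a x s := by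
  classical
  obtain ⟨X, hX1, hX2⟩ := hb
  have hlk : ∀ s, Cl G S s → v ∉ s → Cl G (lk G S {v}) s := by
    intro s hs hvs
    refine ⟨fun x hx => mem_lk_singleton.2 ⟨hs.1 hx, hc x (hs.1 hx) ?_⟩, hs.2⟩
    rintro rfl
    exact hvs hx
  refine ⟨fun t => if v ∈ t then 0 else X t + b v (y (insert v t) - a v (X t)), ?_, ?_, ?_⟩
  · intro s hs
    exact if_pos hs
  · intro s hs hi
    by_cases hvs : v ∈ s
    · simp only [if_pos hvs]
      exact Submodule.zero_mem _
    · simp only [if_neg hvs]
      refine Submodule.add_mem _ (hX1 s (hs.of_erase_set hvs) hi) ?_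
      intro u hu
      have hz := (star_mem_cell h hv hy hX1 (hlk s hs hvs) hi).1 u hu
      have hne : u ≠ v := by rintro rfl; exact hvs hu
      rw [h.cab u (hs.1 hu) v hv (hc u (hs.1 hu) hne).symm, hz, map_zero, neg_zero]
  · intro s hs hi
    by_cases hvs : v ∈ s
    · have hs' : s = insert v (s.erase v) := (insert_erase hvs).symm
      have hvt : v ∉ s.erase v := notMem_erase v s
      have htc : (s.erase v).card + 1 = i := by rw [card_erase_add_one hvs, hi]
      have hz := (star_mem_cell h hv hy hX1 (hlk _ (hs.erase v) hvt) htc).2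
      rw [hs', cob_insert hvt]
      have h0 : ∑ u ∈ s.erase v, a u ((fun t => if v ∈ t then (0 : U) else
          X t + b v (y (insert v t) - a v (X t))) (insert v ((s.erase v).erase u))) = 0 := by
        refine sum_eq_zero fun u _ => ?_
        simp only [if_pos (mem_insert_self v _), map_zero]
      rw [h0, add_zero]
      simp only [if_neg hvt]
      have hab := h.ab v hv (y (insert v (s.erase v)) - a v (X (s.erase v)))
      rw [hz, map_zero, add_zero] at hab
      rw [map_add, hab]
      abel
    · have hcg : cob a (fun t => if v ∈ t then (0 : U) else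
          X t + b v (y (insert v t) - a v (X t))) s
          = cob a (fun t => X t + b v (y (insert v t) - a v (X t))) s := by
        refine cob_congr fun u hu => ?_
        have : v ∉ s.erase u := fun hh => hvs (mem_of_mem_erase hh)
        simp only [if_neg this]
      rw [hcg, cob_add]
      have h2 : cob a (fun t => b v (y (insert v t) - a v (X t))) s
          = - b v (cob a (fun t => y (insert v t) - a v (X t)) s) := by
        refine cob_anti ?_
        intro u hu x
        have hne : u ≠ v := by rintro rfl; exact hvs hu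
        exact h.cab u (hs.1 hu) v hv (hc u (hs.1 hu) hne).symm x
      rw [h2, star_cob_zero h hv hcl hX2 (hlk s hs hvs) hi, map_zero, neg_zero, add_zero]
      exact hX2 s (hs.of_erase_set hvs) hi

theorem star_clique {L : Finset V} (h : GSys G L a b) {r : Finset V} (hr : Cl G L r) {i : ℕ}
    {y : Finset V → U} (hy : InC G a (r ∪ lk G L r) i y) (hcl : Clo G a (r ∪ lk G L r) i y)
    (hb : Bd G a (lk G L r) i y) : Bd G a (r ∪ lk G L r) i y := by
  classical
  suffices H : ∀ r' : Finset V, r' ⊆ r → Bd G a (r' ∪ lk G L r) i y from H r (Subset.refl r)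
  intro r'
  induction r' using Finset.induction_on with
  | empty =>
    intro _
    rw [empty_union]
    exact hb
  | insert v r' hv ih =>
    intro hsub
    have hvr : v ∈ r := hsub (mem_insert_self _ _)
    have hr' : r' ⊆ r := fun x hx => hsub (mem_insert_of_mem hx)
    have hvl : v ∉ lk G L r := fun hh => (G.loopless.irrefl v) ((mem_lk.1 hh).2 v hvr)
    have hSS : insert v r' ∪ lk G L r ⊆ r ∪ lk G L r := union_subset_union_left hsub
    have hrL : r ∪ lk G L r ⊆ L := union_subset hr.1 (lk_subset _ _)
    have hvS : v ∈ insert v r' ∪ lk G L r := mem_union_left _ (mem_insert_self _ _)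
    have hE : (insert v r' ∪ lk G L r).erase v = r' ∪ lk G L r := by
      ext x
      simp only [mem_erase, mem_union, mem_insert]
      constructor
      · rintro ⟨hne, (hx | hx) | hx⟩
        · exact absurd hx hne
        · exact Or.inl hx
        · exact Or.inr hx
      · rintro (hx | hx)
        · exact ⟨fun e => hv (e ▸ hx), Or.inl (Or.inr hx)⟩
        · exact ⟨fun e => hvl (e ▸ hx), Or.inr hx⟩
    have hb' : Bd G a ((insert v r' ∪ lk G L r).erase v) i y := by
      rw [hE]
      exact ih hr'
    obtain ⟨x, -, h1, h2⟩ := star_lemma (h.mono (hSS.trans hrL)) hvS (fun x hx hne => by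
      rcases mem_union.1 hx with hx | hx
      · exact hr.adj hvr (hsub hx) (Ne.symm hne)
      · exact (mem_lk.1 hx).2 v hvr) (hy.mono hSS) (hcl.mono hSS) hb'
    exact ⟨x, h1, h2⟩

end Pool.Agent.H31.GS
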