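import Pool.Agent.H31.GS.Even2
import Pool.Agent.H31.GS.Even3
import Pool.Agent.H31.GS.Star
import Pool.Agent.H31.GS.Zig

/-!
# helper31, GS, module EVEN4: existence of the data, positivity

`dat_exists`: for `v ∈ Φ = far G (lk G A r) x` let `S = {v} ∪ lk G L {v}`, `L = lk G A r`. `y` is closed on `S`, `S.erase v = lk G L {v}`,
`Bd` there by `hex v`; `star_lemma` gives `x0` with `x0 s = 0` for `v ∈ s`, and `bd_val` (with the set `S ⊆ lk G A r`) makes the
values lie in `Cell b r`, keeping the zeros. Choose for every `v ∈ Φ` (put `Z v = 0` for other `v`).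

`even_pos`: `(-1)^(k+1) * om zz zz = (1/2) * ∑ v, ∑ w, N x v * N x w * ((-1)^k * om .. (Z v - Z w) (Z v - Z w))` by `om_zz`;
terms: `v = w`: zero (`Z v - Z v = 0`); `v ≠ w` not adjacent: zero (`om_zero_of`); adjacent: `≥ 0` by `dat_diff` (`npos`). If
the sum is zero each term is zero, so `om = 0` for adjacent pairs, so `Bd` of `Z v - Z w` (`dat_diff`), and `zig2` gives the
claim (its hypothesis `hZ`, `hZy` are `n2`, `n4`).
-/

namespace Pool.Agent.H31.GS

open Finset

set_option linter.unusedSectionVars false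
set_option linter.unusedVariables false

variable {V : Type} [Fintype V] [LinearOrder V] {G : SimpleGraph V}
variable {U : Type} [AddCommGroup U] [Module ℝ U] [FiniteDimensional ℝ U]
variable {a b : V → Module.End ℝ U}
variable {A : Finset V} {d : ℕ} {N : V → V → ℝ} {B : Finset V → U →ₗ[ℝ] U →ₗ[ℝ] ℝ}

theorem even4_one (hF : FSys G A d a b N B) {r : Finset V} (hr : Cl G A r) {k : ℕ} {v : V}
    (hvL : v ∈ lk G A r) (hex : ExC G a (lk G (lk G A r) {v}) (k + 1))
    {y : Finset V → U} (hy : InC G a (lk G A r) (k + 1) y) (hcl : Clo G a (lk G A r) (k + 1) y)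
    (hv : Vl G b (lk G A r) (k + 1) r y) :
    ∃ z : Finset V → U, (∀ s, v ∈ s → z s = 0) ∧
      InC G a ({v} ∪ lk G (lk G A r) {v}) k z ∧ (∀ s, z s ∈ Cell b r) ∧
      ∀ s, Cl G ({v} ∪ lk G (lk G A r) {v}) s → s.card = k + 1 → y s = cob a z s := by
  have hSL : {v} ∪ lk G (lk G A r) {v} ⊆ lk G A r :=
    union_subset (singleton_subset_iff.2 hvL) (lk_subset _ _)
  have hvS : v ∈ {v} ∪ lk G (lk G A r) {v} := mem_union_left _ (mem_singleton_self v)
  have hc : ∀ u ∈ {v} ∪ lk G (lk G A r) {v}, u ≠ v → G.Adj v u := by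
    intro u hu huv
    rcases mem_union.1 hu with h | h
    · exact absurd (mem_singleton.1 h) huv
    · exact (mem_lk_singleton.1 h).2
  have hE : ({v} ∪ lk G (lk G A r) {v}).erase v = lk G (lk G A r) {v} := by
    ext u
    simp only [mem_erase, mem_union, mem_singleton, mem_lk_singleton]
    constructor
    · rintro ⟨h1, h2 | h2⟩
      · exact absurd h2 h1
      · exact h2
    · intro h
      refine ⟨?_, Or.inr h⟩
      rintro rfl
      exact G.loopless.irrefl u h.2
  have hbd : Bd G a (({v} ∪ lk G (lk G A r) {v}).erase v) (k + 1) y := by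
    rw [hE]
    exact hex y (hy.mono (lk_subset _ _)) (hcl.mono (lk_subset _ _))
  obtain ⟨x0, h1, h2, h3⟩ := star_lemma (hF.sys.mono (hSL.trans (lk_subset A r))) hvS hc
    (hy.mono hSL) (hcl.mono hSL) hbd
  obtain ⟨x1, g1, g2, g3, g4⟩ := bd_val hF.sys hr hSL
    (y := y) (x := x0) (i := k + 1) (fun s hs hi => hv s (hs.mono hSL) hi) h2 h3
  exact ⟨x1, fun s hs => g2 s (h1 s hs), fun s hs hi => g3 s hs (by omega), g1, g4⟩

theorem dat_exists (hF : FSys G A d a b N B) {r : Finset V} (hr : Cl G A r) {k : ℕ} {x : V}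
    (hx : x ∈ lk G A r)
    (hex : ∀ v ∈ far G (lk G A r) x, ExC G a (lk G (lk G A r) {v}) (k + 1))
    {y : Finset V → U} (hy : InC G a (lk G A r) (k + 1) y) (hcl : Clo G a (lk G A r) (k + 1) y)
    (hv : Vl G b (lk G A r) (k + 1) r y) :
    ∃ Z : V → Finset V → U, Dat G A a b r x k y Z := by
  classical
  have key : ∀ v, ∃ z : Finset V → U, v ∈ far G (lk G A r) x →
      (∀ s, v ∈ s → z s = 0) ∧
      InC G a ({v} ∪ lk G (lk G A r) {v}) k z ∧ (∀ s, z s ∈ Cell b r) ∧
      ∀ s, Cl G ({v} ∪ lk G (lk G A r) {v}) s → s.card = k + 1 → y s = cob a z s := by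
    intro v
    by_cases hvf : v ∈ far G (lk G A r) x
    · obtain ⟨z, hz⟩ := even4_one hF hr (far_subset _ _ hvf) (hex v hvf) hy hcl hv
      exact ⟨z, fun _ => hz⟩
    · exact ⟨fun _ => 0, fun h => absurd h hvf⟩
  choose Z hZ using key
  exact ⟨Z, ⟨hy, hcl, hv, fun v h => (hZ v h).1, fun v h => (hZ v h).2.1,
    fun v h => (hZ v h).2.2.1, fun v h => (hZ v h).2.2.2⟩⟩

theorem even_pos (hF : FSys G A d a b N B) {r : Finset V} (hr : Cl G A r) {k : ℕ}
    (he : r.card + 2 * (k + 1) = d) {x : V} (hx : x ∈ lk G A r)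
    (hRE : ∀ s, Cl G (lk G A r) s → x ∉ s → AcyclicR G (nb G (far G (lk G A r) x) s))
    (hlk : ExC G a (lk G (lk G A r) {x}) k)
    (hcol : ∀ r', r' ⊆ far G (lk G A r) x → Cl G (lk G A r) r' → 3 ≤ r'.card →
      ∀ j, j + r'.card = k + 2 → ExC G a (lk G (lk G A r) r') j)
    (hpos : ∀ v ∈ far G (lk G A r) x, ∀ w ∈ far G (lk G A r) x, G.Adj v w →
      PosAt G A d a b B k (insert w (insert v r)))
    {y : Finset V → U} {Z : V → Finset V → U} (hD : Dat G A a b r x k y Z) :
    0 ≤ (-1) ^ (k + 1) * om G A d B (k + 1) r (zz N a (far G (lk G A r) x) x y Z)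
        (zz N a (far G (lk G A r) x) x y Z) ∧
    (om G A d B (k + 1) r (zz N a (far G (lk G A r) x) x y Z)
        (zz N a (far G (lk G A r) x) x y Z) = 0 → Bd G a (lk G A r) (k + 1) y) := by
  have hxA : x ∈ A := lk_subset _ _ hx
  have hN : ∀ v ∈ far G (lk G A r) x, 0 < N x v := by
    intro v hv
    obtain ⟨h1, h2, h3⟩ := mem_far.1 hv
    exact hF.npos x hxA v (lk_subset _ _ h1) (Ne.symm h2) h3
  have hT : ∀ v ∈ far G (lk G A r) x, ∀ w ∈ far G (lk G A r) x,
      0 ≤ (-1) ^ k * om G A d B k (insert w (insert v r)) (fun s => Z v s - Z w s)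
        (fun s => Z v s - Z w s) := by
    intro v hv w hw
    by_cases hvw : v = w
    · subst hvw
      have : om G A d B k (insert v (insert v r)) (fun s => Z v s - Z v s)
          (fun s => Z v s - Z v s) = 0 := by
        simp [om]
      rw [this, mul_zero]
    · by_cases hadj : G.Adj v w
      · exact (dat_diff hF hr he hx hD hv hw hadj (hpos v hv w hw hadj)).1
      · rw [om_zero_of (v := v) (w := w) (mem_insert_of_mem (mem_insert_self _ _))
          (mem_insert_self _ _) hvw hadj, mul_zero]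
  have hzz := om_zz hF hr he hx hD
  have hterm : ∀ v ∈ far G (lk G A r) x, ∀ w ∈ far G (lk G A r) x,
      0 ≤ N x v * N x w * ((-1) ^ k * om G A d B k (insert w (insert v r))
        (fun s => Z v s - Z w s) (fun s => Z v s - Z w s)) := fun v hv w hw =>
    mul_nonneg (mul_nonneg (hN v hv).le (hN w hw).le) (hT v hv w hw)
  have hsum : (-1) ^ (k + 1) * om G A d B (k + 1) r (zz N a (far G (lk G A r) x) x y Z)
        (zz N a (far G (lk G A r) x) x y Z) =
      (1 / 2) * ∑ v ∈ far G (lk G A r) x, ∑ w ∈ far G (lk G A r) x,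
        N x v * N x w * ((-1) ^ k * om G A d B k (insert w (insert v r))
        (fun s => Z v s - Z w s) (fun s => Z v s - Z w s)) := by
    rw [hzz]
    have e : ∀ v w : V, N x v * N x w * ((-1) ^ k * om G A d B k (insert w (insert v r))
        (fun s => Z v s - Z w s) (fun s => Z v s - Z w s)) =
        (-1) ^ k * (N x v * N x w * om G A d B k (insert w (insert v r))
        (fun s => Z v s - Z w s) (fun s => Z v s - Z w s)) := fun v w => by ring
    simp only [e, ← mul_sum]
    rw [pow_succ]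
    ring
  have hnn : 0 ≤ ∑ v ∈ far G (lk G A r) x, ∑ w ∈ far G (lk G A r) x,
        N x v * N x w * ((-1) ^ k * om G A d B k (insert w (insert v r))
        (fun s => Z v s - Z w s) (fun s => Z v s - Z w s)) :=
    sum_nonneg fun v hv => sum_nonneg fun w hw => hterm v hv w hw
  refine ⟨?_, fun h0 => ?_⟩
  · rw [hsum]
    exact mul_nonneg (by norm_num) hnn
  · rw [h0, mul_zero] at hsum
    have hs0 : ∑ v ∈ far G (lk G A r) x, ∑ w ∈ far G (lk G A r) x,
        N x v * N x w * ((-1) ^ k * om G A d B k (insert w (insert v r))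
        (fun s => Z v s - Z w s) (fun s => Z v s - Z w s)) = 0 := by linarith
    have h1 := (sum_eq_zero_iff_of_nonneg
      (fun v hv => sum_nonneg fun w hw => hterm v hv w hw)).1 hs0
    refine zig2 (hF.sys.mono (lk_subset A r)) hx hRE hlk hcol hD.inC hD.clo Z hD.n2 hD.n4 ?_
    intro v hv w hw hadj
    have h2 := (sum_eq_zero_iff_of_nonneg (fun w hw => hterm v hv w hw)).1 (h1 v hv) w hw
    have h3 : (-1 : ℝ) ^ k ≠ 0 := pow_ne_zero _ (by norm_num)
    have h4 : om G A d B k (insert w (insert v r)) (fun s => Z v s - Z w s)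
        (fun s => Z v s - Z w s) = 0 := by
      rcases mul_eq_zero.1 h2 with h5 | h5
      · exact absurd h5 (mul_pos (hN v hv) (hN w hw)).ne'
      · exact (mul_eq_zero.1 h5).resolve_left h3
    exact (dat_diff hF hr he hx hD hv hw hadj (hpos v hv w hw hadj)).2 h4

end Pool.Agent.H31.GS
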