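import Mathlib

/-!
# helper31, GS, module FINDIM: a positivity lemma of finite dimensional linear algebra

PROOF. Let `σ` be a linear right inverse of `π` (`LinearMap.exists_rightInverse_of_surjective`), `T = τ ∘ σ : Z → Z`.
If `T z ∈ E` then `β (T z) (T z) = 0`, so `z = π (σ z) ∈ E`. Let `Q = E.mkQ ∘ T : Z → Z ⧸ E`; `ker Q ≤ E`. Rank-nullity:
`finrank (range Q) = finrank Z - finrank (ker Q) ≥ finrank Z - finrank E = finrank (Z ⧸ E)`
(`Submodule.finrank_quotient_add_finrank`), so `Q` is surjective and `finrank (ker Q) = finrank E`, `ker Q = E`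
(`Submodule.eq_of_le_of_finrank_eq`). So every `z` is `T z' + e` with `e ∈ E`, and
`β z z = β (T z') (T z') ≥ 0`; if it is zero then `z' ∈ E = ker Q`, so `T z' ∈ E` and `z ∈ E`.
-/

namespace Pool.Agent.H31.GS

theorem findim {Z P : Type} [AddCommGroup Z] [Module ℝ Z] [FiniteDimensional ℝ Z]
    [AddCommGroup P] [Module ℝ P] (E : Submodule ℝ Z) (β : Z →ₗ[ℝ] Z →ₗ[ℝ] ℝ)
    (hE1 : ∀ e ∈ E, ∀ z, β e z = 0) (hE2 : ∀ e ∈ E, ∀ z, β z e = 0)
    (π τ : P →ₗ[ℝ] Z) (hπ : Function.Surjective π) (hpos : ∀ p, 0 ≤ β (τ p) (τ p))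
    (hz : ∀ p, β (τ p) (τ p) = 0 → π p ∈ E) :
    ∀ z, 0 ≤ β z z ∧ (β z z = 0 → z ∈ E) := by
  obtain ⟨σ, hσ⟩ := LinearMap.exists_rightInverse_of_surjective π (LinearMap.range_eq_top.2 hπ)
  have hσ' : ∀ z, π (σ z) = z := fun z => by
    have := LinearMap.congr_fun hσ z
    simpa using this
  have hT : ∀ z, τ (σ z) ∈ E → z ∈ E := by
    intro z h
    have h1 := hz (σ z) (hE1 _ h _)
    rwa [hσ'] at h1
  let Q : Z →ₗ[ℝ] Z ⧸ E := E.mkQ ∘ₗ (τ ∘ₗ σ)
  have hker : LinearMap.ker Q ≤ E := by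
    intro z h
    rw [LinearMap.mem_ker] at h
    exact hT z ((Submodule.Quotient.mk_eq_zero E).1 h)
  have h1 := LinearMap.finrank_range_add_finrank_ker Q
  have h2 := Submodule.finrank_quotient_add_finrank E
  have h3 := Submodule.finrank_mono hker
  have h4 := Submodule.finrank_le (LinearMap.range Q)
  have hkerE : LinearMap.ker Q = E := Submodule.eq_of_le_of_finrank_eq hker (by omega)
  have hrange : LinearMap.range Q = ⊤ := Submodule.eq_top_of_finrank_eq (by omega)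
  have hsurj : Function.Surjective Q := LinearMap.range_eq_top.1 hrange
  intro z
  obtain ⟨z', hz'⟩ := hsurj (E.mkQ z)
  have h5 : τ (σ z') - z ∈ E := by
    rw [← Submodule.Quotient.mk_eq_zero, Submodule.Quotient.mk_sub, sub_eq_zero]
    exact hz'
  obtain ⟨e, he, hze⟩ : ∃ e ∈ E, z = τ (σ z') - e := ⟨τ (σ z') - z, h5, by abel⟩
  have h6 : β z z = β (τ (σ z')) (τ (σ z')) := by
    rw [hze]
    simp only [map_sub, LinearMap.sub_apply]
    rw [hE2 e he, hE1 e he, hE1 e he]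
    ring
  refine ⟨by rw [h6]; exact hpos _, fun h0 => ?_⟩
  rw [h6] at h0
  have h7 := hz _ h0
  rw [hσ', ← hkerE, LinearMap.mem_ker] at h7
  rw [hze]
  exact E.sub_mem ((Submodule.Quotient.mk_eq_zero E).1 h7) he

end Pool.Agent.H31.GS
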