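import Pool.Agent.H31.GS.Even4
import Pool.Agent.H31.GS.FinDim

/-!
# helper31, GS, module EVEN5: the even step

`even_step`: `findim` with `Z := {y | InC ∧ Clo ∧ Vl}` (a submodule of `Finset V → U`, coerced to a type), `E` = the elements
which are `Bd` (`Bd` is closed under addition and scalars), `β y y' = (-1)^(k+1) * om (k+1) r y y'` (bilinear: OM1), zero on
`E` by `om_bd_left`, `om_bd_right` (`i = j = k + 1`), `P := {(y, Z) | Dat}` (a submodule of
`(Finset V → U) × (V → Finset V → U)`), `π (y, Z) = y` (surjective by `dat_exists`), `τ (y, Z) = zz y Z`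
(linear; in `Z` by `zz_inC`, `zz_clo`, `zz_vl`); hypotheses by `even_pos`.
-/

namespace Pool.Agent.H31.GS

open Finset

set_option linter.unusedSectionVars false
set_option linter.unusedVariables false

variable {V : Type} [Fintype V] [LinearOrder V] {G : SimpleGraph V}
variable {U : Type} [AddCommGroup U] [Module ℝ U] [FiniteDimensional ℝ U]
variable {a b : V → Module.End ℝ U}
variable {A : Finset V} {d : ℕ} {N : V → V → ℝ} {B : Finset V → U →ₗ[ℝ] U →ₗ[ℝ] ℝ}

/-! ### linearity -/

section Lin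

variable {i : ℕ} {L r' : Finset V} {y y' : Finset V → U}

theorem e5_inC_add (h : InC G a L i y) (h' : InC G a L i y') : InC G a L i (y + y') :=
  fun s hs hc => Submodule.add_mem _ (h s hs hc) (h' s hs hc)

theorem e5_inC_smul (c : ℝ) (h : InC G a L i y) : InC G a L i (c • y) :=
  fun s hs hc => Submodule.smul_mem _ c (h s hs hc)

theorem e5_inC_zero : InC G a L i (0 : Finset V → U) :=
  fun s hs hc => Submodule.zero_mem _

theorem e5_cob_add (y y' : Finset V → U) (s : Finset V) :
    cob a (y + y') s = cob a y s + cob a y' s := cob_add y y' s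

theorem e5_cob_smul (c : ℝ) (y : Finset V → U) (s : Finset V) :
    cob a (c • y) s = c • cob a y s := cob_smul c y s

theorem e5_cob_zero (s : Finset V) : cob a (0 : Finset V → U) s = 0 := by
  unfold cob
  exact sum_eq_zero (fun v hv => by rw [Pi.zero_apply, map_zero])

theorem e5_clo_add (h : Clo G a L i y) (h' : Clo G a L i y') : Clo G a L i (y + y') :=
  fun s hs hc => by rw [e5_cob_add, h s hs hc, h' s hs hc, add_zero]

theorem e5_clo_smul (c : ℝ) (h : Clo G a L i y) : Clo G a L i (c • y) :=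
  fun s hs hc => by rw [e5_cob_smul, h s hs hc, smul_zero]

theorem e5_clo_zero : Clo G a L i (0 : Finset V → U) :=
  fun s hs hc => e5_cob_zero s

theorem e5_vl_add (h : Vl G b L i r' y) (h' : Vl G b L i r' y') : Vl G b L i r' (y + y') :=
  fun s hs hc => Submodule.add_mem _ (h s hs hc) (h' s hs hc)

theorem e5_vl_smul (c : ℝ) (h : Vl G b L i r' y) : Vl G b L i r' (c • y) :=
  fun s hs hc => Submodule.smul_mem _ c (h s hs hc)

theorem e5_vl_zero : Vl G b L i r' (0 : Finset V → U) :=
  fun s hs hc => Submodule.zero_mem _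

theorem e5_bd_smul (c : ℝ) (h : Bd G a L i y) : Bd G a L i (c • y) := by
  obtain ⟨x, h1, h2⟩ := h
  refine ⟨c • x, fun s hs hi => Submodule.smul_mem _ c (h1 s hs hi), fun s hs hi => ?_⟩
  rw [e5_cob_smul, Pi.smul_apply, h2 s hs hi]

theorem e5_bd_zero : Bd G a L i (0 : Finset V → U) :=
  ⟨0, fun s hs hi => Submodule.zero_mem _, fun s hs hi => (e5_cob_zero s).symm⟩

theorem e5_dat_add {r : Finset V} {x : V} {k : ℕ} {Z Z' : V → Finset V → U}
    (h : Dat G A a b r x k y Z) (h' : Dat G A a b r x k y' Z') :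
    Dat G A a b r x k (y + y') (Z + Z') where
  inC := e5_inC_add h.inC h'.inC
  clo := e5_clo_add h.clo h'.clo
  vl := e5_vl_add h.vl h'.vl
  n1 := fun v hv s hs => by
    rw [Pi.add_apply, Pi.add_apply, h.n1 v hv s hs, h'.n1 v hv s hs, add_zero]
  n2 := fun v hv => e5_inC_add (h.n2 v hv) (h'.n2 v hv)
  n3 := fun v hv s => Submodule.add_mem _ (h.n3 v hv s) (h'.n3 v hv s)
  n4 := fun v hv s hs hc => by
    rw [Pi.add_apply, Pi.add_apply, e5_cob_add, h.n4 v hv s hs hc, h'.n4 v hv s hs hc]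

theorem e5_dat_smul (c : ℝ) {r : Finset V} {x : V} {k : ℕ} {Z : V → Finset V → U}
    (h : Dat G A a b r x k y Z) :
    Dat G A a b r x k (c • y) (c • Z) where
  inC := e5_inC_smul c h.inC
  clo := e5_clo_smul c h.clo
  vl := e5_vl_smul c h.vl
  n1 := fun v hv s hs => by
    rw [Pi.smul_apply, Pi.smul_apply, h.n1 v hv s hs, smul_zero]
  n2 := fun v hv => e5_inC_smul c (h.n2 v hv)
  n3 := fun v hv s => Submodule.smul_mem _ c (h.n3 v hv s)
  n4 := fun v hv s hs hc => by
    rw [Pi.smul_apply, Pi.smul_apply, e5_cob_smul, h.n4 v hv s hs hc]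

theorem e5_dat_zero {r : Finset V} {x : V} {k : ℕ} :
    Dat G A a b r x k (0 : Finset V → U) (0 : V → Finset V → U) where
  inC := e5_inC_zero
  clo := e5_clo_zero
  vl := e5_vl_zero
  n1 := fun v hv s hs => rfl
  n2 := fun v hv => e5_inC_zero
  n3 := fun v hv s => Submodule.zero_mem _
  n4 := fun v hv s hs hc => (e5_cob_zero s).symm

theorem e5_zz_add (Φ : Finset V) (x : V) (y y' : Finset V → U) (Z Z' : V → Finset V → U) :
    zz N a Φ x (y + y') (Z + Z') = zz N a Φ x y Z + zz N a Φ x y' Z' := by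
  funext s
  rw [Pi.add_apply]
  unfold zz
  have e : ∀ v, N x v • xm v ((Z + Z') v) s = N x v • xm v (Z v) s + N x v • xm v (Z' v) s := by
    intro v
    rw [← smul_add]
    unfold xm
    split_ifs
    · rfl
    · rw [add_zero]
  rw [sum_congr rfl (fun v _ => e v), sum_add_distrib, Pi.add_apply, map_add]
  split_ifs
  · abel
  · abel

theorem e5_zz_smul (c : ℝ) (Φ : Finset V) (x : V) (y : Finset V → U) (Z : V → Finset V → U) :
    zz N a Φ x (c • y) (c • Z) = c • zz N a Φ x y Z := by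
  funext s
  rw [Pi.smul_apply]
  unfold zz
  have e : ∀ v, N x v • xm v ((c • Z) v) s = c • (N x v • xm v (Z v) s) := by
    intro v
    rw [smul_comm c]
    unfold xm
    split_ifs
    · rfl
    · rw [smul_zero, smul_zero, smul_zero]
  rw [sum_congr rfl (fun v _ => e v), ← smul_sum, Pi.smul_apply, map_smul, smul_add]
  split_ifs
  · rw [smul_zero]
  · rfl

end Lin

theorem even_step (hF : FSys G A d a b N B) {r : Finset V} (hr : Cl G A r) {k : ℕ}
    (he : r.card + 2 * (k + 1) = d) {x : V} (hx : x ∈ lk G A r)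
    (hRE : ∀ s, Cl G (lk G A r) s → x ∉ s → AcyclicR G (nb G (far G (lk G A r) x) s))
    (hex : ∀ v ∈ far G (lk G A r) x, ExC G a (lk G (lk G A r) {v}) (k + 1))
    (hlk : ExC G a (lk G (lk G A r) {x}) k)
    (hcol : ∀ r', r' ⊆ far G (lk G A r) x → Cl G (lk G A r) r' → 3 ≤ r'.card →
      ∀ j, j + r'.card = k + 2 → ExC G a (lk G (lk G A r) r') j)
    (hpos : ∀ v ∈ far G (lk G A r) x, ∀ w ∈ far G (lk G A r) x, G.Adj v w →
      PosAt G A d a b B k (insert w (insert v r))) :
    PosAt G A d a b B (k + 1) r := by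
  let Zs : Submodule ℝ (Finset V → U) :=
    { carrier := {y | InC G a (lk G A r) (k + 1) y ∧ Clo G a (lk G A r) (k + 1) y ∧
        Vl G b (lk G A r) (k + 1) r y}
      add_mem' := fun {y y'} hy hy' =>
        ⟨e5_inC_add hy.1 hy'.1, e5_clo_add hy.2.1 hy'.2.1, e5_vl_add hy.2.2 hy'.2.2⟩
      zero_mem' := ⟨e5_inC_zero, e5_clo_zero, e5_vl_zero⟩
      smul_mem' := fun c {y} hy =>
        ⟨e5_inC_smul c hy.1, e5_clo_smul c hy.2.1, e5_vl_smul c hy.2.2⟩ }
  let E : Submodule ℝ Zs :=
    { carrier := {y | Bd G a (lk G A r) (k + 1) y.1}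
      add_mem' := fun {y y'} hy hy' => Bd.add hy hy'
      zero_mem' := e5_bd_zero
      smul_mem' := fun c {y} hy => e5_bd_smul c hy }
  let P : Submodule ℝ ((Finset V → U) × (V → Finset V → U)) :=
    { carrier := {p | Dat G A a b r x k p.1 p.2}
      add_mem' := fun {p p'} hp hp' => e5_dat_add hp hp'
      zero_mem' := e5_dat_zero
      smul_mem' := fun c {p} hp => e5_dat_smul c hp }
  let β : Zs →ₗ[ℝ] Zs →ₗ[ℝ] ℝ := LinearMap.mk₂ ℝ
    (fun y y' => (-1) ^ (k + 1) * om G A d B (k + 1) r y.1 y'.1)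
    (fun y z w => by
      change (-1) ^ (k + 1) * om G A d B (k + 1) r (fun s => y.1 s + z.1 s) w.1 = _
      rw [om_add_left, mul_add])
    (fun c y w => by
      change (-1) ^ (k + 1) * om G A d B (k + 1) r (fun s => c • y.1 s) w.1 = _
      rw [om_smul_left, smul_eq_mul]
      ring)
    (fun y z w => by
      change (-1) ^ (k + 1) * om G A d B (k + 1) r y.1 (fun s => z.1 s + w.1 s) = _
      rw [om_add_right, mul_add])
    (fun c y w => by
      change (-1) ^ (k + 1) * om G A d B (k + 1) r y.1 (fun s => c • w.1 s) = _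
      rw [om_smul_right, smul_eq_mul]
      ring)
  let π : P →ₗ[ℝ] Zs :=
    { toFun := fun p => ⟨p.1.1, p.2.inC, p.2.clo, p.2.vl⟩
      map_add' := fun p p' => rfl
      map_smul' := fun c p => rfl }
  let τ : P →ₗ[ℝ] Zs :=
    { toFun := fun p => ⟨zz N a (far G (lk G A r) x) x p.1.1 p.1.2, zz_inC hF hr hx p.2,
        zz_clo hF hr hx p.2, zz_vl hF hr hx p.2⟩
      map_add' := fun p p' => Subtype.ext (e5_zz_add _ _ _ _ _ _)
      map_smul' := fun c p => Subtype.ext (e5_zz_smul _ _ _ _ _) }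
  have hij : (k + 1) + (k + 1) + r.card = d := by omega
  have main := findim E β
    (fun e he' z => by
      change (-1) ^ (k + 1) * om G A d B (k + 1) r e.1 z.1 = 0
      rw [om_bd_left hF hr hij he' z.2.2.1, mul_zero])
    (fun e he' z => by
      change (-1) ^ (k + 1) * om G A d B (k + 1) r z.1 e.1 = 0
      rw [om_bd_right hF hr hij z.2.2.1 he', mul_zero])
    π τ
    (fun z => by
      obtain ⟨Z, hZ⟩ := dat_exists hF hr hx hex z.2.1 z.2.2.1 z.2.2.2
      exact ⟨⟨(z.1, Z), hZ⟩, rfl⟩)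
    (fun p => (even_pos hF hr he hx hRE hlk hcol hpos p.2).1)
    (fun p hp => (even_pos hF hr he hx hRE hlk hcol hpos p.2).2 (by
      have h1 : (-1 : ℝ) ^ (k + 1) * om G A d B (k + 1) r
        (zz N a (far G (lk G A r) x) x p.1.1 p.1.2)
        (zz N a (far G (lk G A r) x) x p.1.1 p.1.2) = 0 := hp
      rcases mul_eq_zero.1 h1 with h | h
      · exact absurd h (pow_ne_zero _ (by norm_num))
      · exact h))
  intro y hy hcl hv
  have := main ⟨y, hy, hcl, hv⟩
  refine ⟨this.1, fun h0 => this.2 ?_⟩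
  change (-1) ^ (k + 1) * om G A d B (k + 1) r y y = 0
  rw [h0, mul_zero]

end Pool.Agent.H31.GS
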