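import Pool.Agent.H31.GS.Slice
import Pool.Agent.H31.GS.Cliff

/-!
# helper31, GS, module EXT: free fermions, extension of systems

`exists_fermi`: from `exists_cliff V` (`X`, `Y`, `γ`) put `α v = (1/2) • (X v + Y v)`, `β v = (1/2) • (X v - Y v)`.
`(⊤ : SimpleGraph V).Adj v w` means `v ≠ w`. `α v * α v = (1/4) (X X + Y Y + (X Y + Y X)) = 0` etc.; from `XX v v`: `X v * X v = 1`.

`kr_a`, `kr_g` are the computations for `ι × κ`: `(A ⊗ₖ B) * (C ⊗ₖ D) = (A * C) ⊗ₖ (B * D)` (`Matrix.mul_kronecker_mul`),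
`Matrix.neg_kronecker`/`kroneckerMap` additivity (`Matrix.add_kronecker`, `Matrix.kronecker_add`, `Matrix.one_kronecker_one`).

`racy_ext`: `(a, b, γ)` on `ι` for `E`, fermions `(α, β, γ')` on `κ` (`exists_fermi`): for `v ∈ E` put `a v ⊗ₖ 1`, `b v ⊗ₖ 1`, for other `v`
put `γ ⊗ₖ α v`, `γ ⊗ₖ β v`; grading operator `γ ⊗ₖ γ'`. Anticommutation of `a v ⊗ₖ 1` and `γ ⊗ₖ α w`: `a v * γ = - (γ * a v)`.
Exactness on `E`: `exM_congr` and `ex_left`.

`multi_empty`: `exists_fermi`, `GrM.graph` (adjacent vertices are different).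
-/

namespace Pool.Agent.H31.GS

open Finset
open scoped Kronecker

set_option linter.unusedSectionVars false
set_option linter.unusedVariables false

variable {V : Type} [Fintype V] [LinearOrder V] {G : SimpleGraph V}

/-- one graded system on all vertices, exact on all members of `𝓔` -/
def Multi (G : SimpleGraph V) (𝓔 : Finset (Finset V)) : Prop :=
  ∃ (ι : Type) (_ : Fintype ι) (_ : DecidableEq ι) (_ : Nonempty ι)
    (a b : V → Matrix ι ι ℝ) (γ : Matrix ι ι ℝ), GrM G univ a b γ ∧ ∀ E ∈ 𝓔, ExM G a E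

theorem ext_quarter {ι : Type} [Fintype ι] [DecidableEq ι] (A B C D : Matrix ι ι ℝ) :
    ((1 / 2 : ℝ) • (A + B)) * ((1 / 2 : ℝ) • (C + D)) =
      (1 / 4 : ℝ) • (A * C + A * D + B * C + B * D) := by
  rw [smul_mul_smul_comm, add_mul, mul_add, mul_add]
  norm_num
  abel_nf

theorem exists_fermi (V : Type) [Fintype V] [LinearOrder V] :
    ∃ (ι : Type) (_ : Fintype ι) (_ : DecidableEq ι) (_ : Nonempty ι)
      (a b : V → Matrix ι ι ℝ) (γ : Matrix ι ι ℝ), GrM (⊤ : SimpleGraph V) univ a b γ := by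
  obtain ⟨ι, i1, i2, i3, X, Y, γ, h⟩ := exists_cliff V
  have haa : ∀ v w, ((1 / 2 : ℝ) • (X v + Y v)) * ((1 / 2 : ℝ) • (X w + Y w)) +
      ((1 / 2 : ℝ) • (X w + Y w)) * ((1 / 2 : ℝ) • (X v + Y v)) = 0 := by
    intro v w
    rw [ext_quarter, ext_quarter, ← smul_add]
    have e : X v * X w + X v * Y w + Y v * X w + Y v * Y w +
        (X w * X v + X w * Y v + Y w * X v + Y w * Y v) =
        (X v * X w + X w * X v) + (Y v * Y w + Y w * Y v) + (X v * Y w + Y w * X v) +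
        (X w * Y v + Y v * X w) := by abel
    rw [e, h.XX, h.YY, h.XY, h.XY]
    split_ifs <;> simp
  have hbb : ∀ v w, ((1 / 2 : ℝ) • (X v + -Y v)) * ((1 / 2 : ℝ) • (X w + -Y w)) +
      ((1 / 2 : ℝ) • (X w + -Y w)) * ((1 / 2 : ℝ) • (X v + -Y v)) = 0 := by
    intro v w
    rw [ext_quarter, ext_quarter, ← smul_add]
    have e : X v * X w + X v * -Y w + -Y v * X w + -Y v * -Y w +
        (X w * X v + X w * -Y v + -Y w * X v + -Y w * -Y v) =
        (X v * X w + X w * X v) + (Y v * Y w + Y w * Y v) - (X v * Y w + Y w * X v) -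
        (X w * Y v + Y v * X w) := by
      simp only [mul_neg, neg_mul, neg_neg]
      abel
    rw [e, h.XX, h.YY, h.XY, h.XY]
    split_ifs <;> simp
  have hab : ∀ v w, ((1 / 2 : ℝ) • (X v + Y v)) * ((1 / 2 : ℝ) • (X w + -Y w)) +
      ((1 / 2 : ℝ) • (X w + -Y w)) * ((1 / 2 : ℝ) • (X v + Y v)) = if v = w then 1 else 0 := by
    intro v w
    rw [ext_quarter, ext_quarter, ← smul_add]
    have e : X v * X w + X v * -Y w + Y v * X w + Y v * -Y w +
        (X w * X v + X w * Y v + -Y w * X v + -Y w * Y v) =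
        (X v * X w + X w * X v) - (Y v * Y w + Y w * Y v) - (X v * Y w + Y w * X v) +
        (X w * Y v + Y v * X w) := by
      simp only [mul_neg, neg_mul]
      abel
    rw [e, h.XX, h.YY, h.XY, h.XY]
    split_ifs
    · ext i j
      simp only [Matrix.smul_apply, Matrix.add_apply, Matrix.sub_apply, Matrix.neg_apply,
        Matrix.zero_apply, smul_eq_mul, Matrix.ofNat_apply, Matrix.one_apply, sub_zero, add_zero]
      split_ifs <;> norm_num
    · simp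
  have hsq : ∀ M : Matrix ι ι ℝ, M + M = 0 → M = 0 := by
    intro M hM
    have h2 : (2 : ℝ) • M = 0 := by rw [two_smul]; exact hM
    exact (smul_eq_zero.1 h2).resolve_left two_ne_zero
  refine ⟨ι, i1, i2, i3, fun v => (1 / 2 : ℝ) • (X v + Y v), fun v => (1 / 2 : ℝ) • (X v + -Y v), γ,
    ⟨fun v _ => hsq _ (haa v v), fun v _ => hsq _ (hbb v v), fun v _ => ?_, ?_, ?_, ?_, h.gg,
      fun v _ => ?_, fun v _ => ?_⟩⟩
  · have := hab v v
    rwa [if_pos rfl] at this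
  · intro v _ w _ _
    exact eq_neg_of_add_eq_zero_left (haa v w)
  · intro v _ w _ e
    have := hab v w
    rw [if_neg e.ne] at this
    exact eq_neg_of_add_eq_zero_left this
  · intro v _ w _ _
    exact eq_neg_of_add_eq_zero_left (hbb v w)
  · rw [mul_smul_comm, mul_add, h.gX, h.gY, smul_mul_assoc, add_mul, ← smul_neg]
    congr 1
    abel
  · rw [mul_smul_comm, mul_add, mul_neg, h.gX, h.gY, smul_mul_assoc, add_mul, neg_mul, ← smul_neg]
    congr 1
    abel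

theorem multi_empty (G : SimpleGraph V) : Multi G ∅ := by
  obtain ⟨ι, i1, i2, i3, a, b, γ, h⟩ := exists_fermi V
  exact ⟨ι, i1, i2, i3, a, b, γ, h.graph (fun x _ y _ e => by simpa using e.ne),
    fun E hE => absurd hE (notMem_empty E)⟩

theorem racy_ext {E : Finset V} (h : RAcy G E) :
    ∃ (ι : Type) (_ : Fintype ι) (_ : DecidableEq ι) (_ : Nonempty ι)
      (a b : V → Matrix ι ι ℝ) (γ : Matrix ι ι ℝ), GrM G univ a b γ ∧ ExM G a E := by
  obtain ⟨ι, i1, i2, i3, a, b, γ, hs, hex⟩ := h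
  obtain ⟨κ, j1, j2, j3, α, β, γ', hf⟩ := exists_fermi V
  have L1 : ∀ p q : Matrix ι ι ℝ, (p ⊗ₖ (1 : Matrix κ κ ℝ)) * (q ⊗ₖ (1 : Matrix κ κ ℝ)) =
      (p * q) ⊗ₖ (1 : Matrix κ κ ℝ) := by
    intro p q
    rw [← Matrix.mul_kronecker_mul, mul_one]
  have L2 : ∀ (p : Matrix ι ι ℝ) (r : Matrix κ κ ℝ), (p ⊗ₖ (1 : Matrix κ κ ℝ)) * (γ ⊗ₖ r) =
      (p * γ) ⊗ₖ r := by
    intro p r
    rw [← Matrix.mul_kronecker_mul, one_mul]
  have L3 : ∀ (p : Matrix ι ι ℝ) (r : Matrix κ κ ℝ), (γ ⊗ₖ r) * (p ⊗ₖ (1 : Matrix κ κ ℝ)) =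
      (γ * p) ⊗ₖ r := by
    intro p r
    rw [← Matrix.mul_kronecker_mul, mul_one]
  have L4 : ∀ (r s : Matrix κ κ ℝ), (γ ⊗ₖ r) * (γ ⊗ₖ s) = (1 : Matrix ι ι ℝ) ⊗ₖ (r * s) := by
    intro r s
    rw [← Matrix.mul_kronecker_mul, hs.gg]
  have N1 : ∀ (p : Matrix ι ι ℝ) (r : Matrix κ κ ℝ), (-p) ⊗ₖ r = -(p ⊗ₖ r) := by
    intro p r
    ext i j
    simp [Matrix.kroneckerMap_apply]
  have N2 : ∀ (p : Matrix ι ι ℝ) (r : Matrix κ κ ℝ), p ⊗ₖ (-r) = -(p ⊗ₖ r) := by
    intro p r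
    ext i j
    simp [Matrix.kroneckerMap_apply]
  classical
  have hE : ∀ {x y : V → Matrix ι ι ℝ} {ξ η : V → Matrix κ κ ℝ} {v w : V}, G.Adj v w →
      (v ∈ E → w ∈ E → x v * y w = -(y w * x v)) → (ξ v * η w = -(η w * ξ v)) →
      (v ∈ E → γ * x v = -(x v * γ)) → (w ∈ E → γ * y w = -(y w * γ)) →
      (if v ∈ E then x v ⊗ₖ (1 : Matrix κ κ ℝ) else γ ⊗ₖ ξ v) *
        (if w ∈ E then y w ⊗ₖ (1 : Matrix κ κ ℝ) else γ ⊗ₖ η w) =
      -((if w ∈ E then y w ⊗ₖ (1 : Matrix κ κ ℝ) else γ ⊗ₖ η w) *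
        (if v ∈ E then x v ⊗ₖ (1 : Matrix κ κ ℝ) else γ ⊗ₖ ξ v)) := by
    intro x y ξ η v w e h1 h2 h3 h4
    by_cases hv : v ∈ E <;> by_cases hw : w ∈ E
    · rw [if_pos hv, if_pos hw, L1, L1, h1 hv hw, N1]
    · rw [if_pos hv, if_neg hw, L2, L3, h3 hv, N1, neg_neg]
    · rw [if_neg hv, if_pos hw, L3, L2, h4 hw, N1]
    · rw [if_neg hv, if_neg hw, L4, L4, h2, N2]
  refine ⟨ι × κ, inferInstance, inferInstance, inferInstance,
    fun v => if v ∈ E then a v ⊗ₖ (1 : Matrix κ κ ℝ) else γ ⊗ₖ α v,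
    fun v => if v ∈ E then b v ⊗ₖ (1 : Matrix κ κ ℝ) else γ ⊗ₖ β v, γ ⊗ₖ γ', ⟨?_, ?_, ?_, ?_, ?_, ?_,
      ?_, ?_, ?_⟩, ?_⟩
  · intro v _
    by_cases hv : v ∈ E
    · simp only [if_pos hv]
      rw [L1, hs.aa v hv, Matrix.zero_kronecker]
    · simp only [if_neg hv]
      rw [L4, hf.aa v (mem_univ v), Matrix.kronecker_zero]
  · intro v _
    by_cases hv : v ∈ E
    · simp only [if_pos hv]
      rw [L1, hs.bb v hv, Matrix.zero_kronecker]
    · simp only [if_neg hv]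
      rw [L4, hf.bb v (mem_univ v), Matrix.kronecker_zero]
  · intro v _
    by_cases hv : v ∈ E
    · simp only [if_pos hv]
      rw [L1, L1, ← Matrix.add_kronecker, hs.ab v hv, Matrix.one_kronecker_one]
    · simp only [if_neg hv]
      rw [L4, L4, ← Matrix.kronecker_add, hf.ab v (mem_univ v), Matrix.one_kronecker_one]
  · intro v _ w _ e
    exact hE e (fun hv hw => hs.caa v hv w hw e)
      (hf.caa v (mem_univ v) w (mem_univ w) (by simpa using e.ne)) (hs.ga v) (hs.ga w)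
  · intro v _ w _ e
    exact hE e (fun hv hw => hs.cab v hv w hw e)
      (hf.cab v (mem_univ v) w (mem_univ w) (by simpa using e.ne)) (hs.ga v) (hs.gb w)
  · intro v _ w _ e
    exact hE e (fun hv hw => hs.cbb v hv w hw e)
      (hf.cbb v (mem_univ v) w (mem_univ w) (by simpa using e.ne)) (hs.gb v) (hs.gb w)
  · rw [L4, hf.gg, Matrix.one_kronecker_one]
  · intro v _
    by_cases hv : v ∈ E
    · simp only [if_pos hv]
      rw [L3, L2, hs.ga v hv, N1]
    · simp only [if_neg hv]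
      rw [L4, L4, hf.ga v (mem_univ v), N2]
  · intro v _
    by_cases hv : v ∈ E
    · simp only [if_pos hv]
      rw [L3, L2, hs.gb v hv, N1]
    · simp only [if_neg hv]
      rw [L4, L4, hf.gb v (mem_univ v), N2]
  · exact exM_congr (fun v hv => by rw [if_pos hv]) (fun i => ex_left (hex i))

end Pool.Agent.H31.GS
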