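import Pool.Agent.H31.GS.EulerAbs
import Pool.Agent.H31.GS.Comb

/-!
# helper31, GS, module OMEGAODD: `omega = 0` for spheres of odd rank

`chi G A = ∑ (-1)^|s|` over the simplices of `A`.

`chi_acyclic`: apply `euler_abs` to `X = (Finset V → ℝ)`, `C i = {f | f s = 0 unless s is a simplex of D with i elements}`,
`D f s = if Cl G D s then ∑ v ∈ s, sgn v s * f (s.erase v) else 0`, `n = Fintype.card V`, `m = 0` (all degrees are exact by
`AcyclicR`, truncating `h`; `D D = 0` is `sgn_dd`); use once `m = 0` and once `m = 1`: the sum `S` satisfies `S = k` and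
`S = - k'` with `k, k' : ℕ`, so `S = 0`. `finrank (C i)` = the number of simplices with `i` elements.

`chi_sphere`: induction on `d` (strong, generalizing `A`): `d = 0`: `A = ∅`, sum `= 1`. `d + 1`: take `v ∈ A`. Split each
simplex `s` of `A` as `s' ∪ s''`, `s'' = s ∩ far G A v`, `s' = s \ s''`, a simplex of `A \ far`. For fixed `s'` with `v ∉ s'`:
`s'` is a simplex of `lk G A {v}`, `s''` runs through the simplices of `far G (lk G A s') v`, acyclic because `lk G A s'` is
a sphere (`sphere_lk`, `sphere_far`, `v ∈ lk G A s'`), so the sum over `s''` is `0` by `chi_acyclic`. For `v ∈ s'`: `s'' = ∅` (no element of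
`far` is adjacent to `v`). So `chi A = ∑` over simplices `s'` containing `v` `= - chi (lk G A {v}) = - (-1)^d`.

`omega_odd`: `∑_s (-1/2)^|s| = ∑_s (-1)^|s| (1/2)^|s|` and `(1/2)^|s| = (1 + (-1/2))^|s| = ∑_{r ⊆ s} (-1/2)^|r|`
(`Finset.sum_pow_mul_eq_add_pow`, `Finset.prod_one_add`...). Exchange the sums: `∑_r (-1/2)^|r| ∑_{s ⊇ r} (-1)^|s|`
`= ∑_r (-1/2)^|r| (-1)^|r| chi (lk G A r) = ∑_r (-1/2)^|r| (-1)^|r| (-1)^(d - |r|) = (-1)^d * omega` (simplices `s ⊇ r` are
`r ∪ t`, `t` a simplex of `lk G A r`). So `omega = - omega` for odd `d`.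
-/

namespace Pool.Agent.H31.GS

open Finset

set_option linter.unusedSectionVars false
set_option linter.unusedVariables false

variable {V : Type} [Fintype V] [LinearOrder V] {G : SimpleGraph V}

open Classical in
/-- Euler characteristic (with sign and the empty simplex) -/
noncomputable def chi (G : SimpleGraph V) (A : Finset V) : ℚ :=
  ∑ s ∈ A.powerset.filter (fun s : Finset V => G.IsClique (s : Set V)), (-1 : ℚ) ^ s.card

namespace OmegaOddAux

open Classical in
/-- the simplices of `A` -/
noncomputable def Sx (G : SimpleGraph V) (A : Finset V) : Finset (Finset V) :=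
  A.powerset.filter (fun s : Finset V => G.IsClique (s : Set V))

theorem mem_Sx {A s : Finset V} : s ∈ Sx G A ↔ Cl G A s := by
  classical
  unfold Sx Cl
  rw [mem_filter, mem_powerset]

theorem chi_eq (A : Finset V) : chi G A = ∑ s ∈ Sx G A, (-1 : ℚ) ^ s.card := rfl

theorem omega_eq (A : Finset V) : omega G A = ∑ s ∈ Sx G A, (-1 / 2 : ℚ) ^ s.card := rfl

/-- functions on the simplices of `D` with `i` elements -/
def Ci (G : SimpleGraph V) (D : Finset V) (i : ℕ) : Submodule ℝ (Finset V → ℝ) where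
  carrier := {f | ∀ s, ¬ (Cl G D s ∧ s.card = i) → f s = 0}
  add_mem' := by
    intro f g hf hg s hs
    rw [Pi.add_apply, hf s hs, hg s hs, add_zero]
  zero_mem' := fun s _ => rfl
  smul_mem' := by
    intro c f hf s hs
    rw [Pi.smul_apply, hf s hs, smul_zero]

theorem mem_Ci {D : Finset V} {i : ℕ} {f : Finset V → ℝ} :
    f ∈ Ci G D i ↔ ∀ s, ¬ (Cl G D s ∧ s.card = i) → f s = 0 := Iff.rfl

open Classical in
/-- the cochains as functions on a finite type -/
noncomputable def ciEquiv (G : SimpleGraph V) (D : Finset V) (i : ℕ) :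
    Ci G D i ≃ₗ[ℝ] ({s : Finset V // Cl G D s ∧ s.card = i} → ℝ) where
  toFun f := fun s => f.1 s.1
  map_add' := by
    intro f g
    rfl
  map_smul' := by
    intro c f
    rfl
  invFun g := ⟨fun s => if h : Cl G D s ∧ s.card = i then g ⟨s, h⟩ else 0, by
    intro s h
    exact dif_neg h⟩
  left_inv := by
    intro f
    ext1
    funext s
    simp only
    split_ifs with h
    · rfl
    · exact (f.2 s h).symm
  right_inv := by
    intro g
    funext s
    exact dif_pos s.2

open Classical in
/-- the signed coboundary -/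
noncomputable def dL (G : SimpleGraph V) (D : Finset V) :
    (Finset V → ℝ) →ₗ[ℝ] (Finset V → ℝ) where
  toFun f := fun s => if Cl G D s then ∑ v ∈ s, sgn v s * f (s.erase v) else 0
  map_add' := by
    intro x y
    funext s
    rw [Pi.add_apply]
    split_ifs
    · simp only [Pi.add_apply, mul_add, sum_add_distrib]
    · rw [add_zero]
  map_smul' := by
    intro c y
    funext s
    rw [Pi.smul_apply]
    split_ifs
    · simp only [Pi.smul_apply, RingHom.id_apply, smul_eq_mul, mul_sum]
      exact sum_congr rfl (fun v _ => by ring)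
    · rw [smul_zero]

theorem dL_pos {D s : Finset V} (hs : Cl G D s) (f : Finset V → ℝ) :
    dL G D f s = ∑ v ∈ s, sgn v s * f (s.erase v) := if_pos hs

theorem dL_neg {D s : Finset V} (hs : ¬ Cl G D s) (f : Finset V → ℝ) :
    dL G D f s = 0 := if_neg hs

theorem zero_of {i : ℕ} {f : Finset V → ℝ} (hf : ∀ s, s.card ≠ i → f s = 0) {s : Finset V}
    (hs : s.card ≠ i + 1) : ∑ v ∈ s, sgn v s * f (s.erase v) = 0 := by
  refine sum_eq_zero (fun v hv => ?_)
  rw [hf (s.erase v), mul_zero]
  rw [card_erase_of_mem hv]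
  have : 0 < s.card := card_pos.2 ⟨v, hv⟩
  omega

theorem exAbs_all {D : Finset V} (h : AcyclicR G D) (i : ℕ) : ExAbs (Ci G D) (dL G D) i := by
  classical
  intro f hf hf0
  obtain ⟨g, hg⟩ := h f (fun s hs => by
    have := congrFun hf0 s
    rw [dL_pos hs] at this
    exact this)
  cases i with
  | zero =>
    left
    refine ⟨rfl, ?_⟩
    funext s
    by_cases h : Cl G D s ∧ s.card = 0
    · rw [hg s h.1, card_eq_zero.1 h.2]
      simp
    · exact hf s h
  | succ j =>
    right
    refine ⟨j, fun s => if Cl G D s ∧ s.card = j then g s else 0, fun s hs => if_neg hs, rfl, ?_⟩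
    funext s
    by_cases hs : Cl G D s
    · rw [dL_pos hs]
      by_cases hi : s.card = j + 1
      · rw [hg s hs]
        refine sum_congr rfl (fun v hv => ?_)
        rw [if_pos ⟨hs.erase v, by rw [card_erase_of_mem hv]; omega⟩]
      · rw [hf s (fun h => hi h.2)]
        exact zero_of (i := j) (f := fun s => if Cl G D s ∧ s.card = j then g s else 0)
          (fun t ht => if_neg (fun h => ht h.2)) hi
    · rw [dL_neg hs, hf s (fun h => hs h.1)]

theorem dL_mem {D : Finset V} {i : ℕ} {f : Finset V → ℝ} (hf : f ∈ Ci G D i) :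
    dL G D f ∈ Ci G D (i + 1) := by
  intro s hs
  by_cases hc : Cl G D s
  · rw [dL_pos hc]
    exact zero_of (fun t ht => hf t (fun h => ht h.2)) (fun e => hs ⟨hc, e⟩)
  · exact dL_neg hc _

theorem dL_dL {D : Finset V} (f : Finset V → ℝ) : dL G D (dL G D f) = 0 := by
  funext s
  by_cases hc : Cl G D s
  · rw [dL_pos hc]
    have h1 := sgn_dd f s
    simp only [smul_eq_mul] at h1
    rw [Pi.zero_apply, ← h1]
    refine sum_congr rfl (fun v _ => ?_)
    rw [dL_pos (hc.erase v)]
  · rw [dL_neg hc]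
    rfl

theorem finrank_Ci (D : Finset V) (i : ℕ) :
    Module.finrank ℝ (Ci G D i) = ((Sx G D).filter (fun s => s.card = i)).card := by
  classical
  rw [(ciEquiv G D i).finrank_eq, Module.finrank_fintype_fun_eq_card]
  rw [Fintype.card_subtype]
  congr 1
  ext s
  rw [mem_filter, mem_filter, mem_Sx]
  simp

theorem sum_Ci (D : Finset V) :
    ∑ i ∈ range (Fintype.card V + 1), (-1 : ℚ) ^ i * (Module.finrank ℝ (Ci G D i) : ℚ)
      = chi G D := by
  rw [chi_eq, ← Finset.sum_fiberwise_of_maps_to (s := Sx G D) (t := range (Fintype.card V + 1))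
    (g := fun s : Finset V => s.card)
    (fun s _ => mem_range.2 (Nat.lt_succ_of_le (card_le_univ s)))]
  refine sum_congr rfl (fun i _ => ?_)
  rw [finrank_Ci, sum_congr rfl (g := fun _ => (-1 : ℚ) ^ i)
    (fun s hs => by rw [(mem_filter.1 hs).2]), sum_const, nsmul_eq_mul, mul_comm]

theorem chi_acyclic_aux {D : Finset V} (h : AcyclicR G D) (m : ℕ) :
    ∃ k : ℕ, chi G D = (-1) ^ m * k := by
  obtain ⟨k, hk, _⟩ := euler_abs (Ci G D) (dL G D) (fun i f hf => dL_mem hf)
    (fun i f _ => dL_dL f) (Fintype.card V) (by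
      intro i hi
      rw [eq_bot_iff]
      intro f hf
      rw [Submodule.mem_bot]
      funext s
      exact hf s (fun e => absurd (card_le_univ s) (by omega))) m
    (fun i _ => exAbs_all h i)
  exact ⟨k, by rw [← hk, sum_Ci]⟩

/-- sums over the simplices with prescribed part outside of `F` -/
theorem fiber_sum {A F r : Finset V} (hF : F ⊆ A) (hr : Cl G A r) (hd : Disjoint r F) :
    ∑ s ∈ (Sx G A).filter (fun s => s \ F = r), (-1 : ℚ) ^ s.card
      = (-1) ^ r.card * chi G (lk G F r) := by
  rw [chi_eq, mul_sum]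
  refine sum_nbij' (fun s => s ∩ F) (fun t => r ∪ t) ?_ ?_ ?_ ?_ ?_
  · intro s hs
    rw [mem_filter, mem_Sx] at hs
    obtain ⟨hs, rfl⟩ := hs
    rw [mem_Sx]
    refine ⟨fun x hx => mem_lk.2 ⟨(mem_inter.1 hx).2, fun v hv => ?_⟩,
      hs.2.subset (by exact_mod_cast inter_subset_left)⟩
    rw [mem_sdiff] at hv
    exact hs.adj hv.1 (mem_inter.1 hx).1 (fun e => hv.2 (e ▸ (mem_inter.1 hx).2))
  · intro t ht
    rw [mem_Sx] at ht
    rw [mem_filter, mem_Sx]
    have htF : t ⊆ F := fun x hx => (mem_lk.1 (ht.1 hx)).1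
    refine ⟨⟨union_subset hr.1 (htF.trans hF), ?_⟩, ?_⟩
    · intro x hx y hy hxy
      rw [mem_coe, mem_union] at hx hy
      rcases hx with hx | hx
      · rcases hy with hy | hy
        · exact hr.adj hx hy hxy
        · exact (mem_lk.1 (ht.1 hy)).2 x hx
      · rcases hy with hy | hy
        · exact ((mem_lk.1 (ht.1 hx)).2 y hy).symm
        · exact ht.adj hx hy hxy
    · rw [union_sdiff_distrib, sdiff_eq_empty_iff_subset.2 htF, union_empty,
        sdiff_eq_self_of_disjoint hd]
  · intro s hs
    rw [mem_filter] at hs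
    obtain ⟨_, rfl⟩ := hs
    exact sdiff_union_inter s F
  · intro t ht
    rw [mem_Sx] at ht
    have htF : t ⊆ F := fun x hx => (mem_lk.1 (ht.1 hx)).1
    rw [union_inter_distrib_right, disjoint_iff_inter_eq_empty.1 hd, empty_union,
      inter_eq_left.2 htF]
  · intro s hs
    rw [mem_filter] at hs
    obtain ⟨_, rfl⟩ := hs
    rw [← pow_add, card_sdiff_add_card_inter]

theorem chi_empty : chi G ∅ = 1 := by
  have : Sx G (∅ : Finset V) = {∅} := by
    ext s
    rw [mem_Sx, mem_singleton]
    constructor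
    · intro h
      exact subset_empty.1 h.1
    · rintro rfl
      exact cl_empty ∅
  rw [chi_eq, this, sum_singleton, card_empty, pow_zero]

theorem lk_sdiff (A r : Finset V) : lk G (A \ r) r = lk G A r := by
  ext x
  rw [mem_lk, mem_lk, mem_sdiff]
  constructor
  · rintro ⟨⟨h1, _⟩, h2⟩
    exact ⟨h1, h2⟩
  · rintro ⟨h1, h2⟩
    exact ⟨⟨h1, fun h => G.loopless.irrefl x (h2 x h)⟩, h2⟩

/-- sums over the simplices containing `r` -/
theorem star_sum {A r : Finset V} (hr : Cl G A r) :
    ∑ s ∈ (Sx G A).filter (fun s => r ⊆ s), (-1 : ℚ) ^ s.card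
      = (-1) ^ r.card * chi G (lk G A r) := by
  rw [← lk_sdiff, ← fiber_sum sdiff_subset hr disjoint_sdiff]
  refine sum_congr ?_ (fun _ _ => rfl)
  ext s
  rw [mem_filter, mem_filter, mem_Sx]
  refine and_congr_right (fun hs => ?_)
  constructor
  · intro h
    ext x
    rw [mem_sdiff, mem_sdiff]
    constructor
    · rintro ⟨h1, h2⟩
      by_contra h3
      exact h2 ⟨hs.1 h1, h3⟩
    · intro h1
      exact ⟨h h1, fun h2 => h2.2 h1⟩
  · intro h x hx
    rw [← h, mem_sdiff] at hx
    exact hx.1

end OmegaOddAux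

open OmegaOddAux

theorem chi_acyclic {D : Finset V} (h : AcyclicR G D) : chi G D = 0 := by
  obtain ⟨k, hk⟩ := chi_acyclic_aux h 0
  obtain ⟨k', hk'⟩ := chi_acyclic_aux h 1
  rw [pow_zero, one_mul] at hk
  rw [pow_one] at hk'
  have h1 : (0 : ℚ) ≤ k := Nat.cast_nonneg k
  have h2 : (0 : ℚ) ≤ k' := Nat.cast_nonneg k'
  linarith

theorem chi_sphere {d : ℕ} {A : Finset V} (hA : FlagSphere G d A) : chi G A = (-1) ^ d := by
  classical
  induction d generalizing A with
  | zero =>
    have : A = ∅ := hA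
    rw [this, chi_empty, pow_zero]
  | succ d ih =>
    obtain ⟨v, hv⟩ := hA.1
    have h1 := ih (hA.2 v hv).1
    obtain ⟨F, hF⟩ : ∃ F, F = far G A v := ⟨_, rfl⟩
    have hFA : F ⊆ A := hF ▸ far_subset A v
    have hvF : v ∉ F := by
      rw [hF, mem_far]
      exact fun h => h.2.1 rfl
    rw [chi_eq, ← Finset.sum_fiberwise_of_maps_to (s := Sx G A) (t := Sx G (A \ F))
      (g := fun s => s \ F) (fun s hs => by
        rw [mem_Sx] at hs ⊢
        exact ⟨sdiff_subset_sdiff hs.1 (subset_refl F),
          hs.2.subset (by exact_mod_cast sdiff_subset)⟩)]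
    have h2 : ∀ r ∈ Sx G (A \ F), ∑ s ∈ (Sx G A).filter (fun s => s \ F = r), (-1 : ℚ) ^ s.card
        = if v ∈ r then (-1) ^ r.card else 0 := by
      intro r hr
      rw [mem_Sx] at hr
      have hrA : Cl G A r := hr.mono sdiff_subset
      have hd : Disjoint r F := by
        rw [disjoint_left]
        intro x hx
        exact (mem_sdiff.1 (hr.1 hx)).2
      rw [fiber_sum hFA hrA hd]
      split_ifs with hvr
      · have : lk G F r = ∅ := by
          rw [eq_empty_iff_forall_notMem]
          intro x hx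
          rw [mem_lk, hF, mem_far] at hx
          exact hx.1.2.2 (hx.2 v hvr)
        rw [this, chi_empty, mul_one]
      · have h3 := sphere_nb hA hv hrA hvr
        have : nb G (far G A v) r = lk G F r := by
          ext x
          rw [mem_nb, mem_lk, hF]
          refine and_congr_right (fun hx => forall₂_congr (fun u hu => ?_))
          constructor
          · rintro (rfl | h)
            · exact absurd (hF ▸ hx : x ∈ F) (fun h => (disjoint_left.1 hd) hu h)
            · exact h
          · exact Or.inr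
        rw [this] at h3
        rw [chi_acyclic h3, mul_zero]
    rw [sum_congr rfl h2, ← sum_filter]
    have h3 := star_sum (cl_singleton (G := G) hv)
    rw [h1, card_singleton, pow_one] at h3
    rw [pow_succ', ← h3]
    refine sum_congr ?_ (fun _ _ => rfl)
    ext s
    rw [mem_filter, mem_filter, mem_Sx, mem_Sx, singleton_subset_iff]
    constructor
    · rintro ⟨h, h'⟩
      exact ⟨h.mono sdiff_subset, h'⟩
    · rintro ⟨h, h'⟩
      refine ⟨⟨fun x hx => mem_sdiff.2 ⟨h.1 hx, fun hxF => ?_⟩, h.2⟩, h'⟩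
      rw [hF, mem_far] at hxF
      exact hxF.2.2 (h.adj h' hx (Ne.symm hxF.2.1))

theorem omega_odd {d : ℕ} {A : Finset V} (hA : FlagSphere G d A) (hd : Odd d) :
    omega G A = 0 := by
  classical
  have h1 : omega G A = ∑ s ∈ Sx G A, ∑ r ∈ (Sx G A).filter (fun r => r ⊆ s),
      (-1 / 2 : ℚ) ^ r.card * (-1) ^ s.card := by
    rw [omega_eq]
    refine sum_congr rfl (fun s hs => ?_)
    rw [mem_Sx] at hs
    have e1 : (Sx G A).filter (fun r => r ⊆ s) = s.powerset := by
      ext r
      rw [mem_filter, mem_Sx, mem_powerset]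
      exact ⟨fun h => h.2, fun h => ⟨hs.subset h, h⟩⟩
    rw [e1, ← sum_mul]
    have e2 := Finset.sum_pow_mul_eq_add_pow (-1 / 2 : ℚ) 1 s
    simp only [one_pow, mul_one] at e2
    rw [e2, ← mul_pow]
    norm_num
  have h2 : omega G A = ∑ r ∈ Sx G A, (-1 / 2 : ℚ) ^ r.card * (-1) ^ d := by
    rw [h1, sum_comm' (t' := Sx G A) (s' := fun r => (Sx G A).filter (fun s => r ⊆ s))]
    · refine sum_congr rfl (fun r hr => ?_)
      rw [mem_Sx] at hr
      rw [← mul_sum, star_sum hr, chi_sphere (sphere_lk hA hr).2, ← pow_add,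
        Nat.add_sub_cancel' (sphere_lk hA hr).1]
    · intro s r
      simp only [mem_filter]
      tauto
  rw [← sum_mul, ← omega_eq, hd.neg_one_pow] at h2
  linarith

end Pool.Agent.H31.GS
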