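import Pool.Agent.H31.GS.Even5
import Pool.Agent.H31.GS.Conc
import Pool.Agent.H31.GS.Euler
import Pool.Agent.H31.GS.OmegaOdd

/-!
# helper31, GS, module FORMMAIN: the main induction for formed systems

Strong induction on `e`: for every simplex `r` of `A` with `r.card + e = d`:
(I) `∀ i, 2 * i ≠ e → ExC G a (lk G A r) i`, (II) `∀ m, e = 2 * m → PosAt G A d a b B m r`.
`L = lk G A r` is a sphere of rank `e` (`sphere_lk`). For `w ∈ L`: `ExAll G a (lk G L {w}) (e - 1)`:
for a simplex `s` of `lk G L {w}`, `lk G (lk G L {w}) s = lk G A (r ∪ {w} ∪ s)` (`lk_lk`), a simplex of `A` (`cl_union`) of size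
`r.card + 1 + s.card`, induction. Hence `conc_step`.
`e = 0`: `L = ∅`; (I) `exC_empty`; (II) `m = 0`: `r` is a facet, `om G A d B 0 r y y = B r (y ∅) (y ∅)` (the only facet
containing `r` is `r`), `pos`; if it is zero then `y ∅ = 0`, `Bd` trivially (`∅` is the only simplex of `∅`).
`e = 2 (k+1)`: (I) from `conc_step`; (II) `even_step` with any `x ∈ L`: `hRE` = `sphere_nb`; `hex`, `hlk`, `hcol`, `hpos` by induction
(`lk G L {v} = lk G A (insert v r)` etc.; `2 * (k + 1) ≠ 2 * k + 1`, `2 * k ≠ 2 * k + 1`; `hcol`: rank `2 (k+1) - r'.card`,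
`2 * j + r'.card ≠ 2 * k + 2` since `2 * j + 2 * r'.card = 2 * k + 4`, `r'.card ≥ 3`).
`e = 2 m + 1`: `conc_step` gives (I) for `i ≠ m, m + 1`. `i = m`: `ex_of_val` (`A`, `L = lk G A r`): for `y` closed with
values in `Cell b r`, `odd_step` with any `x ∈ L` (`hpos` by induction) and `zig1` (`hcol`: `2 ≤ r'.card`,
`j + r'.card = m + 1`, rank `2 m + 1 - r'.card`, `2 j + r'.card ≠ 2 m + 1`; `hlk`: `m = k + 1`, rank `2 m`, degree `k`).
`i = m + 1`: `euler` with `m + 1`, `omega G L = 0` by `omega_odd`, so `k = 0`.
-/

namespace Pool.Agent.H31.GS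

open Finset

set_option linter.unusedSectionVars false
set_option linter.unusedVariables false

variable {V : Type} [Fintype V] [LinearOrder V] {G : SimpleGraph V}
variable {U : Type} [AddCommGroup U] [Module ℝ U] [FiniteDimensional ℝ U]
variable {a b : V → Module.End ℝ U}
variable {A : Finset V} {d : ℕ} {N : V → V → ℝ} {B : Finset V → U →ₗ[ℝ] U →ₗ[ℝ] ℝ}

/-- rank zero: positivity at a facet -/
theorem pos_facet (hF : FSys G A d a b N B) {r : Finset V} (hr : Cl G A r) (hd : r.card = d) :
    PosAt G A d a b B 0 r := by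
  classical
  intro y hy hcl hv
  have hL : Cl G (lk G A r) ∅ := cl_empty _
  have hy0 : y ∅ ∈ Cell b r := hv ∅ hL rfl
  have hfil : A.powerset.filter (fun F => Cl G A F ∧ F.card = d ∧ r ⊆ F) = {r} := by
    ext F
    simp only [mem_filter, mem_powerset, mem_singleton]
    constructor
    · rintro ⟨_, _, h2, h3⟩
      exact (eq_of_subset_of_card_le h3 (by rw [h2, hd])).symm
    · rintro rfl
      exact ⟨hr.1, hr, hd, Subset.refl _⟩
  have hom : om G A d B 0 r y y = B r (y ∅) (y ∅) := by
    unfold om
    have : ∀ (i1 : DecidablePred (fun F => Cl G A F ∧ F.card = d ∧ r ⊆ F)),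
        @Finset.filter _ (fun F => Cl G A F ∧ F.card = d ∧ r ⊆ F) i1 A.powerset = {r} := by
      intro i1
      rw [← hfil]
      congr
    rw [this, sum_singleton, powersetCard_zero, sum_singleton]
    simp
  rw [hom, pow_zero, one_mul]
  by_cases h0 : y ∅ = 0
  · refine ⟨by rw [h0]; simp, fun _ => ⟨fun _ => 0, fun s _ _ => Submodule.zero_mem _, ?_⟩⟩
    intro s hs hc
    rw [card_eq_zero.1 hc, h0]
    simp [cob]
  · have hp := hF.pos r hr hd (y ∅) h0 (fun v hv => hy0 v hv)
    exact ⟨hp.le, fun h => absurd h hp.ne'⟩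

theorem form_aux (hF : FSys G A d a b N B) (hA : FlagSphere G d A) :
    ∀ e, ∀ r, Cl G A r → r.card + e = d →
      (∀ i, 2 * i ≠ e → ExC G a (lk G A r) i) ∧ ∀ m, e = 2 * m → PosAt G A d a b B m r := by
  intro e
  induction e using Nat.strong_induction_on with
  | _ e ih =>
  intro r hr hre
  have hsph := sphere_lk hA hr
  have hSL : FlagSphere G e (lk G A r) := by
    have : d - r.card = e := by omega
    rw [← this]; exact hsph.2
  have hsysL : GSys G (lk G A r) a b := hF.sys.mono (lk_subset _ _)
  -- exactness of links of simplices in `L`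
  have hl : ∀ s, Cl G (lk G A r) s → 1 ≤ s.card → ∀ i, 2 * i + s.card ≠ e →
      ExC G a (lk G (lk G A r) s) i := by
    intro s hs h1 i hi
    obtain ⟨hu, hdis⟩ := cl_union hr hs
    have hle := (sphere_lk hSL hs).1
    have hc : (r ∪ s).card = r.card + s.card := card_union_of_disjoint hdis
    rw [lk_lk]
    exact (ih (e - s.card) (by omega) (r ∪ s) hu (by omega)).1 i (by omega)
  have hlink : ∀ v ∈ lk G A r, ExAll G a (lk G (lk G A r) {v}) (e - 1) := by
    intro v hv s hs i hi
    have he0 : e ≠ 0 := by
      rintro rfl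
      have h : lk G A r = ∅ := hSL
      rw [h] at hv
      exact absurd hv (notMem_empty v)
    obtain ⟨hc1, hvs⟩ := cl_insert hv hs
    have hc : (insert v s).card = s.card + 1 := card_insert_of_notMem hvs
    rw [lk_lk, ← insert_eq]
    exact hl (insert v s) hc1 (by omega) i (by omega)
  have hconc := conc_step hsysL hSL hlink
  have hp1 : ∀ v ∈ lk G A r, ∀ m, e = 2 * m + 1 → PosAt G A d a b B m (insert v r) := by
    intro v hv m hm
    obtain ⟨hc1, hvr⟩ := cl_insert_lk hr hv
    have hc : (insert v r).card = r.card + 1 := card_insert_of_notMem hvr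
    exact (ih (2 * m) (by omega) (insert v r) hc1 (by omega)).2 m rfl
  rcases Nat.even_or_odd' e with ⟨m, hm | hm⟩
  · -- even rank
    rcases Nat.eq_zero_or_pos m with h0 | hpos
    · -- rank zero
      have he0 : e = 0 := by omega
      subst he0
      have hLe : lk G A r = ∅ := hSL
      refine ⟨fun i hi => ?_, fun m' hm' => ?_⟩
      · rw [hLe]; exact exC_empty (by omega)
      · have : m' = 0 := by omega
        subst this
        exact pos_facet hF hr (by omega)
    · obtain ⟨k, rfl⟩ : ∃ k, m = k + 1 := ⟨m - 1, by omega⟩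
      refine ⟨fun i hi => hconc i (by omega), fun m' hm' => ?_⟩
      have : m' = k + 1 := by omega
      subst this
      obtain ⟨x, hx⟩ := sphere_nonempty hSL (by omega)
      refine even_step hF hr (by omega) hx (fun s hs hxs => sphere_nb hSL hx hs hxs) ?_ ?_ ?_ ?_
      · intro v hv
        exact hl {v} (cl_singleton (far_subset _ _ hv)) (by simp) (k + 1) (by simp; omega)
      · exact hl {x} (cl_singleton hx) (by simp) k (by simp; omega)
      · intro r' _ hr' h3 j hj
        exact hl r' hr' (by omega) j (by omega)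
      · intro v hv w hw hvw
        have hv' := far_subset _ _ hv
        have hw' := far_subset _ _ hw
        obtain ⟨hc1, hvr⟩ := cl_insert_lk hr hv'
        have hwl : w ∈ lk G A (insert v r) := by
          rw [mem_lk]
          refine ⟨(mem_lk.1 hw').1, fun u hu => ?_⟩
          rcases mem_insert.1 hu with rfl | hu
          · exact hvw
          · exact (mem_lk.1 hw').2 u hu
        obtain ⟨hc2, hwr⟩ := cl_insert_lk hc1 hwl
        have hc : (insert v r).card = r.card + 1 := card_insert_of_notMem hvr
        have hc' : (insert w (insert v r)).card = (insert v r).card + 1 :=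
          card_insert_of_notMem hwr
        exact (ih (2 * k) (by omega) (insert w (insert v r)) hc2 (by omega)).2 k rfl
  · -- odd rank
    refine ⟨fun i _ => ?_, fun m' hm' => by omega⟩
    obtain ⟨x, hx⟩ := sphere_nonempty hSL (by omega)
    have hm0 : ExC G a (lk G A r) m := by
      refine ex_of_val hF.sys hr (Subset.refl _) ?_
      intro y hy hcl hv
      refine zig1 hsysL hx (fun s hs hxs => sphere_nb hSL hx hs hxs) ?_ ?_ hy hcl ?_
      · intro k hk
        exact hl {x} (cl_singleton hx) (by simp) k (by simp; omega)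
      · intro r' _ hr' h2 j hj
        exact hl r' hr' (by omega) j (by omega)
      · exact odd_step hF hr (by omega) hx
          (fun v hv => hp1 v (far_subset _ _ hv) m hm) hy hcl hv
    have hne : ∀ i, i ≠ m + 1 → ExC G a (lk G A r) i := by
      intro i hi
      by_cases him : i = m
      · rw [him]; exact hm0
      · exact hconc i (by omega)
    by_cases hi : i = m + 1
    · rw [hi]
      obtain ⟨k, hk, hk0⟩ := euler hsysL hne
      have ho : omega G (lk G A r) = 0 := omega_odd hSL ⟨m, hm⟩
      rw [ho, mul_zero] at hk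
      apply hk0
      have h1 : ((-1 : ℚ)) ^ (m + 1) ≠ 0 := by positivity
      have h2 : (k : ℚ) = 0 := by
        rcases mul_eq_zero.1 hk.symm with h | h
        · exact absurd h h1
        · exact h
      exact_mod_cast h2
    · exact hne i hi

theorem form_main (hF : FSys G A d a b N B) (hA : FlagSphere G d A) : ExAll G a A d := by
  intro r hr i hi
  have hle := (sphere_lk hA hr).1
  exact (form_aux hF hA (d - r.card) r hr (by omega)).1 i (by omega)

end Pool.Agent.H31.GS
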