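import Pool.Agent.H31.GS.Defs
import Pool.Agent.H31.GS.Cliff
import Pool.Agent.H31.GS.Def

/-!
# helper31, GS, module GRAMA: Clifford data of a Gram matrix

`gd_exists`: let `q, P, Q` be as in `Gram`, `exists_cliff (Fin d ⊕ (Fin q ⊕ V))` with matrices `X`, `Y`, `γ`. Put
`Xs = List.ofFn (fun i : Fin d => X (Sum.inl i))`, `vec p r = ∑ i, p i • X (inl i) + ∑ j, r j • Y (inr (inl j))`,
`𝓛` = the range of `vec` (as a linear map on `(Fin d → ℝ) × (Fin q → ℝ)`), `c v = vec (P v) (Q v)`, `g v = Y (inr (inr v))`,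
`M v w = ∑ i, P v i * P w i - ∑ j, Q v j * Q w j`. One computes (with `XX`, `YY`, `XY`)
`vec p r * vec p' r' + vec p' r' * vec p r = (2 * (∑ p i * p' i - ∑ r j * r' j)) • 1`; this gives `cc` and `VecSp.sq`.
`VecSp.skew`: if `w = vec p r` anticommutes with `X (inl i)` then `0 = w X + X w = (2 * p i) • 1`, so `p i = 0` (`ι` is nonempty), so
`w = ∑ r j • Y _`, and `Y _ᵀ = - Y _`. `X (inl i) = vec (Pi.single i 1) 0`.
-/

namespace Pool.Agent.H31.GS

open Finset Matrix

set_option linter.unusedSectionVars false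
set_option linter.unusedVariables false

variable {V : Type} [Fintype V] [LinearOrder V] {G : SimpleGraph V}

/-- Clifford data of a right-angled reflection Gram matrix `M`: vectors `c v` in a space `𝓛` with symmetric orthonormal
positive vectors `Xs`, and auxiliary skew matrices `g v` -/
structure GD {ι : Type} [Fintype ι] [DecidableEq ι] (G : SimpleGraph V) (A : Finset V) (d : ℕ)
    (𝓛 : Submodule ℝ (Matrix ι ι ℝ)) (Xs : List (Matrix ι ι ℝ)) (c g : V → Matrix ι ι ℝ)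
    (γ : Matrix ι ι ℝ) (M : V → V → ℝ) : Prop where
  vs : VecSp 𝓛 Xs
  ax : AntiL Xs
  len : Xs.length = d
  mem : ∀ v, c v ∈ 𝓛
  cc : ∀ v w, c v * c w + c w * c v = (2 * M v w) • (1 : Matrix ι ι ℝ)
  m1 : ∀ v ∈ A, M v v = 1
  m0 : ∀ v ∈ A, ∀ w ∈ A, G.Adj v w → M v w = 0
  mn : ∀ v ∈ A, ∀ w ∈ A, v ≠ w → ¬ G.Adj v w → M v w < 0
  g2 : ∀ v, g v * g v = -1
  gg : ∀ v w, v ≠ w → g v * g w = - (g w * g v)
  cg : ∀ v w, c v * g w = - (g w * c v)
  gX : ∀ v, ∀ X ∈ Xs, g v * X = - (X * g v)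
  gt : ∀ v, (g v)ᵀ = - g v
  kk : γ * γ = 1
  kc : ∀ v, γ * c v = - (c v * γ)
  kg : ∀ v, γ * g v = - (g v * γ)

section aux

variable {ι κ : Type} [Fintype ι] [DecidableEq ι] [Fintype κ] [DecidableEq κ]

/-- anticommutator of two linear combinations -/
private theorem grama_anti (Z : κ → Matrix ι ι ℝ) (s : κ → ℝ)
    (hZ : ∀ k l, Z k * Z l + Z l * Z k = if k = l then (2 * s k) • (1 : Matrix ι ι ℝ) else 0)
    (c c' : κ → ℝ) :
    (∑ k, c k • Z k) * (∑ k, c' k • Z k) + (∑ k, c' k • Z k) * (∑ k, c k • Z k) =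
      (2 * ∑ k, s k * (c k * c' k)) • (1 : Matrix ι ι ℝ) := by
  have e1 : (∑ k, c k • Z k) * (∑ k, c' k • Z k) =
      ∑ k, ∑ l, (c k * c' l) • (Z k * Z l) := by
    rw [Finset.sum_mul_sum]
    refine Finset.sum_congr rfl (fun k _ => Finset.sum_congr rfl (fun l _ => ?_))
    rw [smul_mul_smul_comm]
  have e2 : (∑ k, c' k • Z k) * (∑ k, c k • Z k) =
      ∑ k, ∑ l, (c k * c' l) • (Z l * Z k) := by
    rw [Finset.sum_mul_sum, Finset.sum_comm]
    refine Finset.sum_congr rfl (fun k _ => Finset.sum_congr rfl (fun l _ => ?_))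
    rw [smul_mul_smul_comm, mul_comm]
  rw [e1, e2, ← Finset.sum_add_distrib, Finset.mul_sum, Finset.sum_smul]
  refine Finset.sum_congr rfl (fun k _ => ?_)
  rw [← Finset.sum_add_distrib]
  have e3 : ∀ l, (c k * c' l) • (Z k * Z l) + (c k * c' l) • (Z l * Z k) =
      if k = l then (2 * (s k * (c k * c' k))) • (1 : Matrix ι ι ℝ) else 0 := by
    intro l
    rw [← smul_add, hZ]
    by_cases h : k = l
    · rw [if_pos h, if_pos h, ← h, smul_smul]
      congr 1
      ring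
    · rw [if_neg h, if_neg h, smul_zero]
  rw [Finset.sum_congr rfl (fun l _ => e3 l), Finset.sum_ite_eq, if_pos (mem_univ k)]

private theorem grama_anti_out (Z : κ → Matrix ι ι ℝ) (W : Matrix ι ι ℝ)
    (hZ : ∀ k, W * Z k = -(Z k * W)) (c : κ → ℝ) :
    W * (∑ k, c k • Z k) = -((∑ k, c k • Z k) * W) := by
  rw [Finset.mul_sum, Finset.sum_mul, ← Finset.sum_neg_distrib]
  refine Finset.sum_congr rfl (fun k _ => ?_)
  rw [mul_smul_comm, smul_mul_assoc, hZ, smul_neg]

private theorem grama_two (W : Matrix ι ι ℝ) (t : ℝ) (h : W + W = (2 * t) • (1 : Matrix ι ι ℝ)) :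
    W = t • (1 : Matrix ι ι ℝ) := by
  have h1 : (2 : ℝ) • W = (2 : ℝ) • (t • (1 : Matrix ι ι ℝ)) := by
    rw [two_smul, smul_smul]
    exact h
  exact smul_right_injective _ (two_ne_zero) h1

end aux

theorem gd_exists {A : Finset V} {d : ℕ} (hG : Gram G A d) :
    ∃ (ι : Type) (_ : Fintype ι) (_ : DecidableEq ι) (_ : Nonempty ι)
      (𝓛 : Submodule ℝ (Matrix ι ι ℝ)) (Xs : List (Matrix ι ι ℝ)) (c g : V → Matrix ι ι ℝ)
      (γ : Matrix ι ι ℝ) (M : V → V → ℝ), GD G A d 𝓛 Xs c g γ M := by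
  obtain ⟨q, P, Q, hPQ⟩ := hG
  obtain ⟨ι, i1, i2, i3, X, Y, γ, h⟩ := exists_cliff (Fin d ⊕ (Fin q ⊕ V))
  obtain ⟨i0⟩ := i3
  obtain ⟨Z, hZl, hZr⟩ : ∃ Z : Fin d ⊕ Fin q → Matrix ι ι ℝ,
      (∀ i, Z (Sum.inl i) = X (Sum.inl i)) ∧ ∀ j, Z (Sum.inr j) = Y (Sum.inr (Sum.inl j)) :=
    ⟨Sum.elim (fun i => X (Sum.inl i)) (fun j => Y (Sum.inr (Sum.inl j))), fun _ => rfl, fun _ => rfl⟩
  obtain ⟨s, hsl, hsr⟩ : ∃ s : Fin d ⊕ Fin q → ℝ, (∀ i, s (Sum.inl i) = 1) ∧
      ∀ j, s (Sum.inr j) = -1 := ⟨Sum.elim (fun _ => 1) (fun _ => -1), fun _ => rfl, fun _ => rfl⟩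
  have h2 : (2 : Matrix ι ι ℝ) = (2 : ℝ) • (1 : Matrix ι ι ℝ) := by
    rw [two_smul]
    exact one_add_one_eq_two.symm
  have hZ : ∀ k l, Z k * Z l + Z l * Z k =
      if k = l then (2 * s k) • (1 : Matrix ι ι ℝ) else 0 := by
    rintro (i | j) (i' | j')
    · rw [hZl, hZl, h.XX, hsl, mul_one]
      simp only [Sum.inl.injEq]
      split_ifs
      · exact h2
      · rfl
    · rw [hZl, hZr, h.XY, if_neg (by simp)]
    · rw [hZl, hZr, add_comm, h.XY, if_neg (by simp)]
    · rw [hZr, hZr, h.YY, hsr]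
      simp only [Sum.inr.injEq, Sum.inl.injEq]
      split_ifs
      · rw [h2, mul_neg, mul_one, neg_smul]
      · rfl
  have hanti := grama_anti Z s hZ
  have hsq : ∀ cc : Fin d ⊕ Fin q → ℝ, (∑ k, cc k • Z k) * (∑ k, cc k • Z k) =
      (∑ k, s k * (cc k * cc k)) • (1 : Matrix ι ι ℝ) :=
    fun cc => grama_two _ _ (hanti cc cc)
  have hYsq : ∀ k, Y k * Y k = -1 := by
    intro k
    have h3 := h.YY k k
    rw [if_pos rfl, h2, ← neg_smul] at h3
    have h4 := grama_two (Y k * Y k) (-1) (by rw [h3]; congr 1; ring)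
    rw [h4, neg_one_smul]
  have hXsq : ∀ k, X k * X k = 1 := by
    intro k
    have h3 := h.XX k k
    rw [if_pos rfl, h2] at h3
    have h4 := grama_two (X k * X k) 1 (by rw [h3, mul_one])
    rw [h4, one_smul]
  have hYX : ∀ k l, Y k * X l = -(X l * Y k) := by
    intro k l
    have h3 := h.XY l k
    rw [add_comm] at h3
    exact eq_neg_of_add_eq_zero_left h3
  have hYY : ∀ k l, k ≠ l → Y k * Y l = -(Y l * Y k) := by
    intro k l hkl
    have h3 := h.YY k l
    rw [if_neg hkl] at h3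
    exact eq_neg_of_add_eq_zero_left h3
  have hXX : ∀ k l, k ≠ l → X k * X l = -(X l * X k) := by
    intro k l hkl
    have h3 := h.XX k l
    rw [if_neg hkl] at h3
    exact eq_neg_of_add_eq_zero_left h3
  have hgZ : ∀ v k, Y (Sum.inr (Sum.inr v)) * Z k = -(Z k * Y (Sum.inr (Sum.inr v))) := by
    rintro v (i | j)
    · rw [hZl]
      exact hYX _ _
    · rw [hZr]
      exact hYY _ _ (by simp)
  have hγZ : ∀ k, γ * Z k = -(Z k * γ) := by
    rintro (i | j)
    · rw [hZl]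
      exact h.gX _
    · rw [hZr]
      exact h.gY _
  refine ⟨ι, i1, i2, ⟨i0⟩, Submodule.span ℝ (Set.range Z),
    List.ofFn (fun i : Fin d => X (Sum.inl i)),
    fun v => ∑ k, (Sum.elim (P v) (Q v) : Fin d ⊕ Fin q → ℝ) k • Z k,
    fun v => Y (Sum.inr (Sum.inr v)), γ,
    fun v w => ∑ i, P v i * P w i - ∑ j, Q v j * Q w j, ?_⟩
  have hmemX : ∀ {W : Matrix ι ι ℝ}, W ∈ List.ofFn (fun i : Fin d => X (Sum.inl i)) →
      ∃ i : Fin d, W = X (Sum.inl i) := by
    intro W hW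
    rw [List.mem_ofFn] at hW
    obtain ⟨i, hi⟩ := hW
    exact ⟨i, hi.symm⟩
  constructor
  · -- vs
    constructor
    · intro w hw
      obtain ⟨cc, rfl⟩ := Submodule.mem_span_range_iff_exists_fun ℝ |>.1 hw
      exact ⟨_, hsq cc⟩
    · intro W hW
      obtain ⟨i, rfl⟩ := hmemX hW
      rw [← hZl]
      exact Submodule.subset_span ⟨_, rfl⟩
    · intro W hW
      obtain ⟨i, rfl⟩ := hmemX hW
      exact h.Xt _
    · intro w hw hwX
      obtain ⟨cc, rfl⟩ := Submodule.mem_span_range_iff_exists_fun ℝ |>.1 hw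
      have hc0 : ∀ i : Fin d, cc (Sum.inl i) = 0 := by
        intro i
        have h3 := hwX (X (Sum.inl i)) (by rw [List.mem_ofFn]; exact ⟨i, rfl⟩)
        have h4 := hanti cc (Pi.single (Sum.inl i) 1)
        have h5 : (∑ k, (Pi.single (Sum.inl i) (1 : ℝ) : Fin d ⊕ Fin q → ℝ) k • Z k) =
            X (Sum.inl i) := by
          rw [Finset.sum_eq_single (Sum.inl i)]
          · rw [Pi.single_eq_same, one_smul, hZl]
          · intro k _ hk
            rw [Pi.single_eq_of_ne hk, zero_smul]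
          · intro hk
            exact absurd (mem_univ _) hk
        have h6 : (∑ k, s k * (cc k * (Pi.single (Sum.inl i) (1 : ℝ) : Fin d ⊕ Fin q → ℝ) k)) =
            cc (Sum.inl i) := by
          rw [Finset.sum_eq_single (Sum.inl i)]
          · rw [Pi.single_eq_same, hsl, mul_one, one_mul]
          · intro k _ hk
            rw [Pi.single_eq_of_ne hk, mul_zero, mul_zero]
          · intro hk
            exact absurd (mem_univ _) hk
        rw [h5, h6, h3, neg_add_cancel] at h4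
        have h7 := congrFun (congrFun h4 i0) i0
        simp at h7
        exact h7
      rw [Matrix.transpose_sum, ← Finset.sum_neg_distrib]
      refine Finset.sum_congr rfl (fun k _ => ?_)
      rcases k with i | j
      · rw [hc0]
        simp
      · rw [Matrix.transpose_smul, hZr, h.Yt, smul_neg]
  · -- ax
    constructor
    · intro W hW
      obtain ⟨i, rfl⟩ := hmemX hW
      exact hXsq _
    · rw [List.pairwise_ofFn]
      intro i j hij
      exact hXX _ _ (fun e => hij.ne (Sum.inl_injective e))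
  · exact List.length_ofFn
  · intro v
    exact Submodule.sum_mem _ (fun k _ => Submodule.smul_mem _ _ (Submodule.subset_span ⟨k, rfl⟩))
  · intro v w
    have h3 := hanti (Sum.elim (P v) (Q v)) (Sum.elim (P w) (Q w))
    rw [h3]
    congr 2
    rw [Fintype.sum_sum_type]
    simp only [hsl, hsr, Sum.elim_inl, Sum.elim_inr, one_mul, neg_one_mul]
    rw [Finset.sum_neg_distrib, sub_eq_add_neg]
  · intro v hv
    exact (hPQ v hv v hv).1 rfl
  · intro v hv w hw e
    exact (hPQ v hv w hw).2.1 e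
  · intro v hv w hw hne e
    exact (hPQ v hv w hw).2.2 hne e
  · intro v
    exact hYsq _
  · intro v w hvw
    exact hYY _ _ (fun e => hvw (Sum.inr_injective (Sum.inr_injective e)))
  · intro v w
    have h3 := grama_anti_out Z _ (hgZ w) (Sum.elim (P v) (Q v))
    show (∑ k, (Sum.elim (P v) (Q v) : Fin d ⊕ Fin q → ℝ) k • Z k) * Y (Sum.inr (Sum.inr w)) =
      -(Y (Sum.inr (Sum.inr w)) * ∑ k, (Sum.elim (P v) (Q v) : Fin d ⊕ Fin q → ℝ) k • Z k)
    rw [h3, neg_neg]
  · intro v W hW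
    obtain ⟨i, rfl⟩ := hmemX hW
    exact hYX _ _
  · intro v
    exact h.Yt _
  · exact h.gg
  · intro v
    exact grama_anti_out Z γ hγZ _
  · intro v
    exact h.gY _

end Pool.Agent.H31.GS
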