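import Mathlib

/-!
# helper31, GS, module GRAMB: ordered products of anticommuting matrices

`hp h F` is the product of the `h v` over the sorted list of `F`.

`hp_pass`, `hp_pass_mem`: induction on lists (`k * (l.map h).prod = (-1)^l.length • ((l.map h).prod * k)`; for a list without
duplicates containing `v` with `k` commuting with `h v` the exponent is `l.length + 1`).

`hp_insert`: the sorted list of `insert u ρ` is a permutation of `ρ.sort ++ [u]`
(`List.perm_ext_iff_of_nodup`). General lemma by induction on `List.Perm`: if `l₁ ~ l₂` and `l₁.Nodup` there is `ε`, equal to `1` or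
`-1`, such that for every `h : V → Matrix ι ι ℝ` with `h v * h w = - (h w * h v)` for distinct `v, w ∈ l₁`:
`(l₁.map h).prod = ε • (l₂.map h).prod` (`nil`: `1`; `cons`: the same `ε`; `swap`: `-1`; `trans`: product).

`hp_eq`: for a sublist `l` of `F` by induction: `(l.map g).prod *ᵥ x = (l.map c).prod *ᵥ x` :
`g v * (l.map g).prod *ᵥ x = g v *ᵥ ((l.map c).prod *ᵥ x) = (-1)^|l| • (l.map c).prod *ᵥ (g v *ᵥ x)
= (-1)^|l| • (l.map c).prod *ᵥ (c v *ᵥ x) = c v *ᵥ ((l.map c).prod *ᵥ x)`.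
-/

namespace Pool.Agent.H31.GS

open Finset Matrix

set_option linter.unusedSectionVars false
set_option linter.unusedVariables false

variable {V : Type} [Fintype V] [LinearOrder V]
variable {ι : Type} [Fintype ι] [DecidableEq ι]

/-- ordered product -/
noncomputable def hp (h : V → Matrix ι ι ℝ) (F : Finset V) : Matrix ι ι ℝ :=
  ((F.sort (· ≤ ·)).map h).prod

theorem gramb_pass {h : V → Matrix ι ι ℝ} {k : Matrix ι ι ℝ} (l : List V)
    (H : ∀ v ∈ l, k * h v = - (h v * k)) :
    k * (l.map h).prod = (-1 : ℝ) ^ l.length • ((l.map h).prod * k) := by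
  induction l with
  | nil => simp
  | cons x l ih =>
    have h1 := H x List.mem_cons_self
    have h2 := ih (fun v hv => H v (List.mem_cons_of_mem _ hv))
    rw [List.map_cons, List.prod_cons, List.length_cons, ← mul_assoc, h1, neg_mul, mul_assoc, h2,
      mul_smul_comm, pow_succ, mul_assoc, mul_neg_one, neg_smul]

theorem gramb_pass_mem {h : V → Matrix ι ι ℝ} {k : Matrix ι ι ℝ} {v : V} (l : List V)
    (hn : l.Nodup) (hv : v ∈ l) (H : ∀ w ∈ l, w ≠ v → k * h w = - (h w * k))
    (hk : k * h v = h v * k) :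
    k * (l.map h).prod = (-1 : ℝ) ^ (l.length + 1) • ((l.map h).prod * k) := by
  induction l with
  | nil => simp at hv
  | cons x l ih =>
    rw [List.nodup_cons] at hn
    rw [List.map_cons, List.prod_cons, List.length_cons, ← mul_assoc]
    by_cases hx : x = v
    · subst hx
      have h2 := gramb_pass (h := h) (k := k) l (fun w hw => H w (List.mem_cons_of_mem _ hw)
        (fun e => hn.1 (e ▸ hw)))
      rw [hk, mul_assoc, h2, mul_smul_comm, mul_assoc, pow_succ, pow_succ, mul_assoc]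
      simp
    · have hvl : v ∈ l := by
        rcases List.mem_cons.1 hv with h1 | h1
        · exact absurd h1.symm hx
        · exact h1
      have h2 := ih hn.2 hvl (fun w hw => H w (List.mem_cons_of_mem _ hw))
      rw [H x List.mem_cons_self hx, neg_mul, mul_assoc, h2, mul_smul_comm,
        pow_succ (-1 : ℝ) (l.length + 1), mul_assoc, mul_neg_one, neg_smul]

theorem gramb_perm {l₁ l₂ : List V} (hp : l₁.Perm l₂) (hn : l₁.Nodup) :
    ∃ ε : ℝ, (ε = 1 ∨ ε = -1) ∧ ∀ h : V → Matrix ι ι ℝ,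
      (∀ v ∈ l₁, ∀ w ∈ l₁, v ≠ w → h v * h w = - (h w * h v)) →
      (l₁.map h).prod = ε • (l₂.map h).prod := by
  induction hp with
  | nil => exact ⟨1, Or.inl rfl, fun h _ => by simp⟩
  | cons x hp ih =>
    rw [List.nodup_cons] at hn
    obtain ⟨ε, he, H⟩ := ih hn.2
    refine ⟨ε, he, fun h hh => ?_⟩
    have h1 := H h (fun v hv w hw => hh v (List.mem_cons_of_mem _ hv) w
      (List.mem_cons_of_mem _ hw))
    rw [List.map_cons, List.prod_cons, h1, List.map_cons, List.prod_cons, mul_smul_comm]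
  | swap x y l =>
    refine ⟨-1, Or.inr rfl, fun h hh => ?_⟩
    have hxy : y ≠ x := by
      intro e
      subst e
      simp at hn
    have h1 := hh y (by simp) x (by simp) hxy
    simp only [List.map_cons, List.prod_cons]
    rw [← mul_assoc, h1, neg_mul, neg_smul, one_smul, mul_assoc]
  | trans hp1 hp2 ih1 ih2 =>
    obtain ⟨ε1, he1, H1⟩ := ih1 hn
    obtain ⟨ε2, he2, H2⟩ := ih2 (hp1.nodup_iff.1 hn)
    refine ⟨ε1 * ε2, ?_, fun h hh => ?_⟩
    · rcases he1 with rfl | rfl <;> rcases he2 with rfl | rfl <;> norm_num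
    · rw [H1 h hh, H2 h (fun v hv w hw => hh v (hp1.mem_iff.2 hv) w (hp1.mem_iff.2 hw)), smul_smul]

theorem hp_pass {h : V → Matrix ι ι ℝ} {k : Matrix ι ι ℝ} {F : Finset V}
    (H : ∀ v ∈ F, k * h v = - (h v * k)) : k * hp h F = (-1 : ℝ) ^ F.card • (hp h F * k) := by
  have h1 := gramb_pass (h := h) (k := k) (F.sort (· ≤ ·)) (fun v hv => H v ((mem_sort _).1 hv))
  rw [length_sort] at h1
  exact h1

theorem hp_pass_mem {h : V → Matrix ι ι ℝ} {k : Matrix ι ι ℝ} {F : Finset V} {v : V} (hv : v ∈ F)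
    (H : ∀ w ∈ F, w ≠ v → k * h w = - (h w * k)) (hk : k * h v = h v * k) :
    k * hp h F = (-1 : ℝ) ^ (F.card + 1) • (hp h F * k) := by
  have h1 := gramb_pass_mem (h := h) (k := k) (F.sort (· ≤ ·)) (sort_nodup _ _)
    ((mem_sort _).2 hv) (fun v hv => H v ((mem_sort _).1 hv)) hk
  rw [length_sort] at h1
  exact h1

theorem hp_insert {ρ : Finset V} {u : V} (hu : u ∉ ρ) :
    ∃ ε : ℝ, (ε = 1 ∨ ε = -1) ∧ ∀ h : V → Matrix ι ι ℝ,
      (∀ v ∈ insert u ρ, ∀ w ∈ insert u ρ, v ≠ w → h v * h w = - (h w * h v)) →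
      hp h (insert u ρ) = ε • (hp h ρ * h u) := by
  have hn2 : (ρ.sort (· ≤ ·) ++ [u]).Nodup := by
    rw [List.nodup_append]
    refine ⟨sort_nodup _ _, by simp, ?_⟩
    intro a ha b hb
    rw [mem_sort] at ha
    rw [List.mem_singleton] at hb
    rintro rfl
    exact hu (hb ▸ ha)
  have hperm : ((insert u ρ).sort (· ≤ ·)).Perm (ρ.sort (· ≤ ·) ++ [u]) := by
    rw [List.perm_ext_iff_of_nodup (sort_nodup _ _) hn2]
    intro a
    rw [mem_sort, List.mem_append, mem_sort, List.mem_singleton, mem_insert, or_comm]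
  obtain ⟨ε, he, H⟩ := gramb_perm (ι := ι) hperm (sort_nodup _ _)
  refine ⟨ε, he, fun h hh => ?_⟩
  have h1 := H h (fun v hv w hw => hh v ((mem_sort _).1 hv) w ((mem_sort _).1 hw))
  show ((((insert u ρ).sort (· ≤ ·)).map h).prod) = _
  rw [h1, List.map_append, List.prod_append]
  simp [hp]

theorem gramb_eq {c g : V → Matrix ι ι ℝ} {x : ι → ℝ} (l : List V) (hn : l.Nodup)
    (hc : ∀ v ∈ l, ∀ w ∈ l, v ≠ w → c v * c w = - (c w * c v))
    (hcg : ∀ v ∈ l, ∀ w ∈ l, v ≠ w → g v * c w = - (c w * g v))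
    (hx : ∀ v ∈ l, g v *ᵥ x = c v *ᵥ x) : (l.map g).prod *ᵥ x = (l.map c).prod *ᵥ x := by
  induction l with
  | nil => simp
  | cons y l ih =>
    rw [List.nodup_cons] at hn
    have hy : y ∈ y :: l := List.mem_cons_self
    have hne : ∀ w ∈ l, y ≠ w := fun w hw e => hn.1 (e ▸ hw)
    have h1 := ih hn.2 (fun v hv w hw => hc v (List.mem_cons_of_mem _ hv) w
      (List.mem_cons_of_mem _ hw)) (fun v hv w hw => hcg v (List.mem_cons_of_mem _ hv) w
      (List.mem_cons_of_mem _ hw)) (fun v hv => hx v (List.mem_cons_of_mem _ hv))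
    have h2 := gramb_pass (h := c) (k := g y) l (fun w hw => hcg y hy w
      (List.mem_cons_of_mem _ hw) (hne w hw))
    have h3 := gramb_pass (h := c) (k := c y) l (fun w hw => hc y hy w
      (List.mem_cons_of_mem _ hw) (hne w hw))
    rw [List.map_cons, List.prod_cons, List.map_cons, List.prod_cons, ← mulVec_mulVec, h1,
      mulVec_mulVec, h2, h3, smul_mulVec, smul_mulVec, ← mulVec_mulVec, ← mulVec_mulVec,
      hx y hy]

theorem hp_eq {c g : V → Matrix ι ι ℝ} {F : Finset V} {x : ι → ℝ}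
    (hc : ∀ v ∈ F, ∀ w ∈ F, v ≠ w → c v * c w = - (c w * c v))
    (hcg : ∀ v ∈ F, ∀ w ∈ F, v ≠ w → g v * c w = - (c w * g v))
    (hx : ∀ v ∈ F, g v *ᵥ x = c v *ᵥ x) : hp g F *ᵥ x = hp c F *ᵥ x :=
  gramb_eq _ (sort_nodup _ _)
    (fun v hv w hw => hc v ((mem_sort _).1 hv) w ((mem_sort _).1 hw))
    (fun v hv w hw => hcg v ((mem_sort _).1 hv) w ((mem_sort _).1 hw))
    (fun v hv => hx v ((mem_sort _).1 hv))

end Pool.Agent.H31.GS
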