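import Pool.Agent.H31.GS.GramA
import Pool.Agent.H31.GS.GramB
import Pool.Agent.H31.GS.Comb

/-!
# helper31, GS, module GRAMC: the graded system and the forms of a Gram matrix

`av v = (1/2) • (c v + g v)`, `bv v = (1/2) • (c v - g v)`.

`gd_grM`: `c v * c v = 1` for `v ∈ A` (`cc v v`, `m1`), `c v * c w = - (c w * c v)` for adjacent ones (`m0`); expand.

`gd_anti`: `av v * av w + av w * av v = (1/4) (2 M v w + (g g + g g) + ...) = (1/2) M v w` for `v ≠ w`.

`gd_trans_c`: `vec_trans`. `gd_trans_g`: `g v` passes through `Xs.prod` with sign `(-1)^d` (induction on the list) and `(g v)ᵀ = - g v`.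

`gd_fa`, `gd_fb`, `gd_fo`: `c v * hp g F = (-1)^d hp g F * c v` (`hp_pass`, `cg`); `g v * hp g F = (-1)^(d+1) hp g F * g v` for `v ∈ F`
(`hp_pass_mem`) and `(-1)^d hp g F * g v` for `v ∉ F` (`hp_pass`). So for `v ∈ F`: `av v * hp g F = (-1)^d hp g F * bv v`, and
`(av v)ᵀ * Xs.prod = (-1)^(d+1) Xs.prod * av v`; total sign `-1`.

`gd_kappa`: `definite` with `es = (F.sort (· ≤ ·)).map c` (`AntiL` by `cc`, `m1`, `m0`; `F` is a clique; the list has no duplicates).
-/

namespace Pool.Agent.H31.GS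

open Finset Matrix

set_option linter.unusedSectionVars false
set_option linter.unusedVariables false

variable {V : Type} [Fintype V] [LinearOrder V] {G : SimpleGraph V}
variable {ι : Type} [Fintype ι] [DecidableEq ι]
variable {A : Finset V} {d : ℕ} {𝓛 : Submodule ℝ (Matrix ι ι ℝ)} {Xs : List (Matrix ι ι ℝ)}
variable {c g : V → Matrix ι ι ℝ} {γ : Matrix ι ι ℝ} {M : V → V → ℝ}

noncomputable def av (c g : V → Matrix ι ι ℝ) (v : V) : Matrix ι ι ℝ := (1 / 2 : ℝ) • (c v + g v)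

noncomputable def bv (c g : V → Matrix ι ι ℝ) (v : V) : Matrix ι ι ℝ := (1 / 2 : ℝ) • (c v - g v)

theorem gramc_c2 (h : GD G A d 𝓛 Xs c g γ M) {v : V} (hv : v ∈ A) : c v * c v = 1 := by
  have h1 := h.cc v v
  rw [h.m1 v hv, mul_one, two_smul] at h1
  have h2 : (2 : ℝ) • (c v * c v) = (2 : ℝ) • (1 : Matrix ι ι ℝ) := by
    rw [two_smul, two_smul]; exact h1
  have h3 := congrArg (fun x => (1 / 2 : ℝ) • x) h2
  simp only [smul_smul] at h3
  norm_num at h3
  exact h3

theorem gramc_cadj (h : GD G A d 𝓛 Xs c g γ M) {v w : V} (hv : v ∈ A) (hw : w ∈ A)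
    (e : G.Adj v w) : c v * c w = - (c w * c v) := by
  have h1 := h.cc v w
  rw [h.m0 v hv w hw e, mul_zero, zero_smul] at h1
  exact eq_neg_of_add_eq_zero_left h1

theorem gramc_gc (h : GD G A d 𝓛 Xs c g γ M) (v w : V) : g v * c w = - (c w * g v) := by
  rw [h.cg w v, neg_neg]

theorem gd_grM (h : GD G A d 𝓛 Xs c g γ M) : GrM G A (av c g) (bv c g) γ := by
  constructor
  · intro v hv
    unfold av
    rw [smul_mul_smul_comm, add_mul, mul_add, mul_add, gramc_c2 h hv, gramc_gc h v v, h.g2 v]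
    have : (1 : Matrix ι ι ℝ) + c v * g v + (-(c v * g v) + -1) = 0 := by abel
    rw [this, smul_zero]
  · intro v hv
    unfold bv
    rw [smul_mul_smul_comm, sub_mul, mul_sub, mul_sub, gramc_c2 h hv, gramc_gc h v v, h.g2 v]
    have : (1 : Matrix ι ι ℝ) - c v * g v - (-(c v * g v) - -1) = 0 := by abel
    rw [this, smul_zero]
  · intro v hv
    unfold av bv
    rw [smul_mul_smul_comm, smul_mul_smul_comm, add_mul, mul_sub, mul_sub, sub_mul, mul_add,
      mul_add, gramc_c2 h hv, gramc_gc h v v, h.g2 v, ← smul_add]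
    have : (1 : Matrix ι ι ℝ) - c v * g v + (-(c v * g v) - -1) +
        (1 + c v * g v - (-(c v * g v) + -1)) = (4 : ℝ) • (1 : Matrix ι ι ℝ) := by
      module
    rw [this, smul_smul]
    norm_num
  · intro v hv w hw e
    unfold av
    rw [smul_mul_smul_comm, smul_mul_smul_comm, add_mul, mul_add, mul_add, add_mul, mul_add,
      mul_add, gramc_cadj h hv hw e, h.cg v w, gramc_gc h v w, h.gg v w e.ne]
    module
  · intro v hv w hw e
    unfold av bv
    rw [smul_mul_smul_comm, smul_mul_smul_comm, add_mul, mul_sub, mul_sub, sub_mul, mul_add,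
      mul_add, gramc_cadj h hv hw e, h.cg v w, gramc_gc h v w, h.gg v w e.ne]
    module
  · intro v hv w hw e
    unfold bv
    rw [smul_mul_smul_comm, smul_mul_smul_comm, sub_mul, mul_sub, mul_sub, sub_mul, mul_sub,
      mul_sub, gramc_cadj h hv hw e, h.cg v w, gramc_gc h v w, h.gg v w e.ne]
    module
  · exact h.kk
  · intro v _
    unfold av
    rw [mul_smul_comm, smul_mul_assoc, mul_add, add_mul, h.kc, h.kg]
    module
  · intro v _
    unfold bv
    rw [mul_smul_comm, smul_mul_assoc, mul_sub, sub_mul, h.kc, h.kg]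
    module

theorem gd_anti (h : GD G A d 𝓛 Xs c g γ M) {v w : V} (hvw : v ≠ w) :
    av c g v * av c g w + av c g w * av c g v = (M v w / 2) • (1 : Matrix ι ι ℝ) := by
  unfold av
  rw [smul_mul_smul_comm, smul_mul_smul_comm, add_mul, mul_add, mul_add, add_mul, mul_add,
    mul_add, h.cg v w, gramc_gc h v w, h.gg v w hvw, ← smul_add]
  have h1 := h.cc v w
  have : c v * c w + -(g w * c v) + (-(c w * g v) + -(g w * g v)) +
      (c w * c v + c w * g v + (g w * c v + g w * g v)) = c v * c w + c w * c v := by abel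
  rw [this, h1, smul_smul]
  congr 1
  ring

theorem gd_trans_c (h : GD G A d 𝓛 Xs c g γ M) (v : V) :
    (c v)ᵀ * Xs.prod = (-1 : ℝ) ^ (d + 1) • (Xs.prod * c v) := by
  rw [vec_trans h.vs h.ax (h.mem v), h.len]

theorem gd_trans_g (h : GD G A d 𝓛 Xs c g γ M) (v : V) :
    (g v)ᵀ * Xs.prod = (-1 : ℝ) ^ (d + 1) • (Xs.prod * g v) := by
  rw [h.gt v, neg_mul, def_anti_prod Xs (h.gX v), h.len, pow_succ, mul_neg_one, neg_smul]

theorem gramc_av (h : GD G A d 𝓛 Xs c g γ M) (v : V) :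
    (av c g v)ᵀ * Xs.prod = (-1 : ℝ) ^ (d + 1) • (Xs.prod * av c g v) := by
  unfold av
  rw [transpose_smul, transpose_add, smul_mul_assoc, add_mul, gd_trans_c h, gd_trans_g h,
    mul_smul_comm, mul_add]
  module

theorem gramc_bv (h : GD G A d 𝓛 Xs c g γ M) (v : V) :
    (bv c g v)ᵀ * Xs.prod = (-1 : ℝ) ^ (d + 1) • (Xs.prod * bv c g v) := by
  unfold bv
  rw [transpose_smul, transpose_sub, smul_mul_assoc, sub_mul, gd_trans_c h, gd_trans_g h,
    mul_smul_comm, mul_sub]
  module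

theorem gramc_hc (h : GD G A d 𝓛 Xs c g γ M) {F : Finset V} (hd : F.card = d) (v : V) :
    c v * hp g F = (-1 : ℝ) ^ d • (hp g F * c v) := by
  rw [hp_pass (fun w _ => h.cg v w), hd]

theorem gramc_hg (h : GD G A d 𝓛 Xs c g γ M) {F : Finset V} (hd : F.card = d) {v : V}
    (hv : v ∈ F) : g v * hp g F = (-1 : ℝ) ^ (d + 1) • (hp g F * g v) := by
  rw [hp_pass_mem hv (fun w _ hw => h.gg v w hw.symm) rfl, hd]

theorem gramc_hg' (h : GD G A d 𝓛 Xs c g γ M) {F : Finset V} (hd : F.card = d) {v : V}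
    (hv : v ∉ F) : g v * hp g F = (-1 : ℝ) ^ d • (hp g F * g v) := by
  rw [hp_pass (fun w hw => h.gg v w (fun e => hv (e ▸ hw))), hd]

theorem gramc_sign (d : ℕ) (X : Matrix ι ι ℝ) :
    (-1 : ℝ) ^ (d + 1) • ((-1 : ℝ) ^ d • X) = - X := by
  rw [smul_smul, ← pow_add]
  have : (-1 : ℝ) ^ (d + 1 + d) = -1 := by
    rw [show d + 1 + d = 2 * d + 1 by ring, pow_succ, pow_mul]
    norm_num
  rw [this, neg_one_smul]

theorem gd_fa (h : GD G A d 𝓛 Xs c g γ M) {F : Finset V} (hF : Cl G A F) (hd : F.card = d) {v : V}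
    (hv : v ∈ F) : (av c g v)ᵀ * (Xs.prod * hp g F) = - ((Xs.prod * hp g F) * bv c g v) := by
  have e1 : av c g v * hp g F = (-1 : ℝ) ^ d • (hp g F * bv c g v) := by
    unfold av bv
    rw [smul_mul_assoc, add_mul, gramc_hc h hd, gramc_hg h hd hv, mul_smul_comm, mul_sub, pow_succ,
      mul_neg_one]
    module
  rw [← mul_assoc, gramc_av h, smul_mul_assoc, mul_assoc, e1, mul_smul_comm, gramc_sign,
    ← mul_assoc]

theorem gd_fb (h : GD G A d 𝓛 Xs c g γ M) {F : Finset V} (hF : Cl G A F) (hd : F.card = d) {v : V}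
    (hv : v ∈ F) : (bv c g v)ᵀ * (Xs.prod * hp g F) = - ((Xs.prod * hp g F) * av c g v) := by
  have e1 : bv c g v * hp g F = (-1 : ℝ) ^ d • (hp g F * av c g v) := by
    unfold av bv
    rw [smul_mul_assoc, sub_mul, gramc_hc h hd, gramc_hg h hd hv, mul_smul_comm, mul_add, pow_succ,
      mul_neg_one]
    module
  rw [← mul_assoc, gramc_bv h, smul_mul_assoc, mul_assoc, e1, mul_smul_comm, gramc_sign,
    ← mul_assoc]

theorem gd_fo (h : GD G A d 𝓛 Xs c g γ M) {F : Finset V} (hF : Cl G A F) (hd : F.card = d) {v : V}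
    (hv : v ∉ F) : (av c g v)ᵀ * (Xs.prod * hp g F) = - ((Xs.prod * hp g F) * av c g v) := by
  have e1 : av c g v * hp g F = (-1 : ℝ) ^ d • (hp g F * av c g v) := by
    unfold av
    rw [smul_mul_assoc, add_mul, gramc_hc h hd, gramc_hg' h hd hv, mul_smul_comm, mul_add]
    module
  rw [← mul_assoc, gramc_av h, smul_mul_assoc, mul_assoc, e1, mul_smul_comm, gramc_sign,
    ← mul_assoc]

theorem gd_kappa (h : GD G A d 𝓛 Xs c g γ M) {F : Finset V} (hF : Cl G A F) (hd : F.card = d) :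
    ∃ κ : ℝ, (κ = 1 ∨ κ = -1) ∧
      ∀ x : ι → ℝ, x ≠ 0 → 0 < κ * (x ⬝ᵥ (Xs.prod * hp c F) *ᵥ x) := by
  have he : AntiL ((F.sort (· ≤ ·)).map c) := by
    constructor
    · intro e he
      obtain ⟨v, hv, rfl⟩ := List.mem_map.1 he
      rw [Finset.mem_sort] at hv
      exact gramc_c2 h (hF.1 hv)
    · rw [List.pairwise_map]
      apply (Finset.sort_nodup F (· ≤ ·)).pairwise_of_forall_ne
      intro a ha b hb hab
      rw [Finset.mem_sort] at ha hb
      exact gramc_cadj h (hF.1 ha) (hF.1 hb) (hF.adj ha hb hab)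
  exact definite h.vs h.ax he (by
    intro e he
    obtain ⟨v, hv, rfl⟩ := List.mem_map.1 he
    exact h.mem v) (by rw [List.length_map, Finset.length_sort, hd, h.len])

end Pool.Agent.H31.GS
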