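import Pool.Agent.H31.GS.GramC

/-!
# helper31, GS, module GRAMD: the sign lemma and the ridge relation

`gd_sign`. Let `K = Xs.prod * hp c ρ`, `|ρ| + 1 = d`, `u`, `w` in the link of `ρ`, distinct, not adjacent, `m = M u w < 0`. By `hp_insert`
(for `h = c`) `hp c (insert u ρ) = εu • (hp c ρ * c u)`, so with `su = κu * εu` (`= 1` or `-1`): (1) `0 < su * (x ⬝ᵥ (K * c u) *ᵥ x)` and
(2) `0 < sw * (x ⬝ᵥ (K * c w) *ᵥ x)` for `x ≠ 0`. `(c u)ᵀ * K = K * c u`: `(c u)ᵀ Xs.prod = (-1)^(d+1) Xs.prod * c u` (`gd_trans_c`) and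
`c u * hp c ρ = (-1)^(d-1) hp c ρ * c u` (`hp_pass`, `u` adjacent to all of `ρ`, `cc`, `m0`). `c u * c w * c u = 2 m c u - c w` (`cc`,
`c u * c u = 1`). Put `x = c u *ᵥ z` in (2), `z ≠ 0` (then `x ≠ 0` because `c u * c u = 1`):
`0 < sw * (z ⬝ᵥ ((c u)ᵀ * K * c w * c u) *ᵥ z) = sw * (z ⬝ᵥ (K * c u * c w * c u) *ᵥ z)
= sw * (2 m (z ⬝ᵥ (K * c u) *ᵥ z) - (z ⬝ᵥ (K * c w) *ᵥ z))`. With (2) for `z`: `0 < 2 m * sw * (z ⬝ᵥ (K * c u) *ᵥ z)`, so
`sw * (z ⬝ᵥ (K * c u) *ᵥ z) < 0`, and (1): `su = - sw`. (`ι` is nonempty, so there is `z ≠ 0`.)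

`gd_ridge`: `κ` is a choice of signs as in `gd_kappa` for all facets. `lk G A ρ = {u, w}` (`sphere_lk`, `sphere_one`; `d - ρ.card = 1`).
`av u - bv u = g u`. `hp g (insert u ρ) = εu • (hp g ρ * g u)` with the SAME `εu` as for `c` (`hp_insert`), so
`hp g (insert u ρ) * g u = - εu • hp g ρ`. So the sum is `- (κu εu + κw εw) • (Xs.prod * hp g ρ) = 0`.
(`u ∉ ρ` because `u` is adjacent to all of `ρ`; `insert u ρ` is a clique of `A`: `cl_insert_lk`.)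
-/

namespace Pool.Agent.H31.GS

open Finset Matrix

set_option linter.unusedSectionVars false
set_option linter.unusedVariables false

variable {V : Type} [Fintype V] [LinearOrder V] {G : SimpleGraph V}
variable {ι : Type} [Fintype ι] [DecidableEq ι]
variable {A : Finset V} {d : ℕ} {𝓛 : Submodule ℝ (Matrix ι ι ℝ)} {Xs : List (Matrix ι ι ℝ)}
variable {c g : V → Matrix ι ι ℝ} {γ : Matrix ι ι ℝ} {M : V → V → ℝ}

private theorem gramd_core {T H a b : Matrix ι ι ℝ} {m : ℝ} (hT : aᵀ * (T * H) = T * H * a)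
    (haa : a * a = 1) (hab : a * b + b * a = (2 * m) • (1 : Matrix ι ι ℝ)) (z : ι → ℝ) :
    (a *ᵥ z) ⬝ᵥ (T * (H * b)) *ᵥ (a *ᵥ z) =
      2 * m * (z ⬝ᵥ (T * (H * a)) *ᵥ z) - z ⬝ᵥ (T * (H * b)) *ᵥ z := by
  have h1 : a * b * a = (2 * m) • a - b := by
    have h2 : a * b = (2 * m) • (1 : Matrix ι ι ℝ) - b * a := by rw [← hab]; abel
    rw [h2, sub_mul, smul_mul_assoc, one_mul, mul_assoc, haa, mul_one]
  have h3 : aᵀ * (T * (H * b)) * a = (2 * m) • (T * (H * a)) - T * (H * b) := by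
    calc aᵀ * (T * (H * b)) * a = (aᵀ * (T * H)) * b * a := by simp only [mul_assoc]
      _ = T * H * (a * b * a) := by rw [hT]; simp only [mul_assoc]
      _ = _ := by rw [h1, mul_sub, mul_smul_comm, mul_assoc, mul_assoc]
  have h4 : (a *ᵥ z) ⬝ᵥ (T * (H * b)) *ᵥ (a *ᵥ z) = z ⬝ᵥ (aᵀ * (T * (H * b)) * a) *ᵥ z := by
    rw [mulVec_mulVec, ← vecMul_transpose, ← dotProduct_mulVec, mulVec_mulVec, ← mul_assoc]
  rw [h4, h3, sub_mulVec, smul_mulVec, dotProduct_sub, dotProduct_smul, smul_eq_mul]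

theorem gd_sign [Nonempty ι] (h : GD G A d 𝓛 Xs c g γ M) {ρ : Finset V} (hρ : Cl G A ρ)
    (hd : ρ.card + 1 = d) {u w : V} (hu : u ∈ lk G A ρ) (hw : w ∈ lk G A ρ) (huw : u ≠ w)
    (hna : ¬ G.Adj u w) {κu κw εu εw : ℝ} (hκu : κu = 1 ∨ κu = -1) (hκw : κw = 1 ∨ κw = -1)
    (hεu : εu = 1 ∨ εu = -1) (hεw : εw = 1 ∨ εw = -1)
    (hpu : ∀ x : ι → ℝ, x ≠ 0 → 0 < κu * (x ⬝ᵥ (Xs.prod * hp c (insert u ρ)) *ᵥ x))
    (hpw : ∀ x : ι → ℝ, x ≠ 0 → 0 < κw * (x ⬝ᵥ (Xs.prod * hp c (insert w ρ)) *ᵥ x))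
    (heu : hp c (insert u ρ) = εu • (hp c ρ * c u))
    (hew : hp c (insert w ρ) = εw • (hp c ρ * c w)) : κu * εu = - (κw * εw) := by
  have huA := (mem_lk.1 hu).1
  have hwA := (mem_lk.1 hw).1
  have hm := h.mn u huA w hwA huw hna
  have haa : c u * c u = 1 := by
    have h1 := h.cc u u
    rw [h.m1 u huA, mul_one, two_smul] at h1
    have h2 : (2 : ℝ) • (c u * c u) = (2 : ℝ) • (1 : Matrix ι ι ℝ) := by
      rw [two_smul, two_smul]; exact h1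
    exact smul_right_injective _ (two_ne_zero) h2
  have hpass : c u * hp c ρ = (-1 : ℝ) ^ ρ.card • (hp c ρ * c u) := by
    apply hp_pass
    intro v hv
    have h1 := h.cc u v
    rw [h.m0 u huA v (hρ.1 hv) ((mem_lk.1 hu).2 v hv).symm, mul_zero, zero_smul] at h1
    exact eq_neg_of_add_eq_zero_left h1
  have hsq : (-1 : ℝ) ^ (d + 1) * (-1 : ℝ) ^ ρ.card = 1 := by
    rw [← pow_add, ← hd]
    exact Even.neg_one_pow ⟨ρ.card + 1, by ring⟩
  have hT : (c u)ᵀ * (Xs.prod * hp c ρ) = Xs.prod * hp c ρ * c u := by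
    rw [← mul_assoc, gd_trans_c h, smul_mul_assoc, mul_assoc, hpass, mul_smul_comm, smul_smul,
      hsq, one_smul, mul_assoc]
  obtain ⟨z, hz⟩ : ∃ z : ι → ℝ, z ≠ 0 := ⟨fun _ => 1, fun h0 => by
    have := congrFun h0 (Classical.arbitrary ι)
    exact one_ne_zero this⟩
  have hz' : c u *ᵥ z ≠ 0 := by
    intro h0
    apply hz
    have h1 : c u *ᵥ (c u *ᵥ z) = 0 := by rw [h0, mulVec_zero]
    rwa [mulVec_mulVec, haa, one_mulVec] at h1
  have e1 := hpu z hz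
  have e2 := hpw z hz
  have e3 := hpw _ hz'
  rw [heu, mul_smul_comm, smul_mulVec, dotProduct_smul, smul_eq_mul] at e1
  rw [hew, mul_smul_comm, smul_mulVec, dotProduct_smul, smul_eq_mul] at e2 e3
  rw [gramd_core hT haa (h.cc u w) z] at e3
  generalize z ⬝ᵥ (Xs.prod * (hp c ρ * c u)) *ᵥ z = α at *
  generalize z ⬝ᵥ (Xs.prod * (hp c ρ * c w)) *ᵥ z = β at *
  rcases hκu with rfl | rfl <;> rcases hκw with rfl | rfl <;> rcases hεu with rfl | rfl <;>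
    rcases hεw with rfl | rfl <;> first
    | (norm_num; done)
    | (exfalso
       norm_num at e1 e2 e3
       nlinarith)

theorem gd_ridge [Nonempty ι] (h : GD G A d 𝓛 Xs c g γ M) (hA : FlagSphere G d A)
    {κ : Finset V → ℝ} (hκ : ∀ F, Cl G A F → F.card = d → (κ F = 1 ∨ κ F = -1) ∧
      ∀ x : ι → ℝ, x ≠ 0 → 0 < κ F * (x ⬝ᵥ (Xs.prod * hp c F) *ᵥ x))
    {ρ : Finset V} (hρ : Cl G A ρ) (hd : ρ.card + 1 = d) :
    ∑ u ∈ lk G A ρ, κ (insert u ρ) • ((Xs.prod * hp g (insert u ρ)) * (av c g u - bv c g u)) =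
      0 := by
  have h1 := (sphere_lk hA hρ).2
  have h2 : d - ρ.card = 1 := by omega
  rw [h2] at h1
  obtain ⟨u, w, huw, hna, hlk⟩ := sphere_one h1
  have hu : u ∈ lk G A ρ := by rw [hlk]; simp
  have hw : w ∈ lk G A ρ := by rw [hlk]; simp
  have hav : ∀ v, av c g v - bv c g v = g v := by
    intro v
    unfold av bv
    rw [← smul_sub]
    have : c v + g v - (c v - g v) = (2 : ℝ) • g v := by rw [two_smul]; abel
    rw [this, smul_smul]
    norm_num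
  have hanti : ∀ F, Cl G A F → ∀ v ∈ F, ∀ w ∈ F, v ≠ w → c v * c w = - (c w * c v) := by
    intro F hF v hv w hw hvw
    have h1 := h.cc v w
    rw [h.m0 v (hF.1 hv) w (hF.1 hw) (hF.adj hv hw hvw), mul_zero, zero_smul] at h1
    exact eq_neg_of_add_eq_zero_left h1
  have key : ∀ v ∈ lk G A ρ, ∃ ε : ℝ, (ε = 1 ∨ ε = -1) ∧
      hp c (insert v ρ) = ε • (hp c ρ * c v) ∧
      κ (insert v ρ) • ((Xs.prod * hp g (insert v ρ)) * (av c g v - bv c g v)) =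
        (- (κ (insert v ρ) * ε)) • (Xs.prod * hp g ρ) := by
    intro v hv
    obtain ⟨hcl, hvρ⟩ := cl_insert_lk hρ hv
    obtain ⟨ε, hε, H⟩ := hp_insert hvρ (ι := ι)
    refine ⟨ε, hε, H c (hanti _ hcl), ?_⟩
    rw [hav, H g (fun a _ b _ hab => h.gg a b hab), mul_smul_comm, smul_mul_assoc, mul_assoc,
      mul_assoc, h.g2, mul_neg, mul_one, mul_neg, smul_neg, smul_neg, smul_smul, neg_smul]
  obtain ⟨εu, hεu, heu, hsu⟩ := key u hu
  obtain ⟨εw, hεw, hew, hsw⟩ := key w hw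
  obtain ⟨hclu, huρ⟩ := cl_insert_lk hρ hu
  obtain ⟨hclw, hwρ⟩ := cl_insert_lk hρ hw
  have hku := hκ _ hclu (by rw [card_insert_of_notMem huρ]; exact hd)
  have hkw := hκ _ hclw (by rw [card_insert_of_notMem hwρ]; exact hd)
  have hs := gd_sign h hρ hd hu hw huw hna hku.1 hkw.1 hεu hεw hku.2 hkw.2 heu hew
  rw [hlk, sum_pair huw, hsu, hsw, hs, ← add_smul]
  simp

end Pool.Agent.H31.GS
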