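import Pool.Agent.H31.GS.Defs
import Pool.Agent.H31.GS.Cob

/-!
# helper31, GS, module MAT: graded systems of matrices as graded systems of operators

All immediate: `Matrix.toLin'_apply`, `Matrix.mulVec_mulVec`, `Matrix.add_mulVec`, `Matrix.neg_mulVec`, `Matrix.one_mulVec`,
`Matrix.zero_mulVec`. For `exM_congr`, `exM_graph`: `Cell`, `cob`, `Cl` of subsets of `A` depend only on the `a v`, `v ∈ A`, and the
graph on `A` (prove `ExC` versions first).
-/

namespace Pool.Agent.H31.GS

open Finset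

set_option linter.unusedSectionVars false
set_option linter.unusedVariables false

variable {V : Type} [Fintype V] [LinearOrder V] {G : SimpleGraph V}

theorem exC_congr {U : Type} [AddCommGroup U] [Module ℝ U] {a a' : V → Module.End ℝ U} {A : Finset V}
    {i : ℕ} (h : ∀ v ∈ A, ∀ x, a v x = a' v x) (he : ExC G a A i) : ExC G a' A i := by
  have hcob : ∀ (z : Finset V → U) (s : Finset V), s ⊆ A → cob a z s = cob a' z s := by
    intro z s hs
    exact sum_congr rfl fun v hv => h v (hs hv) _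
  have hcell : ∀ (s : Finset V) (z : U), s ⊆ A → (z ∈ Cell a s ↔ z ∈ Cell a' s) := by
    intro s z hs
    rw [mem_Cell, mem_Cell]
    exact forall₂_congr fun v hv => by rw [h v (hs hv)]
  intro y hy hcl
  obtain ⟨x, h1, h2⟩ := he y (fun s hs hi => (hcell s _ hs.1).2 (hy s hs hi))
    (fun s hs hi => by rw [hcob y s hs.1]; exact hcl s hs hi)
  exact ⟨x, fun s hs hi => (hcell s _ hs.1).1 (h1 s hs hi),
    fun s hs hi => by rw [← hcob x s hs.1]; exact h2 s hs hi⟩

theorem exC_graph {U : Type} [AddCommGroup U] [Module ℝ U] {a : V → Module.End ℝ U} {A : Finset V}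
    {G' : SimpleGraph V} {i : ℕ} (h : ∀ x ∈ A, ∀ y ∈ A, (G.Adj x y ↔ G'.Adj x y))
    (he : ExC G a A i) : ExC G' a A i := by
  have hc : ∀ s, Cl G A s ↔ Cl G' A s := by
    intro s
    constructor
    · rintro ⟨h1, h2⟩
      exact ⟨h1, fun x hx y hy hxy => (h x (h1 hx) y (h1 hy)).1 (h2 hx hy hxy)⟩
    · rintro ⟨h1, h2⟩
      exact ⟨h1, fun x hx y hy hxy => (h x (h1 hx) y (h1 hy)).2 (h2 hx hy hxy)⟩
  intro y hy hcl
  obtain ⟨x, h1, h2⟩ := he y (fun s hs hi => hy s ((hc s).1 hs) hi)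
    (fun s hs hi => hcl s ((hc s).1 hs) hi)
  exact ⟨x, fun s hs hi => h1 s ((hc s).2 hs) hi, fun s hs hi => h2 s ((hc s).2 hs) hi⟩

theorem exC_smul {U : Type} [AddCommGroup U] [Module ℝ U] {a : V → Module.End ℝ U} {A : Finset V}
    {i : ℕ} {k : ℝ} (hk : k ≠ 0) (he : ExC G a A i) : ExC G (fun v => k • a v) A i := by
  have hcob : ∀ (z : Finset V → U) (s : Finset V), cob (fun v => k • a v) z s = k • cob a z s := by
    intro z s
    rw [cob, cob, smul_sum]
    rfl
  have hcell : ∀ (s : Finset V) (z : U), (z ∈ Cell (fun v => k • a v) s ↔ z ∈ Cell a s) := by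
    intro s z
    rw [mem_Cell, mem_Cell]
    refine forall₂_congr fun v _ => ?_
    rw [LinearMap.smul_apply, smul_eq_zero]
    exact ⟨fun h => h.resolve_left hk, fun h => Or.inr h⟩
  intro y hy hcl
  obtain ⟨x, h1, h2⟩ := he y (fun s hs hi => (hcell s _).1 (hy s hs hi))
    (fun s hs hi => by
      have h3 := hcl s hs hi
      rw [hcob, smul_eq_zero] at h3
      exact h3.resolve_left hk)
  refine ⟨fun s => k⁻¹ • x s, fun s hs hi => (hcell s _).2 ((Cell a s).smul_mem _ (h1 s hs hi)),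
    fun s hs hi => ?_⟩
  rw [hcob, cob_smul, smul_smul, mul_inv_cancel₀ hk, one_smul]
  exact h2 s hs hi

variable {ι : Type} [Fintype ι] [DecidableEq ι] {a b : V → Matrix ι ι ℝ} {γ : Matrix ι ι ℝ}

theorem GrM.gsys {A : Finset V} (h : GrM G A a b γ) :
    GSys G A (fun v => Matrix.toLin' (a v)) (fun v => Matrix.toLin' (b v)) := by
  refine ⟨?_, ?_, ?_, ?_, ?_, ?_⟩
  · intro v hv x
    simp only [Matrix.toLin'_apply, Matrix.mulVec_mulVec]
    rw [h.aa v hv, Matrix.zero_mulVec]
  · intro v hv x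
    simp only [Matrix.toLin'_apply, Matrix.mulVec_mulVec]
    rw [h.bb v hv, Matrix.zero_mulVec]
  · intro v hv x
    simp only [Matrix.toLin'_apply, Matrix.mulVec_mulVec]
    rw [← Matrix.add_mulVec, h.ab v hv, Matrix.one_mulVec]
  · intro v hv w hw e x
    simp only [Matrix.toLin'_apply, Matrix.mulVec_mulVec]
    rw [h.caa v hv w hw e, Matrix.neg_mulVec]
  · intro v hv w hw e x
    simp only [Matrix.toLin'_apply, Matrix.mulVec_mulVec]
    rw [h.cab v hv w hw e, Matrix.neg_mulVec]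
  · intro v hv w hw e x
    simp only [Matrix.toLin'_apply, Matrix.mulVec_mulVec]
    rw [h.cbb v hv w hw e, Matrix.neg_mulVec]

theorem GrM.mono {A A' : Finset V} (h : GrM G A a b γ) (hA : A' ⊆ A) : GrM G A' a b γ :=
  ⟨fun v hv => h.aa v (hA hv), fun v hv => h.bb v (hA hv), fun v hv => h.ab v (hA hv),
    fun v hv w hw => h.caa v (hA hv) w (hA hw), fun v hv w hw => h.cab v (hA hv) w (hA hw),
    fun v hv w hw => h.cbb v (hA hv) w (hA hw), h.gg, fun v hv => h.ga v (hA hv),
    fun v hv => h.gb v (hA hv)⟩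

/-- a system for a graph with more edges is a system -/
theorem GrM.graph {A : Finset V} {G' : SimpleGraph V} (h : GrM G A a b γ)
    (hG : ∀ x ∈ A, ∀ y ∈ A, G'.Adj x y → G.Adj x y) : GrM G' A a b γ :=
  ⟨h.aa, h.bb, h.ab, fun v hv w hw e => h.caa v hv w hw (hG v hv w hw e),
    fun v hv w hw e => h.cab v hv w hw (hG v hv w hw e),
    fun v hv w hw e => h.cbb v hv w hw (hG v hv w hw e), h.gg, h.ga, h.gb⟩

theorem exM_congr {a' : V → Matrix ι ι ℝ} {A : Finset V} (h : ∀ v ∈ A, a v = a' v)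
    (he : ExM G a A) : ExM G a' A :=
  fun i => exC_congr (fun v hv x => by rw [h v hv]) (he i)

theorem exM_graph {A : Finset V} {G' : SimpleGraph V} (h : ∀ x ∈ A, ∀ y ∈ A, (G.Adj x y ↔ G'.Adj x y))
    (he : ExM G a A) : ExM G' a A :=
  fun i => exC_graph h (he i)

end Pool.Agent.H31.GS
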