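import Pool.Agent.H31.GS.GramD
import Pool.Agent.H31.GS.Mat
import Pool.Agent.H31.GS.FormMain

/-!
# helper31, GS, module GRAME: Gram matrices give exact graded systems on the links of odd rank

`gd_fsys`: `a v = av c g v`, `b v = bv c g v`, `N v w = - M v w / 2`, `B F = Matrix.toBilin' (κ F • (Xs.prod * hp g F))` where `κ F` is as
in `gd_kappa` (choose for facets). `Matrix.toBilin'_apply'`: `B F x y = x ⬝ᵥ (κ F • (Xs.prod * hp g F)) *ᵥ y`.
`sys`: `GrM.gsys (gd_grM h)`. `anti`: `gd_anti`. `fa`: `(a v *ᵥ x) ⬝ᵥ K *ᵥ y = x ⬝ᵥ ((a v)ᵀ * K) *ᵥ y`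
(`Matrix.dotProduct_mulVec`, `Matrix.vecMul_transpose`, ...) and `gd_fa`; `fb`, `fo` similarly. `ridge`: `gd_ridge`.
`pos`: if `b v *ᵥ x = 0` for `v ∈ F` then `g v *ᵥ x = c v *ᵥ x`, so `hp g F *ᵥ x = hp c F *ᵥ x` (`hp_eq`) and
`B F x x = κ F * (x ⬝ᵥ (Xs.prod * hp c F) *ᵥ x) > 0`.

`gram_exAll`: `gd_exists`, `gd_fsys`, `form_main` (`ι → ℝ` is finite dimensional).

`racy_gram`: for odd `d - r.card`: `ExAll` gives `ExC G a (lk G A r) i` for all `i` (`2 * i + r.card ≠ d` by parity,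
`r.card ≤ d` by `sphere_lk`).
-/

namespace Pool.Agent.H31.GS

open Finset Matrix

set_option linter.unusedSectionVars false
set_option linter.unusedVariables false

variable {V : Type} [Fintype V] [LinearOrder V] {G : SimpleGraph V}

theorem grame_dot {ι : Type} [Fintype ι] [DecidableEq ι] (A K : Matrix ι ι ℝ) (x y : ι → ℝ) :
    (A *ᵥ x) ⬝ᵥ (K *ᵥ y) = x ⬝ᵥ ((Aᵀ * K) *ᵥ y) := by
  rw [dotProduct_mulVec, vecMul_mulVec, ← dotProduct_mulVec]

theorem gd_fsys {ι : Type} [Fintype ι] [DecidableEq ι] [Nonempty ι] {A : Finset V} {d : ℕ}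
    {𝓛 : Submodule ℝ (Matrix ι ι ℝ)} {Xs : List (Matrix ι ι ℝ)} {c g : V → Matrix ι ι ℝ}
    {γ : Matrix ι ι ℝ} {M : V → V → ℝ} (h : GD G A d 𝓛 Xs c g γ M) (hA : FlagSphere G d A) :
    ∃ (N : V → V → ℝ) (B : Finset V → (ι → ℝ) →ₗ[ℝ] (ι → ℝ) →ₗ[ℝ] ℝ),
      FSys G A d (fun v => Matrix.toLin' (av c g v)) (fun v => Matrix.toLin' (bv c g v)) N B := by
  have hk := fun (F : Finset V) (hF : Cl G A F) (hd : F.card = d) => gd_kappa h hF hd
  choose! κ hκ using hk
  refine ⟨fun v w => - M v w / 2, fun F => Matrix.toBilin' (κ F • (Xs.prod * hp g F)), ?_⟩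
  constructor
  · exact (gd_grM h).gsys
  · intro v hv w hw hvw hna
    have := h.mn v hv w hw hvw hna
    show 0 < - M v w / 2
    linarith
  · intro v hv w hw hvw hna x
    have h1 := gd_anti h hvw
    simp only [Matrix.toLin'_apply, mulVec_mulVec]
    rw [← add_mulVec, h1, smul_mulVec, one_mulVec, ← neg_smul]
    congr 1
    ring
  · intro F hF hd v hv x y
    simp only [Matrix.toLin'_apply, Matrix.toBilin'_apply']
    rw [grame_dot, mul_smul_comm, gd_fa h hF hd hv, mulVec_mulVec, smul_mul_assoc, smul_neg,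
      neg_mulVec, dotProduct_neg]
  · intro F hF hd v hv x y
    simp only [Matrix.toLin'_apply, Matrix.toBilin'_apply']
    rw [grame_dot, mul_smul_comm, gd_fb h hF hd hv, mulVec_mulVec, smul_mul_assoc, smul_neg,
      neg_mulVec, dotProduct_neg]
  · intro F hF hd v hvA hv x y
    simp only [Matrix.toLin'_apply, Matrix.toBilin'_apply']
    rw [grame_dot, mul_smul_comm, gd_fo h hF hd hv, mulVec_mulVec, smul_mul_assoc, smul_neg,
      neg_mulVec, dotProduct_neg]
  · intro ρ hρ hd x y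
    have h1 := gd_ridge h hA (κ := κ) (fun F hF hd => hκ F hF hd) hρ hd
    have h2 : ∑ u ∈ lk G A ρ, (Matrix.toBilin' (κ (insert u ρ) • (Xs.prod * hp g (insert u ρ)))) x
        ((Matrix.toLin' (av c g u)) y - (Matrix.toLin' (bv c g u)) y) =
        x ⬝ᵥ ((∑ u ∈ lk G A ρ, κ (insert u ρ) • ((Xs.prod * hp g (insert u ρ)) *
          (av c g u - bv c g u))) *ᵥ y) := by
      rw [Matrix.sum_mulVec, dotProduct_sum]
      refine sum_congr rfl (fun u _ => ?_)
      simp only [Matrix.toLin'_apply, Matrix.toBilin'_apply']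
      rw [← sub_mulVec, mulVec_mulVec, smul_mul_assoc]
    refine h2.trans ?_
    rw [h1, zero_mulVec, dotProduct_zero]
  · intro F hF hd x hx hb
    obtain ⟨-, h2⟩ := hκ F hF hd
    have h3 : hp g F *ᵥ x = hp c F *ᵥ x := by
      refine hp_eq ?_ (fun v _ w _ _ => ?_) (fun v hv => ?_)
      · intro v hv w hw hvw
        have h4 := h.cc v w
        rw [h.m0 v (hF.1 hv) w (hF.1 hw) (hF.2 hv hw hvw)] at h4
        simp only [mul_zero, zero_smul] at h4
        exact eq_neg_of_add_eq_zero_left h4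
      · rw [h.cg w v, neg_neg]
      · have h4 := hb v hv
        rw [Matrix.toLin'_apply, bv, smul_mulVec, sub_mulVec] at h4
        have h5 : c v *ᵥ x - g v *ᵥ x = 0 := by
          rcases smul_eq_zero.1 h4 with h5 | h5
          · norm_num at h5
          · exact h5
        exact (sub_eq_zero.1 h5).symm
    show 0 < (Matrix.toBilin' (κ F • (Xs.prod * hp g F))) x x
    rw [Matrix.toBilin'_apply', smul_mulVec, dotProduct_smul, ← mulVec_mulVec, h3, mulVec_mulVec]
    exact h2 x hx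

theorem gram_exAll {A : Finset V} {d : ℕ} (hA : FlagSphere G d A) (hG : Gram G A d) :
    ∃ (ι : Type) (_ : Fintype ι) (_ : DecidableEq ι) (_ : Nonempty ι)
      (a b : V → Matrix ι ι ℝ) (γ : Matrix ι ι ℝ), GrM G A a b γ ∧
        ExAll G (fun v => Matrix.toLin' (a v)) A d := by
  obtain ⟨ι, _, _, _, 𝓛, Xs, c, g, γ, M, h⟩ := gd_exists hG
  obtain ⟨N, B, hF⟩ := gd_fsys h hA
  exact ⟨ι, inferInstance, inferInstance, inferInstance, av c g, bv c g, γ, gd_grM h,
    form_main hF hA⟩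

theorem racy_gram {A : Finset V} {d : ℕ} (hA : FlagSphere G d A) (hG : Gram G A d) {r : Finset V}
    (hr : Cl G A r) (ho : Odd (d - r.card)) : RAcy G (lk G A r) := by
  obtain ⟨ι, _, _, _, a, b, γ, h1, h2⟩ := gram_exAll hA hG
  refine ⟨ι, inferInstance, inferInstance, inferInstance, a, b, γ, h1.mono (lk_subset A r),
    fun i => h2 r hr i ?_⟩
  have h3 := (sphere_lk hA hr).1
  obtain ⟨k, hk⟩ := ho
  omega

end Pool.Agent.H31.GS
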