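import Pool.Agent.H31.GS.Sp1

/-!
# helper31, GS, module SP3: vertex splitting, steps 3 and 4

Notation as in module SP2: `S = sa a α u c`, `ut = insert u t`, `ct = insert c t`, `uct = insert u (insert c t)` for `t` with `u, c ∉ t`;
for `s` not containing `u`: `Cell S s = Cell a s`, `cob S y s = cob a y s`;
`cob S y (ut) = (a c + α) (y t) + ∑ v ∈ t, a v (y (insert u (t.erase v)))`; `x ∈ Cell S (ut)` iff `a c x + α x = 0` and `x ∈ Cell a t`.

`sp_step3`. `L = lk G A {u, c}`. For a simplex `t` of `L` with `t.card + 1 = i` let `D t = y (ut) - y (ct)`. It is killed by `α`, by `a c`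
(`a c (y (ut)) = - α (y (ut)) = 0`) and by `a v`, `v ∈ t`; closed on `L` of degree `i - 1`: subtract
`0 = cob S y (ut) = a c (y t) + ∑ v ∈ t, a v (y (insert u (t.erase v)))` (`α (y t) = 0`) and
`0 = cob S y (ct) = a c (y t) + ∑ v ∈ t, a v (y (insert c (t.erase v)))`. (If `i = 0` there is nothing to do: `x = 0`.) So `D = cob a w0` on
`L` (`hL` in degree `i - 1`); put `w t = a c (b c (α (β (w0 t))))`: this operator commutes with `a v`, `v ∈ L`, and fixes `D t`; so `D = cob a w`,
`a c (w t) = 0`, `α (w t) = 0` for all `t`, and `w t ∈ Cell a t` for simplices `t` of `L` with `t.card + 2 = i`.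
Put `x s = w (s.erase u)` if `u ∈ s`, `c ∉ s` and `Cl G L (s.erase u)`; `x s = 0` otherwise. `cob S x s = 0` for `u ∉ s`; at `ut`:
`∑ v ∈ t, a v (x (insert u (t.erase v)))`, killed by `α`, equal to `cob a w t = D t` if `t` is a simplex of `L`; at `uct`:
`(a c + α) (x (ct)) + a c (x (ut)) + 0 = a c (w t) = 0` or `0`.

`sp_step4`. Define `y' s = y (insert u (s.erase c))` if `c ∈ s` and `Cl G A (insert u (s.erase c))`, `y' s = y s` otherwise. It is a closed
cochain of degree `i` for `(H, A.erase u, a)` with `α (y' s) = 0`: values: `a c (y (ut)) = - α (y (ut)) = 0`. Closed at `ct` if `ut` is a simplex of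
`A`: `a c (y t) + ∑ v ∈ t, a v (y (insert u (t.erase v))) = cob S y (ut) - α (y t) = 0`; if `ct` is a simplex of `A` and `ut` is not:
`y' (insert c (t.erase v)) = y (insert c (t.erase v))` in both cases by `heq`, `cob S y (ct) = 0`. So `y' = cob a z0`, `z s = α (β (z0 s))`
satisfies the same, `α (z s) = 0`. Put `x s = z s` if `u ∉ s`; `z (insert c (s.erase u))` if `u ∈ s`, `c ∉ s`; `0` if `u, c ∈ s`.
It is a cochain for `(G, A, S)` of degree `i - 1`, and `cob S x = y`: `u ∉ s`: `cob a z s = y' s = y s` (`heq` if `c ∈ s` and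
`insert u (s.erase c)` is a simplex); at `ut`: `(a c + α) (z t) + ∑ v ∈ t, a v (z (insert c (t.erase v))) = cob a z (ct) = y' (ct) = y (ut)`;
at `uct`: `(a c + α) (z (ct)) + a c (z (ct)) + 0 = 0 = y (uct)`.
-/

namespace Pool.Agent.H31.GS

open Finset

set_option linter.unusedSectionVars false
set_option linter.unusedVariables false

variable {V : Type} [Fintype V] [LinearOrder V] {G : SimpleGraph V}
variable {U : Type} [AddCommGroup U] [Module ℝ U] {a b : V → Module.End ℝ U} {α β : Module.End ℝ U}

theorem sp3_ne {s : Finset V} {u v : V} (hs : u ∉ s) (hv : v ∈ s) : v ≠ u :=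
  fun e => hs (e ▸ hv)

theorem sp3_sau {u c : V} : sa a α u c u = a c + α := if_pos rfl

theorem sp3_sav {u c v : V} (h : v ≠ u) : sa a α u c v = a v := if_neg h

theorem sp3_cob {u c : V} {s : Finset V} (hs : u ∉ s) (y : Finset V → U) :
    cob (sa a α u c) y s = cob a y s :=
  sum_congr rfl (fun v hv => by rw [sp3_sav (sp3_ne hs hv)])

theorem sp3_cobu {u c : V} {t : Finset V} (ht : u ∉ t) (y : Finset V → U) :
    cob (sa a α u c) y (insert u t) =
      (a c (y t) + α (y t)) + ∑ v ∈ t, a v (y (insert u (t.erase v))) := by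
  rw [cob_insert ht, sp3_sau]
  congr 1
  exact sum_congr rfl (fun v hv => by rw [sp3_sav (sp3_ne ht hv)])

theorem sp3_cell {u c : V} {s : Finset V} (hs : u ∉ s) {x : U} :
    x ∈ Cell (sa a α u c) s ↔ x ∈ Cell a s := by
  constructor
  · intro h v hv
    have := h v hv
    rwa [sp3_sav (sp3_ne hs hv)] at this
  · intro h v hv
    rw [sp3_sav (sp3_ne hs hv)]
    exact h v hv

theorem sp3_cellu {u c : V} {t : Finset V} (ht : u ∉ t) {x : U} :
    x ∈ Cell (sa a α u c) (insert u t) ↔ a c x + α x = 0 ∧ x ∈ Cell a t := by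
  constructor
  · intro h
    refine ⟨?_, fun v hv => ?_⟩
    · have := h u (mem_insert_self u t)
      rwa [sp3_sau] at this
    · have := h v (mem_insert_of_mem hv)
      rwa [sp3_sav (sp3_ne ht hv)] at this
  · rintro ⟨h1, h2⟩ v hv
    rcases mem_insert.1 hv with rfl | hv
    · rw [sp3_sau]
      exact h1
    · rw [sp3_sav (sp3_ne ht hv)]
      exact h2 v hv

theorem sp3_ins {s : Finset V} {u : V} (hu : u ∈ s) : ∃ t, u ∉ t ∧ insert u t = s :=
  ⟨s.erase u, notMem_erase _ _, insert_erase hu⟩

theorem sp3_erase {t : Finset V} {u v : V} (hu : u ∉ t) :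
    (insert u (t.erase v)).erase u = t.erase v :=
  erase_insert (fun h => hu (erase_subset _ _ h))

theorem sp3_ab {A : Finset V} (hf : Fm A a b α β) {x : U} (hx : α x = 0) : α (β x) = x := by
  have := hf.ab x
  rwa [hx, map_zero, add_zero] at this

/-- simplices of the link of the edge -/
theorem sp3_L {A : Finset V} {u c : V} (hu : u ∈ A) (hc : c ∈ A) (huc : G.Adj u c) {t : Finset V}
    (ht : Cl G (lk G A {u, c}) t) :
    u ∉ t ∧ c ∉ t ∧ Cl G A t ∧ Cl G A (insert u t) ∧ Cl G A (insert c t) := by
  have h1 : u ∉ t := fun h => G.loopless.irrefl u ((mem_lk.1 (ht.1 h)).2 u (mem_insert_self _ _))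
  have h2 : c ∉ t := fun h => G.loopless.irrefl c
    ((mem_lk.1 (ht.1 h)).2 c (mem_insert_of_mem (mem_singleton_self c)))
  have h3 := sp_cluc hu hc huc h1 h2
  exact ⟨h1, h2, ht.mono (lk_subset _ _), h3.1.1 (h3.2.2 ht)⟩

/-- the operator of step 3 -/
def sp3_T (a b : V → Module.End ℝ U) (α β : Module.End ℝ U) (c : V) (x : U) : U :=
  a c (b c (α (β x)))

theorem sp3_T_zero {c : V} : sp3_T a b α β c 0 = 0 := by
  simp [sp3_T]

theorem sp3_T_sum {κ : Type} {c : V} (s : Finset κ) (f : κ → U) :
    sp3_T a b α β c (∑ k ∈ s, f k) = ∑ k ∈ s, sp3_T a b α β c (f k) := by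
  simp [sp3_T, map_sum]

theorem sp3_T_comm {A : Finset V} {u c v : V} (h : GSys (contract G u c) (A.erase u) a b)
    (hf : Fm (A.erase u) a b α β) (hc : c ∈ A.erase u) (hv : v ∈ A.erase u) (hcv : G.Adj c v)
    (x : U) : a v (sp3_T a b α β c x) = sp3_T a b α β c (a v x) := by
  have hadj : (contract G u c).Adj v c := ⟨hcv.symm.ne, Or.inl hcv.symm⟩
  unfold sp3_T
  rw [h.caa v hv c hc hadj, h.cab v hv c hc hadj, hf.da v hv]
  simp only [map_neg, neg_neg]
  rw [hf.ca v hv]
  simp only [map_neg, neg_neg]

theorem sp3_T_fix {A : Finset V} {u c : V} (h : GSys (contract G u c) (A.erase u) a b)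
    (hf : Fm (A.erase u) a b α β) (hc : c ∈ A.erase u) {x : U} (h1 : α x = 0) (h2 : a c x = 0) :
    sp3_T a b α β c x = x := by
  unfold sp3_T
  rw [sp3_ab hf h1]
  have := h.ab c hc x
  rwa [h2, map_zero, add_zero] at this

theorem sp3_T_c {A : Finset V} {u c : V} (h : GSys (contract G u c) (A.erase u) a b)
    (hc : c ∈ A.erase u) (x : U) : a c (sp3_T a b α β c x) = 0 := h.aa c hc _

theorem sp3_T_al {A : Finset V} {u c : V}
    (hf : Fm (A.erase u) a b α β) (hc : c ∈ A.erase u) (x : U) :
    α (sp3_T a b α β c x) = 0 := by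
  unfold sp3_T
  rw [hf.ca c hc, hf.cb c hc, hf.aa]
  simp

theorem sp_step3 {A : Finset V} {u c : V} (hu : u ∈ A) (hc : c ∈ A) (huc : G.Adj u c)
    (h : GSys (contract G u c) (A.erase u) a b) (hf : Fm (A.erase u) a b α β) {i : ℕ}
    (hL : ∀ j, ExC G a (lk G A {u, c}) j)
    {y : Finset V → U} (hy : InC G (sa a α u c) A i y) (hcl : Clo G (sa a α u c) A i y)
    (h0 : ∀ s, Cl G A s → s.card = i → u ∈ s → c ∈ s → y s = 0)
    (hα : ∀ s, Cl G A s → s.card = i → α (y s) = 0) :
    ∃ x : Finset V → U, (∀ s, Cl G A s → s.card + 1 = i → x s ∈ Cell (sa a α u c) s) ∧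
      (∀ s, Cl G A s → s.card = i → u ∈ s → c ∈ s → cob (sa a α u c) x s = 0) ∧
      (∀ s, Cl G A s → s.card = i → α (cob (sa a α u c) x s) = 0) ∧
      ∀ t, u ∉ t → c ∉ t → Cl G A (insert u t) → Cl G A (insert c t) → t.card + 1 = i →
        y (insert u t) - cob (sa a α u c) x (insert u t) =
          y (insert c t) - cob (sa a α u c) x (insert c t) := by
  classical
  have hcu : c ≠ u := huc.ne.symm
  have hcA : c ∈ A.erase u := mem_erase.2 ⟨hcu, hc⟩
  rcases i with _ | j
  · refine ⟨fun _ => 0, fun s _ hs => absurd hs (Nat.succ_ne_zero _), ?_, ?_, ?_⟩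
    · intro s _ _ _ _
      exact sum_eq_zero (fun v _ => map_zero _)
    · intro s _ _
      have : cob (sa a α u c) (fun _ => (0 : U)) s = 0 := sum_eq_zero (fun v _ => map_zero _)
      rw [this, map_zero]
    · intro t _ _ _ _ ht
      exact absurd ht (Nat.succ_ne_zero _)
  · -- the difference
    have hD1 : ∀ t, Cl G (lk G A {u, c}) t → t.card = j →
        a c (y (insert u t)) = 0 ∧ y (insert u t) ∈ Cell a t ∧ a c (y (insert c t)) = 0 ∧
        y (insert c t) ∈ Cell a t ∧ α (y (insert u t)) = 0 ∧ α (y (insert c t)) = 0 := by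
      intro t ht htj
      obtain ⟨h1, h2, h3, h4, h5⟩ := sp3_L hu hc huc ht
      have c1 : (insert u t).card = j + 1 := by rw [card_insert_of_notMem h1, htj]
      have c2 : (insert c t).card = j + 1 := by rw [card_insert_of_notMem h2, htj]
      have e1 := (sp3_cellu h1).1 (hy _ h4 c1)
      have hut : u ∉ insert c t := fun hh => (mem_insert.1 hh).elim (fun e => hcu e.symm) h1
      have e2 := (sp3_cell hut).1 (hy _ h5 c2)
      have e3 := hα _ h4 c1
      refine ⟨?_, e1.2, e2 c (mem_insert_self c t), fun v hv => e2 v (mem_insert_of_mem hv), e3,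
        hα _ h5 c2⟩
      have := e1.1
      rwa [e3, add_zero] at this
    obtain ⟨w0, hw1, hw2⟩ := hL j (fun t => y (insert u t) - y (insert c t))
      (fun t ht htj => Submodule.sub_mem _ (hD1 t ht htj).2.1 (hD1 t ht htj).2.2.2.1)
      (fun t ht htj => by
        obtain ⟨h1, h2, h3, h4, h5⟩ := sp3_L hu hc huc ht
        have c1 : (insert u t).card = j + 1 + 1 := by rw [card_insert_of_notMem h1, htj]
        have c2 : (insert c t).card = j + 1 + 1 := by rw [card_insert_of_notMem h2, htj]
        have hut : u ∉ insert c t := fun hh => (mem_insert.1 hh).elim (fun e => hcu e.symm) h1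
        have e1 := hcl _ h4 c1
        have e2 := hcl _ h5 c2
        rw [sp3_cobu h1, hα t h3 htj, add_zero] at e1
        rw [sp3_cob hut, cob_insert h2] at e2
        rw [cob_sub (fun t => y (insert u t)) (fun t => y (insert c t))]
        have e3 := e1.trans e2.symm
        have e4 := add_left_cancel e3
        exact sub_eq_zero.2 e4)
    set w : Finset V → U := fun t => sp3_T a b α β c (w0 t) with hw
    have hLv : ∀ v ∈ lk G A {u, c}, v ∈ A.erase u ∧ G.Adj c v := by
      intro v hv
      have h1 := (mem_lk.1 hv).2 u (mem_insert_self _ _)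
      have h2 := (mem_lk.1 hv).2 c (mem_insert_of_mem (mem_singleton_self c))
      exact ⟨mem_erase.2 ⟨h1.ne.symm, (mem_lk.1 hv).1⟩, h2⟩
    have hwc : ∀ t, a c (w t) = 0 := fun t => sp3_T_c h hcA _
    have hwa : ∀ t, α (w t) = 0 := fun t => sp3_T_al hf hcA _
    have hwm : ∀ t, Cl G (lk G A {u, c}) t → t.card + 1 = j → w t ∈ Cell a t := by
      intro t ht htj v hv
      obtain ⟨g1, g2⟩ := hLv v (ht.1 hv)
      show a v (sp3_T a b α β c (w0 t)) = 0
      rw [sp3_T_comm h hf hcA g1 g2, hw1 t ht htj v hv, sp3_T_zero]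
    have hwD : ∀ t, Cl G (lk G A {u, c}) t → t.card = j →
        cob a w t = y (insert u t) - y (insert c t) := by
      intro t ht htj
      obtain ⟨d1, d2, d3, d4, d5, d6⟩ := hD1 t ht htj
      have e1 : cob a w t = sp3_T a b α β c (cob a w0 t) := by
        unfold cob
        rw [sp3_T_sum]
        refine sum_congr rfl (fun v hv => ?_)
        obtain ⟨g1, g2⟩ := hLv v (ht.1 hv)
        exact sp3_T_comm h hf hcA g1 g2 _
      rw [e1, ← hw2 t ht htj]
      exact sp3_T_fix h hf hcA (by rw [map_sub, d5, d6, sub_zero]) (by rw [map_sub, d1, d3, sub_zero])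
    set x : Finset V → U := fun s =>
      if u ∈ s ∧ c ∉ s ∧ Cl G (lk G A {u, c}) (s.erase u) then w (s.erase u) else 0 with hx
    have hx0 : ∀ s, u ∉ s → x s = 0 := fun s hs => if_neg (fun hh => hs hh.1)
    have hxc : ∀ s, c ∈ s → x s = 0 := fun s hs => if_neg (fun hh => hh.2.1 hs)
    have hxu : ∀ t, u ∉ t → c ∉ t → Cl G (lk G A {u, c}) t → x (insert u t) = w t := by
      intro t h1 h2 h3
      have e : (insert u t).erase u = t := erase_insert h1
      have hct : c ∉ insert u t := fun hh => (mem_insert.1 hh).elim (fun e => hcu e) h2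
      show (if u ∈ insert u t ∧ c ∉ insert u t ∧ Cl G (lk G A {u, c}) ((insert u t).erase u) then
        w ((insert u t).erase u) else 0) = w t
      rw [e, if_pos ⟨mem_insert_self u t, hct, h3⟩]
    have hxn : ∀ t, u ∉ t → ¬ Cl G (lk G A {u, c}) t → x (insert u t) = 0 := by
      intro t h1 h2
      refine if_neg (fun hh => h2 ?_)
      have := hh.2.2
      rwa [erase_insert h1] at this
    have hxz : ∀ t, u ∉ t → c ∉ t → a c (x (insert u t)) = 0 ∧ α (x (insert u t)) = 0 := by
      intro t h1 h2
      by_cases h3 : Cl G (lk G A {u, c}) t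
      · rw [hxu t h1 h2 h3]
        exact ⟨hwc t, hwa t⟩
      · rw [hxn t h1 h3, map_zero, map_zero]
        exact ⟨rfl, rfl⟩
    have hcob0 : ∀ s, u ∉ s → cob (sa a α u c) x s = 0 := by
      intro s hs
      refine sum_eq_zero (fun v _ => ?_)
      rw [hx0 (s.erase v) (fun hh => hs (erase_subset _ _ hh)), map_zero]
    have hcobuc : ∀ s, u ∈ s → c ∈ s → cob (sa a α u c) x s = 0 := by
      intro s hus hcs
      obtain ⟨r, hur, rfl⟩ := sp3_ins hus
      have hcr : c ∈ r := (mem_insert.1 hcs).resolve_left hcu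
      rw [sp3_cobu hur, hx0 r hur, map_zero, map_zero, add_zero, zero_add]
      refine sum_eq_zero (fun v hv => ?_)
      by_cases hvc : v = c
      · subst hvc
        exact (hxz (r.erase v) (fun hh => hur (erase_subset _ _ hh)) (notMem_erase _ _)).1
      · rw [hxc (insert u (r.erase v)) (mem_insert_of_mem (mem_erase.2 ⟨Ne.symm hvc, hcr⟩)),
          map_zero]
    refine ⟨x, ?_, fun s _ _ h1 h2 => hcobuc s h1 h2, ?_, ?_⟩
    · intro s hs hsi
      by_cases hus : u ∈ s
      · obtain ⟨t, hut, rfl⟩ := sp3_ins hus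
        by_cases hct : c ∈ t
        · rw [hxc _ (mem_insert_of_mem hct)]
          exact Submodule.zero_mem _
        · by_cases hLt : Cl G (lk G A {u, c}) t
          · rw [hxu t hut hct hLt, sp3_cellu hut]
            rw [card_insert_of_notMem hut] at hsi
            exact ⟨by rw [hwc, hwa, add_zero], hwm t hLt (by omega)⟩
          · rw [hxn t hut hLt]
            exact Submodule.zero_mem _
      · rw [hx0 s hus]
        exact Submodule.zero_mem _
    · intro s hs hsi
      by_cases hus : u ∈ s
      · by_cases hcs : c ∈ s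
        · rw [hcobuc s hus hcs, map_zero]
        · obtain ⟨t, hut, rfl⟩ := sp3_ins hus
          have hct : c ∉ t := fun hh => hcs (mem_insert_of_mem hh)
          rw [sp3_cobu hut, hx0 t hut, map_zero, map_zero, add_zero, zero_add, map_sum]
          refine sum_eq_zero (fun v hv => ?_)
          have hvA : v ∈ A.erase u :=
            mem_erase.2 ⟨fun e => hut (e ▸ hv), hs.1 (mem_insert_of_mem hv)⟩
          rw [hf.ca v hvA, (hxz (t.erase v) (fun hh => hut (erase_subset _ _ hh))
            (fun hh => hct (erase_subset _ _ hh))).2, map_zero, neg_zero]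
      · rw [hcob0 s hus, map_zero]
    · intro t hut hct h1 h2 htj
      have hLt : Cl G (lk G A {u, c}) t := by
        have h3 := sp_cluc hu hc huc hut hct
        exact h3.2.1 (h3.1.2 ⟨h1, h2⟩)
      have hutc : u ∉ insert c t := fun hh => (mem_insert.1 hh).elim (fun e => hcu e.symm) hut
      have e : cob (sa a α u c) x (insert u t) = cob a w t := by
        rw [sp3_cobu hut, hx0 t hut, map_zero, map_zero, add_zero, zero_add]
        refine sum_congr rfl (fun v hv => ?_)
        rw [hxu (t.erase v) (fun hh => hut (erase_subset _ _ hh))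
          (fun hh => hct (erase_subset _ _ hh)) (hLt.erase v)]
      rw [hcob0 _ hutc, e, hwD t hLt (by omega)]
      simp

theorem sp_step4 {A : Finset V} {u c : V} (hu : u ∈ A) (hc : c ∈ A) (huc : G.Adj u c)
    (h4 : NoSq G A u c) (h : GSys (contract G u c) (A.erase u) a b)
    (hf : Fm (A.erase u) a b α β) {i : ℕ} (hA : ExC (contract G u c) a (A.erase u) i)
    {y : Finset V → U} (hy : InC G (sa a α u c) A i y) (hcl : Clo G (sa a α u c) A i y)
    (h0 : ∀ s, Cl G A s → s.card = i → u ∈ s → c ∈ s → y s = 0)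
    (hα : ∀ s, Cl G A s → s.card = i → α (y s) = 0)
    (heq : ∀ t, u ∉ t → c ∉ t → Cl G A (insert u t) → Cl G A (insert c t) → t.card + 1 = i →
        y (insert u t) = y (insert c t)) : Bd G (sa a α u c) A i y := by
  classical
  have hcu : c ≠ u := huc.ne.symm
  have hcA : c ∈ A.erase u := mem_erase.2 ⟨hcu, hc⟩
  have huH : ∀ {s : Finset V}, Cl (contract G u c) (A.erase u) s → u ∉ s :=
    fun hs hh => notMem_erase u A (hs.1 hh)
  set y' : Finset V → U := fun s =>
    if c ∈ s ∧ Cl G A (insert u (s.erase c)) then y (insert u (s.erase c)) else y s with hy'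
  have y1 : ∀ s, c ∉ s → y' s = y s := fun s hs => if_neg (fun hh => hs hh.1)
  have y2 : ∀ t, c ∉ t → Cl G A (insert u t) → y' (insert c t) = y (insert u t) := by
    intro t ht h1
    have e : (insert c t).erase c = t := erase_insert ht
    show (if c ∈ insert c t ∧ Cl G A (insert u ((insert c t).erase c)) then
      y (insert u ((insert c t).erase c)) else y (insert c t)) = y (insert u t)
    rw [e, if_pos ⟨mem_insert_self c t, h1⟩]
  have y3 : ∀ t, c ∉ t → ¬ Cl G A (insert u t) → y' (insert c t) = y (insert c t) := by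
    intro t ht h1
    refine if_neg (fun hh => h1 ?_)
    have := hh.2
    rwa [erase_insert ht] at this
  -- values of y'
  have val : ∀ s, Cl (contract G u c) (A.erase u) s → s.card = i →
      y' s ∈ Cell a s ∧ α (y' s) = 0 := by
    intro s hs hsi
    have hus := huH hs
    by_cases hcs : c ∈ s
    · obtain ⟨t, hct, rfl⟩ := sp3_ins hcs
      have hut : u ∉ t := fun hh => hus (mem_insert_of_mem hh)
      rw [card_insert_of_notMem hct] at hsi
      by_cases h1 : Cl G A (insert u t)
      · have hk : (insert u t).card = i := by rw [card_insert_of_notMem hut, hsi]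
        rw [y2 t hct h1]
        have e1 := (sp3_cellu hut).1 (hy _ h1 hk)
        have e2 := hα _ h1 hk
        refine ⟨fun v hv => ?_, e2⟩
        rcases mem_insert.1 hv with rfl | hv
        · have := e1.1
          rwa [e2, add_zero] at this
        · exact e1.2 v hv
      · have h2 : Cl G A (insert c t) :=
          ((sp_clc hu hc huc h4 hut hct).1 hs).resolve_left h1
        have hk : (insert c t).card = i := by rw [card_insert_of_notMem hct, hsi]
        rw [y3 t hct h1]
        exact ⟨(sp3_cell hus).1 (hy _ h2 hk), hα _ h2 hk⟩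
    · have hG : Cl G A s := (sp_cl0 hus hcs).2 hs
      rw [y1 s hcs]
      exact ⟨(sp3_cell hus).1 (hy s hG hsi), hα s hG hsi⟩
  obtain ⟨z0, hz1, hz2⟩ := hA y' (fun s hs hsi => (val s hs hsi).1) (by
    intro s hs hsi
    have hus := huH hs
    by_cases hcs : c ∈ s
    · obtain ⟨t, hct, rfl⟩ := sp3_ins hcs
      have hut : u ∉ t := fun hh => hus (mem_insert_of_mem hh)
      rw [card_insert_of_notMem hct] at hsi
      have hti : t.card = i := by omega
      rw [cob_insert hct, y1 t hct]
      have hce : ∀ v, c ∉ t.erase v := fun v hh => hct (erase_subset _ _ hh)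
      have hue : ∀ v, u ∉ t.erase v := fun v hh => hut (erase_subset _ _ hh)
      by_cases h1 : Cl G A (insert u t)
      · have hk : (insert u t).card = i + 1 := by rw [card_insert_of_notMem hut, hti]
        have e1 := hcl _ h1 hk
        have ht : Cl G A t := h1.subset (subset_insert _ _)
        rw [sp3_cobu hut, hα t ht hti, add_zero] at e1
        rw [← e1]
        congr 1
        refine sum_congr rfl (fun v hv => ?_)
        rw [y2 (t.erase v) (hce v) (h1.subset (insert_subset_insert _ (erase_subset _ _)))]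
      · have h2 : Cl G A (insert c t) :=
          ((sp_clc hu hc huc h4 hut hct).1 hs).resolve_left h1
        have hk : (insert c t).card = i + 1 := by rw [card_insert_of_notMem hct, hti]
        have e1 := hcl _ h2 hk
        rw [sp3_cob hus, cob_insert hct] at e1
        rw [← e1]
        congr 1
        refine sum_congr rfl (fun v hv => ?_)
        have h3 : Cl G A (insert c (t.erase v)) :=
          h2.subset (insert_subset_insert _ (erase_subset _ _))
        by_cases h5 : Cl G A (insert u (t.erase v))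
        · rw [y2 _ (hce v) h5, heq (t.erase v) (hue v) (hce v) h5 h3 (by
            rw [card_erase_of_mem hv]
            have : 0 < t.card := card_pos.2 ⟨v, hv⟩
            omega)]
        · rw [y3 _ (hce v) h5]
    · have hG : Cl G A s := (sp_cl0 hus hcs).2 hs
      have e1 := hcl s hG hsi
      rw [sp3_cob hus] at e1
      rw [← e1]
      exact cob_congr (fun v hv => y1 _ (fun hh => hcs (erase_subset _ _ hh))))
  set z : Finset V → U := fun s => α (β (z0 s)) with hz
  have hav : ∀ v ∈ A.erase u, ∀ x, a v (α (β x)) = α (β (a v x)) := by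
    intro v hv x
    have e1 := hf.ca v hv (β x)
    have e2 := hf.da v hv x
    rw [e2, map_neg, e1, neg_neg]
  have zm : ∀ s, Cl (contract G u c) (A.erase u) s → s.card + 1 = i → z s ∈ Cell a s := by
    intro s hs hsi v hv
    show a v (α (β (z0 s))) = 0
    rw [hav v (hs.1 hv), hz1 s hs hsi v hv, map_zero, map_zero]
  have za : ∀ s, α (z s) = 0 := fun s => hf.aa _
  have zc : ∀ s, Cl (contract G u c) (A.erase u) s → s.card = i → cob a z s = y' s := by
    intro s hs hsi
    have e1 : cob a z s = α (β (cob a z0 s)) := by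
      unfold cob
      rw [map_sum, map_sum]
      exact sum_congr rfl (fun v hv => hav v (hs.1 hv) _)
    rw [e1, ← hz2 s hs hsi]
    exact sp3_ab hf (val s hs hsi).2
  set x : Finset V → U := fun s =>
    if u ∈ s then (if c ∈ s then 0 else z (insert c (s.erase u))) else z s with hx
  have x0 : ∀ s, u ∉ s → x s = z s := fun s hs => if_neg hs
  have xu : ∀ t, u ∉ t → c ∉ t → x (insert u t) = z (insert c t) := by
    intro t h1 h2
    have hct : c ∉ insert u t := fun hh => (mem_insert.1 hh).elim (fun e => hcu e) h2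
    show (if u ∈ insert u t then (if c ∈ insert u t then 0 else
      z (insert c ((insert u t).erase u))) else z (insert u t)) = z (insert c t)
    rw [if_pos (mem_insert_self u t), if_neg hct, erase_insert h1]
  have xuc : ∀ s, u ∈ s → c ∈ s → x s = 0 := by
    intro s h1 h2
    show (if u ∈ s then (if c ∈ s then 0 else z (insert c (s.erase u))) else z s) = 0
    rw [if_pos h1, if_pos h2]
  have clH : ∀ s, Cl G A s → u ∉ s → Cl (contract G u c) (A.erase u) s := by
    intro s hs hus
    by_cases hcs : c ∈ s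
    · obtain ⟨t, hct, rfl⟩ := sp3_ins hcs
      exact (sp_clc hu hc huc h4 (fun hh => hus (mem_insert_of_mem hh)) hct).2 (Or.inr hs)
    · exact (sp_cl0 hus hcs).1 hs
  refine ⟨x, ?_, ?_⟩
  · intro s hs hsi
    by_cases hus : u ∈ s
    · by_cases hcs : c ∈ s
      · rw [xuc s hus hcs]
        exact Submodule.zero_mem _
      · obtain ⟨t, hut, rfl⟩ := sp3_ins hus
        have hct : c ∉ t := fun hh => hcs (mem_insert_of_mem hh)
        rw [xu t hut hct, sp3_cellu hut]
        have h1 := (sp_clc hu hc huc h4 hut hct).2 (Or.inl hs)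
        have h2 := zm _ h1 (by
          rw [card_insert_of_notMem hct]
          rw [card_insert_of_notMem hut] at hsi
          exact hsi)
        exact ⟨by rw [h2 c (mem_insert_self c t), za, add_zero],
          fun v hv => h2 v (mem_insert_of_mem hv)⟩
    · rw [x0 s hus]
      exact (sp3_cell hus).2 (zm s (clH s hs hus) hsi)
  · intro s hs hsi
    by_cases hus : u ∈ s
    · obtain ⟨r, hur, rfl⟩ := sp3_ins hus
      rw [card_insert_of_notMem hur] at hsi
      by_cases hcr : c ∈ r
      · obtain ⟨t, hct, rfl⟩ := sp3_ins hcr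
        have hut : u ∉ t := fun hh => hur (mem_insert_of_mem hh)
        have hH : Cl (contract G u c) (A.erase u) (insert c t) :=
          clH _ (hs.subset (subset_insert _ _)) hur
        have hzz := zm _ hH (by omega)
        have hzc : a c (z (insert c t)) = 0 := hzz c (mem_insert_self c t)
        rw [h0 _ hs (by rw [card_insert_of_notMem hur]; omega) (mem_insert_self _ _)
          (mem_insert_of_mem (mem_insert_self _ _)), sp3_cobu hur, x0 _ hur, hzc, za, add_zero,
          zero_add]
        symm
        refine sum_eq_zero (fun v hv => ?_)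
        by_cases hvc : v = c
        · subst hvc
          rw [erase_insert hct, xu t hut hct]
          exact hzc
        · rw [xuc _ (mem_insert_self _ _)
            (mem_insert_of_mem (mem_erase.2 ⟨Ne.symm hvc, mem_insert_self _ _⟩)), map_zero]
      · rw [sp3_cobu hur, x0 r hur, za, add_zero, ← y2 r hcr hs,
          ← zc _ ((sp_clc hu hc huc h4 hur hcr).2 (Or.inl hs)) (by
            rw [card_insert_of_notMem hcr]; omega), cob_insert hcr]
        congr 1
        refine sum_congr rfl (fun v hv => ?_)
        rw [xu (r.erase v) (fun hh => hur (erase_subset _ _ hh))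
          (fun hh => hcr (erase_subset _ _ hh))]
    · rw [sp3_cob hus]
      have e1 : cob a x s = cob a z s :=
        cob_congr (fun v hv => x0 _ (fun hh => hus (erase_subset _ _ hh)))
      rw [e1, zc s (clH s hs hus) hsi]
      by_cases hcs : c ∈ s
      · obtain ⟨t, hct, rfl⟩ := sp3_ins hcs
        have hut : u ∉ t := fun hh => hus (mem_insert_of_mem hh)
        by_cases h5 : Cl G A (insert u t)
        · rw [y2 t hct h5, heq t hut hct h5 hs (by
            rw [card_insert_of_notMem hct] at hsi
            exact hsi)]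
        · rw [y3 t hct h5]
      · rw [y1 s hcs]

end Pool.Agent.H31.GS
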