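import Pool.Agent.H31.GS.Sp2
import Pool.Agent.H31.GS.Sp3

/-!
# helper31, GS, module SP4: vertex splitting

`y` closed for `(G, A, S)`, `S = sa a α u c`. `sp_step1`: `y - cob S x1` vanishes on simplices containing `u`, `c`; `sp_step2` for it:
`y - cob S x1 - cob S x2` also has `α` of it zero; `sp_step3`, `sp_step4`. All these are closed cochains
(`Bd.inC`, `Bd.clo` with `sp_sys`; `Bd.sub`, `Bd.add`, `Bd.congr`; `cob S x` is `Bd`).
-/

namespace Pool.Agent.H31.GS

open Finset

set_option linter.unusedSectionVars false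
set_option linter.unusedVariables false

variable {V : Type} [Fintype V] [LinearOrder V] {G : SimpleGraph V}
variable {U : Type} [AddCommGroup U] [Module ℝ U] {a b : V → Module.End ℝ U} {α β : Module.End ℝ U}

private theorem sp4_inC {A : Finset V} {S T : V → Module.End ℝ U} (sys : GSys G A S T) {i : ℕ}
    {y x : Finset V → U} (hx : ∀ s, Cl G A s → s.card + 1 = i → x s ∈ Cell S s)
    (hy : InC G S A i y) : InC G S A i (fun s => y s - cob S x s) := by
  have hB : Bd G S A i (fun s => cob S x s) := ⟨x, hx, fun _ _ _ => rfl⟩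
  exact fun s hs hi => Submodule.sub_mem _ (hy s hs hi) (hB.inC sys s hs hi)

private theorem sp4_clo {A : Finset V} {S T : V → Module.End ℝ U} (sys : GSys G A S T) {i : ℕ}
    {y x : Finset V → U} (hx : ∀ s, Cl G A s → s.card + 1 = i → x s ∈ Cell S s)
    (hy : Clo G S A i y) : Clo G S A i (fun s => y s - cob S x s) := by
  have hB : Bd G S A i (fun s => cob S x s) := ⟨x, hx, fun _ _ _ => rfl⟩
  intro s hs hi
  have h1 := hB.clo sys s hs hi
  rw [cob_sub (y := y) (z := fun t => cob S x t), hy s hs hi, h1, sub_zero]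

theorem ex_split {A : Finset V} {u c : V} (hu : u ∈ A) (hc : c ∈ A) (huc : G.Adj u c)
    (h4 : NoSq G A u c) (h : GSys (contract G u c) (A.erase u) a b)
    (hf : Fm (A.erase u) a b α β) (hA : ∀ i, ExC (contract G u c) a (A.erase u) i)
    (hL : ∀ j, ExC G a (lk G A {u, c}) j) : ∀ i, ExC G (sa a α u c) A i := by
  intro i y hy hcl
  have sys := sp_sys hu hc huc h hf
  obtain ⟨x1, hx1, he1⟩ := sp_step1 hu hc huc h hf hy
  have hy1 := sp4_inC sys hx1 hy
  have hcl1 := sp4_clo sys hx1 hcl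
  have h01 : ∀ s, Cl G A s → s.card = i → u ∈ s → c ∈ s →
      (fun s => y s - cob (sa a α u c) x1 s) s = 0 := by
    intro s hs hi h1 h2
    simp only
    rw [he1 s hs hi h1 h2, sub_self]
  obtain ⟨x2, hx2, hz2, ha2⟩ := sp_step2 hu hc huc h4 h hf (hA i) hy1 hcl1 h01
  have hy2 := sp4_inC sys hx2 hy1
  have hcl2 := sp4_clo sys hx2 hcl1
  have h02 : ∀ s, Cl G A s → s.card = i → u ∈ s → c ∈ s →
      (fun s => (fun s => y s - cob (sa a α u c) x1 s) s - cob (sa a α u c) x2 s) s = 0 := by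
    intro s hs hi h1 h2
    have e1 := h01 s hs hi h1 h2
    simp only at e1 ⊢
    rw [e1, hz2 s hs hi h1 h2, sub_zero]
  have hα2 : ∀ s, Cl G A s → s.card = i →
      α ((fun s => (fun s => y s - cob (sa a α u c) x1 s) s - cob (sa a α u c) x2 s) s) = 0 := by
    intro s hs hi
    have e1 := ha2 s hs hi
    simp only at e1 ⊢
    rw [map_sub, e1, sub_self]
  obtain ⟨x3, hx3, hz3, ha3, heq3⟩ := sp_step3 hu hc huc h hf hL hy2 hcl2 h02 hα2
  have hy3 := sp4_inC sys hx3 hy2
  have hcl3 := sp4_clo sys hx3 hcl2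
  have hB3 := sp_step4 hu hc huc h4 h hf (hA i) hy3 hcl3 (by
      intro s hs hi h1 h2
      have e1 := h02 s hs hi h1 h2
      simp only at e1 ⊢
      rw [e1, hz3 s hs hi h1 h2, sub_zero]) (by
      intro s hs hi
      have e1 := hα2 s hs hi
      simp only at e1 ⊢
      rw [map_sub, e1, ha3 s hs hi, sub_zero]) (by
      intro t h1 h2 h3 h5 h6
      exact heq3 t h1 h2 h3 h5 h6)
  have hC1 : Bd G (sa a α u c) A i (fun s => cob (sa a α u c) x1 s) :=
    ⟨x1, hx1, fun _ _ _ => rfl⟩
  have hC2 : Bd G (sa a α u c) A i (fun s => cob (sa a α u c) x2 s) :=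
    ⟨x2, hx2, fun _ _ _ => rfl⟩
  have hC3 : Bd G (sa a α u c) A i (fun s => cob (sa a α u c) x3 s) :=
    ⟨x3, hx3, fun _ _ _ => rfl⟩
  refine (((hC1.add hC2).add hC3).add hB3).congr (fun s _ _ => ?_)
  abel

end Pool.Agent.H31.GS
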