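import Pool.Agent.H31.GS.MultiI
import Pool.Agent.H31.GS.Sp4
import Pool.Agent.H31.GS.Ed

/-!
# helper31, GS, module REDS: the class of acyclic sets is closed under vertex splitting; suspensions

`grM_of`: `Matrix.toLin'` is injective and multiplicative.

`racy_susp`: `exists_fermi V` gives `(a, b, γ)` for `⊤`; put `a' = Function.update a q (b p)`, `b' = Function.update b q (a p)`; `GrM G A a' b' γ`
(adjacent vertices in `A` are distinct, and `{p, q}` is not an edge; different fermions anticommute); `ex_susp`.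

`racy_split`: `H = contract G u c`, `A' = A.erase u`, `L = lk G A {u, c}`. `H` and `G` agree on `L` (`c ∉ L`), so `RAcy H L`
(`GrM.graph`, `exM_graph`). `multi_of` for `{A', L}`: `(a, b, γ)` on `ι`, `GrM H univ`, exact on `A'` and `L`. `exists_fermi V`: `(a2, b2, γ2)` on `κ`;
`α = a2 u`, `β = b2 u`. On `ι × κ`: `a v ⊗ₖ 1`, `b v ⊗ₖ 1`, `γ ⊗ₖ α`, `γ ⊗ₖ β`, grading `γ ⊗ₖ γ2`. `Fm` holds, exactness by `ex_left`. The split system as
matrices: `fun v => if v = u then a c ⊗ₖ 1 + γ ⊗ₖ α else a v ⊗ₖ 1` and similarly for `sb`; its `Matrix.toLin'` is `sa`, `sb` of the `toLin'`s (by cases).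
`grM_of` with `sp_sys`; `ex_split`.
-/

namespace Pool.Agent.H31.GS

open Finset
open scoped Kronecker

set_option linter.unusedSectionVars false
set_option linter.unusedVariables false

variable {V : Type} [Fintype V] [LinearOrder V] {G : SimpleGraph V}

theorem reds_eq {ι : Type} [Fintype ι] [DecidableEq ι] {M N : Matrix ι ι ℝ}
    (h : ∀ x, Matrix.toLin' M x = Matrix.toLin' N x) : M = N :=
  Matrix.toLin'.injective (LinearMap.ext h)

theorem reds_anti {ι : Type} [Fintype ι] [DecidableEq ι] {M N : Matrix ι ι ℝ}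
    (h : ∀ x, Matrix.toLin' M (Matrix.toLin' N x) = - Matrix.toLin' N (Matrix.toLin' M x)) :
    M * N = - (N * M) := by
  refine reds_eq fun x => ?_
  have := h x
  simp only [Matrix.toLin'_apply, Matrix.mulVec_mulVec] at this ⊢
  rw [this, Matrix.neg_mulVec]

theorem grM_of {ι : Type} [Fintype ι] [DecidableEq ι] {a b : V → Matrix ι ι ℝ} {γ : Matrix ι ι ℝ}
    {A : Finset V} (h : GSys G A (fun v => Matrix.toLin' (a v)) (fun v => Matrix.toLin' (b v)))
    (hg : γ * γ = 1) (ha : ∀ v ∈ A, γ * a v = - (a v * γ)) (hb : ∀ v ∈ A, γ * b v = - (b v * γ)) :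
    GrM G A a b γ := by
  refine ⟨fun v hv => reds_eq fun x => ?_, fun v hv => reds_eq fun x => ?_,
    fun v hv => reds_eq fun x => ?_, fun v hv w hw e => reds_anti (h.caa v hv w hw e),
    fun v hv w hw e => reds_anti (h.cab v hv w hw e),
    fun v hv w hw e => reds_anti (h.cbb v hv w hw e), hg, ha, hb⟩
  · have := h.aa v hv x
    simp only [Matrix.toLin'_apply, Matrix.mulVec_mulVec] at this ⊢
    rw [this, Matrix.zero_mulVec]
  · have := h.bb v hv x
    simp only [Matrix.toLin'_apply, Matrix.mulVec_mulVec] at this ⊢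
    rw [this, Matrix.zero_mulVec]
  · have := h.ab v hv x
    simp only [Matrix.toLin'_apply, Matrix.mulVec_mulVec] at this ⊢
    rw [Matrix.add_mulVec, this, Matrix.one_mulVec]

theorem racy_susp {A : Finset V} {p q : V} (hp : p ∈ A) (hq : q ∈ A) (hpq : p ≠ q)
    (hna : ¬ G.Adj p q) (hall : ∀ x ∈ A, x ≠ p → x ≠ q → G.Adj p x ∧ G.Adj q x) : RAcy G A := by
  obtain ⟨ι, i1, i2, i3, a, b, γ, h⟩ := exists_fermi V
  have hU : ∀ v : V, v ∈ (univ : Finset V) := mem_univ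
  have caa : ∀ v w, v ≠ w → a v * a w = - (a w * a v) := fun v w e =>
    h.caa v (hU v) w (hU w) (by simpa using e)
  have cab : ∀ v w, v ≠ w → a v * b w = - (b w * a v) := fun v w e =>
    h.cab v (hU v) w (hU w) (by simpa using e)
  have cba : ∀ v w, v ≠ w → b v * a w = - (a w * b v) := fun v w e => by
    rw [cab w v e.symm, neg_neg]
  have cbb : ∀ v w, v ≠ w → b v * b w = - (b w * b v) := fun v w e =>
    h.cbb v (hU v) w (hU w) (by simpa using e)
  -- a neighbour of q is different from p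
  have hnp : ∀ w, G.Adj q w → w ≠ p := fun w e e2 => hna (e2 ▸ e.symm)
  have hs : GrM G A (Function.update a q (b p)) (Function.update b q (a p)) γ := by
    have ea : ∀ v, v ≠ q → Function.update a q (b p) v = a v := fun v hv =>
      Function.update_of_ne hv _ _
    have eb : ∀ v, v ≠ q → Function.update b q (a p) v = b v := fun v hv =>
      Function.update_of_ne hv _ _
    have eaq : Function.update a q (b p) q = b p := Function.update_self _ _ _
    have ebq : Function.update b q (a p) q = a p := Function.update_self _ _ _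
    refine ⟨fun v hv => ?_, fun v hv => ?_, fun v hv => ?_, fun v hv w hw e => ?_,
      fun v hv w hw e => ?_, fun v hv w hw e => ?_, h.gg, fun v hv => ?_, fun v hv => ?_⟩
    · by_cases e : v = q
      · rw [e, eaq, h.bb p (hU p)]
      · rw [ea v e, h.aa v (hU v)]
    · by_cases e : v = q
      · rw [e, ebq, h.aa p (hU p)]
      · rw [eb v e, h.bb v (hU v)]
    · by_cases e : v = q
      · rw [e, eaq, ebq, add_comm, h.ab p (hU p)]
      · rw [ea v e, eb v e, h.ab v (hU v)]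
    · by_cases e1 : v = q
      · subst e1
        rw [eaq, ea w e.ne', cba p w (hnp w e).symm]
      · by_cases e2 : w = q
        · subst e2
          rw [eaq, ea v e1, cab v p (hnp v e.symm)]
        · rw [ea v e1, ea w e2, caa v w e.ne]
    · by_cases e1 : v = q
      · subst e1
        rw [eaq, eb w e.ne', cbb p w (hnp w e).symm]
      · by_cases e2 : w = q
        · subst e2
          rw [ebq, ea v e1, caa v p (hnp v e.symm)]
        · rw [ea v e1, eb w e2, cab v w e.ne]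
    · by_cases e1 : v = q
      · subst e1
        rw [ebq, eb w e.ne', cab p w (hnp w e).symm]
      · by_cases e2 : w = q
        · subst e2
          rw [ebq, eb v e1, cba v p (hnp v e.symm)]
        · rw [eb v e1, eb w e2, cbb v w e.ne]
    · by_cases e : v = q
      · rw [e, eaq, h.gb p (hU p)]
      · rw [ea v e, h.ga v (hU v)]
    · by_cases e : v = q
      · rw [e, ebq, h.ga p (hU p)]
      · rw [eb v e, h.gb v (hU v)]
  refine ⟨ι, i1, i2, i3, _, _, γ, hs, ?_⟩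
  refine ex_susp hp hq hpq hna hall hs.gsys (fun x => ?_) (fun x => ?_)
  · simp only [Function.update_self, Function.update_of_ne hpq]
  · simp only [Function.update_self, Function.update_of_ne hpq]

theorem racy_split {A : Finset V} {u c : V} (hu : u ∈ A) (hc : c ∈ A) (huc : G.Adj u c)
    (h4 : NoSq G A u c) (h1 : RAcy (contract G u c) (A.erase u)) (h2 : RAcy G (lk G A {u, c})) :
    RAcy G A := by
  classical
  have hLu : ∀ x ∈ lk G A {u, c}, x ≠ u ∧ x ≠ c := by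
    intro x hx
    have h3 : ∀ v ∈ ({u, c} : Finset V), G.Adj v x := (mem_filter.1 hx).2
    exact ⟨(h3 u (by simp)).ne', (h3 c (by simp)).ne'⟩
  have hLg : ∀ x ∈ lk G A {u, c}, ∀ y ∈ lk G A {u, c}, (G.Adj x y ↔ (contract G u c).Adj x y) := by
    intro x hx y hy
    constructor
    · intro e
      exact ⟨e.ne, Or.inl e⟩
    · rintro ⟨_, e | e | e⟩
      · exact e
      · exact absurd e.1 (hLu x hx).2
      · exact absurd e.1 (hLu y hy).2
  have hL : RAcy (contract G u c) (lk G A {u, c}) := by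
    obtain ⟨ι, i1, i2, i3, a, b, γ, hs, hex⟩ := h2
    exact ⟨ι, i1, i2, i3, a, b, γ, hs.graph (fun x hx y hy e => (hLg x hx y hy).2 e),
      exM_graph hLg hex⟩
  obtain ⟨ι, i1, i2, i3, a, b, γ, hs, hex⟩ :=
    multi_of (G := contract G u c) (𝓔 := {A.erase u, lk G A {u, c}}) (by
      intro E hE
      rcases mem_insert.1 hE with e | e
      · rw [e]; exact h1
      · rw [mem_singleton.1 e]; exact hL)
  have hexA := hex (A.erase u) (by simp)
  have hexL := hex (lk G A {u, c}) (by simp)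
  obtain ⟨κ, j1, j2, j3, a2, b2, γ2, hf⟩ := exists_fermi V
  have L1 : ∀ p q : Matrix ι ι ℝ, (p ⊗ₖ (1 : Matrix κ κ ℝ)) * (q ⊗ₖ (1 : Matrix κ κ ℝ)) =
      (p * q) ⊗ₖ (1 : Matrix κ κ ℝ) := by
    intro p q
    rw [← Matrix.mul_kronecker_mul, mul_one]
  have L2 : ∀ (p : Matrix ι ι ℝ) (r : Matrix κ κ ℝ), (p ⊗ₖ (1 : Matrix κ κ ℝ)) * (γ ⊗ₖ r) =
      (p * γ) ⊗ₖ r := by
    intro p r
    rw [← Matrix.mul_kronecker_mul, one_mul]
  have L3 : ∀ (p : Matrix ι ι ℝ) (r : Matrix κ κ ℝ), (γ ⊗ₖ r) * (p ⊗ₖ (1 : Matrix κ κ ℝ)) =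
      (γ * p) ⊗ₖ r := by
    intro p r
    rw [← Matrix.mul_kronecker_mul, mul_one]
  have L4 : ∀ (r s : Matrix κ κ ℝ), (γ ⊗ₖ r) * (γ ⊗ₖ s) = (1 : Matrix ι ι ℝ) ⊗ₖ (r * s) := by
    intro r s
    rw [← Matrix.mul_kronecker_mul, hs.gg]
  have N1 : ∀ (p : Matrix ι ι ℝ) (r : Matrix κ κ ℝ), (-p) ⊗ₖ r = -(p ⊗ₖ r) := by
    intro p r
    ext i j
    simp [Matrix.kroneckerMap_apply]
  have N2 : ∀ (p : Matrix ι ι ℝ) (r : Matrix κ κ ℝ), p ⊗ₖ (-r) = -(p ⊗ₖ r) := by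
    intro p r
    ext i j
    simp [Matrix.kroneckerMap_apply]
  have hU : ∀ v : V, v ∈ (univ : Finset V) := mem_univ
  -- the big system
  have hbig : GrM (contract G u c) univ (fun v => a v ⊗ₖ (1 : Matrix κ κ ℝ))
      (fun v => b v ⊗ₖ (1 : Matrix κ κ ℝ)) (γ ⊗ₖ γ2) := by
    refine ⟨fun v _ => ?_, fun v _ => ?_, fun v _ => ?_, fun v _ w _ e => ?_,
      fun v _ w _ e => ?_, fun v _ w _ e => ?_, ?_, fun v _ => ?_, fun v _ => ?_⟩
    · show (a v ⊗ₖ (1 : Matrix κ κ ℝ)) * (a v ⊗ₖ (1 : Matrix κ κ ℝ)) = 0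
      rw [L1, hs.aa v (hU v), Matrix.zero_kronecker]
    · show (b v ⊗ₖ (1 : Matrix κ κ ℝ)) * (b v ⊗ₖ (1 : Matrix κ κ ℝ)) = 0
      rw [L1, hs.bb v (hU v), Matrix.zero_kronecker]
    · show (a v ⊗ₖ (1 : Matrix κ κ ℝ)) * (b v ⊗ₖ (1 : Matrix κ κ ℝ)) +
        (b v ⊗ₖ (1 : Matrix κ κ ℝ)) * (a v ⊗ₖ (1 : Matrix κ κ ℝ)) = 1
      rw [L1, L1, ← Matrix.add_kronecker, hs.ab v (hU v), Matrix.one_kronecker_one]
    · show (a v ⊗ₖ (1 : Matrix κ κ ℝ)) * (a w ⊗ₖ (1 : Matrix κ κ ℝ)) =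
        -((a w ⊗ₖ (1 : Matrix κ κ ℝ)) * (a v ⊗ₖ (1 : Matrix κ κ ℝ)))
      rw [L1, L1, hs.caa v (hU v) w (hU w) e, N1]
    · show (a v ⊗ₖ (1 : Matrix κ κ ℝ)) * (b w ⊗ₖ (1 : Matrix κ κ ℝ)) =
        -((b w ⊗ₖ (1 : Matrix κ κ ℝ)) * (a v ⊗ₖ (1 : Matrix κ κ ℝ)))
      rw [L1, L1, hs.cab v (hU v) w (hU w) e, N1]
    · show (b v ⊗ₖ (1 : Matrix κ κ ℝ)) * (b w ⊗ₖ (1 : Matrix κ κ ℝ)) =
        -((b w ⊗ₖ (1 : Matrix κ κ ℝ)) * (b v ⊗ₖ (1 : Matrix κ κ ℝ)))
      rw [L1, L1, hs.cbb v (hU v) w (hU w) e, N1]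
    · rw [L4, hf.gg, Matrix.one_kronecker_one]
    · show (γ ⊗ₖ γ2) * (a v ⊗ₖ (1 : Matrix κ κ ℝ)) = -((a v ⊗ₖ (1 : Matrix κ κ ℝ)) * (γ ⊗ₖ γ2))
      rw [L3, L2, hs.ga v (hU v), N1]
    · show (γ ⊗ₖ γ2) * (b v ⊗ₖ (1 : Matrix κ κ ℝ)) = -((b v ⊗ₖ (1 : Matrix κ κ ℝ)) * (γ ⊗ₖ γ2))
      rw [L3, L2, hs.gb v (hU v), N1]
  have hbig' := hbig.mono (subset_univ (A.erase u))
  -- the extra fermion
  have hfm : Fm (A.erase u) (fun v => Matrix.toLin' (a v ⊗ₖ (1 : Matrix κ κ ℝ)))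
      (fun v => Matrix.toLin' (b v ⊗ₖ (1 : Matrix κ κ ℝ))) (Matrix.toLin' (γ ⊗ₖ a2 u))
      (Matrix.toLin' (γ ⊗ₖ b2 u)) := by
    refine ⟨fun x => ?_, fun x => ?_, fun x => ?_, fun v _ x => ?_, fun v _ x => ?_,
      fun v _ x => ?_, fun v _ x => ?_⟩
    · simp only [Matrix.toLin'_apply, Matrix.mulVec_mulVec]
      rw [L4, hf.aa u (hU u), Matrix.kronecker_zero, Matrix.zero_mulVec]
    · simp only [Matrix.toLin'_apply, Matrix.mulVec_mulVec]
      rw [L4, hf.bb u (hU u), Matrix.kronecker_zero, Matrix.zero_mulVec]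
    · simp only [Matrix.toLin'_apply, Matrix.mulVec_mulVec]
      rw [← Matrix.add_mulVec, L4, L4, ← Matrix.kronecker_add, hf.ab u (hU u),
        Matrix.one_kronecker_one, Matrix.one_mulVec]
    · simp only [Matrix.toLin'_apply, Matrix.mulVec_mulVec]
      rw [L3, L2, hs.ga v (hU v), N1, Matrix.neg_mulVec]
    · simp only [Matrix.toLin'_apply, Matrix.mulVec_mulVec]
      rw [L3, L2, hs.gb v (hU v), N1, Matrix.neg_mulVec]
    · simp only [Matrix.toLin'_apply, Matrix.mulVec_mulVec]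
      rw [L3, L2, hs.ga v (hU v), N1, Matrix.neg_mulVec]
    · simp only [Matrix.toLin'_apply, Matrix.mulVec_mulVec]
      rw [L3, L2, hs.gb v (hU v), N1, Matrix.neg_mulVec]
  have e1 : (fun v => Matrix.toLin' (if v = u then a c ⊗ₖ (1 : Matrix κ κ ℝ) + γ ⊗ₖ a2 u
      else a v ⊗ₖ (1 : Matrix κ κ ℝ))) =
      sa (fun v => Matrix.toLin' (a v ⊗ₖ (1 : Matrix κ κ ℝ))) (Matrix.toLin' (γ ⊗ₖ a2 u)) u c := by
    funext v
    unfold sa
    by_cases e : v = u
    · rw [if_pos e, if_pos e, map_add]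
    · rw [if_neg e, if_neg e]
  have e2 : (fun v => Matrix.toLin' (if v = u then γ ⊗ₖ b2 u
      else if v = c then b c ⊗ₖ (1 : Matrix κ κ ℝ) - γ ⊗ₖ b2 u
      else b v ⊗ₖ (1 : Matrix κ κ ℝ))) =
      sb (fun v => Matrix.toLin' (b v ⊗ₖ (1 : Matrix κ κ ℝ))) (Matrix.toLin' (γ ⊗ₖ b2 u)) u c := by
    funext v
    unfold sb
    by_cases e : v = u
    · rw [if_pos e, if_pos e]
    · rw [if_neg e, if_neg e]
      by_cases e' : v = c
      · rw [if_pos e', if_pos e', map_sub]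
      · rw [if_neg e', if_neg e']
  have hsys := sp_sys hu hc huc hbig'.gsys hfm
  rw [← e1, ← e2] at hsys
  have ga : ∀ v, (γ ⊗ₖ γ2) * (a v ⊗ₖ (1 : Matrix κ κ ℝ)) =
      -((a v ⊗ₖ (1 : Matrix κ κ ℝ)) * (γ ⊗ₖ γ2)) := fun v => hbig.ga v (hU v)
  have gb : ∀ v, (γ ⊗ₖ γ2) * (b v ⊗ₖ (1 : Matrix κ κ ℝ)) =
      -((b v ⊗ₖ (1 : Matrix κ κ ℝ)) * (γ ⊗ₖ γ2)) := fun v => hbig.gb v (hU v)
  have gα : (γ ⊗ₖ γ2) * (γ ⊗ₖ a2 u) = -((γ ⊗ₖ a2 u) * (γ ⊗ₖ γ2)) := by
    rw [L4, L4, hf.ga u (hU u), N2]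
  have gβ : (γ ⊗ₖ γ2) * (γ ⊗ₖ b2 u) = -((γ ⊗ₖ b2 u) * (γ ⊗ₖ γ2)) := by
    rw [L4, L4, hf.gb u (hU u), N2]
  have hgr := grM_of (γ := γ ⊗ₖ γ2) hsys hbig.gg (fun v hv => by
      by_cases e : v = u
      · rw [if_pos e, mul_add, add_mul, ga, gα, neg_add]
      · rw [if_neg e, ga]) (fun v hv => by
      by_cases e : v = u
      · rw [if_pos e, gβ]
      · rw [if_neg e]
        by_cases e' : v = c
        · rw [if_pos e', mul_sub, sub_mul, gb, gβ, neg_sub_neg, neg_sub]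
        · rw [if_neg e', gb])
  refine ⟨ι × κ, inferInstance, inferInstance, inferInstance, _, _, γ ⊗ₖ γ2, hgr, ?_⟩
  have hfin := ex_split hu hc huc h4 hbig'.gsys hfm (fun i => ex_left (hexA i))
    (fun j => exC_graph (fun x hx y hy => (hLg x hx y hy).symm) (ex_left (hexL j)))
  rw [← e1] at hfin
  exact hfin

end Pool.Agent.H31.GS
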