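import Pool.Agent.H31.GS.RedV
import Pool.Agent.H31.GS.RedS
import Pool.Agent.H31.GS.GramE

/-!
# helper31, GS, module MAIN: the Charney-Davis inequality

`Red.racy`: induction. `cd_of_racy`: let `𝓔` be the finset of the sets `lk G A τ` for the simplices `τ` of `A` with an odd number of
vertices (image of a filter of `A.powerset`), `multi_of`; the system restricted to `A` (`GSys.mono`) satisfies the hypothesis of `conc` for
`e = 2 * n` (`Odd (2 * n - r.card)` implies `Odd r.card`, as `r.card ≤ 2 * n` by `sphere_lk`), so `ExAll G a A (2 * n)`; for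
`r = ∅`: `ExC G a A i` for `i ≠ n`; `euler` with `m = n`: `finrank U * omega = (-1)^n * k`, `finrank U > 0` (`U = ι → ℝ`, `ι` nonempty).
-/

namespace Pool.Agent.H31.GS

open Finset

set_option linter.unusedSectionVars false
set_option linter.unusedVariables false

variable {V : Type} [Fintype V] [LinearOrder V]

theorem Red.racy {G : SimpleGraph V} {A : Finset V} (h : Red G A) : RAcy G A := by
  induction h with
  | gram G A d r hA hG hr ho => exact racy_gram hA hG hr ho
  | gen G A h => exact h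
  | susp G A p q hp hq hpq hna hall => exact racy_susp hp hq hpq hna hall
  | congr G G' A hG _ ih => exact racy_congr hG ih
  | vertexA G A v hv _ _ ih1 ih2 => exact racy_vertexA hv ih1 ih2
  | vertexB G A v hv _ _ ih1 ih2 => exact racy_vertexB hv ih1 ih2
  | vertexC G A v hv _ _ ih1 ih2 => exact racy_vertexC hv ih1 ih2
  | unionA G A B hs _ _ _ ih1 ih2 ih3 => exact racy_unionA hs ih1 ih2 ih3
  | unionB G A B hs _ _ ih1 ih2 => exact racy_unionB hs ih1 ih2
  | unionC G A B hs _ _ _ ih1 ih2 ih3 => exact racy_unionC hs ih1 ih2 ih3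
  | edge G A x y hx hy hxy hna _ _ ih1 ih2 => exact racy_edge hx hy hxy hna ih1 ih2
  | split G A u c hu hc huc h4 _ _ ih1 ih2 => exact racy_split hu hc huc h4 ih1 ih2

theorem cd_of_racy {G : SimpleGraph V} {n : ℕ} {A : Finset V} (hA : FlagSphere G (2 * n) A)
    (h : ∀ τ ⊆ A, G.IsClique (τ : Set V) → Odd τ.card → RAcy G (lk G A τ)) :
    0 ≤ (-1 : ℚ) ^ n * omega G A := by
  classical
  let S : Finset (Finset V) := A.powerset.filter (fun τ => G.IsClique (τ : Set V) ∧ Odd τ.card)
  have hM : Multi G (S.image (fun τ => lk G A τ)) := by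
    refine multi_of (fun E hE => ?_)
    obtain ⟨τ, hτ, rfl⟩ := mem_image.1 hE
    obtain ⟨h1, h2, h3⟩ := mem_filter.1 hτ
    exact h τ (mem_powerset.1 h1) h2 h3
  obtain ⟨ι, _, _, hι, a, b, γ, hG, hE⟩ := hM
  have hsys : GSys G A (fun v => Matrix.toLin' (a v)) (fun v => Matrix.toLin' (b v)) :=
    (hG.mono (subset_univ A)).gsys
  have hall : ExAll G (fun v => Matrix.toLin' (a v)) A (2 * n) := by
    refine conc hsys hA (fun r hr ho i => ?_)
    have hle := (sphere_lk hA hr).1
    have hodd : Odd r.card := by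
      rw [Nat.odd_iff] at ho ⊢
      omega
    exact hE _ (mem_image.2 ⟨r, mem_filter.2 ⟨mem_powerset.2 hr.1, hr.2, hodd⟩, rfl⟩) i
  have hA' : ∀ i, i ≠ n → ExC G (fun v => Matrix.toLin' (a v)) A i := by
    intro i hi
    have := hall ∅ (cl_empty A) i (by
      rw [card_empty]
      omega)
    rwa [lk_empty] at this
  obtain ⟨k, hk, -⟩ := euler hsys (m := n) hA'
  have hpos : (0 : ℚ) < (Module.finrank ℝ (ι → ℝ) : ℚ) := by
    rw [Module.finrank_fintype_fun_eq_card]
    exact_mod_cast Fintype.card_pos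
  have h1 : (Module.finrank ℝ (ι → ℝ) : ℚ) * ((-1 : ℚ) ^ n * omega G A) = k := by
    have h2 : ((-1 : ℚ) ^ n) * ((-1 : ℚ) ^ n) = 1 := by
      rw [← mul_pow]
      norm_num
    calc (Module.finrank ℝ (ι → ℝ) : ℚ) * ((-1 : ℚ) ^ n * omega G A)
        = (-1 : ℚ) ^ n * ((Module.finrank ℝ (ι → ℝ) : ℚ) * omega G A) := by ring
      _ = (-1 : ℚ) ^ n * ((-1 : ℚ) ^ n * k) := by rw [hk]
      _ = k := by rw [← mul_assoc, h2, one_mul]
  by_contra hneg
  push Not at hneg
  have h3 : (Module.finrank ℝ (ι → ℝ) : ℚ) * ((-1 : ℚ) ^ n * omega G A) < 0 :=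
    mul_neg_of_pos_of_neg hpos hneg
  rw [h1] at h3
  exact absurd h3 (not_lt.2 (Nat.cast_nonneg k))

theorem main {G : SimpleGraph V} {n : ℕ} {A : Finset V} (hA : FlagSphere G (2 * n) A)
    (h : ∀ τ ⊆ A, G.IsClique (τ : Set V) → Odd τ.card → Red G (lk G A τ)) :
    0 ≤ (-1 : ℚ) ^ n * omega G A :=
  cd_of_racy hA (fun τ h1 h2 h3 => (h τ h1 h2 h3).racy)

end Pool.Agent.H31.GS
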