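import Pool.Agent.H31.GS.Tw2
import Pool.Agent.H37.CD.Pencil

/-!
# helper31, GS, module TW3: exactness of a deformation for almost all parameters

Apply `Pool.Agent.H37.CD.pencil` (over `ℝ`) to the space `X` = submodule of `Finset V → U` of the `z` with `z s ∈ Cell c s` for
simplices `s` of `E` and `z s = 0` for other `s` (finite dimensional), `D0 z s = ∑ v ∈ s, c v (z (s.erase v))`,
`D1 z s = - ∑ v ∈ s, c v (c' v (d v (z (s.erase v))))` for simplices `s` of `E`, `0` for others (classical `if`); both preserve `X`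
(`dt_mem` for `t = 0`, and `c v c' v d v z' = - c' v c v d v z'` is killed by `c v`, and by `c w`, `w ∈ s.erase v`; or use
`dt_mem` for `t = 1` and subtract). `(D0 + t • D1) z s = dt t z s` for simplices, squares to zero by `dt_dt`. Exactness of
`D0 + t • D1` on `X` is the right side of `tw_ex_iff` (values at non-simplices are irrelevant: truncate). `t0 = 0`
(`c v + 0 • c' v = c v`).
-/

namespace Pool.Agent.H31.GS

open Finset

set_option linter.unusedSectionVars false
set_option linter.unusedVariables false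

variable {V : Type} [Fintype V] [LinearOrder V] {G : SimpleGraph V}
variable {U : Type} [AddCommGroup U] [Module ℝ U] [FiniteDimensional ℝ U]
variable {c d c' : V → Module.End ℝ U} {E : Finset V}

theorem tw3_add (t : ℝ) (z z' : Finset V → U) (s : Finset V) :
    dt c d c' t (z + z') s = dt c d c' t z s + dt c d c' t z' s := by
  unfold dt
  rw [← sum_add_distrib]
  refine sum_congr rfl (fun v _ => ?_)
  simp only [Pi.add_apply, map_add, map_sub, smul_add]
  abel

theorem tw3_smul (t r : ℝ) (z : Finset V → U) (s : Finset V) :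
    dt c d c' t (r • z) s = r • dt c d c' t z s := by
  unfold dt
  rw [smul_sum]
  refine sum_congr rfl (fun v _ => ?_)
  simp only [Pi.smul_apply, map_smul, map_sub, smul_sub]
  rw [smul_comm t r]

theorem tw3_congr (t : ℝ) {z z' : Finset V → U} {s : Finset V}
    (e : ∀ v ∈ s, z (s.erase v) = z' (s.erase v)) : dt c d c' t z s = dt c d c' t z' s := by
  unfold dt
  exact sum_congr rfl (fun v hv => by rw [e v hv])

theorem tw3_affine (t : ℝ) (z : Finset V → U) (s : Finset V) :
    dt c d c' t z s = dt c d c' 0 z s + t • (dt c d c' 1 z s - dt c d c' 0 z s) := by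
  unfold dt
  rw [← sum_sub_distrib, smul_sum, ← sum_add_distrib]
  refine sum_congr rfl (fun v _ => ?_)
  simp only [map_sub, map_smul, zero_smul, sub_zero, one_smul]
  rw [sub_sub_cancel_left, smul_neg, ← sub_eq_add_neg]

open Classical in
/-- the transported coboundary as a linear map -/
noncomputable def tw3_T (G : SimpleGraph V) (E : Finset V) (c d c' : V → Module.End ℝ U) (t : ℝ) :
    (Finset V → U) →ₗ[ℝ] (Finset V → U) where
  toFun z s := if Cl G E s then dt c d c' t z s else 0
  map_add' z z' := by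
    funext s
    simp only [Pi.add_apply]
    split_ifs
    · exact tw3_add t z z' s
    · rw [add_zero]
  map_smul' r z := by
    funext s
    simp only [Pi.smul_apply, RingHom.id_apply]
    split_ifs
    · exact tw3_smul t r z s
    · rw [smul_zero]

/-- the space of total cochains -/
def tw3_X (G : SimpleGraph V) (E : Finset V) (c : V → Module.End ℝ U) :
    Submodule ℝ (Finset V → U) where
  carrier := {z | (∀ s, Cl G E s → z s ∈ Cell c s) ∧ ∀ s, ¬ Cl G E s → z s = 0}
  add_mem' := by
    intro x y hx hy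
    exact ⟨fun s hs => Submodule.add_mem _ (hx.1 s hs) (hy.1 s hs), fun s hs => by
      rw [Pi.add_apply, hx.2 s hs, hy.2 s hs, add_zero]⟩
  zero_mem' := ⟨fun s _ => Submodule.zero_mem _, fun s _ => rfl⟩
  smul_mem' := by
    intro r x hx
    exact ⟨fun s hs => Submodule.smul_mem _ r (hx.1 s hs), fun s hs => by
      rw [Pi.smul_apply, hx.2 s hs, smul_zero]⟩

theorem tw3_T_apply {s : Finset V} (hs : Cl G E s) (t : ℝ) (z : Finset V → U) :
    tw3_T G E c d c' t z s = dt c d c' t z s := by
  classical
  exact if_pos hs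

theorem tw3_T_not {s : Finset V} (hs : ¬ Cl G E s) (t : ℝ) (z : Finset V → U) :
    tw3_T G E c d c' t z s = 0 := by
  classical
  exact if_neg hs

theorem tw3_mem (h : TwD G E c d c') (t : ℝ) {z : Finset V → U} (hz : z ∈ tw3_X G E c) :
    tw3_T G E c d c' t z ∈ tw3_X G E c := by
  refine ⟨fun s hs => ?_, fun s hs => tw3_T_not hs t z⟩
  rw [tw3_T_apply hs]
  exact dt_mem h t hs (fun v _ => hz.1 _ (hs.erase v))

theorem tw3_iff (h : TwD G E c d c') (t : ℝ) :
    (∀ x : tw3_X G E c, (tw3_T G E c d c' t).restrict (fun _ hz => tw3_mem h t hz) x = 0 →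
      ∃ y : tw3_X G E c, (tw3_T G E c d c' t).restrict (fun _ hz => tw3_mem h t hz) y = x) ↔
      ∀ i, ExC G (fun v => c v + t • c' v) E i := by
  classical
  rw [tw_ex_iff h t]
  constructor
  · intro hx z hz hdz
    set z' : Finset V → U := fun s => if Cl G E s then z s else 0 with hz'
    have hz's : ∀ s, Cl G E s → z' s = z s := fun s hs => by simp only [hz', if_pos hs]
    have hmem : z' ∈ tw3_X G E c := by
      refine ⟨fun s hs => ?_, fun s hs => by simp only [hz', if_neg hs]⟩
      rw [hz's s hs]
      exact hz s hs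
    obtain ⟨y, hy⟩ := hx ⟨z', hmem⟩ (by
      apply Subtype.ext
      funext s
      show tw3_T G E c d c' t z' s = 0
      by_cases hs : Cl G E s
      · rw [tw3_T_apply hs, tw3_congr t (fun v _ => hz's _ (hs.erase v))]
        exact hdz s hs
      · exact tw3_T_not hs t z')
    refine ⟨y.1, y.2.1, fun s hs => ?_⟩
    have h1 := congrFun (congrArg Subtype.val hy) s
    have h2 : tw3_T G E c d c' t y.1 s = z' s := h1
    rw [tw3_T_apply hs, hz's s hs] at h2
    exact h2.symm
  · intro hx z hdz
    obtain ⟨x, hx1, hx2⟩ := hx z.1 z.2.1 (fun s hs => by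
      have h1 : tw3_T G E c d c' t z.1 s = 0 := congrFun (congrArg Subtype.val hdz) s
      rw [tw3_T_apply hs] at h1
      exact h1)
    set x' : Finset V → U := fun s => if Cl G E s then x s else 0 with hx'
    have hx's : ∀ s, Cl G E s → x' s = x s := fun s hs => by simp only [hx', if_pos hs]
    have hmem : x' ∈ tw3_X G E c := by
      refine ⟨fun s hs => ?_, fun s hs => by simp only [hx', if_neg hs]⟩
      rw [hx's s hs]
      exact hx1 s hs
    refine ⟨⟨x', hmem⟩, ?_⟩
    apply Subtype.ext
    funext s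
    show tw3_T G E c d c' t x' s = z.1 s
    by_cases hs : Cl G E s
    · rw [tw3_T_apply hs, tw3_congr t (fun v _ => hx's _ (hs.erase v)), hx2 s hs]
    · rw [tw3_T_not hs, z.2.2 s hs]

theorem twist (h : TwD G E c d c') (hex : ∀ i, ExC G c E i) :
    {t : ℝ | ¬ ∀ i, ExC G (fun v => c v + t • c' v) E i}.Finite := by
  set D0 : tw3_X G E c →ₗ[ℝ] tw3_X G E c :=
    (tw3_T G E c d c' 0).restrict (fun _ hz => tw3_mem h 0 hz) with hD0
  set D1 : tw3_X G E c →ₗ[ℝ] tw3_X G E c :=
    (tw3_T G E c d c' 1).restrict (fun _ hz => tw3_mem h 1 hz) -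
      (tw3_T G E c d c' 0).restrict (fun _ hz => tw3_mem h 0 hz) with hD1
  have hDt : ∀ t : ℝ, D0 + t • D1 =
      (tw3_T G E c d c' t).restrict (fun _ hz => tw3_mem h t hz) := by
    intro t
    ext x : 1
    apply Subtype.ext
    funext s
    show tw3_T G E c d c' 0 x.1 s + t • (tw3_T G E c d c' 1 x.1 s - tw3_T G E c d c' 0 x.1 s) =
      tw3_T G E c d c' t x.1 s
    by_cases hs : Cl G E s
    · rw [tw3_T_apply hs, tw3_T_apply hs, tw3_T_apply hs, ← tw3_affine]
    · rw [tw3_T_not hs, tw3_T_not hs, tw3_T_not hs, sub_zero, smul_zero, add_zero]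
  have h0 : (fun v => c v + (0 : ℝ) • c' v) = c := by
    funext v
    rw [zero_smul, add_zero]
  have key := Pool.Agent.H37.CD.pencil D0 D1 (by
    intro t x
    rw [hDt]
    apply Subtype.ext
    funext s
    show tw3_T G E c d c' t (tw3_T G E c d c' t x.1) s = 0
    by_cases hs : Cl G E s
    · rw [tw3_T_apply hs, tw3_congr t (fun v _ => tw3_T_apply (hs.erase v) t x.1)]
      exact dt_dt h t hs x.1
    · exact tw3_T_not hs t _) 0 (by
    intro x hx
    rw [hDt] at hx
    have h1 := (tw3_iff h 0).2 (by rw [h0]; exact hex) x hx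
    obtain ⟨y, hy⟩ := h1
    exact ⟨y, by rw [hDt]; exact hy⟩)
  refine key.subset ?_
  intro t ht hcon
  apply ht
  rw [← tw3_iff h t]
  rw [hDt] at hcon
  exact hcon

end Pool.Agent.H31.GS
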