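import Pool.Agent.H31.GS.Ext
import Pool.Agent.H31.GS.Tw3

/-!
# helper31, GS, module MULTII: combining graded systems

`multi_insert`. `(a, b, γ)` on `ι` for `𝓔` (`Multi`), `(a2, b2, γ2)` on `κ` with `GrM G univ`, `ExM G a2 E` (`racy_ext`).
On `ι × κ`, for `t : ℝ`: `A t v = a v ⊗ₖ 1 + t • (γ ⊗ₖ a2 v)`, `B v = b v ⊗ₖ 1`, `Γ = γ ⊗ₖ γ2`: `comb_grM`: `GrM G univ (A t) B Γ`
(`Matrix.mul_kronecker_mul`, bilinearity; `γ ⊗ₖ a2 v` anticommutes with `a w ⊗ₖ 1`, `b w ⊗ₖ 1` for all `v`, `w`, because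
`γ * a w = - (a w * γ)`; `(γ ⊗ₖ a2 v) (γ ⊗ₖ a2 w) = 1 ⊗ₖ (a2 v * a2 w)`).
`comb_left`: for `E' ∈ 𝓔` apply `twist` with `c = a ⊗ₖ 1`, `d = b ⊗ₖ 1`, `c' = γ ⊗ₖ a2` (as `Matrix.toLin'`; exact at `0` by `ex_left`).
`comb_right`: for `E` apply `twist` with `c = γ ⊗ₖ a2`, `d = γ ⊗ₖ b2`, `c' = a ⊗ₖ 1` (exact at `0` by `ex_right`): for all but
finitely many `u`, the system `γ ⊗ₖ a2 + u • (a ⊗ₖ 1)` is exact on `E`; for `t ≠ 0`, `u = t⁻¹`, it is `t⁻¹ • A t`, so `A t` is exact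
(`exC_smul` with `k = t`). The set of the `t` with `t⁻¹` in a finite set is finite (`Set.Finite.preimage`,
`inv_injective`).
Choose `t` outside finitely many finite sets and `t ≠ 0` (`Set.Finite.infinite_compl`, `Set.Infinite.nonempty`; `ℝ` is infinite).

`multi_of`: `Finset.induction_on 𝓔`.
-/

namespace Pool.Agent.H31.GS

open Finset
open scoped Kronecker

set_option linter.unusedSectionVars false
set_option linter.unusedVariables false

variable {V : Type} [Fintype V] [LinearOrder V] {G : SimpleGraph V}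

section

variable {ι κ : Type} [Fintype ι] [DecidableEq ι] [Fintype κ] [DecidableEq κ]
variable {a b : V → Matrix ι ι ℝ} {γ : Matrix ι ι ℝ} {a2 b2 : V → Matrix κ κ ℝ} {γ2 : Matrix κ κ ℝ}

private theorem multii_neg_kron (A : Matrix ι ι ℝ) (B : Matrix κ κ ℝ) :
    (-A) ⊗ₖ B = -(A ⊗ₖ B) := by
  ext ⟨i, j⟩ ⟨k, l⟩
  simp [Matrix.kroneckerMap_apply]

private theorem multii_kron_neg (A : Matrix ι ι ℝ) (B : Matrix κ κ ℝ) :
    A ⊗ₖ (-B) = -(A ⊗ₖ B) := by
  ext ⟨i, j⟩ ⟨k, l⟩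
  simp [Matrix.kroneckerMap_apply]

private theorem multii_mul (A C : Matrix ι ι ℝ) (B D : Matrix κ κ ℝ) :
    (A ⊗ₖ B) * (C ⊗ₖ D) = (A * C) ⊗ₖ (B * D) := (Matrix.mul_kronecker_mul A C B D).symm

/-- `γ ⊗ x` anticommutes with `y ⊗ 1` if `γ` anticommutes with `y` -/
private theorem multii_QP {y : Matrix ι ι ℝ} (hy : γ * y = -(y * γ)) (x : Matrix κ κ ℝ) :
    (γ ⊗ₖ x) * (y ⊗ₖ (1 : Matrix κ κ ℝ)) = -((y ⊗ₖ (1 : Matrix κ κ ℝ)) * (γ ⊗ₖ x)) := by
  rw [multii_mul, multii_mul, hy, multii_neg_kron, mul_one, one_mul]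

private theorem multii_PQ {y : Matrix ι ι ℝ} (hy : γ * y = -(y * γ)) (x : Matrix κ κ ℝ) :
    (y ⊗ₖ (1 : Matrix κ κ ℝ)) * (γ ⊗ₖ x) = -((γ ⊗ₖ x) * (y ⊗ₖ (1 : Matrix κ κ ℝ))) := by
  rw [multii_QP hy, neg_neg]

private theorem multii_QQ (hg : γ * γ = 1) (x y : Matrix κ κ ℝ) :
    (γ ⊗ₖ x) * (γ ⊗ₖ y) = (1 : Matrix ι ι ℝ) ⊗ₖ (x * y) := by
  rw [multii_mul, hg]

private theorem multii_PP (x y : Matrix ι ι ℝ) :
    (x ⊗ₖ (1 : Matrix κ κ ℝ)) * (y ⊗ₖ (1 : Matrix κ κ ℝ)) = (x * y) ⊗ₖ (1 : Matrix κ κ ℝ) := by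
  rw [multii_mul, one_mul]

private theorem multii_z1 : (0 : Matrix ι ι ℝ) ⊗ₖ (1 : Matrix κ κ ℝ) = 0 := by
  ext ⟨i, j⟩ ⟨k, l⟩
  simp [Matrix.kroneckerMap_apply]

private theorem multii_1z : (1 : Matrix ι ι ℝ) ⊗ₖ (0 : Matrix κ κ ℝ) = 0 := by
  ext ⟨i, j⟩ ⟨k, l⟩
  simp [Matrix.kroneckerMap_apply]

theorem comb_grM (h : GrM G univ a b γ) (h2 : GrM G univ a2 b2 γ2) (t : ℝ) :
    GrM G univ (fun v => a v ⊗ₖ (1 : Matrix κ κ ℝ) + t • (γ ⊗ₖ a2 v))
      (fun v => b v ⊗ₖ (1 : Matrix κ κ ℝ)) (γ ⊗ₖ γ2) where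
  aa := by
    intro v hv
    simp only [add_mul, mul_add, smul_mul_assoc, mul_smul_comm]
    rw [multii_QP (h.ga v hv), multii_PP, h.aa v hv, multii_z1, multii_QQ h.gg, h2.aa v hv,
      multii_1z]
    module
  bb := by
    intro v hv
    rw [multii_PP, h.bb v hv, multii_z1]
  ab := by
    intro v hv
    simp only [add_mul, mul_add, smul_mul_assoc, mul_smul_comm]
    rw [multii_QP (h.gb v hv), multii_PP, multii_PP]
    have e : (a v * b v) ⊗ₖ (1 : Matrix κ κ ℝ) + (b v * a v) ⊗ₖ (1 : Matrix κ κ ℝ) = 1 := by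
      rw [← Matrix.add_kronecker, h.ab v hv, Matrix.one_kronecker_one]
    rw [← e]
    module
  caa := by
    intro v hv w hw hvw
    simp only [add_mul, mul_add, smul_mul_assoc, mul_smul_comm]
    rw [multii_QP (h.ga w hw), multii_QP (h.ga v hv), multii_PP, multii_PP, h.caa v hv w hw hvw,
      multii_neg_kron, multii_QQ h.gg, multii_QQ h.gg, h2.caa v hv w hw hvw, multii_kron_neg]
    module
  cab := by
    intro v hv w hw hvw
    simp only [add_mul, mul_add, smul_mul_assoc, mul_smul_comm]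
    rw [multii_QP (h.gb w hw), multii_PP, multii_PP, h.cab v hv w hw hvw, multii_neg_kron]
    module
  cbb := by
    intro v hv w hw hvw
    rw [multii_PP, multii_PP, h.cbb v hv w hw hvw, multii_neg_kron]
  gg := by
    rw [multii_mul, h.gg, h2.gg, Matrix.one_kronecker_one]
  ga := by
    intro v hv
    simp only [add_mul, mul_add, smul_mul_assoc, mul_smul_comm]
    rw [multii_mul, multii_mul, multii_mul, multii_mul, h.ga v hv, h2.ga v hv, multii_neg_kron,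
      multii_kron_neg, mul_one, one_mul]
    module
  gb := by
    intro v hv
    rw [multii_mul, multii_mul, h.gb v hv, multii_neg_kron, mul_one, one_mul]

private theorem multii_lin {A B C D : Matrix (ι × κ) (ι × κ) ℝ} (h : A * B = -(C * D))
    (x : ι × κ → ℝ) :
    Matrix.toLin' A (Matrix.toLin' B x) = - Matrix.toLin' C (Matrix.toLin' D x) := by
  simp only [Matrix.toLin'_apply, Matrix.mulVec_mulVec]
  rw [h, Matrix.neg_mulVec]

private theorem multii_lin0 {A B : Matrix (ι × κ) (ι × κ) ℝ} (h : A * B = 0)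
    (x : ι × κ → ℝ) :
    Matrix.toLin' A (Matrix.toLin' B x) = 0 := by
  simp only [Matrix.toLin'_apply, Matrix.mulVec_mulVec]
  rw [h, Matrix.zero_mulVec]

theorem comb_left (h : GrM G univ a b γ) (h2 : GrM G univ a2 b2 γ2) {E : Finset V}
    (he : ExM G a E) :
    {t : ℝ | ¬ ExM G (fun v => a v ⊗ₖ (1 : Matrix κ κ ℝ) + t • (γ ⊗ₖ a2 v)) E}.Finite := by
  have hg0 : GrM G univ (fun v => a v ⊗ₖ (1 : Matrix κ κ ℝ))
      (fun v => b v ⊗ₖ (1 : Matrix κ κ ℝ)) (γ ⊗ₖ γ2) := by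
    simpa using comb_grM h h2 0
  have htw : TwD G E (fun v => Matrix.toLin' (a v ⊗ₖ (1 : Matrix κ κ ℝ)))
      (fun v => Matrix.toLin' (b v ⊗ₖ (1 : Matrix κ κ ℝ)))
      (fun v => Matrix.toLin' (γ ⊗ₖ a2 v)) := by
    refine ⟨(hg0.mono (subset_univ E)).gsys, ?_, ?_, ?_, ?_⟩
    · intro v hv w hw x
      exact multii_lin (multii_QP (h.ga w (mem_univ w)) _) x
    · intro v hv w hw x
      exact multii_lin (multii_QP (h.gb w (mem_univ w)) _) x
    · intro v hv x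
      exact multii_lin0 (by rw [multii_QQ h.gg, h2.aa v (mem_univ v), multii_1z]) x
    · intro v hv w hw e x
      exact multii_lin (by
        rw [multii_QQ h.gg, multii_QQ h.gg, h2.caa v (mem_univ v) w (mem_univ w) e,
          multii_kron_neg]) x
  refine (twist htw (fun i => ex_left (he i))).subset ?_
  intro t ht hcon
  apply ht
  intro i
  have := hcon i
  simpa only [map_add, map_smul] using this

theorem comb_right (h : GrM G univ a b γ) (h2 : GrM G univ a2 b2 γ2) {E : Finset V}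
    (he : ExM G a2 E) :
    {t : ℝ | ¬ ExM G (fun v => a v ⊗ₖ (1 : Matrix κ κ ℝ) + t • (γ ⊗ₖ a2 v)) E}.Finite := by
  have hsys : GrM G univ (fun v => γ ⊗ₖ a2 v) (fun v => γ ⊗ₖ b2 v) ((1 : Matrix ι ι ℝ) ⊗ₖ γ2) := by
    constructor
    · intro v hv
      rw [multii_QQ h.gg, h2.aa v hv, multii_1z]
    · intro v hv
      rw [multii_QQ h.gg, h2.bb v hv, multii_1z]
    · intro v hv
      rw [multii_QQ h.gg, multii_QQ h.gg, ← Matrix.kronecker_add, h2.ab v hv,
        Matrix.one_kronecker_one]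
    · intro v hv w hw e
      rw [multii_QQ h.gg, multii_QQ h.gg, h2.caa v hv w hw e, multii_kron_neg]
    · intro v hv w hw e
      rw [multii_QQ h.gg, multii_QQ h.gg, h2.cab v hv w hw e, multii_kron_neg]
    · intro v hv w hw e
      rw [multii_QQ h.gg, multii_QQ h.gg, h2.cbb v hv w hw e, multii_kron_neg]
    · rw [multii_mul, h2.gg, one_mul, Matrix.one_kronecker_one]
    · intro v hv
      rw [multii_mul, multii_mul, h2.ga v hv, multii_kron_neg, one_mul, mul_one]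
    · intro v hv
      rw [multii_mul, multii_mul, h2.gb v hv, multii_kron_neg, one_mul, mul_one]
  have htw : TwD G E (fun v => Matrix.toLin' (γ ⊗ₖ a2 v)) (fun v => Matrix.toLin' (γ ⊗ₖ b2 v))
      (fun v => Matrix.toLin' (a v ⊗ₖ (1 : Matrix κ κ ℝ))) := by
    refine ⟨(hsys.mono (subset_univ E)).gsys, ?_, ?_, ?_, ?_⟩
    · intro v hv w hw x
      exact multii_lin (multii_PQ (h.ga v (mem_univ v)) _) x
    · intro v hv w hw x
      exact multii_lin (multii_PQ (h.ga v (mem_univ v)) _) x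
    · intro v hv x
      exact multii_lin0 (by rw [multii_PP, h.aa v (mem_univ v), multii_z1]) x
    · intro v hv w hw e x
      exact multii_lin (by
        rw [multii_PP, multii_PP, h.caa v (mem_univ v) w (mem_univ w) e, multii_neg_kron]) x
  have hfin := twist htw (fun i => ex_right h.gg (he i))
  refine ((Set.finite_singleton (0 : ℝ)).union
    (hfin.preimage (f := fun t : ℝ => t⁻¹) inv_injective.injOn)).subset ?_
  intro t ht
  by_cases h0 : t = 0
  · exact Or.inl h0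
  · right
    intro hcon
    apply ht
    intro i
    have h3 := exC_smul h0 (hcon i)
    refine exC_congr (fun v _ x => ?_) h3
    simp only [map_add, map_smul, smul_add, smul_smul, mul_inv_cancel₀ h0, one_smul]
    rw [add_comm]

end

theorem multi_insert {𝓔 : Finset (Finset V)} {E : Finset V} (h : Multi G 𝓔) (hE : RAcy G E) :
    Multi G (insert E 𝓔) := by
  obtain ⟨ι, i1, i2, i3, a, b, γ, hg, hex⟩ := h
  obtain ⟨κ, j1, j2, j3, a2, b2, γ2, hg2, hex2⟩ := racy_ext hE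
  have hfin : ((⋃ E' ∈ 𝓔, {t : ℝ | ¬ ExM G (fun v => a v ⊗ₖ (1 : Matrix κ κ ℝ) +
      t • (γ ⊗ₖ a2 v)) E'}) ∪ {t : ℝ | ¬ ExM G (fun v => a v ⊗ₖ (1 : Matrix κ κ ℝ) +
      t • (γ ⊗ₖ a2 v)) E}).Finite := by
    refine Set.Finite.union ?_ (comb_right hg hg2 hex2)
    exact Set.Finite.biUnion 𝓔.finite_toSet (fun E' hE' => comb_left hg hg2 (hex E' hE'))
  obtain ⟨t, ht⟩ := hfin.infinite_compl.nonempty
  simp only [Set.mem_compl_iff, Set.mem_union, Set.mem_iUnion, not_or, not_exists,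
    Set.mem_ofPred_eq, not_not] at ht
  refine ⟨ι × κ, inferInstance, inferInstance, inferInstance, _, _, _, comb_grM hg hg2 t, ?_⟩
  intro E' hE'
  rcases mem_insert.1 hE' with h1 | h1
  · rw [h1]
    exact ht.2
  · exact ht.1 E' h1

theorem multi_of {𝓔 : Finset (Finset V)} (h : ∀ E ∈ 𝓔, RAcy G E) : Multi G 𝓔 := by
  induction 𝓔 using Finset.induction_on with
  | empty => exact multi_empty G
  | insert E 𝓔 hE ih =>
    exact multi_insert (ih (fun E' hE' => h E' (mem_insert_of_mem hE'))) (h E (mem_insert_self _ _))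

end Pool.Agent.H31.GS
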