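import Pool.Agent.H31.GS.Red

/-!
# helper31, GS, module ODDSTEP: the odd step

`r` a simplex, `L = lk G A r` of odd rank `2 m + 1`, `x ∈ L`, `Φ = far G L x`, `y` closed on `L`, degree `m`, values in
`Cell b r`.

(1) `ax s = if x ∈ s then 0 else a x (y s)`. For a simplex `t` of `L` with `m + 1` elements,
`cob a ax t = - ∑ v ∈ t ∩ Φ, N x v • y (t.erase v)`:
if `x ∈ t`: only the term `v = x` of `cob` is nonzero and it is `a x (a x _) = 0`; the right side is zero because no
element of `Φ` is adjacent to `x`. If `x ∉ t`: `∑ v ∈ t, a v (a x (y (t.erase v)))`, `v` adjacent to `x`: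
`a v (a x z) = - a x (a v z)`; `v ∈ Φ`: `a v (a x z) = - a x (a v z) - N x v • z` (`anti` for the pair `x, v`); total
`- a x (cob a y t) - ∑ ... = - ∑ ...`.
So on these `t`: `cob a ax t = - ∑ v ∈ Φ, N x v • xm v y t`.
(2) `0 = om (m+1) r (cob a y) ax = - om m r y (cob a ax) = ∑ v ∈ Φ, N x v * om m (insert v r) y y`
(`om_stokes`; the first because `cob a y s = 0` for simplices `s` of `L` with `m + 1` elements (`om_congr` with `0`);
`om_congr`, `om_sum_right`, `om_smul_right`, `om_xm_right`).
(3) For `v ∈ Φ`, `R = insert v r`, `lk G A R = lk G L {v}` (`lk_insert`), `m + m + R.card = d`: `red_one` applies with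
`Z s = - y (insert v s)` (`0 = cob a y (insert v s) = a v (y s) + ∑ u ∈ s, a u (y (insert v (s.erase u)))`, `cob_insert`).
`b v y` has values in `Cell b R` (`b v b v = 0`, `b w b v = - b v b w`), so `hpos v` gives
`0 ≤ (-1)^m * om m R (b v y) (b v y)`, i.e. `(-1)^m * om m R y y ≤ 0`. All terms of the sum in (2) times `(-1)^m` are `≤ 0`
with sum `0`, so each is `0`; `N x v > 0` (`npos`), so `om m R (b v y) (b v y) = 0`, so `b v y` is `Bd` on `lk G A R`, so `y`
is (`red_one`).
-/

namespace Pool.Agent.H31.GS

open Finset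

set_option linter.unusedSectionVars false
set_option linter.unusedVariables false

variable {V : Type} [Fintype V] [LinearOrder V] {G : SimpleGraph V}
variable {U : Type} [AddCommGroup U] [Module ℝ U] {a b : V → Module.End ℝ U}
variable {A : Finset V} {d : ℕ} {N : V → V → ℝ} {B : Finset V → U →ₗ[ℝ] U →ₗ[ℝ] ℝ}

/-- (1): the coboundary of `a x y` -/
theorem cob_ax (hF : FSys G A d a b N B) {L : Finset V} (hL : L ⊆ A) {x : V} (hx : x ∈ L)
    (y : Finset V → U) {t : Finset V} (ht : Cl G L t) :
    cob a (fun s => if x ∈ s then 0 else a x (y s)) t =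
      - (if x ∈ t then 0 else a x (cob a y t)) - ∑ v ∈ far G L x, N x v • xm v y t := by
  classical
  by_cases hxt : x ∈ t
  · have h1 : cob a (fun s => if x ∈ s then 0 else a x (y s)) t = 0 := by
      unfold cob
      apply Finset.sum_eq_zero
      intro v hv
      by_cases hvx : x = v
      · subst hvx
        have h2 : x ∉ t.erase x := notMem_erase _ _
        simp only [if_neg h2]
        exact hF.sys.aa x (hL hx) _
      · have h2 : x ∈ t.erase v := mem_erase.2 ⟨hvx, hxt⟩
        simp only [if_pos h2, map_zero]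
    have h3 : ∑ v ∈ far G L x, N x v • xm v y t = 0 := by
      apply Finset.sum_eq_zero
      intro v hv
      obtain ⟨hvL, hvx, hadj⟩ := mem_far.1 hv
      have h4 : v ∉ t := fun h => hadj (ht.adj hxt h (Ne.symm hvx))
      rw [xm, if_neg h4, smul_zero]
    rw [h1, h3, if_pos hxt]
    simp
  · rw [if_neg hxt]
    have h1 : ∀ v ∈ t, a v (if x ∈ t.erase v then 0 else a x (y (t.erase v))) =
        - a x (a v (y (t.erase v))) - (if v ∈ far G L x then N x v • y (t.erase v) else 0) := by
      intro v hv
      have h2 : x ∉ t.erase v := fun h => hxt (mem_of_mem_erase h)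
      have h3 : v ≠ x := fun h => hxt (h ▸ hv)
      rw [if_neg h2]
      by_cases hadj : G.Adj x v
      · have h4 : v ∉ far G L x := fun h => (mem_far.1 h).2.2 hadj
        rw [if_neg h4, sub_zero]
        exact hF.sys.caa v (hL (ht.1 hv)) x (hL hx) hadj.symm _
      · have h4 : v ∈ far G L x := mem_far.2 ⟨ht.1 hv, h3, hadj⟩
        rw [if_pos h4]
        have h5 := hF.anti x (hL hx) v (hL (ht.1 hv)) (Ne.symm h3) hadj (y (t.erase v))
        rw [eq_sub_iff_add_eq, ← neg_eq_iff_eq_neg.2 h5]
        abel
    have h2 : cob a (fun s => if x ∈ s then 0 else a x (y s)) t =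
        ∑ v ∈ t, (- a x (a v (y (t.erase v))) -
          (if v ∈ far G L x then N x v • y (t.erase v) else 0)) :=
      Finset.sum_congr rfl h1
    have h3 : ∑ v ∈ far G L x, N x v • xm v y t =
        ∑ v ∈ far G L x, (if v ∈ t then N x v • y (t.erase v) else 0) := by
      apply Finset.sum_congr rfl
      intro v _
      unfold xm
      split_ifs
      · rfl
      · rw [smul_zero]
    rw [h2, h3, Finset.sum_sub_distrib, Finset.sum_neg_distrib, Finset.sum_ite_mem,
      Finset.sum_ite_mem, inter_comm]
    unfold cob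
    rw [map_sum]

theorem odd_step (hF : FSys G A d a b N B) {r : Finset V} (hr : Cl G A r) {m : ℕ}
    (he : r.card + (2 * m + 1) = d) {x : V} (hx : x ∈ lk G A r)
    (hpos : ∀ v ∈ far G (lk G A r) x, PosAt G A d a b B m (insert v r)) {y : Finset V → U}
    (hy : InC G a (lk G A r) m y) (hcl : Clo G a (lk G A r) m y) (hv : Vl G b (lk G A r) m r y) :
    ∀ v ∈ far G (lk G A r) x, Bd G a (lk G (lk G A r) {v}) m y := by
  classical
  have hLA : lk G A r ⊆ A := lk_subset A r
  -- (2)
  have hsum : ∑ v ∈ far G (lk G A r) x, N x v * om G A d B m (insert v r) y y = 0 := by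
    have h1 := om_stokes hF m hr y (fun s => if x ∈ s then 0 else a x (y s))
    have h2 : om G A d B (m + 1) r (fun s => cob a y s)
        (fun s => if x ∈ s then 0 else a x (y s)) = 0 := by
      rw [om_congr (z := fun s => (0 : ℝ) • y s)
        (z' := fun s => if x ∈ s then 0 else a x (y s))
        (fun s hs hc => by rw [hcl s hs hc, zero_smul]) (fun s _ _ => rfl), om_smul_left, zero_mul]
    have h3 : om G A d B m r y (fun s => cob a (fun s => if x ∈ s then 0 else a x (y s)) s) =
        - ∑ v ∈ far G (lk G A r) x, N x v * om G A d B m (insert v r) y y := by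
      rw [om_congr (z := y)
        (z' := fun s => - ∑ v ∈ far G (lk G A r) x, N x v • xm v y s)
        (fun s _ _ => rfl) (fun s hs hc => by
          rw [cob_ax hF hLA hx y hs, hcl s hs (by omega)]
          simp), om_neg_right, om_sum_right]
      congr 1
      apply Finset.sum_congr rfl
      intro v hv'
      rw [om_smul_right, om_xm_right]
      exact (cl_insert_lk hr (mem_far.1 hv').1).2
    rw [h2, h3, neg_neg] at h1
    exact h1.symm
  -- (3)
  have key : ∀ v ∈ far G (lk G A r) x,
      0 ≤ (-1) ^ m * - om G A d B m (insert v r) y y ∧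
      (om G A d B m (insert v r) y y = 0 → Bd G a (lk G (lk G A r) {v}) m y) := by
    intro v hvf
    have hvL : v ∈ lk G A r := (mem_far.1 hvf).1
    obtain ⟨hR, hvr⟩ := cl_insert_lk hr hvL
    have hlk : lk G A (insert v r) = lk G (lk G A r) {v} := lk_insert v
    have hsub : lk G A (insert v r) ⊆ lk G A r := by
      rw [hlk]; exact lk_subset _ _
    have hcard : m + m + (insert v r).card = d := by
      rw [card_insert_of_notMem hvr]; omega
    have hins : ∀ s, Cl G (lk G A (insert v r)) s → Cl G (lk G A r) (insert v s) ∧ v ∉ s := by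
      intro s hs
      rw [hlk] at hs
      exact cl_insert hvL hs
    obtain ⟨r1, r2, r3, r4⟩ := red_one hF hR (mem_insert_self v r) hcard (y := y)
      (Z := fun s => - y (insert v s)) (hy.mono hsub) (hcl.mono hsub)
      (by
        intro s hs hc
        obtain ⟨h1, h2⟩ := hins s hs
        have h3 := hy (insert v s) h1 (by rw [card_insert_of_notMem h2]; exact hc)
        exact Submodule.neg_mem _ (Cell_anti (subset_insert v s) h3))
      (by
        intro s hs hc
        obtain ⟨h1, h2⟩ := hins s hs
        have h3 := hcl (insert v s) h1 (by rw [card_insert_of_notMem h2, hc])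
        rw [cob_insert h2] at h3
        rw [eq_neg_of_add_eq_zero_left h3]
        unfold cob
        rw [← Finset.sum_neg_distrib]
        apply Finset.sum_congr rfl
        intro u _
        rw [map_neg])
    have hvl : Vl G b (lk G A (insert v r)) m (insert v r) (fun s => b v (y s)) := by
      intro s hs hc w hw
      rcases mem_insert.1 hw with rfl | hw
      · exact hF.sys.bb w (hLA hvL) _
      · have h1 : G.Adj w v := (mem_lk.1 hvL).2 w hw
        rw [hF.sys.cbb w (hr.1 hw) v (hLA hvL) h1, hv s (hs.mono hsub) hc w hw, map_zero, neg_zero]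
    obtain ⟨p1, p2⟩ := hpos v hvf (fun s => b v (y s)) r1 r2 hvl
    refine ⟨?_, fun h => ?_⟩
    · rw [r3, neg_neg]; exact p1
    · rw [← hlk]
      apply r4
      apply p2
      rw [h] at r3
      linarith
  have hnn : ∀ v ∈ far G (lk G A r) x,
      0 ≤ N x v * ((-1) ^ m * - om G A d B m (insert v r) y y) := by
    intro v hvf
    obtain ⟨h1, h2, h3⟩ := mem_far.1 hvf
    exact mul_nonneg (hF.npos x (hLA hx) v (hLA h1) (Ne.symm h2) h3).le (key v hvf).1
  have hz : ∑ v ∈ far G (lk G A r) x,
      N x v * ((-1) ^ m * - om G A d B m (insert v r) y y) = 0 := by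
    have h1 : ∑ v ∈ far G (lk G A r) x, N x v * ((-1) ^ m * - om G A d B m (insert v r) y y) =
        - (-1) ^ m * ∑ v ∈ far G (lk G A r) x, N x v * om G A d B m (insert v r) y y := by
      rw [Finset.mul_sum]
      apply Finset.sum_congr rfl
      intro v _
      ring
    rw [h1, hsum, mul_zero]
  intro v hvf
  apply (key v hvf).2
  obtain ⟨h1, h2, h3⟩ := mem_far.1 hvf
  have h4 := (Finset.sum_eq_zero_iff_of_nonneg hnn).1 hz v hvf
  have h5 := hF.npos x (hLA hx) v (hLA h1) (Ne.symm h2) h3
  have h6 : ((-1 : ℝ) ^ m) ≠ 0 := pow_ne_zero _ (by norm_num)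
  rcases mul_eq_zero.1 h4 with h | h
  · exact absurd h h5.ne'
  · rcases mul_eq_zero.1 h with h | h
    · exact absurd h h6
    · linarith

end Pool.Agent.H31.GS
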