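import Pool.Agent.H31.GS.Cob

/-!
# helper31, GS, module OM1: elementary properties of the form `om`

All immediate from the definition: `om` is a finite sum of values of bilinear maps.

`om_congr`: for a facet `F ⊇ r` and `s ⊆ F \ r` with `i` elements both `s` and `(F \ r) \ s` are simplices of
`lk G A r` (`cl_sdiff`, `Cl.subset`), with `i` and `d - r.card - i` elements.

`om_zero_of`: if no facet contains `r` (for instance if `r` contains two non-adjacent vertices) the sum is empty.
-/

namespace Pool.Agent.H31.GS

open Finset

set_option linter.unusedSectionVars false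
set_option linter.unusedVariables false

variable {V : Type} [Fintype V] [LinearOrder V] {G : SimpleGraph V}
variable {U : Type} [AddCommGroup U] [Module ℝ U]
variable {A : Finset V} {d : ℕ} {B : Finset V → U →ₗ[ℝ] U →ₗ[ℝ] ℝ}

theorem om_add_left (i : ℕ) (r : Finset V) (y z w : Finset V → U) :
    om G A d B i r (fun s => y s + z s) w = om G A d B i r y w + om G A d B i r z w := by
  simp only [om, map_add, LinearMap.add_apply, Finset.sum_add_distrib]

theorem om_add_right (i : ℕ) (r : Finset V) (y z w : Finset V → U) :
    om G A d B i r y (fun s => z s + w s) = om G A d B i r y z + om G A d B i r y w := by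
  simp only [om, map_add, Finset.sum_add_distrib]

theorem om_smul_left (i : ℕ) (r : Finset V) (c : ℝ) (y w : Finset V → U) :
    om G A d B i r (fun s => c • y s) w = c * om G A d B i r y w := by
  simp only [om, map_smul, LinearMap.smul_apply, smul_eq_mul, Finset.mul_sum]

theorem om_smul_right (i : ℕ) (r : Finset V) (c : ℝ) (y w : Finset V → U) :
    om G A d B i r y (fun s => c • w s) = c * om G A d B i r y w := by
  simp only [om, map_smul, smul_eq_mul, Finset.mul_sum]

theorem om_neg_left (i : ℕ) (r : Finset V) (y w : Finset V → U) :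
    om G A d B i r (fun s => - y s) w = - om G A d B i r y w := by
  simp only [om, map_neg, LinearMap.neg_apply, Finset.sum_neg_distrib]

theorem om_neg_right (i : ℕ) (r : Finset V) (y w : Finset V → U) :
    om G A d B i r y (fun s => - w s) = - om G A d B i r y w := by
  simp only [om, map_neg, Finset.sum_neg_distrib]

theorem om_sub_left (i : ℕ) (r : Finset V) (y z w : Finset V → U) :
    om G A d B i r (fun s => y s - z s) w = om G A d B i r y w - om G A d B i r z w := by
  simp only [om, map_sub, LinearMap.sub_apply, Finset.sum_sub_distrib]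

theorem om_sub_right (i : ℕ) (r : Finset V) (y z w : Finset V → U) :
    om G A d B i r y (fun s => z s - w s) = om G A d B i r y z - om G A d B i r y w := by
  simp only [om, map_sub, Finset.sum_sub_distrib]

theorem om_sum_left {κ : Type} (S : Finset κ) (i : ℕ) (r : Finset V) (y : κ → Finset V → U)
    (w : Finset V → U) :
    om G A d B i r (fun s => ∑ k ∈ S, y k s) w = ∑ k ∈ S, om G A d B i r (y k) w := by
  unfold om
  rw [Finset.sum_comm]
  refine Finset.sum_congr rfl (fun F _ => ?_)
  rw [Finset.sum_comm]
  refine Finset.sum_congr rfl (fun s _ => ?_)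
  rw [map_sum, LinearMap.sum_apply]

theorem om_sum_right {κ : Type} (S : Finset κ) (i : ℕ) (r : Finset V) (y : Finset V → U)
    (w : κ → Finset V → U) :
    om G A d B i r y (fun s => ∑ k ∈ S, w k s) = ∑ k ∈ S, om G A d B i r y (w k) := by
  unfold om
  rw [Finset.sum_comm]
  refine Finset.sum_congr rfl (fun F _ => ?_)
  rw [Finset.sum_comm]
  refine Finset.sum_congr rfl (fun s _ => ?_)
  rw [map_sum]

theorem om_congr {i : ℕ} {r : Finset V} {y z y' z' : Finset V → U}
    (h : ∀ s, Cl G (lk G A r) s → s.card = i → y s = z s)
    (h' : ∀ s, Cl G (lk G A r) s → s.card + i + r.card = d → y' s = z' s) :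
    om G A d B i r y y' = om G A d B i r z z' := by
  unfold om
  refine Finset.sum_congr rfl (fun F hF => ?_)
  simp only [mem_filter, mem_powerset] at hF
  obtain ⟨_, hFc, hFd, hrF⟩ := hF
  refine Finset.sum_congr rfl (fun s hs => ?_)
  rw [mem_powersetCard] at hs
  have hcl : Cl G (lk G A r) (F \ r) := cl_sdiff hFc hrF
  rw [h s (hcl.subset hs.1) hs.2, h' _ (hcl.subset sdiff_subset) ?_]
  have h1 : ((F \ r) \ s).card = (F \ r).card - s.card := card_sdiff_of_subset hs.1
  have h2 : (F \ r).card = F.card - r.card := card_sdiff_of_subset hrF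
  have h3 := card_le_card hs.1
  have h4 := card_le_card hrF
  omega

theorem om_zero_of {i : ℕ} {r : Finset V} {y y' : Finset V → U} {v w : V} (hv : v ∈ r)
    (hw : w ∈ r) (hvw : v ≠ w) (hna : ¬ G.Adj v w) : om G A d B i r y y' = 0 := by
  unfold om
  refine Finset.sum_eq_zero (fun F hF => ?_)
  simp only [mem_filter, mem_powerset] at hF
  obtain ⟨_, hFc, hFd, hrF⟩ := hF
  exact absurd (hFc.adj (hrF hv) (hrF hw) hvw) hna

end Pool.Agent.H31.GS
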