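import Pool.Agent.H31.GS.Om1

/-!
# helper31, GS, module OM2: the coboundary is skew for the form (Stokes)

`om_stokes`. Write `R = F \ r`. Left side: `∑ F, ∑ s ∈ R.powersetCard (i+1), ∑ v ∈ s, B F (a v (y (s.erase v))) (y' (R \ s))`
`= - ∑ F, ∑ s, ∑ v ∈ s, B F (y (s.erase v)) (b v (y' (R \ s)))` by `fa`. Reindex `(s, v) ↦ (s' = s.erase v, v)`: `s'` runs
through `R.powersetCard i` and `v` through `R \ s'`, and `R \ s = (R \ s').erase v`. So the left side is
`- ∑ F, ∑ s' ∈ R.powersetCard i, ∑ v ∈ R \ s', B F (y s') (b v (y' ((R \ s').erase v)))`. The right side is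
`- ∑ F, ∑ s' ∈ R.powersetCard i, ∑ v ∈ R \ s', B F (y s') (a v (y' ((R \ s').erase v)))`. The difference is
(up to sign) `∑ F, ∑ s', ∑ v ∈ R \ s', B F (y s') ((a v - b v) (y' ((R \ s').erase v)))`. Reindex by `ρ = F.erase v` (a
simplex of `A` containing `r ∪ s'`, with `d - 1` elements) and `v ∈ lk G A ρ` (`F = insert v ρ` is a facet, `v ∉ r ∪ s'`):
`∑ ρ, ∑ s' ∈ (ρ \ r).powersetCard i, ∑ v ∈ lk G A ρ, B (insert v ρ) (y s') (a v t - b v t)` with
`t = y' ((ρ \ r) \ s')`, and this is zero by `ridge`.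
(Use `Finset.sum_sigma'` and `Finset.sum_bij'` / `sum_nbij'`.)
-/

namespace Pool.Agent.H31.GS

open Finset

set_option linter.unusedSectionVars false
set_option linter.unusedVariables false

variable {V : Type} [Fintype V] [LinearOrder V] {G : SimpleGraph V}
variable {U : Type} [AddCommGroup U] [Module ℝ U] {a b : V → Module.End ℝ U}
variable {A : Finset V} {d : ℕ} {N : V → V → ℝ} {B : Finset V → U →ₗ[ℝ] U →ₗ[ℝ] ℝ}

theorem om2_reindex (R : Finset V) (i : ℕ) (f : Finset V → V → ℝ) :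
    ∑ s ∈ R.powersetCard (i + 1), ∑ v ∈ s, f s v =
      ∑ s ∈ R.powersetCard i, ∑ v ∈ R \ s, f (insert v s) v := by
  rw [Finset.sum_sigma', Finset.sum_sigma']
  refine Finset.sum_bij' (i := fun p _ => (⟨p.1.erase p.2, p.2⟩ : (_ : Finset V) × V))
    (j := fun p _ => (⟨insert p.2 p.1, p.2⟩ : (_ : Finset V) × V)) ?_ ?_ ?_ ?_ ?_
  · rintro ⟨s, v⟩ h
    simp only [mem_sigma, mem_powersetCard, mem_sdiff] at h ⊢
    obtain ⟨⟨h1, h2⟩, h3⟩ := h
    refine ⟨⟨(erase_subset _ _).trans h1, ?_⟩, h1 h3, by simp⟩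
    rw [card_erase_of_mem h3, h2]; rfl
  · rintro ⟨s, v⟩ h
    simp only [mem_sigma, mem_powersetCard, mem_sdiff] at h ⊢
    obtain ⟨⟨h1, h2⟩, h3, h4⟩ := h
    refine ⟨⟨insert_subset h3 h1, ?_⟩, mem_insert_self _ _⟩
    rw [card_insert_of_notMem h4, h2]
  · rintro ⟨s, v⟩ h
    simp only [mem_sigma, mem_powersetCard] at h
    simp only [insert_erase h.2]
  · rintro ⟨s, v⟩ h
    simp only [mem_sigma, mem_powersetCard, mem_sdiff] at h
    simp only [erase_insert h.2.2]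
  · rintro ⟨s, v⟩ h
    simp only [mem_sigma, mem_powersetCard] at h
    simp only [insert_erase h.2]

open Classical in
theorem om2_ridge (r : Finset V) (i d : ℕ) (g : Finset V → Finset V → V → ℝ) :
    ∑ F ∈ A.powerset.filter (fun F => Cl G A F ∧ F.card = d ∧ r ⊆ F),
      ∑ s ∈ (F \ r).powersetCard i, ∑ v ∈ (F \ r) \ s, g F s v =
    ∑ ρ ∈ A.powerset.filter (fun ρ => Cl G A ρ ∧ ρ.card + 1 = d ∧ r ⊆ ρ),
      ∑ s ∈ (ρ \ r).powersetCard i, ∑ v ∈ lk G A ρ, g (insert v ρ) s v := by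
  rw [Finset.sum_sigma', Finset.sum_sigma', Finset.sum_sigma', Finset.sum_sigma']
  refine Finset.sum_bij'
    (i := fun p _ => (⟨⟨p.1.1.erase p.2, p.1.2⟩, p.2⟩ : (_ : (_ : Finset V) × Finset V) × V))
    (j := fun p _ => (⟨⟨insert p.2 p.1.1, p.1.2⟩, p.2⟩ : (_ : (_ : Finset V) × Finset V) × V))
    ?_ ?_ ?_ ?_ ?_
  · rintro ⟨⟨F, s⟩, v⟩ h
    simp only [mem_sigma, mem_powersetCard, mem_sdiff, mem_filter, mem_powerset] at h ⊢
    obtain ⟨⟨⟨h1, h2, h3, h4⟩, h5, h6⟩, ⟨h7, h8⟩, h9⟩ := h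
    refine ⟨⟨⟨(erase_subset _ _).trans h1, h2.erase v, ?_, ?_⟩, ?_, h6⟩, ?_⟩
    · rw [card_erase_of_mem h7, h3]
      have : 0 < F.card := card_pos.2 ⟨v, h7⟩
      omega
    · intro x hx
      exact mem_erase.2 ⟨fun e => h8 (e ▸ hx), h4 hx⟩
    · intro x hx
      have := h5 hx
      rw [mem_sdiff] at this ⊢
      exact ⟨mem_erase.2 ⟨fun e => h9 (e ▸ hx), this.1⟩, this.2⟩
    · rw [mem_lk]
      refine ⟨h1 h7, fun w hw => ?_⟩
      rw [mem_erase] at hw
      exact h2.adj hw.2 h7 hw.1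
  · rintro ⟨⟨F, s⟩, v⟩ h
    simp only [mem_sigma, mem_powersetCard, mem_sdiff, mem_filter, mem_powerset] at h ⊢
    obtain ⟨⟨⟨h1, h2, h3, h4⟩, h5, h6⟩, h7⟩ := h
    have h8 := cl_insert_lk h2 h7
    refine ⟨⟨⟨h8.1.1, h8.1, ?_, ?_⟩, ?_, h6⟩, ⟨mem_insert_self _ _, ?_⟩, ?_⟩
    · rw [card_insert_of_notMem h8.2, h3]
    · exact h4.trans (subset_insert _ _)
    · intro x hx
      have := h5 hx
      rw [mem_sdiff] at this ⊢
      exact ⟨mem_insert_of_mem this.1, this.2⟩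
    · exact fun e => h8.2 (h4 e)
    · exact fun e => h8.2 (mem_sdiff.1 (h5 e)).1
  · rintro ⟨⟨F, s⟩, v⟩ h
    simp only [mem_sigma, mem_powersetCard, mem_sdiff, mem_filter, mem_powerset] at h
    simp only [insert_erase h.2.1.1]
  · rintro ⟨⟨F, s⟩, v⟩ h
    simp only [mem_sigma, mem_powersetCard, mem_filter, mem_powerset] at h
    simp only [erase_insert (cl_insert_lk h.1.1.2.1 h.2).2]
  · rintro ⟨⟨F, s⟩, v⟩ h
    simp only [mem_sigma, mem_powersetCard, mem_sdiff, mem_filter, mem_powerset] at h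
    simp only [insert_erase h.2.1.1]

theorem om_stokes (hF : FSys G A d a b N B) (i : ℕ) {r : Finset V} (hr : Cl G A r)
    (y y' : Finset V → U) :
    om G A d B (i + 1) r (fun s => cob a y s) y' = - om G A d B i r y (fun s => cob a y' s) := by
  classical
  have hL : om G A d B (i + 1) r (fun s => cob a y s) y' =
      - ∑ F ∈ A.powerset.filter (fun F => Cl G A F ∧ F.card = d ∧ r ⊆ F),
        ∑ s ∈ (F \ r).powersetCard i, ∑ v ∈ (F \ r) \ s,
          B F (y s) (b v (y' (((F \ r) \ s).erase v))) := by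
    rw [om, ← Finset.sum_neg_distrib]
    refine Finset.sum_congr (by congr) fun F hFF => ?_
    simp only [mem_filter, mem_powerset] at hFF
    obtain ⟨h1, h2, h3, h4⟩ := hFF
    have e1 : ∀ s ∈ (F \ r).powersetCard (i + 1), B F (cob a y s) (y' ((F \ r) \ s)) =
        ∑ v ∈ s, - B F (y (s.erase v)) (b v (y' ((F \ r) \ s))) := by
      intro s hs
      rw [mem_powersetCard] at hs
      rw [cob, map_sum, LinearMap.sum_apply]
      refine Finset.sum_congr rfl fun v hv => ?_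
      exact hF.fa F h2 h3 v (mem_sdiff.1 (hs.1 hv)).1 _ _
    rw [Finset.sum_congr rfl e1,
      om2_reindex (F \ r) i (fun s v => - B F (y (s.erase v)) (b v (y' ((F \ r) \ s)))),
      ← Finset.sum_neg_distrib]
    refine Finset.sum_congr rfl fun s hs => ?_
    rw [← Finset.sum_neg_distrib]
    refine Finset.sum_congr rfl fun v hv => ?_
    rw [mem_sdiff] at hv
    have e2 : (F \ r) \ insert v s = ((F \ r) \ s).erase v := by
      ext x; simp only [mem_sdiff, mem_insert, mem_erase]; tauto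
    rw [erase_insert hv.2, e2]
  have hR : om G A d B i r y (fun s => cob a y' s) =
      ∑ F ∈ A.powerset.filter (fun F => Cl G A F ∧ F.card = d ∧ r ⊆ F),
        ∑ s ∈ (F \ r).powersetCard i, ∑ v ∈ (F \ r) \ s,
          B F (y s) (a v (y' (((F \ r) \ s).erase v))) := by
    rw [om]
    refine Finset.sum_congr (by congr) fun F hFF => ?_
    refine Finset.sum_congr rfl fun s hs => ?_
    rw [cob, map_sum]
  rw [hL, hR, neg_inj, ← sub_eq_zero, ← neg_eq_zero, neg_sub, ← Finset.sum_sub_distrib]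
  have e3 : ∀ F ∈ A.powerset.filter (fun F => Cl G A F ∧ F.card = d ∧ r ⊆ F),
      (∑ s ∈ (F \ r).powersetCard i, ∑ v ∈ (F \ r) \ s,
          B F (y s) (a v (y' (((F \ r) \ s).erase v)))) -
        (∑ s ∈ (F \ r).powersetCard i, ∑ v ∈ (F \ r) \ s,
          B F (y s) (b v (y' (((F \ r) \ s).erase v)))) =
      ∑ s ∈ (F \ r).powersetCard i, ∑ v ∈ (F \ r) \ s,
        B F (y s) (a v (y' (((F \ r) \ s).erase v)) - b v (y' (((F \ r) \ s).erase v))) := by
    intro F _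
    rw [← Finset.sum_sub_distrib]
    refine Finset.sum_congr rfl fun s _ => ?_
    rw [← Finset.sum_sub_distrib]
    refine Finset.sum_congr rfl fun v _ => ?_
    rw [map_sub]
  rw [Finset.sum_congr rfl e3, om2_ridge (G := G) (A := A) r i d (fun F s v =>
    B F (y s) (a v (y' (((F \ r) \ s).erase v)) - b v (y' (((F \ r) \ s).erase v))))]
  refine Finset.sum_eq_zero fun ρ hρ => ?_
  simp only [mem_filter, mem_powerset] at hρ
  obtain ⟨h1, h2, h3, h4⟩ := hρ
  refine Finset.sum_eq_zero fun s hs => ?_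
  rw [← hF.ridge ρ h2 h3 (y s) (y' ((ρ \ r) \ s))]
  refine Finset.sum_congr rfl fun v hv => ?_
  have h5 := (cl_insert_lk h2 hv).2
  have e4 : ((insert v ρ \ r) \ s).erase v = (ρ \ r) \ s := by
    ext x
    simp only [mem_sdiff, mem_insert, mem_erase]
    constructor
    · rintro ⟨g1, ⟨g2 | g2, g3⟩, g4⟩
      · exact absurd g2 g1
      · exact ⟨⟨g2, g3⟩, g4⟩
    · rintro ⟨⟨g2, g3⟩, g4⟩
      exact ⟨fun e => h5 (e ▸ g2), ⟨Or.inr g2, g3⟩, g4⟩
  rw [e4]

end Pool.Agent.H31.GS
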