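import Pool.Agent.H31.GS.Om2

/-!
# helper31, GS, module OM3: the form and links

`xm v y` is the extension by zero of a cochain of the link of `v`.

`om_xm_right`: for a facet `F ⊇ r`, `s ⊆ F \ r` with `i` elements: `v ∈ (F \ r) \ s` iff `v ∈ F` and `v ∉ s` (as `v ∉ r`);
then `(F \ r) \ s` with `v` erased is `(F \ insert v r) \ s`. So both sides are
`∑ F ⊇ insert v r, ∑ s ∈ (F \ insert v r).powersetCard i, B F (y s) (y' ((F \ insert v r) \ s))`.
`om_xm_left`: the same with `s ∋ v`, `s ↦ s.erase v`.

`om_ax`: `fo` (no facet `F ⊇ r` contains `x`, because `v ∈ r` is different from and not adjacent to `x`).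

`om_star`: for `F ∋ v` and `x, x'` killed by `a v`: `B F x x' = - B F (b v x) (b v x')`, because
`B F (b v x) (b v x') = - B F x (a v (b v x')) = - B F x x'` (`fb`, `a v (b v x') = x' - b v (a v x')`).

`om_bd_left`: `y = cob a x` on simplices of size `i`. `i = 0`: `y ∅ = 0`, `om_congr` with `0`. `i = j + 1`: `om_congr`,
`om_stokes`, and `cob a y' t = 0` for the relevant `t` (size `d - r.card - j`).
`om_bd_right`: similarly, `om_stokes` backwards.
-/

namespace Pool.Agent.H31.GS

open Finset

set_option linter.unusedSectionVars false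
set_option linter.unusedVariables false

variable {V : Type} [Fintype V] [LinearOrder V] {G : SimpleGraph V}
variable {U : Type} [AddCommGroup U] [Module ℝ U] {a b : V → Module.End ℝ U}
variable {A : Finset V} {d : ℕ} {N : V → V → ℝ} {B : Finset V → U →ₗ[ℝ] U →ₗ[ℝ] ℝ}

/-- extension by zero from the link of `v` -/
def xm (v : V) (y : Finset V → U) (s : Finset V) : U := if v ∈ s then y (s.erase v) else 0

open Classical in
noncomputable def om3_fac (G : SimpleGraph V) (A : Finset V) (d : ℕ) (r : Finset V) :
    Finset (Finset V) :=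
  A.powerset.filter (fun F => Cl G A F ∧ F.card = d ∧ r ⊆ F)

open Classical in
theorem om3_mem {r F : Finset V} :
    F ∈ om3_fac G A d r ↔ Cl G A F ∧ F.card = d ∧ r ⊆ F := by
  unfold om3_fac
  rw [mem_filter, mem_powerset]
  exact ⟨fun h => h.2, fun h => ⟨h.1.1, h⟩⟩

theorem om3_eq (i : ℕ) (r : Finset V) (y y' : Finset V → U) :
    om G A d B i r y y' = ∑ F ∈ om3_fac G A d r,
      ∑ s ∈ (F \ r).powersetCard i, B F (y s) (y' ((F \ r) \ s)) := rfl

theorem om3_sub {r : Finset V} {v : V} : om3_fac G A d (insert v r) ⊆ om3_fac G A d r := by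
  intro F hF
  rw [om3_mem] at hF ⊢
  exact ⟨hF.1, hF.2.1, (subset_insert v r).trans hF.2.2⟩

theorem om3_notMem {r F : Finset V} {v : V} (hF : F ∈ om3_fac G A d r)
    (hF' : F ∉ om3_fac G A d (insert v r)) : v ∉ F := by
  intro hv
  rw [om3_mem] at hF hF'
  exact hF' ⟨hF.1, hF.2.1, insert_subset hv hF.2.2⟩

theorem om3_sdiff {r F : Finset V} {v : V} (hv : v ∉ r) (hF : v ∈ F) :
    F \ r = insert v (F \ insert v r) ∧ v ∉ F \ insert v r := by
  constructor
  · ext x
    simp only [mem_sdiff, mem_insert, not_or]
    constructor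
    · rintro ⟨h1, h2⟩
      by_cases hx : x = v
      · exact Or.inl hx
      · exact Or.inr ⟨h1, hx, h2⟩
    · rintro (rfl | ⟨h1, -, h2⟩)
      · exact ⟨hF, hv⟩
      · exact ⟨h1, h2⟩
  · simp

theorem om_xm_right (i : ℕ) {r : Finset V} {v : V} (hv : v ∉ r) (y y' : Finset V → U) :
    om G A d B i r y (xm v y') = om G A d B i (insert v r) y y' := by
  rw [om3_eq, om3_eq]
  symm
  calc _ = ∑ F ∈ om3_fac G A d (insert v r),
        ∑ s ∈ (F \ r).powersetCard i, B F (y s) (xm v y' ((F \ r) \ s)) := by
        refine sum_congr rfl fun F hF => ?_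
        have hvF : v ∈ F := (om3_mem.1 hF).2.2 (mem_insert_self v r)
        obtain ⟨h1, h2⟩ := om3_sdiff hv hvF
        have h3 : (F \ insert v r).powersetCard i ⊆ (F \ r).powersetCard i := by
          refine powersetCard_mono ?_
          rw [h1]
          exact subset_insert _ _
        calc _ = ∑ s ∈ (F \ insert v r).powersetCard i, B F (y s) (xm v y' ((F \ r) \ s)) := by
              refine sum_congr rfl fun s hs => ?_
              have hvs : v ∉ s := fun h => h2 ((mem_powersetCard.1 hs).1 h)
              have h4 : v ∈ (F \ r) \ s := by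
                rw [h1]
                exact mem_sdiff.2 ⟨mem_insert_self _ _, hvs⟩
              have h5 : ((F \ r) \ s).erase v = (F \ insert v r) \ s := by
                rw [h1, insert_sdiff_of_notMem _ hvs, erase_insert]
                intro h
                exact h2 (mem_sdiff.1 h).1
              unfold xm
              rw [if_pos h4, h5]
          _ = _ := by
              refine sum_subset h3 fun s hs hs' => ?_
              have hvs : v ∈ s := by
                by_contra hvs
                refine hs' (mem_powersetCard.2 ⟨?_, (mem_powersetCard.1 hs).2⟩)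
                intro x hx
                have h6 := (mem_powersetCard.1 hs).1 hx
                rw [h1] at h6
                rcases mem_insert.1 h6 with h7 | h7
                · exact absurd (h7 ▸ hx) hvs
                · exact h7
              unfold xm
              rw [if_neg fun h => (mem_sdiff.1 h).2 hvs, map_zero]
    _ = _ := by
        refine sum_subset om3_sub fun F hF hF' => ?_
        have hvF := om3_notMem hF hF'
        refine sum_eq_zero fun s _ => ?_
        unfold xm
        rw [if_neg fun h => hvF (mem_sdiff.1 (mem_sdiff.1 h).1).1, map_zero]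

theorem om3_split {T : Finset V} {v : V} (hv : v ∉ T) (i : ℕ) (g : Finset V → ℝ) :
    ∑ s ∈ (insert v T).powersetCard (i + 1), g s =
      ∑ s ∈ T.powersetCard (i + 1), g s + ∑ s ∈ T.powersetCard i, g (insert v s) := by
  rw [powersetCard_succ_insert hv, sum_union, sum_image]
  · intro s hs t ht hst
    have h1 : v ∉ s := fun h => hv ((mem_powersetCard.1 hs).1 h)
    have h2 : v ∉ t := fun h => hv ((mem_powersetCard.1 ht).1 h)
    have h3 : insert v s = insert v t := hst
    rw [← erase_insert h1, ← erase_insert h2, h3]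
  · rw [disjoint_left]
    intro s hs hs'
    obtain ⟨t, _, rfl⟩ := mem_image.1 hs'
    exact hv ((mem_powersetCard.1 hs).1 (mem_insert_self v t))

theorem om_xm_left (i : ℕ) {r : Finset V} {v : V} (hv : v ∉ r) (y y' : Finset V → U) :
    om G A d B (i + 1) r (xm v y) y' = om G A d B i (insert v r) y y' := by
  rw [om3_eq, om3_eq]
  symm
  calc _ = ∑ F ∈ om3_fac G A d (insert v r),
        ∑ s ∈ (F \ r).powersetCard (i + 1), B F (xm v y s) (y' ((F \ r) \ s)) := by
        refine sum_congr rfl fun F hF => ?_
        have hvF : v ∈ F := (om3_mem.1 hF).2.2 (mem_insert_self v r)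
        obtain ⟨h1, h2⟩ := om3_sdiff hv hvF
        rw [h1, om3_split h2]
        have h3 : ∑ s ∈ (F \ insert v r).powersetCard (i + 1),
            B F (xm v y s) (y' (insert v (F \ insert v r) \ s)) = 0 := by
          refine sum_eq_zero fun s hs => ?_
          have hvs : v ∉ s := fun h => h2 ((mem_powersetCard.1 hs).1 h)
          unfold xm
          rw [if_neg hvs, map_zero, LinearMap.zero_apply]
        rw [h3, zero_add]
        refine sum_congr rfl fun s hs => ?_
        have hvs : v ∉ s := fun h => h2 ((mem_powersetCard.1 hs).1 h)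
        unfold xm
        rw [if_pos (mem_insert_self v s), erase_insert hvs]
        congr 2
        ext x
        simp only [mem_sdiff, mem_insert, not_or]
        constructor
        · rintro ⟨⟨h4, h5, h6⟩, h7⟩
          exact ⟨Or.inr ⟨h4, h5, h6⟩, h5, h7⟩
        · rintro ⟨h4 | h4, h5, h6⟩
          · exact absurd h4 h5
          · exact ⟨h4, h6⟩
    _ = _ := by
        refine sum_subset om3_sub fun F hF hF' => ?_
        have hvF := om3_notMem hF hF'
        refine sum_eq_zero fun s hs => ?_
        unfold xm
        rw [if_neg fun h => hvF (mem_sdiff.1 ((mem_powersetCard.1 hs).1 h)).1, map_zero,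
          LinearMap.zero_apply]

theorem om_ax (hF : FSys G A d a b N B) (i : ℕ) {r : Finset V} {v x : V} (hv : v ∈ r) (hx : x ∈ A)
    (hne : v ≠ x) (hna : ¬ G.Adj v x) (y y' : Finset V → U) :
    om G A d B i r (fun s => a x (y s)) y' = - om G A d B i r y (fun s => a x (y' s)) := by
  rw [om3_eq, om3_eq, ← sum_neg_distrib]
  refine sum_congr rfl fun F hF' => ?_
  rw [om3_mem] at hF'
  rw [← sum_neg_distrib]
  refine sum_congr rfl fun s _ => ?_
  have hxF : x ∉ F := fun h => hna (hF'.1.adj (hF'.2.2 hv) h hne)
  exact hF.fo F hF'.1 hF'.2.1 x hx hxF _ _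

theorem om_star (hF : FSys G A d a b N B) (i : ℕ) {r : Finset V} {v : V} (hv : v ∈ r)
    {y y' : Finset V → U} (hy : ∀ s, Cl G (lk G A r) s → s.card = i → a v (y s) = 0)
    (hy' : ∀ s, Cl G (lk G A r) s → s.card + i + r.card = d → a v (y' s) = 0) :
    om G A d B i r y y' = - om G A d B i r (fun s => b v (y s)) (fun s => b v (y' s)) := by
  rw [om3_eq, om3_eq, ← sum_neg_distrib]
  refine sum_congr rfl fun F hF' => ?_
  rw [om3_mem] at hF'
  obtain ⟨hcl, hcard, hrF⟩ := hF'
  rw [← sum_neg_distrib]
  refine sum_congr rfl fun s hs => ?_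
  obtain ⟨hs1, hs2⟩ := mem_powersetCard.1 hs
  have hvF : v ∈ F := hrF hv
  have hvA : v ∈ A := hcl.1 hvF
  have hc1 : Cl G (lk G A r) ((F \ r) \ s) := (cl_sdiff hcl hrF).subset sdiff_subset
  have hc2 : ((F \ r) \ s).card + i + r.card = d := by
    rw [card_sdiff_of_subset hs1, card_sdiff_of_subset hrF, hs2, hcard]
    have h1 := card_le_card hs1
    rw [card_sdiff_of_subset hrF, hs2, hcard] at h1
    have h2 := card_le_card hrF
    rw [hcard] at h2
    omega
  have h3 := hF.fb F hcl hcard v hvF (y s) (b v (y' ((F \ r) \ s)))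
  have h4 := hF.sys.ab v hvA (y' ((F \ r) \ s))
  rw [hy' _ hc1 hc2, map_zero, add_zero] at h4
  rw [h4] at h3
  show B F (y s) (y' ((F \ r) \ s)) = - B F (b v (y s)) (b v (y' ((F \ r) \ s)))
  rw [h3, neg_neg]

theorem om3_zero_left (i : ℕ) (r : Finset V) (y' : Finset V → U) :
    om G A d B i r (fun _ => 0) y' = 0 := by
  unfold om
  refine sum_eq_zero fun F _ => sum_eq_zero fun s _ => ?_
  rw [map_zero, LinearMap.zero_apply]

theorem om3_zero_right (i : ℕ) (r : Finset V) (y : Finset V → U) :
    om G A d B i r y (fun _ => 0) = 0 := by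
  unfold om
  refine sum_eq_zero fun F _ => sum_eq_zero fun s _ => ?_
  rw [map_zero]

theorem om_bd_left (hF : FSys G A d a b N B) {i j : ℕ} {r : Finset V} (hr : Cl G A r)
    (hij : i + j + r.card = d) {y y' : Finset V → U} (hy : Bd G a (lk G A r) i y)
    (hy' : Clo G a (lk G A r) j y') : om G A d B i r y y' = 0 := by
  obtain ⟨x, -, hx⟩ := hy
  cases i with
  | zero =>
    rw [om_congr (z := fun _ => 0) (z' := y') (fun s hs hsc => ?_) (fun _ _ _ => rfl),
      om3_zero_left]
    rw [hx s hs hsc, card_eq_zero.1 hsc]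
    simp [cob]
  | succ k =>
    rw [om_congr (z := fun s => cob a x s) (z' := y') (fun s hs hsc => hx s hs hsc)
      (fun _ _ _ => rfl), om_stokes hF k hr,
      om_congr (z := x) (z' := fun _ => 0) (fun _ _ _ => rfl) (fun s hs hsc => ?_),
      om3_zero_right, neg_zero]
    exact hy' s hs (by omega)

theorem om_bd_right (hF : FSys G A d a b N B) {i j : ℕ} {r : Finset V} (hr : Cl G A r)
    (hij : i + j + r.card = d) {y y' : Finset V → U} (hy : Clo G a (lk G A r) i y)
    (hy' : Bd G a (lk G A r) j y') : om G A d B i r y y' = 0 := by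
  obtain ⟨x, -, hx⟩ := hy'
  rw [om_congr (z := y) (z' := fun s => cob a x s) (fun _ _ _ => rfl)
    (fun s hs hsc => hx s hs (by omega))]
  have h1 := om_stokes hF i hr y x
  rw [om_congr (z := fun _ => 0) (z' := x) (fun s hs hsc => hy s hs hsc) (fun _ _ _ => rfl),
    om3_zero_left] at h1
  linarith

end Pool.Agent.H31.GS
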