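import Pool.Agent.H31.GS.Cob

/-!
# helper31, GS, module PROJ: values in `Cell b r`

`L` is a set of vertices all adjacent to all vertices of the clique `r`.

`bd_val`: for `v ∈ r` the operator `P v = b v ∘ a v` is idempotent, commutes with all `a u`, `u ∈ L`, has values in
`ker (b v)` and is the identity on `ker (b v)`; for `w ∈ r`, `w ≠ v`, it commutes with `b w`, so preserves `ker (b w)`.
Induction on a subset `r'` of `r`: there is `x` with values in `Cell b r'` (everywhere), in the cells, `x s = 0` where the
original `x` is zero, and `y = cob a x`. For `insert v r'` replace `x` by `P v (x s)`: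
`cob a (P v x) s = P v (cob a x s) = P v (y s) = y s` because `b v (y s) = 0`.

`ex_of_val`: downward: show for all `r' ⊆ r`: every closed cochain with values in `Cell b r'` is a coboundary, by
induction on `(r \ r').card`. If `r' = r` it is the hypothesis. Otherwise let `v ∈ r \ r'`. `y = a v (b v y) + b v (a v y)`.
`b v y` is a closed cochain (`b v` anticommutes with the `a u`, `u ∈ L`) with values in `Cell b (insert v r')` (`b v` anticommutes
with `b w`, `w ∈ r'`), so `Bd`, and `a v` of it is `Bd` (`Bd.map_anti`). `b v (a v y)` is a closed cochain with values in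
`Cell b (insert v r')`, so `Bd`. Add (`Bd.add`, `Bd.congr`). Finally `r' = ∅`.
-/

namespace Pool.Agent.H31.GS

open Finset

set_option linter.unusedSectionVars false
set_option linter.unusedVariables false

variable {V : Type} [Fintype V] [LinearOrder V] {G : SimpleGraph V}
variable {U : Type} [AddCommGroup U] [Module ℝ U] {a b : V → Module.End ℝ U}

section proj

variable {A L r : Finset V}

theorem proj_ab (h : GSys G A a b) {u v : V} (hu : u ∈ A) (hv : v ∈ A) (e : G.Adj v u) (z : U) :
    a u (b v (a v z)) = b v (a v (a u z)) := by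
  rw [h.cab u hu v hv e.symm, h.caa u hu v hv e.symm, map_neg, neg_neg]

theorem proj_bb (h : GSys G A a b) {u v : V} (hu : u ∈ A) (hv : v ∈ A) (e : G.Adj v u) (z : U) :
    b u (b v (a v z)) = b v (a v (b u z)) := by
  rw [h.cbb u hu v hv e.symm, h.cba hu hv e.symm, map_neg, neg_neg]

end proj

theorem bd_val {A L r : Finset V} (h : GSys G A a b) (hr : Cl G A r) (hL : L ⊆ lk G A r) {i : ℕ}
    {y x : Finset V → U} (hy : Vl G b L i r y)
    (hx : ∀ s, Cl G L s → s.card + 1 = i → x s ∈ Cell a s)
    (hxy : ∀ s, Cl G L s → s.card = i → y s = cob a x s) :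
    ∃ x' : Finset V → U, (∀ s, x' s ∈ Cell b r) ∧ (∀ s, x s = 0 → x' s = 0) ∧
      (∀ s, Cl G L s → s.card + 1 = i → x' s ∈ Cell a s) ∧
      ∀ s, Cl G L s → s.card = i → y s = cob a x' s := by
  classical
  have key : ∀ r' : Finset V, r' ⊆ r → ∃ x' : Finset V → U, (∀ s, x' s ∈ Cell b r') ∧
      (∀ s, x s = 0 → x' s = 0) ∧ (∀ s, Cl G L s → s.card + 1 = i → x' s ∈ Cell a s) ∧
      ∀ s, Cl G L s → s.card = i → y s = cob a x' s := by
    intro r'
    induction r' using Finset.induction_on with
    | empty => exact fun _ => ⟨x, fun s v hv => absurd hv (notMem_empty v), fun s hs => hs, hx, hxy⟩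
    | insert v r' hv ih =>
      intro hsub
      obtain ⟨x', h1, h2, h3, h4⟩ := ih ((subset_insert v r').trans hsub)
      have hvr : v ∈ r := hsub (mem_insert_self v r')
      have hvA : v ∈ A := hr.1 hvr
      refine ⟨fun s => b v (a v (x' s)), ?_, ?_, ?_, ?_⟩
      · intro s w hw
        rcases mem_insert.1 hw with rfl | hw
        · exact h.bb w hvA _
        · have hwr : w ∈ r := hsub (mem_insert_of_mem hw)
          have hne : v ≠ w := fun e => hv (e ▸ hw)
          rw [proj_bb h (hr.1 hwr) hvA (hr.adj hvr hwr hne), h1 s w hw, map_zero, map_zero]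
      · intro s hs
        simp only [h2 s hs, map_zero]
      · intro s hs hc u hu
        have huL := mem_lk.1 (hL (hs.1 hu))
        rw [proj_ab h huL.1 hvA (huL.2 v hvr), h3 s hs hc u hu, map_zero, map_zero]
      · intro s hs hc
        have h5 : cob a (fun t => (b v * a v) (x' t)) s = (b v * a v) (cob a x' s) :=
          cob_comm (fun u hu z => by
            have huL := mem_lk.1 (hL (hs.1 hu))
            exact proj_ab h huL.1 hvA (huL.2 v hvr) z)
        have h6 : cob a (fun t => b v (a v (x' t))) s = b v (a v (cob a x' s)) := h5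
        rw [h6, ← h4 s hs hc]
        have h7 := h.ab v hvA (y s)
        rw [hy s hs hc v hvr, map_zero, zero_add] at h7
        exact h7.symm
  exact key r subset_rfl

theorem ex_of_val {A L r : Finset V} (h : GSys G A a b) (hr : Cl G A r) (hL : L ⊆ lk G A r) {i : ℕ}
    (hex : ∀ y : Finset V → U, InC G a L i y → Clo G a L i y → Vl G b L i r y → Bd G a L i y) :
    ExC G a L i := by
  classical
  have key : ∀ n : ℕ, ∀ r' : Finset V, r' ⊆ r → (r \ r').card = n → ∀ y : Finset V → U,
      InC G a L i y → Clo G a L i y → Vl G b L i r' y → Bd G a L i y := by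
    intro n
    induction n with
    | zero =>
      intro r' hsub hc y h1 h2 h3
      rw [card_eq_zero, sdiff_eq_empty_iff_subset] at hc
      have e : r' = r := Subset.antisymm hsub hc
      subst e
      exact hex y h1 h2 h3
    | succ n ih =>
      intro r' hsub hc y h1 h2 h3
      obtain ⟨v, hv⟩ : (r \ r').Nonempty := by
        rw [← card_pos]; omega
      obtain ⟨hvr, hvr'⟩ := mem_sdiff.1 hv
      have hvA : v ∈ A := hr.1 hvr
      have hsub' : insert v r' ⊆ r := insert_subset hvr hsub
      have hc' : (r \ insert v r').card = n := by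
        rw [sdiff_insert, card_erase_of_mem hv, hc]
        rfl
      have hadj : ∀ s, Cl G L s → ∀ u ∈ s, u ∈ A ∧ G.Adj v u := fun s hs u hu =>
        ⟨(mem_lk.1 (hL (hs.1 hu))).1, (mem_lk.1 (hL (hs.1 hu))).2 v hvr⟩
      -- the first part
      have b1 : Bd G a L i (fun s => b v (y s)) := by
        apply ih (insert v r') hsub' hc'
        · intro s hs hc u hu
          obtain ⟨huA, hvu⟩ := hadj s hs u hu
          rw [h.cab u huA v hvA hvu.symm, h1 s hs hc u hu, map_zero, neg_zero]
        · intro s hs hc
          rw [cob_anti (T := b v) (fun u hu z => by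
            obtain ⟨huA, hvu⟩ := hadj s hs u hu
            exact h.cab u huA v hvA hvu.symm z), h2 s hs hc, map_zero, neg_zero]
        · intro s hs hc w hw
          rcases mem_insert.1 hw with rfl | hw
          · exact h.bb w hvA _
          · have hwr : w ∈ r := hsub hw
            have hne : v ≠ w := fun e => hvr' (e ▸ hw)
            rw [h.cbb w (hr.1 hwr) v hvA (hr.adj hwr hvr (Ne.symm hne)), h3 s hs hc w hw, map_zero,
              neg_zero]
      have b2 : Bd G a L i (fun s => b v (a v (y s))) := by
        apply ih (insert v r') hsub' hc'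
        · intro s hs hc u hu
          obtain ⟨huA, hvu⟩ := hadj s hs u hu
          rw [proj_ab h huA hvA hvu, h1 s hs hc u hu, map_zero, map_zero]
        · intro s hs hc
          have h5 : cob a (fun t => (b v * a v) (y t)) s = (b v * a v) (cob a y s) :=
            cob_comm (fun u hu z => by
              obtain ⟨huA, hvu⟩ := hadj s hs u hu
              exact proj_ab h huA hvA hvu z)
          have h6 : cob a (fun t => b v (a v (y t))) s = b v (a v (cob a y s)) := h5
          rw [h6, h2 s hs hc, map_zero, map_zero]
        · intro s hs hc w hw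
          rcases mem_insert.1 hw with rfl | hw
          · exact h.bb w hvA _
          · have hwr : w ∈ r := hsub hw
            have hne : v ≠ w := fun e => hvr' (e ▸ hw)
            rw [proj_bb h (hr.1 hwr) hvA (hr.adj hvr hwr hne), h3 s hs hc w hw, map_zero, map_zero]
      have b3 : Bd G a L i (fun s => a v (b v (y s))) :=
        b1.map_anti (T := a v) (fun u hu z =>
          h.caa u (mem_lk.1 (hL hu)).1 v hvA ((mem_lk.1 (hL hu)).2 v hvr).symm z)
      exact (b3.add b2).congr (fun s _ _ => h.ab v hvA (y s))
  intro y h1 h2
  exact key _ ∅ (empty_subset r) rfl y h1 h2 (fun s _ _ v hv => absurd hv (notMem_empty v))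

end Pool.Agent.H31.GS
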