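import Pool.Agent.H31.GS.Om3
import Pool.Agent.H31.GS.Proj

/-!
# helper31, GS, module RED: reduction of a form to the part in `ker (b v)`

`R` is a simplex of `A`, `v ∈ R`, `L = lk G A R` (all its vertices are adjacent to `v`), `k + k + R.card = d`.

`red_one`. `y` closed cochain of degree `k` on `L`, and `a v (y s) = cob a Z s` (size `k`), `Z` of degree `k - 1`.
`y s = a v (b v (y s)) + b v (a v (y s))`; the second summand is `b v (cob a Z s) = - cob a (b v Z) s`
(`cob_anti`), so it is `Bd` (`b v (Z s) ∈ Cell a s`). Let `y1 s = a v (b v (y s))`, killed by `a v`. `y1` and `y` are closed.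
(1) `om y y = om y1 y1`: expand with `om_add_left`, `om_add_right` and use `om_bd_left`, `om_bd_right` (three terms zero).
`om y1 y1 = - om (b v y1) (b v y1)` by `om_star`, `b v (y1 s) = b v (a v (b v (y s))) = b v (y s)`.
(2) if `b v y` is `Bd` then so is `a v (b v y)` (`Bd.map_anti`), hence `y`.

`red_two`: apply `red_one` with `v` to `D`; then to `y' s = b v (D s)` with `w`:
`a w (b v (D s)) = - b v (a w (D s)) = - b v (cob a Z2 s) = cob a (fun t => b v (Z2 t)) s`.
-/

namespace Pool.Agent.H31.GS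

open Finset

set_option linter.unusedSectionVars false
set_option linter.unusedVariables false

variable {V : Type} [Fintype V] [LinearOrder V] {G : SimpleGraph V}
variable {U : Type} [AddCommGroup U] [Module ℝ U] {a b : V → Module.End ℝ U}
variable {A : Finset V} {d : ℕ} {N : V → V → ℝ} {B : Finset V → U →ₗ[ℝ] U →ₗ[ℝ] ℝ}

theorem red_one (hF : FSys G A d a b N B) {R : Finset V} (hR : Cl G A R) {v : V} (hv : v ∈ R) {k : ℕ}
    (hk : k + k + R.card = d) {y Z : Finset V → U} (hy : InC G a (lk G A R) k y)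
    (hcl : Clo G a (lk G A R) k y)
    (hZ : ∀ s, Cl G (lk G A R) s → s.card + 1 = k → Z s ∈ Cell a s)
    (hyZ : ∀ s, Cl G (lk G A R) s → s.card = k → a v (y s) = cob a Z s) :
    InC G a (lk G A R) k (fun s => b v (y s)) ∧ Clo G a (lk G A R) k (fun s => b v (y s)) ∧
    om G A d B k R y y = - om G A d B k R (fun s => b v (y s)) (fun s => b v (y s)) ∧
    (Bd G a (lk G A R) k (fun s => b v (y s)) → Bd G a (lk G A R) k y) := by
  classical
  have h := hF.sys
  have hvA : v ∈ A := hR.1 hv
  have hadj : ∀ u ∈ lk G A R, u ∈ A ∧ G.Adj v u := fun u hu =>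
    ⟨(mem_lk.1 hu).1, (mem_lk.1 hu).2 v hv⟩
  have hsys : GSys G (lk G A R) a b := h.mono (lk_subset A R)
  have e0 : y = fun s => a v (b v (y s)) + b v (a v (y s)) := by
    funext s
    exact (h.ab v hvA (y s)).symm
  have i1 : InC G a (lk G A R) k (fun s => b v (y s)) := by
    intro s hs hc u hu
    obtain ⟨huA, hvu⟩ := hadj u (hs.1 hu)
    rw [h.cab u huA v hvA hvu.symm, hy s hs hc u hu, map_zero, neg_zero]
  have i2 : Clo G a (lk G A R) k (fun s => b v (y s)) := by
    intro s hs hc
    rw [cob_anti (T := b v) (fun u hu z => by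
      obtain ⟨huA, hvu⟩ := hadj u (hs.1 hu)
      exact h.cab u huA v hvA hvu.symm z), hcl s hs hc, map_zero, neg_zero]
  have b2 : Bd G a (lk G A R) k (fun s => b v (a v (y s))) := by
    refine ⟨fun t => - b v (Z t), ?_, ?_⟩
    · intro s hs hc
      apply Submodule.neg_mem
      intro u hu
      obtain ⟨huA, hvu⟩ := hadj u (hs.1 hu)
      rw [h.cab u huA v hvA hvu.symm, hZ s hs hc u hu, map_zero, neg_zero]
    · intro s hs hc
      rw [cob_neg, cob_anti (T := b v) (fun u hu z => by
        obtain ⟨huA, hvu⟩ := hadj u (hs.1 hu)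
        exact h.cab u huA v hvA hvu.symm z), neg_neg, ← hyZ s hs hc]
  have c1 : Clo G a (lk G A R) k (fun s => a v (b v (y s))) := by
    intro s hs hc
    have h5 : cob a (fun t => (a v * b v) (y t)) s = (a v * b v) (cob a y s) :=
      cob_comm (fun u hu z => by
        obtain ⟨huA, hvu⟩ := hadj u (hs.1 hu)
        change a u (a v (b v z)) = a v (b v (a u z))
        rw [h.caa u huA v hvA hvu.symm, h.cab u huA v hvA hvu.symm, map_neg, neg_neg])
    have h6 : cob a (fun t => a v (b v (y t))) s = a v (b v (cob a y s)) := h5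
    rw [h6, hcl s hs hc, map_zero, map_zero]
  refine ⟨i1, i2, ?_, ?_⟩
  · have e1 : om G A d B k R y y = om G A d B k R (fun s => a v (b v (y s)) + b v (a v (y s)))
        (fun s => a v (b v (y s)) + b v (a v (y s))) := by
      rw [← e0]
    rw [e1, om_add_left, om_add_right, om_add_right,
      om_bd_right hF hR hk c1 b2, om_bd_left hF hR hk b2 c1, om_bd_left hF hR hk b2 (b2.clo hsys),
      om_star hF k hv (fun s _ _ => h.aa v hvA _) (fun s _ _ => h.aa v hvA _)]
    have e2 : ∀ s, b v (a v (b v (y s))) = b v (y s) := by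
      intro s
      have h1 := h.ab v hvA (b v (y s))
      rw [h.bb v hvA, map_zero, zero_add] at h1
      exact h1
    simp only [e2, add_zero]
  · intro hb
    have b1 : Bd G a (lk G A R) k (fun s => a v (b v (y s))) :=
      hb.map_anti (T := a v) (fun u hu z => h.caa u (hadj u hu).1 v hvA (hadj u hu).2.symm z)
    exact (b1.add b2).congr (fun s _ _ => h.ab v hvA (y s))

theorem red_two (hF : FSys G A d a b N B) {R : Finset V} (hR : Cl G A R) {v w : V} (hv : v ∈ R)
    (hw : w ∈ R) (hvw : v ≠ w) {k : ℕ} (hk : k + k + R.card = d) {D Z1 Z2 : Finset V → U}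
    (hD : InC G a (lk G A R) k D) (hcl : Clo G a (lk G A R) k D)
    (hZ1 : ∀ s, Cl G (lk G A R) s → s.card + 1 = k → Z1 s ∈ Cell a s)
    (hDZ1 : ∀ s, Cl G (lk G A R) s → s.card = k → a v (D s) = cob a Z1 s)
    (hZ2 : ∀ s, Cl G (lk G A R) s → s.card + 1 = k → Z2 s ∈ Cell a s)
    (hDZ2 : ∀ s, Cl G (lk G A R) s → s.card = k → a w (D s) = cob a Z2 s) :
    InC G a (lk G A R) k (fun s => b w (b v (D s))) ∧
    Clo G a (lk G A R) k (fun s => b w (b v (D s))) ∧
    om G A d B k R D D = om G A d B k R (fun s => b w (b v (D s))) (fun s => b w (b v (D s))) ∧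
    (Bd G a (lk G A R) k (fun s => b w (b v (D s))) → Bd G a (lk G A R) k D) := by
  have h := hF.sys
  have hvA : v ∈ A := hR.1 hv
  have hwA : w ∈ A := hR.1 hw
  have hadj : ∀ u ∈ lk G A R, u ∈ A ∧ G.Adj v u := fun u hu =>
    ⟨(mem_lk.1 hu).1, (mem_lk.1 hu).2 v hv⟩
  obtain ⟨p1, p2, p3, p4⟩ := red_one hF hR hv hk hD hcl hZ1 hDZ1
  obtain ⟨q1, q2, q3, q4⟩ := red_one hF hR hw hk (y := fun s => b v (D s))
    (Z := fun s => b v (Z2 s)) p1 p2
    (by
      intro s hs hc u hu
      obtain ⟨huA, hvu⟩ := hadj u (hs.1 hu)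
      rw [h.cab u huA v hvA hvu.symm, hZ2 s hs hc u hu, map_zero, neg_zero])
    (by
      intro s hs hc
      rw [cob_anti (T := b v) (fun u hu z => by
        obtain ⟨huA, hvu⟩ := hadj u (hs.1 hu)
        exact h.cab u huA v hvA hvu.symm z), h.cab w hwA v hvA (hR.adj hw hv (Ne.symm hvw)),
        hDZ2 s hs hc])
  refine ⟨q1, q2, ?_, fun hb => p4 (q4 hb)⟩
  rw [p3, q3, neg_neg]

end Pool.Agent.H31.GS
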