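import Pool.Agent.H31.GS.Defs
import Pool.Agent.H31.GS.Cob

/-!
# helper31, GS, module UN: unions (Mayer-Vietoris)

`Sep G A B`: every simplex of `A ∪ B` is contained in `A` or in `B` (`cl_union_sep`: if it had a vertex in `A \ B` and one in
`B \ A`, these would be adjacent). A simplex contained in `A` and in `B` is a simplex of `A ∩ B`.

`ex_unionA` (`A`, `B`, `A ∩ B` exact ⟹ `A ∪ B` exact): `y` closed on `A ∪ B`, degree `i`. `y = cob xA` on `A`, `y = cob xB` on `B`.
`i = 0`: `y ∅ = 0`. `i = j + 1`: `xA - xB` is a cochain of degree `j` on `A ∩ B`, closed there; so `xA - xB = cob w` on simplices of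
`A ∩ B` with `j` elements. Put `w' s = w s` if `s ⊆ A ∩ B`, else `0` (it is a cochain on `A`),
`x s = xA s - cob w' s` if `s ⊆ A`, `xB s` otherwise. For a simplex `s ⊆ A` with `j` elements, `s ⊆ A ∩ B`: `x s = xB s`. `cob x = y` on simplices
`⊆ A` (`cob cob w' = 0`) and on simplices `⊆ B` (all faces `s.erase v ⊆ B`, `x = xB` there).

`ex_unionB` (`A ∪ B`, `A ∩ B` exact ⟹ `A` exact): `y` closed on `A`, degree `i`. On `A ∩ B`: `y = cob x`; `x' s = x s` if `s ⊆ A ∩ B`, else
`0`, a cochain on `B`. `y' s = y s` if `s ⊆ A`, else `cob x' s`. It is a closed cochain on `A ∪ B`: on simplices `⊆ A` clear; on simplices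
`s ⊆ B`: on all faces `y' = cob x'` (a face contained in `A` is in `A ∩ B`), so `cob y' s = cob (cob x') s = 0`. So `y' = cob z` on
`A ∪ B`, `y = cob z` on `A`.

`ex_unionC` (`A`, `B`, `A ∪ B` exact ⟹ `A ∩ B` exact): `y` closed on `A ∩ B`, degree `i`. `y' s = y s` if `s ⊆ A ∩ B`, else `0`, a cochain on
`A`. `u s = cob y' s` if `s ⊆ A`, else `0`, degree `i + 1`, closed on `A ∪ B` (on simplices `⊆ A`: `cob cob = 0`; on simplices `⊆ B` all faces
have `u = 0`: a face contained in `A` is a simplex of `A ∩ B` where `cob y' = cob y = 0`). So `u = cob z` on `A ∪ B`, `z` of degree `i`.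
On `B`: `cob z = 0`, so `z = cob wB` on `B`; on `A`: `cob (y' - z) = 0`, so `y' - z = cob wA` on `A`. On `A ∩ B`:
`y = cob wB + cob wA`.
-/

namespace Pool.Agent.H31.GS

open Finset

set_option linter.unusedSectionVars false
set_option linter.unusedVariables false

variable {V : Type} [Fintype V] [LinearOrder V] {G : SimpleGraph V}
variable {U : Type} [AddCommGroup U] [Module ℝ U] {a b : V → Module.End ℝ U}

theorem cl_union_sep {A B s : Finset V} (hs : Sep G A B) (h : Cl G (A ∪ B) s) : s ⊆ A ∨ s ⊆ B := by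
  by_contra hcon
  rw [not_or, not_subset, not_subset] at hcon
  obtain ⟨⟨x, hx, hxA⟩, ⟨y, hy, hyB⟩⟩ := hcon
  have hxB : x ∈ B := (mem_union.1 (h.1 hx)).resolve_left hxA
  have hyA : y ∈ A := (mem_union.1 (h.1 hy)).resolve_right hyB
  have hne : y ≠ x := fun e => hxA (e ▸ hyA)
  exact hs y hyA hyB x hxB hxA (h.adj hy hx hne)

/-- extension by zero from `X` -/
def un_ext (X : Finset V) (w : Finset V → U) (t : Finset V) : U := if t ⊆ X then w t else 0

theorem un_ext_of {X : Finset V} {w : Finset V → U} {t : Finset V} (h : t ⊆ X) :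
    un_ext X w t = w t := if_pos h

theorem un_ext_not {X : Finset V} {w : Finset V → U} {t : Finset V} (h : ¬ t ⊆ X) :
    un_ext X w t = 0 := if_neg h

theorem un_ext_mem {A B s : Finset V} {w : Finset V → U} {k : ℕ}
    (hw : ∀ s, Cl G (A ∩ B) s → s.card = k → w s ∈ Cell a s) (hs : Cl G (A ∪ B) s)
    (hk : s.card = k) : un_ext (A ∩ B) w s ∈ Cell a s := by
  by_cases h : s ⊆ A ∩ B
  · rw [un_ext_of h]
    exact hw s ⟨h, hs.2⟩ hk
  · rw [un_ext_not h]
    exact Submodule.zero_mem _

theorem un_cob_mem {A B s : Finset V} (h : GSys G (A ∪ B) a b) {w : Finset V → U} {k : ℕ}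
    (hw : ∀ s, Cl G (A ∩ B) s → s.card = k → w s ∈ Cell a s) (hs : Cl G (A ∪ B) s)
    (hk : s.card = k + 1) : cob a (un_ext (A ∩ B) w) s ∈ Cell a s := by
  refine cob_mem h hs (fun v hv => un_ext_mem hw (hs.erase v) ?_)
  rw [card_erase_of_mem hv, hk, Nat.add_sub_cancel]

theorem un_cob_of {X s : Finset V} {w : Finset V → U} (hs : s ⊆ X) :
    cob a (un_ext X w) s = cob a w s :=
  cob_congr (fun v _ => un_ext_of ((erase_subset v s).trans hs))

theorem un_cobcob {A B s : Finset V} (h : GSys G (A ∪ B) a b) (y : Finset V → U)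
    (hs : Cl G (A ∪ B) s) : cob a (fun t => cob a y t) s = 0 := cob_cob h y hs

theorem ex_unionA {A B : Finset V} (h : GSys G (A ∪ B) a b) (hs : Sep G A B)
    (hA : ∀ i, ExC G a A i) (hB : ∀ i, ExC G a B i) (hAB : ∀ i, ExC G a (A ∩ B) i) :
    ∀ i, ExC G a (A ∪ B) i := by
  intro i y hy hcl
  obtain ⟨xA, hA1, hA2⟩ := hA i y (hy.mono subset_union_left) (hcl.mono subset_union_left)
  obtain ⟨xB, hB1, hB2⟩ := hB i y (hy.mono subset_union_right) (hcl.mono subset_union_right)
  rcases i with _ | j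
  · refine ⟨xA, fun s _ hsi => absurd hsi (Nat.succ_ne_zero _), fun s hs0 hsi => ?_⟩
    have : s = ∅ := card_eq_zero.1 hsi
    subst this
    exact hA2 ∅ (cl_empty A) hsi
  · obtain ⟨w, hw1, hw2⟩ := hAB j (fun s => xA s - xB s)
      (fun s hs1 hsj => Submodule.sub_mem _
        (hA1 s (hs1.mono inter_subset_left) (by omega))
        (hB1 s (hs1.mono inter_subset_right) (by omega)))
      (fun s hs1 hsj => by
        rw [cob_sub, ← hA2 s (hs1.mono inter_subset_left) hsj,
          ← hB2 s (hs1.mono inter_subset_right) hsj, sub_self])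
    refine ⟨fun s => if s ⊆ A then xA s - cob a (un_ext (A ∩ B) w) s else xB s, ?_, ?_⟩
    · intro s hs1 hsj
      have hsj' : s.card = j := by omega
      show (if s ⊆ A then xA s - cob a (un_ext (A ∩ B) w) s else xB s) ∈ Cell a s
      by_cases hsA : s ⊆ A
      · rw [if_pos hsA]
        refine Submodule.sub_mem _ (hA1 s ⟨hsA, hs1.2⟩ hsj) ?_
        rcases j with _ | k
        · have : s = ∅ := card_eq_zero.1 hsj'
          subst this
          intro v hv
          exact absurd hv (notMem_empty v)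
        · exact un_cob_mem h (fun t ht htk => hw1 t ht (by omega)) hs1 hsj'
      · rw [if_neg hsA]
        exact hB1 s ⟨(cl_union_sep hs hs1).resolve_left hsA, hs1.2⟩ hsj
    · intro s hs1 hsj
      by_cases hsA : s ⊆ A
      · have e : cob a (fun s => if s ⊆ A then xA s - cob a (un_ext (A ∩ B) w) s else xB s) s =
            cob a (fun t => xA t - cob a (un_ext (A ∩ B) w) t) s :=
          cob_congr (fun v hv => if_pos ((erase_subset v s).trans hsA))
        rw [e, cob_sub, un_cobcob h _ hs1, sub_zero]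
        exact hA2 s ⟨hsA, hs1.2⟩ hsj
      · have hsB : s ⊆ B := (cl_union_sep hs hs1).resolve_left hsA
        rw [hB2 s ⟨hsB, hs1.2⟩ hsj]
        refine cob_congr (fun v hv => ?_)
        show xB (s.erase v) = if s.erase v ⊆ A then
          xA (s.erase v) - cob a (un_ext (A ∩ B) w) (s.erase v) else xB (s.erase v)
        by_cases hvA : s.erase v ⊆ A
        · have hv2 : s.erase v ⊆ A ∩ B := subset_inter hvA ((erase_subset v s).trans hsB)
          have hc : (s.erase v).card = j := by
            rw [card_erase_of_mem hv, hsj, Nat.add_sub_cancel]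
          rw [if_pos hvA, un_cob_of hv2, ← hw2 (s.erase v) ⟨hv2, (hs1.erase v).2⟩ hc]
          simp
        · rw [if_neg hvA]

theorem ex_unionB {A B : Finset V} (h : GSys G (A ∪ B) a b) (hs : Sep G A B)
    (hU : ∀ i, ExC G a (A ∪ B) i) (hAB : ∀ i, ExC G a (A ∩ B) i) : ∀ i, ExC G a A i := by
  intro i y hy hcl
  obtain ⟨x, hx1, hx2⟩ := hAB i y (hy.mono inter_subset_left) (hcl.mono inter_subset_left)
  obtain ⟨z, hz1, hz2⟩ := hU i
    (fun s => if s ⊆ A then y s else cob a (un_ext (A ∩ B) x) s)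
    (by
      intro s hs1 hsi
      show (if s ⊆ A then y s else cob a (un_ext (A ∩ B) x) s) ∈ Cell a s
      by_cases hsA : s ⊆ A
      · rw [if_pos hsA]
        exact hy s ⟨hsA, hs1.2⟩ hsi
      · rw [if_neg hsA]
        rcases i with _ | k
        · have : s = ∅ := card_eq_zero.1 hsi
          subst this
          exact absurd (empty_subset A) hsA
        · exact un_cob_mem h (fun t ht htk => hx1 t ht (by omega)) hs1 hsi)
    (by
      intro s hs1 hsi
      by_cases hsA : s ⊆ A
      · have e : cob a (fun s => if s ⊆ A then y s else cob a (un_ext (A ∩ B) x) s) s =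
            cob a y s := cob_congr (fun v hv => if_pos ((erase_subset v s).trans hsA))
        rw [e]
        exact hcl s ⟨hsA, hs1.2⟩ hsi
      · have hsB : s ⊆ B := (cl_union_sep hs hs1).resolve_left hsA
        rw [← un_cobcob h (un_ext (A ∩ B) x) hs1]
        refine cob_congr (fun v hv => ?_)
        show (if s.erase v ⊆ A then y (s.erase v) else cob a (un_ext (A ∩ B) x) (s.erase v)) =
          cob a (un_ext (A ∩ B) x) (s.erase v)
        by_cases hvA : s.erase v ⊆ A
        · have hv2 : s.erase v ⊆ A ∩ B := subset_inter hvA ((erase_subset v s).trans hsB)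
          have hc : (s.erase v).card = i := by
            rw [card_erase_of_mem hv, hsi, Nat.add_sub_cancel]
          rw [if_pos hvA, un_cob_of hv2, ← hx2 (s.erase v) ⟨hv2, (hs1.erase v).2⟩ hc]
        · rw [if_neg hvA])
  refine ⟨z, fun s hs1 hsi => hz1 s (hs1.mono subset_union_left) hsi, fun s hs1 hsi => ?_⟩
  rw [← hz2 s (hs1.mono subset_union_left) hsi]
  exact (if_pos hs1.1).symm

theorem ex_unionC {A B : Finset V} (h : GSys G (A ∪ B) a b) (hs : Sep G A B)
    (hA : ∀ i, ExC G a A i) (hB : ∀ i, ExC G a B i) (hU : ∀ i, ExC G a (A ∪ B) i) :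
    ∀ i, ExC G a (A ∩ B) i := by
  intro i y hy hcl
  have hu0 : ∀ s, Cl G (A ∪ B) s → s.card = i + 1 → s ⊆ B →
      (if s ⊆ A then cob a (un_ext (A ∩ B) y) s else 0) = 0 := by
    intro s hs1 hsi hsB
    by_cases hsA : s ⊆ A
    · have h2 : s ⊆ A ∩ B := subset_inter hsA hsB
      rw [if_pos hsA, un_cob_of h2]
      exact hcl s ⟨h2, hs1.2⟩ hsi
    · rw [if_neg hsA]
  obtain ⟨z, hz1, hz2⟩ := hU (i + 1)
    (fun s => if s ⊆ A then cob a (un_ext (A ∩ B) y) s else 0)
    (by
      intro s hs1 hsi
      show (if s ⊆ A then cob a (un_ext (A ∩ B) y) s else 0) ∈ Cell a s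
      by_cases hsA : s ⊆ A
      · rw [if_pos hsA]
        exact un_cob_mem h hy hs1 hsi
      · rw [if_neg hsA]
        exact Submodule.zero_mem _)
    (by
      intro s hs1 hsi
      by_cases hsA : s ⊆ A
      · rw [← un_cobcob h (un_ext (A ∩ B) y) hs1]
        exact cob_congr (fun v hv => if_pos ((erase_subset v s).trans hsA))
      · have hsB : s ⊆ B := (cl_union_sep hs hs1).resolve_left hsA
        refine sum_eq_zero (fun v hv => ?_)
        show a v (if s.erase v ⊆ A then cob a (un_ext (A ∩ B) y) (s.erase v) else 0) = 0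
        rw [hu0 (s.erase v) (hs1.erase v) (by rw [card_erase_of_mem hv, hsi, Nat.add_sub_cancel])
          ((erase_subset v s).trans hsB), map_zero])
  obtain ⟨wB, hB1, hB2⟩ := hB i z
    (fun s hs1 hsi => hz1 s (hs1.mono subset_union_right) (by omega))
    (fun s hs1 hsi => by
      rw [← hz2 s (hs1.mono subset_union_right) hsi]
      exact hu0 s (hs1.mono subset_union_right) hsi hs1.1)
  obtain ⟨wA, hA1, hA2⟩ := hA i (fun s => un_ext (A ∩ B) y s - z s)
    (fun s hs1 hsi => Submodule.sub_mem _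
      (un_ext_mem hy (hs1.mono subset_union_left) hsi)
      (hz1 s (hs1.mono subset_union_left) (by omega)))
    (fun s hs1 hsi => by
      rw [cob_sub, ← hz2 s (hs1.mono subset_union_left) hsi]
      show cob a (un_ext (A ∩ B) y) s - (if s ⊆ A then cob a (un_ext (A ∩ B) y) s else 0) = 0
      rw [if_pos hs1.1, sub_self])
  refine ⟨fun s => wA s + wB s, fun s hs1 hsi => Submodule.add_mem _
    (hA1 s (hs1.mono inter_subset_left) hsi) (hB1 s (hs1.mono inter_subset_right) hsi), ?_⟩
  intro s hs1 hsi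
  rw [cob_add, ← hA2 s (hs1.mono inter_subset_left) hsi,
    ← hB2 s (hs1.mono inter_subset_right) hsi]
  show y s = un_ext (A ∩ B) y s - z s + z s
  rw [un_ext_of hs1.1, sub_add_cancel]

end Pool.Agent.H31.GS
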