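import Pool.Agent.H31.GS.MultiI
import Pool.Agent.H31.GS.Un
import Pool.Agent.H31.GS.Ed

/-!
# helper31, GS, module REDV: the class of acyclic sets is closed under the rules for vertices, unions and edges

`racy_of_multi`: a `Multi` system restricted to a set (`GrM.mono`). `racy_congr`: `GrM.graph`, `exM_graph`.
For each rule take `multi_of` for the finset of the two or three given sets, so one system `(a, b, γ)` on `univ` is exact on all
of them, and apply `R1` (with `R1_zero` in degree zero), `R2`, `R3`, `ex_unionA`, `ex_unionB`, `ex_unionC`, `ex_edge` to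
`GrM.gsys` restricted (`GSys.mono`).
`racy_edge`: `lk G A {x, y}` does not contain `x`, `y`, so `addEdge G x y` and `G` agree on it, hence `RAcy (addEdge G x y) (lk G A {x, y})` by
`racy_congr`; take a system for `addEdge G x y` exact on `A` and on this link (`exM_graph` back to `G`); `GrM.graph` (edges of `G` are edges
of `addEdge G x y`) to see it is a system for `G`.
-/

namespace Pool.Agent.H31.GS

open Finset

set_option linter.unusedSectionVars false
set_option linter.unusedVariables false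

variable {V : Type} [Fintype V] [LinearOrder V] {G : SimpleGraph V}

theorem redv_two {E1 E2 : Finset V} (h1 : RAcy G E1) (h2 : RAcy G E2) :
    ∃ (ι : Type) (_ : Fintype ι) (_ : DecidableEq ι) (_ : Nonempty ι)
      (a b : V → Matrix ι ι ℝ) (γ : Matrix ι ι ℝ), GrM G univ a b γ ∧ ExM G a E1 ∧ ExM G a E2 := by
  classical
  have h : Multi G {E1, E2} := multi_of (fun E hE => by
    rcases mem_insert.1 hE with rfl | hE
    · exact h1
    · rw [mem_singleton.1 hE]
      exact h2)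
  obtain ⟨ι, i1, i2, i3, a, b, γ, hg, he⟩ := h
  exact ⟨ι, i1, i2, i3, a, b, γ, hg, he E1 (by simp), he E2 (by simp)⟩

theorem redv_three {E1 E2 E3 : Finset V} (h1 : RAcy G E1) (h2 : RAcy G E2) (h3 : RAcy G E3) :
    ∃ (ι : Type) (_ : Fintype ι) (_ : DecidableEq ι) (_ : Nonempty ι)
      (a b : V → Matrix ι ι ℝ) (γ : Matrix ι ι ℝ), GrM G univ a b γ ∧ ExM G a E1 ∧ ExM G a E2 ∧
        ExM G a E3 := by
  classical
  have h : Multi G {E1, E2, E3} := multi_of (fun E hE => by
    rcases mem_insert.1 hE with rfl | hE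
    · exact h1
    · rcases mem_insert.1 hE with rfl | hE
      · exact h2
      · rw [mem_singleton.1 hE]
        exact h3)
  obtain ⟨ι, i1, i2, i3, a, b, γ, hg, he⟩ := h
  exact ⟨ι, i1, i2, i3, a, b, γ, hg, he E1 (by simp), he E2 (by simp), he E3 (by simp)⟩

theorem racy_congr {G' : SimpleGraph V} {A : Finset V}
    (hG : ∀ x ∈ A, ∀ y ∈ A, (G.Adj x y ↔ G'.Adj x y)) (h : RAcy G A) : RAcy G' A := by
  obtain ⟨ι, i1, i2, i3, a, b, γ, hg, he⟩ := h
  exact ⟨ι, i1, i2, i3, a, b, γ, hg.graph (fun x hx y hy e => (hG x hx y hy).2 e),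
    exM_graph hG he⟩

theorem racy_vertexA {A : Finset V} {v : V} (hv : v ∈ A) (h1 : RAcy G (A.erase v))
    (h2 : RAcy G (lk G A {v})) : RAcy G A := by
  obtain ⟨ι, i1, i2, i3, a, b, γ, hg, he1, he2⟩ := redv_two h1 h2
  have hA := hg.mono (subset_univ A)
  refine ⟨ι, i1, i2, i3, a, b, γ, hA, fun i => ?_⟩
  cases i with
  | zero => exact R1_zero (he1 0)
  | succ j => exact R1 hA.gsys hv (he1 (j + 1)) (he2 j)

theorem racy_vertexB {A : Finset V} {v : V} (hv : v ∈ A) (h1 : RAcy G A)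
    (h2 : RAcy G (lk G A {v})) : RAcy G (A.erase v) := by
  obtain ⟨ι, i1, i2, i3, a, b, γ, hg, he1, he2⟩ := redv_two h1 h2
  exact ⟨ι, i1, i2, i3, a, b, γ, hg.mono (subset_univ _),
    fun i => R2 (hg.mono (subset_univ A)).gsys hv (he1 i) (he2 i)⟩

theorem racy_vertexC {A : Finset V} {v : V} (hv : v ∈ A) (h1 : RAcy G A)
    (h2 : RAcy G (A.erase v)) : RAcy G (lk G A {v}) := by
  obtain ⟨ι, i1, i2, i3, a, b, γ, hg, he1, he2⟩ := redv_two h1 h2
  exact ⟨ι, i1, i2, i3, a, b, γ, hg.mono (subset_univ _),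
    fun i => R3 (hg.mono (subset_univ A)).gsys hv (he1 (i + 1)) (he2 i)⟩

theorem racy_unionA {A B : Finset V} (hs : Sep G A B) (h1 : RAcy G A) (h2 : RAcy G B)
    (h3 : RAcy G (A ∩ B)) : RAcy G (A ∪ B) := by
  obtain ⟨ι, i1, i2, i3, a, b, γ, hg, he1, he2, he3⟩ := redv_three h1 h2 h3
  exact ⟨ι, i1, i2, i3, a, b, γ, hg.mono (subset_univ _),
    ex_unionA (hg.mono (subset_univ (A ∪ B))).gsys hs he1 he2 he3⟩

theorem racy_unionB {A B : Finset V} (hs : Sep G A B) (h1 : RAcy G (A ∪ B))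
    (h2 : RAcy G (A ∩ B)) : RAcy G A := by
  obtain ⟨ι, i1, i2, i3, a, b, γ, hg, he1, he2⟩ := redv_two h1 h2
  exact ⟨ι, i1, i2, i3, a, b, γ, hg.mono (subset_univ _),
    ex_unionB (hg.mono (subset_univ (A ∪ B))).gsys hs he1 he2⟩

theorem racy_unionC {A B : Finset V} (hs : Sep G A B) (h1 : RAcy G A) (h2 : RAcy G B)
    (h3 : RAcy G (A ∪ B)) : RAcy G (A ∩ B) := by
  obtain ⟨ι, i1, i2, i3, a, b, γ, hg, he1, he2, he3⟩ := redv_three h1 h2 h3
  exact ⟨ι, i1, i2, i3, a, b, γ, hg.mono (subset_univ _),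
    ex_unionC (hg.mono (subset_univ (A ∪ B))).gsys hs he1 he2 he3⟩

theorem racy_edge {A : Finset V} {x y : V} (hx : x ∈ A) (hy : y ∈ A) (hxy : x ≠ y)
    (hna : ¬ G.Adj x y) (h1 : RAcy (addEdge G x y) A) (h2 : RAcy G (lk G A {x, y})) :
    RAcy G A := by
  have hmem : ∀ u ∈ lk G A {x, y}, u ≠ x ∧ u ≠ y := by
    intro u hu
    have h := (mem_lk.1 hu).2
    exact ⟨(h x (by simp)).ne', (h y (by simp)).ne'⟩
  have hiff : ∀ u ∈ lk G A {x, y}, ∀ v ∈ lk G A {x, y},
      (G.Adj u v ↔ (addEdge G x y).Adj u v) := by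
    intro u hu v hv
    constructor
    · exact fun h => ⟨h.ne, Or.inl h⟩
    · rintro ⟨-, h | h | h⟩
      · exact h
      · exact absurd h.1 (hmem u hu).1
      · exact absurd h.1 (hmem u hu).2
  obtain ⟨ι, i1, i2, i3, a, b, γ, hg, he1, he2⟩ := redv_two h1 (racy_congr hiff h2)
  have hgA := hg.mono (subset_univ A)
  refine ⟨ι, i1, i2, i3, a, b, γ, hgA.graph (fun u _ v _ h => ⟨h.ne, Or.inl h⟩), ?_⟩
  exact ex_edge hx hy hxy hna hgA.gsys he1
    (exM_graph (fun u hu v hv => (hiff u hu v hv).symm) he2)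

end Pool.Agent.H31.GS
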