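import Pool.Agent.H31.GS.Comb

/-!
# helper31, GS, module ROW: acyclic complexes with coefficients in a vector space

`row_exact`. Let `m = finrank W`, `e = Module.finBasis ℝ W`. For each coordinate `j` apply `AcyclicR` to the real
function `f_j r = e.repr ⟨f r, _⟩ j` if `Cl G D r ∧ r.card = p`, else `0` (classical `if`/`dif`); the cocycle condition:
for `Cl G D s` with `s.card = p + 1` it is the coordinate of the hypothesis (all `s.erase v` are simplices of `D` with
`p` elements), for other `s` all terms are zero. Get `h_j` and put `h r = ∑ j, h_j r • (e j : U)`.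
(Alternatively: choose a linear `π : U →ₗ U` with range in `W` which is the identity on `W`, first solve with values
in `U` using a basis of `U`, and compose with `π`.)
-/

namespace Pool.Agent.H31.GS

open Finset

set_option linter.unusedSectionVars false
set_option linter.unusedVariables false

variable {V : Type} [Fintype V] [LinearOrder V] {G : SimpleGraph V}
variable {U : Type} [AddCommGroup U] [Module ℝ U] [FiniteDimensional ℝ U]

theorem row_exact {D : Finset V} (hD : AcyclicR G D) (W : Submodule ℝ U) (p : ℕ) (f : Finset V → U)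
    (hf : ∀ r, Cl G D r → r.card = p → f r ∈ W)
    (hc : ∀ r, Cl G D r → r.card = p + 1 → ∑ v ∈ r, sgn v r • f (r.erase v) = 0) :
    ∃ h : Finset V → U, (∀ r, h r ∈ W) ∧
      ∀ r, Cl G D r → r.card = p → f r = ∑ v ∈ r, sgn v r • h (r.erase v) := by
  classical
  have e := Module.finBasis ℝ W
  obtain ⟨g, hg1, hg2⟩ : ∃ g : Finset V → W,
      (∀ r, Cl G D r → r.card = p → (g r : U) = f r) ∧ (∀ r, r.card ≠ p → g r = 0) := by
    refine ⟨fun r => if h : Cl G D r ∧ r.card = p then ⟨f r, hf r h.1 h.2⟩ else 0, ?_, ?_⟩
    · intro r h1 h2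
      simp only [dif_pos (And.intro h1 h2)]
    · intro r h1
      simp only
      rw [dif_neg (fun h => h1 h.2)]
  have hcoc : ∀ s, Cl G D s → ∑ v ∈ s, sgn v s • g (s.erase v) = 0 := by
    intro s hs
    by_cases hp : s.card = p + 1
    · apply Subtype.ext
      have h1 := hc s hs hp
      rw [AddSubmonoidClass.coe_finset_sum]
      refine Eq.trans ?_ h1
      refine sum_congr rfl fun v hv => ?_
      rw [Submodule.coe_smul, hg1 _ (hs.erase v) (by rw [card_erase_of_mem hv, hp]; omega)]
    · refine sum_eq_zero fun v hv => ?_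
      have h1 := card_erase_add_one hv
      rw [hg2 _ (by omega), smul_zero]
  have hex : ∀ j, ∃ h : Finset V → ℝ, ∀ s, Cl G D s →
      e.repr (g s) j = ∑ v ∈ s, sgn v s * h (s.erase v) := by
    intro j
    refine hD (fun s => e.repr (g s) j) (fun s hs => ?_)
    have h1 := congrArg (fun x => e.repr x j) (hcoc s hs)
    simp only [map_sum, map_smul, Finsupp.coe_finset_sum, Finset.sum_apply, Finsupp.coe_smul,
      Pi.smul_apply, smul_eq_mul, map_zero, Finsupp.coe_zero, Pi.zero_apply] at h1
    exact h1
  choose h hh using hex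
  refine ⟨fun r => ∑ j, h j r • (e j : U), fun r => ?_, fun r hr hp => ?_⟩
  · exact Submodule.sum_mem _ fun j _ => Submodule.smul_mem _ _ (e j).2
  · have h1 : (g r : U) = ∑ j, e.repr (g r) j • (e j : U) := by
      conv_lhs => rw [← e.sum_repr (g r)]
      rw [AddSubmonoidClass.coe_finset_sum]
      rfl
    rw [← hg1 r hr hp, h1]
    simp only [smul_sum]
    rw [sum_comm]
    refine sum_congr rfl fun j _ => ?_
    rw [hh j r hr, sum_smul]
    refine sum_congr rfl fun v _ => ?_
    rw [smul_smul]

end Pool.Agent.H31.GS
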