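import Pool.Agent.H31.GS.Cob

/-!
# helper31, GS, module RULES1: adding a vertex

Throughout `v ∈ A`, `A' = A.erase v`, `L = lk G A {v}`; the simplices of `A` containing `v` are `insert v t`, `t` a
simplex of `L` (`cl_insert`, `cl_erase`), the others are the simplices of `A'`.

`lk_val`: if `L`-exact in degree `i` and `z` is closed on `L` with values in the cells and killed by `a v`, then
`z = cob a x` with `x` in the cells and killed by `a v`: take any `x` and replace it by `a v (b v (x t))`, which commutes
with all `a u`, `u ∈ L`, and `a v (b v (z t)) = z t`.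

`R1`: `y` closed on `A`, degree `j + 1`. On `A'`: `y = cob a X`. Let `X' t = if v ∈ t then 0 else X t`,
`z t = y (insert v t) - a v (X' t)` for `t` a simplex of `L` with `j` elements: killed by `a u`, `u ∈ t`, and by `a v`;
closed on `L` (as in `star_lemma` of module STAR). So `z = cob a x'` with `x'` killed by `a v`.
Put `x t = if v ∈ t then x' (t.erase v) else X t`. Then `cob a x = y` on `A`: for `v ∉ t` clear. For `t = insert v t'`:
`a v (X t') + ∑ u ∈ t', a u (x' (t'.erase u)) = a v (X t') + z t' = y t`.
-/

namespace Pool.Agent.H31.GS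

open Finset

set_option linter.unusedSectionVars false
set_option linter.unusedVariables false

variable {V : Type} [Fintype V] [LinearOrder V] {G : SimpleGraph V}
variable {U : Type} [AddCommGroup U] [Module ℝ U] {a b : V → Module.End ℝ U}

theorem lk_val {A : Finset V} (h : GSys G A a b) {v : V} (hv : v ∈ A) {i : ℕ} {z : Finset V → U}
    (hz : Bd G a (lk G A {v}) i z)
    (hk : ∀ s, Cl G (lk G A {v}) s → s.card = i → a v (z s) = 0) :
    ∃ x : Finset V → U, (∀ s, Cl G (lk G A {v}) s → s.card + 1 = i → x s ∈ Cell a s) ∧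
      (∀ s, a v (x s) = 0) ∧ ∀ s, Cl G (lk G A {v}) s → s.card = i → z s = cob a x s := by
  obtain ⟨x, h1, h2⟩ := hz
  refine ⟨fun s => a v (b v (x s)), ?_, fun s => h.aa v hv _, ?_⟩
  · intro s hs hi u hu
    have huA : u ∈ A := lk_subset _ _ (hs.1 hu)
    have hadj : G.Adj u v := (mem_lk_singleton.1 (hs.1 hu)).2.symm
    show a u (a v (b v (x s))) = 0
    rw [h.caa u huA v hv hadj, h.cab u huA v hv hadj, h1 s hs hi u hu]
    simp
  · intro s hs hi
    have hcm : cob a (fun t => (a v * b v) (x t)) s = (a v * b v) (cob a x s) := by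
      refine cob_comm ?_
      intro u hu y
      have huA : u ∈ A := lk_subset _ _ (hs.1 hu)
      have hadj : G.Adj u v := (mem_lk_singleton.1 (hs.1 hu)).2.symm
      simp only [Module.End.mul_apply]
      rw [h.caa u huA v hv hadj, h.cab u huA v hv hadj, map_neg, neg_neg]
    have h3 : a v (b v (z s)) + b v (a v (z s)) = z s := h.ab v hv (z s)
    rw [hk s hs hi, map_zero, add_zero] at h3
    have h4 : cob a (fun t => a v (b v (x t))) s = a v (b v (cob a x s)) := hcm
    rw [h4, ← h2 s hs hi, h3]

theorem R1_zero {A : Finset V} {v : V} (hA : ExC G a (A.erase v) 0) : ExC G a A 0 := by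
  intro y hy hcl
  obtain ⟨x, h1, h2⟩ := hA y (hy.mono (erase_subset _ _)) (hcl.mono (erase_subset _ _))
  refine ⟨x, fun s _ hs => absurd hs (Nat.succ_ne_zero _), ?_⟩
  intro s hs hi
  have hs0 : s = ∅ := card_eq_zero.1 hi
  subst hs0
  exact h2 ∅ (cl_empty _) hi

theorem rules1_mem {S : Finset V} (h : GSys G S a b) {v : V} (hv : v ∈ S) {i : ℕ}
    {y X : Finset V → U} (hy : InC G a S i y)
    (hX : ∀ s, Cl G (S.erase v) s → s.card + 1 = i → X s ∈ Cell a s) {t : Finset V}
    (ht : Cl G (lk G S {v}) t) (hi : t.card + 1 = i) :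
    (y (insert v t) - a v (X t)) ∈ Cell a t ∧ a v (y (insert v t) - a v (X t)) = 0 := by
  obtain ⟨hc, hvt⟩ := cl_insert hv ht
  have hyv : y (insert v t) ∈ Cell a (insert v t) :=
    hy _ hc (by rw [card_insert_of_notMem hvt, hi])
  have hXt : X t ∈ Cell a t := by
    refine hX t ?_ hi
    exact (ht.mono (lk_subset S {v})).of_erase_set hvt
  refine ⟨?_, ?_⟩
  · intro u hu
    have hadj : G.Adj u v := (mem_lk_singleton.1 (ht.1 hu)).2.symm
    have huS : u ∈ S := lk_subset _ _ (ht.1 hu)
    rw [map_sub, hyv u (mem_insert_of_mem hu), h.caa u huS v hv hadj, hXt u hu, map_zero]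
    simp
  · rw [map_sub, hyv v (mem_insert_self _ _), h.aa v hv, sub_zero]

theorem rules1_zero {S : Finset V} (h : GSys G S a b) {v : V} (hv : v ∈ S) {i : ℕ}
    {y X : Finset V → U} (hcl : Clo G a S i y)
    (hX : ∀ s, Cl G (S.erase v) s → s.card = i → y s = cob a X s) {t : Finset V}
    (ht : Cl G (lk G S {v}) t) (hi : t.card = i) :
    cob a (fun s => y (insert v s) - a v (X s)) t = 0 := by
  obtain ⟨hc, hvt⟩ := cl_insert hv ht
  have h1 := hcl _ hc (by rw [card_insert_of_notMem hvt, hi])
  rw [cob_insert hvt] at h1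
  have h2 : cob a (fun s => a v (X s)) t = - a v (cob a X t) := by
    refine cob_anti ?_
    intro u hu x
    exact h.caa u (lk_subset _ _ (ht.1 hu)) v hv (mem_lk_singleton.1 (ht.1 hu)).2.symm x
  have h3 : y t = cob a X t := hX t ((ht.mono (lk_subset S {v})).of_erase_set hvt) hi
  rw [cob_sub, h2, ← h3, sub_neg_eq_add]
  have h4 : cob a (fun s => y (insert v s)) t = ∑ u ∈ t, a u (y (insert v (t.erase u))) := rfl
  rw [h4, add_comm]
  exact h1

theorem R1 {A : Finset V} (h : GSys G A a b) {v : V} (hv : v ∈ A) {j : ℕ}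
    (hA : ExC G a (A.erase v) (j + 1)) (hL : ExC G a (lk G A {v}) j) : ExC G a A (j + 1) := by
  classical
  intro y hy hcl
  obtain ⟨X, hX1, hX2⟩ := hA y (hy.mono (erase_subset _ _)) (hcl.mono (erase_subset _ _))
  have hz1 : InC G a (lk G A {v}) j (fun t => y (insert v t) - a v (X t)) := by
    intro t ht hi
    exact (rules1_mem h hv hy hX1 ht (by rw [hi])).1
  have hz2 : Clo G a (lk G A {v}) j (fun t => y (insert v t) - a v (X t)) := by
    intro t ht hi
    exact rules1_zero h hv hcl hX2 ht hi
  obtain ⟨x', hx1, hx2, hx3⟩ := lk_val h hv (hL _ hz1 hz2)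
    (fun t ht hi => (rules1_mem h hv hy hX1 ht (by rw [hi])).2)
  refine ⟨fun t => if v ∈ t then x' (t.erase v) else X t, ?_, ?_⟩
  · intro s hs hi
    by_cases hvs : v ∈ s
    · simp only [if_pos hvs]
      intro u hu
      by_cases huv : u = v
      · rw [huv]; exact hx2 _
      · refine hx1 _ (cl_erase hs hvs) ?_ u (mem_erase.2 ⟨huv, hu⟩)
        rw [card_erase_add_one hvs]
        omega
    · simp only [if_neg hvs]
      exact hX1 s (hs.of_erase_set hvs) hi
  · intro s hs hi
    by_cases hvs : v ∈ s
    · have hs' : s = insert v (s.erase v) := (insert_erase hvs).symm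
      have hvt : v ∉ s.erase v := notMem_erase v s
      have htc : (s.erase v).card = j := by
        have := card_erase_add_one hvs
        omega
      have h5 := hx3 _ (cl_erase hs hvs) htc
      rw [hs', cob_insert hvt]
      have h0 : ∑ u ∈ s.erase v, a u ((fun t => if v ∈ t then x' (t.erase v) else X t)
          (insert v ((s.erase v).erase u))) = cob a x' (s.erase v) := by
        refine sum_congr rfl fun u _ => ?_
        have hn : v ∉ (s.erase v).erase u := fun hh => hvt (mem_of_mem_erase hh)
        simp only [if_pos (mem_insert_self v _), erase_insert hn]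
      rw [h0, ← h5]
      simp only [if_neg hvt]
      abel
    · have hcg : cob a (fun t => if v ∈ t then x' (t.erase v) else X t) s = cob a X s := by
        refine cob_congr fun u hu => ?_
        have : v ∉ s.erase u := fun hh => hvs (mem_of_mem_erase hh)
        simp only [if_neg this]
      rw [hcg]
      exact hX2 s (hs.of_erase_set hvs) hi

end Pool.Agent.H31.GS
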