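import Pool.Agent.H31.GS.Mat

/-!
# helper31, GS, module SLICE: tensor products with a fixed space

`⊗ₖ` is `Matrix.kroneckerMap (fun x y => x * y)` (`open Kronecker`). A vector on `ι × κ` is a family of vectors on `ι` indexed
by `κ`, and `(M ⊗ₖ 1) *ᵥ f (i, k) = (M *ᵥ (fun j => f (j, k))) i`; similarly
`(1 ⊗ₖ M) *ᵥ f (i, k) = (M *ᵥ (fun l => f (i, l))) k`.

`ex_left`: a cochain `y` with values on `ι × κ` is a family `y_k s = fun i => y s (i, k)` of cochains with values on `ι`, in the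
cells / closed iff all `y_k` are. Choose `x_k` for every `k` and put `x s (i, k) = x_k s i`.

`ex_right`: the same for `1 ⊗ₖ b v` (slices at `i`). Then `γ ⊗ₖ b v = (γ ⊗ₖ 1) * (1 ⊗ₖ b v)`, `T = γ ⊗ₖ 1` commutes with all
`1 ⊗ₖ b v` and `T * T = 1`. So the cells of `γ ⊗ₖ b v` and `1 ⊗ₖ b v` are the same (`T` injective) and the coboundary of
`γ ⊗ₖ b` is `T` of the coboundary of `1 ⊗ₖ b`: closedness is the same; if `y = cob (1 ⊗ₖ b) x` then
`y = T (T y) = T (cob (1 ⊗ₖ b) (T x)) = cob (γ ⊗ₖ b) (T x)`.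
-/

namespace Pool.Agent.H31.GS

open Finset
open scoped Kronecker

set_option linter.unusedSectionVars false
set_option linter.unusedVariables false

variable {V : Type} [Fintype V] [LinearOrder V] {G : SimpleGraph V}
variable {ι κ : Type} [Fintype ι] [DecidableEq ι] [Fintype κ] [DecidableEq κ]

theorem slice_left (M : Matrix ι ι ℝ) (f : ι × κ → ℝ) (k : κ) (i : ι) :
    Matrix.toLin' (M ⊗ₖ (1 : Matrix κ κ ℝ)) f (i, k) = Matrix.toLin' M (fun j => f (j, k)) i := by
  rw [Matrix.toLin'_apply, Matrix.toLin'_apply]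
  simp only [Matrix.mulVec, dotProduct, Fintype.sum_prod_type, Matrix.kroneckerMap_apply]
  refine sum_congr rfl fun j _ => ?_
  rw [sum_eq_single k]
  · rw [Matrix.one_apply_eq, mul_one]
  · intro l _ hl
    rw [Matrix.one_apply_ne (Ne.symm hl), mul_zero, zero_mul]
  · intro hk
    exact absurd (mem_univ k) hk

theorem slice_right (M : Matrix κ κ ℝ) (f : ι × κ → ℝ) (k : κ) (i : ι) :
    Matrix.toLin' ((1 : Matrix ι ι ℝ) ⊗ₖ M) f (i, k) = Matrix.toLin' M (fun l => f (i, l)) k := by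
  rw [Matrix.toLin'_apply, Matrix.toLin'_apply]
  simp only [Matrix.mulVec, dotProduct, Fintype.sum_prod_type, Matrix.kroneckerMap_apply]
  rw [sum_eq_single i]
  · refine sum_congr rfl fun l _ => ?_
    rw [Matrix.one_apply_eq, one_mul]
  · intro j _ hj
    refine sum_eq_zero fun l _ => ?_
    rw [Matrix.one_apply_ne (Ne.symm hj), zero_mul, zero_mul]
  · intro hk
    exact absurd (mem_univ i) hk

theorem slice_cob_left (a : V → Matrix ι ι ℝ) (y : Finset V → ι × κ → ℝ) (s : Finset V) (k : κ)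
    (i : ι) : cob (fun v => Matrix.toLin' (a v ⊗ₖ (1 : Matrix κ κ ℝ))) y s (i, k)
      = cob (fun v => Matrix.toLin' (a v)) (fun t j => y t (j, k)) s i := by
  simp only [cob, Finset.sum_apply]
  exact sum_congr rfl fun v _ => slice_left (a v) (y (s.erase v)) k i

theorem slice_cob_right (b : V → Matrix κ κ ℝ) (y : Finset V → ι × κ → ℝ) (s : Finset V) (k : κ)
    (i : ι) : cob (fun v => Matrix.toLin' ((1 : Matrix ι ι ℝ) ⊗ₖ b v)) y s (i, k)
      = cob (fun v => Matrix.toLin' (b v)) (fun t l => y t (i, l)) s k := by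
  simp only [cob, Finset.sum_apply]
  exact sum_congr rfl fun v _ => slice_right (b v) (y (s.erase v)) k i

theorem ex_left {a : V → Matrix ι ι ℝ} {A : Finset V} {i : ℕ}
    (h : ExC G (fun v => Matrix.toLin' (a v)) A i) :
    ExC G (fun v => Matrix.toLin' (a v ⊗ₖ (1 : Matrix κ κ ℝ))) A i := by
  intro y hy hcl
  have h1 : ∀ k : κ, Bd G (fun v => Matrix.toLin' (a v)) A i (fun t j => y t (j, k)) := by
    intro k
    refine h _ ?_ ?_
    · intro s hs hi v hv
      funext j
      rw [← slice_left (a v) (y s) k j]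
      exact congrFun (hy s hs hi v hv) (j, k)
    · intro s hs hi
      funext j
      rw [← slice_cob_left a y s k j]
      exact congrFun (hcl s hs hi) (j, k)
  choose X hX1 hX2 using h1
  refine ⟨fun s q => X q.2 s q.1, ?_, ?_⟩
  · intro s hs hi v hv
    funext ⟨j, k⟩
    show Matrix.toLin' (a v ⊗ₖ (1 : Matrix κ κ ℝ)) (fun q : ι × κ => X q.2 s q.1) (j, k) = 0
    rw [slice_left]
    exact congrFun (hX1 k s hs hi v hv) j
  · intro s hs hi
    funext ⟨j, k⟩
    rw [slice_cob_left]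
    exact congrFun (hX2 k s hs hi) j

theorem slice_ex_right {b : V → Matrix κ κ ℝ} {A : Finset V} {i : ℕ}
    (h : ExC G (fun v => Matrix.toLin' (b v)) A i) :
    ExC G (fun v => Matrix.toLin' ((1 : Matrix ι ι ℝ) ⊗ₖ b v)) A i := by
  intro y hy hcl
  have h1 : ∀ k : ι, Bd G (fun v => Matrix.toLin' (b v)) A i (fun t l => y t (k, l)) := by
    intro k
    refine h _ ?_ ?_
    · intro s hs hi v hv
      funext j
      rw [← slice_right (b v) (y s) j k]
      exact congrFun (hy s hs hi v hv) (k, j)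
    · intro s hs hi
      funext j
      rw [← slice_cob_right b y s j k]
      exact congrFun (hcl s hs hi) (k, j)
  choose X hX1 hX2 using h1
  refine ⟨fun s q => X q.1 s q.2, ?_, ?_⟩
  · intro s hs hi v hv
    funext ⟨j, k⟩
    show Matrix.toLin' ((1 : Matrix ι ι ℝ) ⊗ₖ b v) (fun q : ι × κ => X q.1 s q.2) (j, k) = 0
    rw [slice_right]
    exact congrFun (hX1 j s hs hi v hv) k
  · intro s hs hi
    funext ⟨j, k⟩
    rw [slice_cob_right]
    exact congrFun (hX2 j s hs hi) k

theorem slice_twist {U : Type} [AddCommGroup U] [Module ℝ U] {T : Module.End ℝ U}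
    (hT : ∀ x, T (T x) = x) {b : V → Module.End ℝ U} (hc : ∀ v x, T (b v x) = b v (T x))
    {A : Finset V} {i : ℕ} (h : ExC G b A i) : ExC G (fun v => T * b v) A i := by
  have hcob : ∀ (z : Finset V → U) (s : Finset V), cob (fun v => T * b v) z s = T (cob b z s) := by
    intro z s
    rw [cob, cob, map_sum]
    rfl
  intro y hy hcl
  obtain ⟨x, h1, h2⟩ := h y (fun s hs hi v hv => by
      have h3 : T (b v (y s)) = 0 := hy s hs hi v hv
      rw [← hT (b v (y s)), h3, map_zero])
    (fun s hs hi => by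
      have h3 := hcl s hs hi
      rw [hcob] at h3
      rw [← hT (cob b y s), h3, map_zero])
  refine ⟨fun s => T (x s), fun s hs hi v hv => ?_, fun s hs hi => ?_⟩
  · show T (b v (T (x s))) = 0
    rw [hc, hT]
    exact h1 s hs hi v hv
  · rw [hcob, cob_comm (T := T) (fun v _ x => (hc v x).symm), hT]
    exact h2 s hs hi

theorem ex_right {b : V → Matrix κ κ ℝ} {γ : Matrix ι ι ℝ} (hg : γ * γ = 1) {A : Finset V} {i : ℕ}
    (h : ExC G (fun v => Matrix.toLin' (b v)) A i) :
    ExC G (fun v => Matrix.toLin' (γ ⊗ₖ b v)) A i := by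
  have h1 := slice_twist (G := G) (A := A) (i := i)
    (T := Matrix.toLin' (γ ⊗ₖ (1 : Matrix κ κ ℝ)))
    (b := fun v => Matrix.toLin' ((1 : Matrix ι ι ℝ) ⊗ₖ b v)) ?_ ?_ (slice_ex_right h)
  · have e : (fun v => Matrix.toLin' (γ ⊗ₖ (1 : Matrix κ κ ℝ)) *
        Matrix.toLin' ((1 : Matrix ι ι ℝ) ⊗ₖ b v)) = fun v => Matrix.toLin' (γ ⊗ₖ b v) := by
      funext v
      rw [Module.End.mul_eq_comp, ← Matrix.toLin'_mul, ← Matrix.mul_kronecker_mul, mul_one,
        one_mul]
    rw [e] at h1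
    exact h1
  · intro x
    rw [Matrix.toLin'_apply, Matrix.toLin'_apply, Matrix.mulVec_mulVec,
      ← Matrix.mul_kronecker_mul, hg, mul_one, Matrix.one_kronecker_one, Matrix.one_mulVec]
  · intro v x
    simp only [Matrix.toLin'_apply, Matrix.mulVec_mulVec]
    rw [← Matrix.mul_kronecker_mul, ← Matrix.mul_kronecker_mul, mul_one, one_mul, mul_one, one_mul]

end Pool.Agent.H31.GS
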