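import Pool.Agent.H31.GS.Defs
import Pool.Agent.H31.GS.Cob
import Pool.Agent.H31.GS.Comb

/-!
# helper31, GS, module SP1: vertex splitting, the split system and the combinatorics

`u c` is an edge of `A`, `H = contract G u c`, `A' = A.erase u`, `L = lk G A {u, c}`. `Fm`: an extra fermion `α`, `β` anticommuting with
all `a v`, `b v` (`v ∈ A'`).

The split system on `(G, A)`: `sa u = a c + α`, `sb u = β`, `sb c = b c - β`, `sa v = a v` (`v ≠ u`), `sb v = b v` (`v ≠ u, c`).
`sp_sys`: `(a c + α)^2 = 0`, `{a c + α, β} = 1`, `{a c, b c - β} = 1`, `(b c - β)^2 = 0`; pair `u, c`: `{a c + α, a c} = 0`,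
`{a c + α, b c - β} = {a c, b c} - {α, β} = 1 - 1 = 0`, `{β, a c} = 0`, `{β, b c - β} = 0`; a neighbour `x ≠ c` of `u` in `A` is a neighbour of `c` in
`H`; a neighbour of `c` in `G` is a neighbour in `H`; edges of `G` not containing `u` are edges of `H`.

Combinatorics: for `s ⊆ A.erase u`, `c ∉ s`:
`sp_cl0`: `Cl G A s ↔ Cl H A' s`.
`sp_clc`: `Cl H A' (insert c s) ↔ Cl G A (insert u s) ∨ Cl G A (insert c s)`: if `insert c s` is a simplex of `H` each
element of `s` is adjacent to `u` or to `c` in `G`; if some `x ∈ s` is adjacent to `u` but not to `c` and some `y ∈ s` is adjacent to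
`c` but not to `u`, then `x ≠ y` are adjacent (in `H`, so in `G` since `c ∉ {x, y}`), contradicting `NoSq`.
`sp_cluc`: `Cl G A (insert u (insert c s)) ↔ Cl G A (insert u s) ∧ Cl G A (insert c s)`, and `↔ Cl G L s`.
-/

namespace Pool.Agent.H31.GS

open Finset

set_option linter.unusedSectionVars false
set_option linter.unusedVariables false

variable {V : Type} [Fintype V] [LinearOrder V] {G : SimpleGraph V}
variable {U : Type} [AddCommGroup U] [Module ℝ U] {a b : V → Module.End ℝ U} {α β : Module.End ℝ U}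

/-- an extra fermion -/
structure Fm (A : Finset V) (a b : V → Module.End ℝ U) (α β : Module.End ℝ U) : Prop where
  aa : ∀ x, α (α x) = 0
  bb : ∀ x, β (β x) = 0
  ab : ∀ x, α (β x) + β (α x) = x
  ca : ∀ v ∈ A, ∀ x, α (a v x) = - a v (α x)
  cb : ∀ v ∈ A, ∀ x, α (b v x) = - b v (α x)
  da : ∀ v ∈ A, ∀ x, β (a v x) = - a v (β x)
  db : ∀ v ∈ A, ∀ x, β (b v x) = - b v (β x)

/-- the split system -/
def sa (a : V → Module.End ℝ U) (α : Module.End ℝ U) (u c : V) (v : V) : Module.End ℝ U :=
  if v = u then a c + α else a v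

def sb (b : V → Module.End ℝ U) (β : Module.End ℝ U) (u c : V) (v : V) : Module.End ℝ U :=
  if v = u then β else if v = c then b c - β else b v

theorem sp1_sa_u (u c : V) : sa a α u c u = a c + α := by simp [sa]

theorem sp1_sa_ne {u c v : V} (h : v ≠ u) : sa a α u c v = a v := by simp [sa, h]

theorem sp1_sb_u (u c : V) : sb b β u c u = β := by simp [sb]

theorem sp1_sb_c {u c : V} (h : c ≠ u) : sb b β u c c = b c - β := by simp [sb, h]

theorem sp1_sb_ne {u c v : V} (h : v ≠ u) (h' : v ≠ c) : sb b β u c v = b v := by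
  simp [sb, h, h']

theorem sp_sys {A : Finset V} {u c : V} (hu : u ∈ A) (hc : c ∈ A) (huc : G.Adj u c)
    (h : GSys (contract G u c) (A.erase u) a b) (hf : Fm (A.erase u) a b α β) :
    GSys G A (sa a α u c) (sb b β u c) := by
  have hcu : c ≠ u := huc.ne'
  have hc' : c ∈ A.erase u := mem_erase.2 ⟨hcu, hc⟩
  have hE : ∀ v ∈ A, v ≠ u → v ∈ A.erase u := fun v hv hvu => mem_erase.2 ⟨hvu, hv⟩
  have hadj : ∀ {v w : V}, G.Adj v w → (contract G u c).Adj v w := fun {v w} hvw =>
    ⟨hvw.ne, Or.inl hvw⟩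
  have hadjc : ∀ {w : V}, G.Adj u w → w ≠ c → (contract G u c).Adj c w := fun {w} hw hwc =>
    ⟨hwc.symm, Or.inr (Or.inl ⟨rfl, hw⟩)⟩
  -- relations of the adjacent pair `u, w` with `w ≠ c`
  have e1 : ∀ w ∈ A, G.Adj u w → w ≠ c → ∀ x, a c (a w x) = - a w (a c x) := fun w hw hww hwc x =>
    h.caa c hc' w (hE w hw hww.ne') (hadjc hww hwc) x
  have e2 : ∀ w ∈ A, G.Adj u w → w ≠ c → ∀ x, a c (b w x) = - b w (a c x) := fun w hw hww hwc x =>
    h.cab c hc' w (hE w hw hww.ne') (hadjc hww hwc) x
  refine ⟨?_, ?_, ?_, ?_, ?_, ?_⟩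
  · intro v hv x
    by_cases hvu : v = u
    · subst hvu
      rw [sp1_sa_u]
      simp only [LinearMap.add_apply, map_add]
      rw [h.aa c hc', hf.aa, hf.ca c hc']
      abel
    · rw [sp1_sa_ne hvu]
      exact h.aa v (hE v hv hvu) x
  · intro v hv x
    by_cases hvu : v = u
    · subst hvu
      rw [sp1_sb_u]
      exact hf.bb x
    · by_cases hvc : v = c
      · subst hvc
        rw [sp1_sb_c hvu]
        simp only [LinearMap.sub_apply, map_sub]
        rw [h.bb v hc', hf.bb, hf.db v hc']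
        abel
      · rw [sp1_sb_ne hvu hvc]
        exact h.bb v (hE v hv hvu) x
  · intro v hv x
    by_cases hvu : v = u
    · subst hvu
      rw [sp1_sb_u, sp1_sa_u]
      simp only [LinearMap.add_apply, map_add]
      rw [hf.da c hc']
      have := hf.ab x
      calc a c (β x) + α (β x) + (-a c (β x) + β (α x)) = α (β x) + β (α x) := by abel
        _ = x := this
    · by_cases hvc : v = c
      · subst hvc
        rw [sp1_sb_c hvu, sp1_sa_ne hvu]
        simp only [LinearMap.sub_apply, map_sub]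
        rw [hf.da v hc']
        have := h.ab v hc' x
        calc a v (b v x) - a v (β x) + (b v (a v x) - -a v (β x)) =
            a v (b v x) + b v (a v x) := by abel
          _ = x := this
      · rw [sp1_sb_ne hvu hvc, sp1_sa_ne hvu]
        exact h.ab v (hE v hv hvu) x
  · intro v hv w hw hvw x
    by_cases hvu : v = u
    · subst hvu
      have hwv : w ≠ v := hvw.ne'
      rw [sp1_sa_u, sp1_sa_ne hwv]
      simp only [LinearMap.add_apply, map_add]
      by_cases hwc : w = c
      · subst hwc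
        rw [h.aa w hc', hf.ca w hc']
        abel
      · rw [e1 w hw hvw hwc, hf.ca w (hE w hw hwv)]
        abel
    · by_cases hwu : w = u
      · subst hwu
        rw [sp1_sa_u, sp1_sa_ne hvu]
        simp only [LinearMap.add_apply, map_add]
        by_cases hvc : v = c
        · subst hvc
          rw [h.aa v hc', hf.ca v hc']
          abel
        · rw [e1 v hv hvw.symm hvc, hf.ca v (hE v hv hvu)]
          abel
      · rw [sp1_sa_ne hvu, sp1_sa_ne hwu]
        exact h.caa v (hE v hv hvu) w (hE w hw hwu) (hadj hvw) x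
  · intro v hv w hw hvw x
    by_cases hvu : v = u
    · subst hvu
      have hwv : w ≠ v := hvw.ne'
      by_cases hwc : w = c
      · subst hwc
        rw [sp1_sa_u, sp1_sb_c hwv]
        simp only [LinearMap.add_apply, map_add, LinearMap.sub_apply, map_sub]
        rw [hf.cb w hc', hf.da w hc']
        have h1 := h.ab w hc' x
        have h2 := hf.ab x
        have h3 : a w (b w x) = x - b w (a w x) := eq_sub_of_add_eq h1
        have h4 : α (β x) = x - β (α x) := eq_sub_of_add_eq h2
        rw [h3, h4]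
        abel
      · rw [sp1_sa_u, sp1_sb_ne hwv hwc]
        simp only [LinearMap.add_apply, map_add]
        rw [e2 w hw hvw hwc, hf.cb w (hE w hw hwv)]
        abel
    · by_cases hwu : w = u
      · subst hwu
        rw [sp1_sa_ne hvu, sp1_sb_u, hf.da v (hE v hv hvu), neg_neg]
      · by_cases hwc : w = c
        · subst hwc
          rw [sp1_sa_ne hvu, sp1_sb_c hwu]
          simp only [LinearMap.sub_apply, map_sub]
          rw [h.cab v (hE v hv hvu) w hc' (hadj hvw), hf.da v (hE v hv hvu)]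
          abel
        · rw [sp1_sa_ne hvu, sp1_sb_ne hwu hwc]
          exact h.cab v (hE v hv hvu) w (hE w hw hwu) (hadj hvw) x
  · intro v hv w hw hvw x
    by_cases hvu : v = u
    · subst hvu
      have hwv : w ≠ v := hvw.ne'
      by_cases hwc : w = c
      · subst hwc
        rw [sp1_sb_u, sp1_sb_c hwv]
        simp only [LinearMap.sub_apply, map_sub]
        rw [hf.db w hc', hf.bb]
        abel
      · rw [sp1_sb_u, sp1_sb_ne hwv hwc]
        exact hf.db w (hE w hw hwv) x
    · by_cases hwu : w = u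
      · subst hwu
        by_cases hvc : v = c
        · subst hvc
          rw [sp1_sb_u, sp1_sb_c hvu]
          simp only [LinearMap.sub_apply, map_sub]
          rw [hf.db v hc', hf.bb]
          abel
        · rw [sp1_sb_u, sp1_sb_ne hvu hvc, hf.db v (hE v hv hvu), neg_neg]
      · by_cases hvc : v = c
        · subst hvc
          have hwv : w ≠ v := hvw.ne'
          rw [sp1_sb_c hvu, sp1_sb_ne hwu hwv]
          simp only [LinearMap.sub_apply, map_sub]
          rw [h.cbb v hc' w (hE w hw hwu) (hadj hvw), hf.db w (hE w hw hwu)]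
          abel
        · by_cases hwc : w = c
          · subst hwc
            rw [sp1_sb_c hwu, sp1_sb_ne hvu hvc]
            simp only [LinearMap.sub_apply, map_sub]
            rw [h.cbb v (hE v hv hvu) w hc' (hadj hvw), hf.db v (hE v hv hvu)]
            abel
          · rw [sp1_sb_ne hvu hvc, sp1_sb_ne hwu hwc]
            exact h.cbb v (hE v hv hvu) w (hE w hw hwu) (hadj hvw) x

theorem sp_cl0 {A : Finset V} {u c : V} {s : Finset V} (hs : u ∉ s) (hcs : c ∉ s) :
    Cl G A s ↔ Cl (contract G u c) (A.erase u) s := by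
  rw [comb1_cl_iff, comb1_cl_iff]
  constructor
  · rintro ⟨h1, h2⟩
    exact ⟨fun x hx => mem_erase.2 ⟨fun e => hs (e ▸ hx), h1 hx⟩,
      fun x hx y hy hxy => ⟨hxy, Or.inl (h2 x hx y hy hxy)⟩⟩
  · rintro ⟨h1, h2⟩
    refine ⟨fun x hx => (mem_erase.1 (h1 hx)).2, fun x hx y hy hxy => ?_⟩
    rcases (h2 x hx y hy hxy).2 with h3 | h3 | h3
    · exact h3
    · exact absurd (h3.1 ▸ hx) hcs
    · exact absurd (h3.1 ▸ hy) hcs

theorem sp1_insert {A : Finset V} {u : V} {s : Finset V} (hs : u ∉ s) :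
    Cl G A (insert u s) ↔ u ∈ A ∧ Cl G A s ∧ ∀ x ∈ s, G.Adj u x := by
  constructor
  · intro h
    refine ⟨h.1 (mem_insert_self _ _), h.subset (subset_insert _ _), fun x hx => ?_⟩
    exact h.adj (mem_insert_self _ _) (mem_insert_of_mem hx) (fun e => hs (e ▸ hx))
  · rintro ⟨h1, h2, h3⟩
    rw [comb1_cl_iff]
    refine ⟨insert_subset h1 h2.1, fun x hx y hy hxy => ?_⟩
    rcases mem_insert.1 hx with rfl | hx
    · rcases mem_insert.1 hy with rfl | hy
      · exact absurd rfl hxy
      · exact h3 y hy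
    · rcases mem_insert.1 hy with e | hy
      · rw [e]
        exact (h3 x hx).symm
      · exact h2.adj hx hy hxy

theorem sp_clc {A : Finset V} {u c : V} (hu : u ∈ A) (hc : c ∈ A) (huc : G.Adj u c)
    (h4 : NoSq G A u c) {s : Finset V} (hs : u ∉ s) (hcs : c ∉ s) :
    Cl (contract G u c) (A.erase u) (insert c s) ↔ Cl G A (insert u s) ∨ Cl G A (insert c s) := by
  rw [sp1_insert hcs, sp1_insert hs, sp1_insert hcs, ← sp_cl0 hs hcs]
  constructor
  · rintro ⟨h1, h2, h3⟩
    have h5 : ∀ x ∈ s, G.Adj c x ∨ G.Adj u x := by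
      intro x hx
      rcases (h3 x hx).2 with h6 | h6 | h6
      · exact Or.inl h6
      · exact Or.inr h6.2
      · exact absurd (h6.1 ▸ hx) hcs
    by_contra hn
    push Not at hn
    obtain ⟨x, hx, hux⟩ := hn.1 hu h2
    obtain ⟨y, hy, hcy⟩ := hn.2 hc h2
    have hcx : G.Adj c x := (h5 x hx).resolve_right hux
    have huy : G.Adj u y := (h5 y hy).resolve_left hcy
    have hxy : y ≠ x := by
      rintro rfl
      exact hux huy
    refine h4 y (h2.1 hy) x (h2.1 hx) huy (fun e => hcs (e ▸ hy)) hcy hcx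
      (fun e => hs (e ▸ hx)) hux (h2.adj hy hx hxy)
  · rintro (⟨-, h2, h3⟩ | ⟨-, h2, h3⟩)
    · exact ⟨mem_erase.2 ⟨huc.ne', hc⟩, h2, fun x hx =>
        ⟨fun e => hcs (e ▸ hx), Or.inr (Or.inl ⟨rfl, h3 x hx⟩)⟩⟩
    · exact ⟨mem_erase.2 ⟨huc.ne', hc⟩, h2, fun x hx =>
        ⟨fun e => hcs (e ▸ hx), Or.inl (h3 x hx)⟩⟩

theorem sp_cluc {A : Finset V} {u c : V} (hu : u ∈ A) (hc : c ∈ A) (huc : G.Adj u c)
    {s : Finset V} (hs : u ∉ s) (hcs : c ∉ s) :
    (Cl G A (insert u (insert c s)) ↔ Cl G A (insert u s) ∧ Cl G A (insert c s)) ∧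
    (Cl G A (insert u (insert c s)) ↔ Cl G (lk G A {u, c}) s) := by
  have hn : u ∉ insert c s := by
    rw [mem_insert]
    rintro (h | h)
    · exact huc.ne h
    · exact hs h
  rw [sp1_insert hn, sp1_insert hs, sp1_insert hcs]
  constructor
  · constructor
    · rintro ⟨h1, h2, h3⟩
      exact ⟨⟨h1, h2.2.1, fun x hx => h3 x (mem_insert_of_mem hx)⟩, h2⟩
    · rintro ⟨h1, h2⟩
      refine ⟨h1.1, h2, fun x hx => ?_⟩
      rcases mem_insert.1 hx with rfl | hx
      · exact huc
      · exact h1.2.2 x hx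
  · constructor
    · rintro ⟨h1, h2, h3⟩
      refine ⟨fun x hx => mem_lk.2 ⟨h2.2.1.1 hx, fun v hv => ?_⟩, h2.2.1.2⟩
      rcases mem_insert.1 hv with rfl | hv
      · exact h3 x (mem_insert_of_mem hx)
      · rw [mem_singleton.1 hv]
        exact h2.2.2 x hx
    · intro h
      have h1 : ∀ x ∈ s, x ∈ A ∧ G.Adj u x ∧ G.Adj c x := by
        intro x hx
        have h2 := mem_lk.1 (h.1 hx)
        exact ⟨h2.1, h2.2 u (by simp), h2.2 c (by simp)⟩
      refine ⟨hu, ⟨hc, ⟨fun x hx => (h1 x hx).1, h.2⟩, fun x hx => (h1 x hx).2.2⟩,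
        fun x hx => ?_⟩
      rcases mem_insert.1 hx with rfl | hx
      · exact huc
      · exact (h1 x hx).2.1

end Pool.Agent.H31.GS
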