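import Pool.Agent.H31.GS.Sp1

/-!
# helper31, GS, module SP2: vertex splitting, steps 1 and 2

Write `S = sa a α u c`, `ut = insert u t`, `ct = insert c t`, `uct = insert u (insert c t)` for `t` with `u, c ∉ t`. For `s` not containing
`u`: `Cell S s = Cell a s` and `cob S y s = cob a y s`; `cob S y (ut) = (a c + α) (y t) + ∑ v ∈ t, a v (y (insert u (t.erase v)))`;
`x ∈ Cell S (ut)` iff `a c x + α x = 0` and `x ∈ Cell a t`.
The elements `v` of a simplex `t` with `ct` a simplex of `H = contract G u c` are adjacent to `c` in `H`, so `a v` anticommutes with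
`a c`, `b c`.

`sp_step1`: `x s = if c ∈ s ∧ u ∉ s ∧ Cl G A (insert u s) then β (y (insert u s)) else 0` (classical). `y (insert u s)` is killed by
`a c + α` and by `a c`, so by `α`. `cob S x (uct) = (a c + α) (β (y (uct))) + 0 = α (β (y (uct))) = y (uct)`.

`sp_step2`. `y` is a closed cochain of degree `i`, zero on simplices containing `u` and `c`. For `t` with `ut`, `ct` simplices of `A`
(then `uct` too), `t.card + 1 = i`: `0 = cob S y (uct) = (a c + α) (y (ct)) + a c (y (ut)) + 0 = α (y (ct)) - α (y (ut))`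
(`a c (y (ct)) = 0`, `a c (y (ut)) = - α (y (ut))`). (*)
Define `y1 s = α (y (insert u (s.erase c)))` if `c ∈ s` and `Cl G A (insert u (s.erase c))`, `y1 s = α (y s)` otherwise. It is a closed
cochain of degree `i` for `(H, A.erase u, a)`: values: `a c (α (y (ut))) = - α (a c (y (ut))) = α (α (y (ut))) = 0`; closed: for `s` not
containing `c`: `cob a (α y) s = - α (cob a y s) = 0`; at `ct` with `ut` a simplex of `A`:
`a c (α (y t)) + ∑ v ∈ t, a v (α (y (insert u (t.erase v)))) = - α (a c (y t) + ∑ ...) = - α (- α (y t)) = 0`; at `ct` with `ct` a simplex of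
`A` and `ut` not: `y1 (insert c (t.erase v)) = α (y (insert c (t.erase v)))` also if `insert u (t.erase v)` is a simplex, by (*);
`- α (cob S y (ct)) = 0`. So `y1 = cob a z0` on `(H, A.erase u)`; `z s = α (β (z0 s))` satisfies the same (`α β` commutes with `a v`;
`α (β (y1 s)) = y1 s` since `α (y1 s) = 0`), and `α (z s) = 0`. Put
`x s = - β (z s)` if `u ∉ s`; `x s = - (β - b c) (z (insert c (s.erase u)))` if `u ∈ s`, `c ∉ s`; `x s = 0` if `u, c ∈ s`.
Cochain: at `ut`: `(a c + α) ((β - b c) z') = 0` if `a c z' = 0`, `α z' = 0` (here `z' = z (ct)`): `a c β z' = - β a c z' = 0`, `a c b c z' = z'`,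
`α β z' = z'`, `α b c z' = 0`.
`cob S x (uct) = - ((a c + α) (β z') + a c ((β - b c) z')) = - (z' - z') = 0`.
`α (cob S x s) = α (y s)`: for `u ∉ s`: `cob a x s = β (cob a z s) = β (y1 s)`, `α (β (y1 s)) = y1 s`, which is `α (y s)` (by (*) if `c ∈ s`).
At `ut` (`c ∉ t`): `- cob S x (ut) = (a c + α) (β (z t)) - (β - b c) K` with `K = ∑ v ∈ t, a v (z (insert c (t.erase v))) = y1 (ct) - a c (z t)`,
`α K = 0`; `α` of it: `α (a c (β (z t))) - α (β K) + α (b c K) = - a c (z t) - K + 0 = - y1 (ct) = - α (y (ut))`.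
-/

namespace Pool.Agent.H31.GS

open Finset

set_option linter.unusedSectionVars false
set_option linter.unusedVariables false

variable {V : Type} [Fintype V] [LinearOrder V] {G : SimpleGraph V}
variable {U : Type} [AddCommGroup U] [Module ℝ U] {a b : V → Module.End ℝ U} {α β : Module.End ℝ U}

theorem sp2_ne {u c v : V} (h : v ≠ u) : sa a α u c v = a v := if_neg h

theorem sp2_self {u c : V} : sa a α u c u = a c + α := if_pos rfl

theorem sp2_cell {u c : V} {s : Finset V} (hu : u ∉ s) {x : U} :
    x ∈ Cell (sa a α u c) s ↔ x ∈ Cell a s := by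
  rw [mem_Cell, mem_Cell]
  refine forall_congr' fun v => forall_congr' fun hv => ?_
  have : v ≠ u := fun e => hu (e ▸ hv)
  rw [sp2_ne this]

theorem sp2_cell_insert {u c : V} {t : Finset V} (hu : u ∉ t) {x : U} :
    x ∈ Cell (sa a α u c) (insert u t) ↔ (a c x + α x = 0) ∧ x ∈ Cell a t := by
  rw [mem_Cell, forall_mem_insert]
  have h1 := sp2_cell (a := a) (α := α) (c := c) hu (x := x)
  rw [mem_Cell] at h1
  rw [h1, sp2_self, LinearMap.add_apply]

theorem sp2_cob {u c : V} {s : Finset V} (hu : u ∉ s) (y : Finset V → U) :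
    cob (sa a α u c) y s = cob a y s := by
  unfold cob
  refine sum_congr rfl fun v hv => ?_
  have : v ≠ u := fun e => hu (e ▸ hv)
  rw [sp2_ne this]

theorem sp2_cob_insert {u c : V} {t : Finset V} (hu : u ∉ t) (y : Finset V → U) :
    cob (sa a α u c) y (insert u t) = (a c (y t) + α (y t)) +
      ∑ v ∈ t, a v (y (insert u (t.erase v))) := by
  rw [cob_insert hu, sp2_self, LinearMap.add_apply]
  congr 1
  refine sum_congr rfl fun v hv => ?_
  have : v ≠ u := fun e => hu (e ▸ hv)
  rw [sp2_ne this]

/-- the coboundary at `u`, `c` and `t` -/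
theorem sp2_cob_uc {u c : V} {t : Finset V} (hu : u ∉ t) (hc : c ∉ t) (huc : u ≠ c)
    (y : Finset V → U) :
    cob (sa a α u c) y (insert u (insert c t)) = (a c (y (insert c t)) + α (y (insert c t))) +
      (a c (y (insert u t)) + ∑ v ∈ t, a v (y (insert u (insert c (t.erase v))))) := by
  have h1 : u ∉ insert c t := by
    rw [mem_insert, not_or]
    exact ⟨huc, hu⟩
  rw [sp2_cob_insert h1, sum_insert hc, erase_insert hc]
  congr 2
  refine sum_congr rfl fun v hv => ?_
  have hvc : v ≠ c := fun e => hc (e ▸ hv)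
  rw [erase_insert_of_ne hvc.symm]

theorem sp_step1 {A : Finset V} {u c : V} (hu : u ∈ A) (hc : c ∈ A) (huc : G.Adj u c)
    (h : GSys (contract G u c) (A.erase u) a b) (hf : Fm (A.erase u) a b α β) {i : ℕ}
    {y : Finset V → U} (hy : InC G (sa a α u c) A i y) :
    ∃ x : Finset V → U, (∀ s, Cl G A s → s.card + 1 = i → x s ∈ Cell (sa a α u c) s) ∧
      ∀ s, Cl G A s → s.card = i → u ∈ s → c ∈ s → y s = cob (sa a α u c) x s := by
  classical
  refine ⟨fun s => if c ∈ s ∧ u ∉ s ∧ Cl G A (insert u s) then β (y (insert u s)) else 0,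
    fun s hs hi => ?_, fun s hs hi hus hcs => ?_⟩
  · simp only
    split_ifs with h1
    · obtain ⟨h2, h3, h4⟩ := h1
      have h5 := hy (insert u s) h4 (by rw [card_insert_of_notMem h3]; exact hi)
      rw [sp2_cell_insert h3] at h5
      rw [sp2_cell h3]
      intro v hv
      have hvA : v ∈ A.erase u := mem_erase.2 ⟨fun e => h3 (e ▸ hv), hs.1 hv⟩
      have h6 := hf.da v hvA (y (insert u s))
      rw [h5.2 v hv, map_zero] at h6
      exact neg_eq_zero.1 h6.symm
    · exact Submodule.zero_mem _
  · have hr : u ∉ s.erase u := notMem_erase u s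
    have hs2 : insert u (s.erase u) = s := insert_erase hus
    have hcr : c ∈ s.erase u := mem_erase.2 ⟨huc.ne.symm, hcs⟩
    have h5 := hy s hs hi
    rw [← hs2, sp2_cell_insert hr, hs2] at h5
    have hac : a c (y s) = 0 := h5.2 c hcr
    have hα : α (y s) = 0 := by
      have := h5.1
      rw [hac, zero_add] at this
      exact this
    have hcA : c ∈ A.erase u := mem_erase.2 ⟨huc.ne.symm, hc⟩
    have h7 : cob (sa a α u c) (fun s => if c ∈ s ∧ u ∉ s ∧ Cl G A (insert u s) then
        β (y (insert u s)) else 0) (insert u (s.erase u)) = y s := by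
      rw [sp2_cob_insert hr]
      have e1 : (if c ∈ s.erase u ∧ u ∉ s.erase u ∧ Cl G A (insert u (s.erase u)) then
          β (y (insert u (s.erase u))) else 0) = β (y s) := by
        rw [if_pos ⟨hcr, hr, by rw [hs2]; exact hs⟩, hs2]
      rw [e1, sum_eq_zero, add_zero]
      · have h8 := hf.da c hcA (y s)
        rw [hac, map_zero] at h8
        rw [neg_eq_zero.1 h8.symm, zero_add]
        have h9 := hf.ab (y s)
        rw [hα, map_zero, add_zero] at h9
        exact h9
      · intro v hv
        rw [if_neg (fun h8 => h8.2.1 (mem_insert_self u _)), map_zero]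
    rw [hs2] at h7
    exact h7.symm

/-- the relation (*) -/
theorem sp2_star {A : Finset V} {u c : V} (hu : u ∈ A) (hc : c ∈ A) (huc : G.Adj u c) {i : ℕ}
    {y : Finset V → U} (hy : InC G (sa a α u c) A i y) (hcl : Clo G (sa a α u c) A i y)
    (h0 : ∀ s, Cl G A s → s.card = i → u ∈ s → c ∈ s → y s = 0) {t : Finset V} (hut : u ∉ t)
    (hct : c ∉ t) (h1 : Cl G A (insert u t)) (h2 : Cl G A (insert c t)) (hi : t.card + 1 = i) :
    α (y (insert u t)) = α (y (insert c t)) := by
  have h3 := ((sp_cluc hu hc huc hut hct).1).2 ⟨h1, h2⟩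
  have hn : u ∉ insert c t := by
    rw [mem_insert, not_or]
    exact ⟨huc.ne, hut⟩
  have h4 := hcl _ h3 (by
    rw [card_insert_of_notMem hn, card_insert_of_notMem hct, hi])
  rw [sp2_cob_uc hut hct huc.ne, sum_eq_zero, add_zero] at h4
  · have h5 := hy _ h2 (by rw [card_insert_of_notMem hct, hi])
    rw [sp2_cell hn] at h5
    have h6 := hy _ h1 (by rw [card_insert_of_notMem hut, hi])
    rw [sp2_cell_insert hut] at h6
    rw [h5 c (mem_insert_self c t), zero_add] at h4
    have h7 := h6.1
    rw [add_comm] at h7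
    rw [eq_neg_of_add_eq_zero_left h7, eq_neg_of_add_eq_zero_left h4]
  · intro v hv
    have e1 : insert u (insert c (t.erase v)) ⊆ insert u (insert c t) :=
      insert_subset_insert _ (insert_subset_insert _ (erase_subset _ _))
    have e2 : u ∉ insert c (t.erase v) := fun h => hn (insert_subset_insert _ (erase_subset _ _) h)
    have e3 : c ∉ t.erase v := fun h => hct (mem_of_mem_erase h)
    rw [h0 _ (h3.subset e1) (by
      rw [card_insert_of_notMem e2, card_insert_of_notMem e3, card_erase_of_mem hv, ← hi]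
      have := card_pos.2 ⟨v, hv⟩
      omega) (mem_insert_self _ _) (mem_insert_of_mem (mem_insert_self _ _)), map_zero]

open Classical in
/-- the cochain on the contraction -/
noncomputable def sp2_y1 (G : SimpleGraph V) (A : Finset V) (α : Module.End ℝ U) (u c : V)
    (y : Finset V → U) (s : Finset V) : U :=
  if c ∈ s ∧ Cl G A (insert u (s.erase c)) then α (y (insert u (s.erase c))) else α (y s)

theorem sp2_y1_off {A : Finset V} {u c : V} {y : Finset V → U} {s : Finset V} (hc : c ∉ s) :
    sp2_y1 G A α u c y s = α (y s) := by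
  unfold sp2_y1
  rw [if_neg (fun h => hc h.1)]

theorem sp2_y1_u {A : Finset V} {u c : V} {y : Finset V → U} {t : Finset V} (hc : c ∉ t)
    (h : Cl G A (insert u t)) : sp2_y1 G A α u c y (insert c t) = α (y (insert u t)) := by
  unfold sp2_y1
  rw [erase_insert hc, if_pos ⟨mem_insert_self c t, h⟩]

theorem sp2_y1_c {A : Finset V} {u c : V} (hu : u ∈ A) (hc : c ∈ A) (huc : G.Adj u c) {i : ℕ}
    {y : Finset V → U} (hy : InC G (sa a α u c) A i y) (hcl : Clo G (sa a α u c) A i y)
    (h0 : ∀ s, Cl G A s → s.card = i → u ∈ s → c ∈ s → y s = 0) {t : Finset V} (hut : u ∉ t)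
    (hct : c ∉ t) (h2 : Cl G A (insert c t)) (hi : t.card + 1 = i) :
    sp2_y1 G A α u c y (insert c t) = α (y (insert c t)) := by
  by_cases h1 : Cl G A (insert u t)
  · rw [sp2_y1_u hct h1]
    exact sp2_star hu hc huc hy hcl h0 hut hct h1 h2 hi
  · unfold sp2_y1
    rw [erase_insert hct, if_neg (fun h => h1 h.2)]

theorem sp2_y1_alpha {A : Finset V} {u c : V} {B : Finset V} (hf : Fm B a b α β)
    (y : Finset V → U) (s : Finset V) : α (sp2_y1 G A α u c y s) = 0 := by
  unfold sp2_y1
  split_ifs
  · exact hf.aa _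
  · exact hf.aa _

theorem sp2_u_notMem {A s : Finset V} {H : SimpleGraph V} {u : V} (hs : Cl H (A.erase u) s) :
    u ∉ s := fun h => notMem_erase u A (hs.1 h)

theorem sp2_y1_inC {A : Finset V} {u c : V} (hu : u ∈ A) (hc : c ∈ A) (huc : G.Adj u c)
    (h4 : NoSq G A u c) (hf : Fm (A.erase u) a b α β) {i : ℕ}
    {y : Finset V → U} (hy : InC G (sa a α u c) A i y) (hcl : Clo G (sa a α u c) A i y)
    (h0 : ∀ s, Cl G A s → s.card = i → u ∈ s → c ∈ s → y s = 0) :
    InC (contract G u c) a (A.erase u) i (sp2_y1 G A α u c y) := by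
  intro s hs hi
  have hus := sp2_u_notMem hs
  have hac : ∀ v ∈ A.erase u, ∀ x, a v (α x) = - α (a v x) := by
    intro v hv x
    rw [hf.ca v hv x, neg_neg]
  by_cases hcs : c ∈ s
  · obtain ⟨t, ht⟩ : ∃ t, t = s.erase c := ⟨_, rfl⟩
    have hst : s = insert c t := by rw [ht, insert_erase hcs]
    have hct : c ∉ t := by rw [ht]; exact notMem_erase c s
    have hut : u ∉ t := fun h => hus (by rw [hst]; exact mem_insert_of_mem h)
    rw [hst] at hs hi hus ⊢
    have hi' : t.card + 1 = i := by rw [← hi, card_insert_of_notMem hct]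
    by_cases h1 : Cl G A (insert u t)
    · rw [sp2_y1_u hct h1]
      have h5 := hy _ h1 (by rw [card_insert_of_notMem hut, hi'])
      rw [sp2_cell_insert hut] at h5
      intro v hv
      rw [hac v (hs.1 hv)]
      rcases mem_insert.1 hv with rfl | hv
      · rw [eq_neg_of_add_eq_zero_left h5.1, map_neg, hf.aa, neg_zero, neg_zero]
      · rw [h5.2 v hv, map_zero, neg_zero]
    · have h2 : Cl G A (insert c t) := ((sp_clc hu hc huc h4 hut hct).1 hs).resolve_left h1
      rw [sp2_y1_c hu hc huc hy hcl h0 hut hct h2 hi']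
      have h5 := hy _ h2 hi
      rw [sp2_cell hus] at h5
      intro v hv
      rw [hac v (hs.1 hv), h5 v hv, map_zero, neg_zero]
  · rw [sp2_y1_off hcs]
    have h5 := hy _ ((sp_cl0 hus hcs).2 hs) hi
    rw [sp2_cell hus] at h5
    intro v hv
    rw [hac v (hs.1 hv), h5 v hv, map_zero, neg_zero]

theorem sp2_y1_clo {A : Finset V} {u c : V} (hu : u ∈ A) (hc : c ∈ A) (huc : G.Adj u c)
    (h4 : NoSq G A u c) (hf : Fm (A.erase u) a b α β) {i : ℕ}
    {y : Finset V → U} (hy : InC G (sa a α u c) A i y) (hcl : Clo G (sa a α u c) A i y)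
    (h0 : ∀ s, Cl G A s → s.card = i → u ∈ s → c ∈ s → y s = 0) :
    Clo (contract G u c) a (A.erase u) i (sp2_y1 G A α u c y) := by
  intro s hs hi
  have hus := sp2_u_notMem hs
  have hac : ∀ v ∈ A.erase u, ∀ x, a v (α x) = - α (a v x) := by
    intro v hv x
    rw [hf.ca v hv x, neg_neg]
  by_cases hcs : c ∈ s
  · obtain ⟨t, ht⟩ : ∃ t, t = s.erase c := ⟨_, rfl⟩
    have hst : s = insert c t := by rw [ht, insert_erase hcs]
    have hct : c ∉ t := by rw [ht]; exact notMem_erase c s
    have hut : u ∉ t := fun h => hus (by rw [hst]; exact mem_insert_of_mem h)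
    rw [hst] at hs hi hus ⊢
    have hi' : t.card = i := by
      rw [card_insert_of_notMem hct] at hi
      omega
    by_cases h1 : Cl G A (insert u t)
    · rw [cob_insert hct, sp2_y1_off hct, hac c (hs.1 (mem_insert_self c t))]
      have h2 := hcl _ h1 (by rw [card_insert_of_notMem hut, hi'])
      rw [sp2_cob_insert hut] at h2
      have e1 : ∑ v ∈ t, a v (sp2_y1 G A α u c y (insert c (t.erase v))) =
          - α (∑ v ∈ t, a v (y (insert u (t.erase v)))) := by
        rw [map_sum, ← sum_neg_distrib]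
        refine sum_congr rfl fun v hv => ?_
        rw [sp2_y1_u (fun h => hct (mem_of_mem_erase h))
          (h1.subset (insert_subset_insert _ (erase_subset _ _))),
          hac v (hs.1 (mem_insert_of_mem hv))]
      rw [e1, ← neg_add, ← map_add]
      have e2 : a c (y t) + ∑ v ∈ t, a v (y (insert u (t.erase v))) = - α (y t) := by
        rw [eq_neg_iff_add_eq_zero, ← h2]
        abel
      rw [e2, map_neg, hf.aa, neg_zero, neg_zero]
    · have h2 : Cl G A (insert c t) := ((sp_clc hu hc huc h4 hut hct).1 hs).resolve_left h1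
      have e1 : cob a (sp2_y1 G A α u c y) (insert c t) =
          cob a (fun s => α (y s)) (insert c t) := by
        refine cob_congr fun v hv => ?_
        rcases mem_insert.1 hv with rfl | hv
        · rw [erase_insert hct, sp2_y1_off hct]
        · have hvc : v ≠ c := fun e => hct (e ▸ hv)
          rw [erase_insert_of_ne hvc.symm]
          refine sp2_y1_c hu hc huc hy hcl h0 (fun h => hut (mem_of_mem_erase h))
            (fun h => hct (mem_of_mem_erase h))
            (h2.subset (insert_subset_insert _ (erase_subset _ _))) ?_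
          rw [card_erase_of_mem hv, ← hi']
          have := card_pos.2 ⟨v, hv⟩
          omega
      rw [e1, cob_anti (fun v hv => hac v (hs.1 hv)), ← sp2_cob (α := α) (c := c) hus,
        hcl _ h2 hi, map_zero, neg_zero]
  · have e1 : cob a (sp2_y1 G A α u c y) s = cob a (fun s => α (y s)) s := by
      refine cob_congr fun v hv => ?_
      exact sp2_y1_off (fun h => hcs (mem_of_mem_erase h))
    rw [e1, cob_anti (fun v hv => hac v (hs.1 hv)), ← sp2_cob (α := α) (c := c) hus,
      hcl _ ((sp_cl0 hus hcs).2 hs) hi, map_zero, neg_zero]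

/-- the primitive -/
noncomputable def sp2_x (b : V → Module.End ℝ U) (β : Module.End ℝ U) (u c : V)
    (z : Finset V → U) (s : Finset V) : U :=
  if u ∉ s then - β (z s) else if c ∉ s then
    - (β (z (insert c (s.erase u))) - b c (z (insert c (s.erase u)))) else 0

theorem sp2_x_off {u c : V} {z : Finset V → U} {s : Finset V} (hu : u ∉ s) :
    sp2_x b β u c z s = - β (z s) := by
  unfold sp2_x
  rw [if_pos hu]

theorem sp2_x_u {u c : V} {z : Finset V → U} {t : Finset V} (hu : u ∉ t) (hc : c ∉ t)
    (huc : u ≠ c) : sp2_x b β u c z (insert u t) =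
      - (β (z (insert c t)) - b c (z (insert c t))) := by
  unfold sp2_x
  have h1 : c ∉ insert u t := by
    rw [mem_insert, not_or]
    exact ⟨huc.symm, hc⟩
  rw [if_neg (fun h => h (mem_insert_self u t)), if_pos h1, erase_insert hu]

theorem sp2_x_uc {u c : V} {z : Finset V → U} {s : Finset V} (hu : u ∈ s) (hc : c ∈ s) :
    sp2_x b β u c z s = 0 := by
  unfold sp2_x
  rw [if_neg (fun h => h hu), if_neg (fun h => h hc)]

theorem sp_step2 {A : Finset V} {u c : V} (hu : u ∈ A) (hc : c ∈ A) (huc : G.Adj u c)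
    (h4 : NoSq G A u c) (h : GSys (contract G u c) (A.erase u) a b)
    (hf : Fm (A.erase u) a b α β) {i : ℕ} (hA : ExC (contract G u c) a (A.erase u) i)
    {y : Finset V → U} (hy : InC G (sa a α u c) A i y) (hcl : Clo G (sa a α u c) A i y)
    (h0 : ∀ s, Cl G A s → s.card = i → u ∈ s → c ∈ s → y s = 0) :
    ∃ x : Finset V → U, (∀ s, Cl G A s → s.card + 1 = i → x s ∈ Cell (sa a α u c) s) ∧
      (∀ s, Cl G A s → s.card = i → u ∈ s → c ∈ s → cob (sa a α u c) x s = 0) ∧
      ∀ s, Cl G A s → s.card = i → α (cob (sa a α u c) x s) = α (y s) := by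
  obtain ⟨z0, hz0, hz1⟩ := hA _ (sp2_y1_inC hu hc huc h4 hf hy hcl h0)
    (sp2_y1_clo hu hc huc h4 hf hy hcl h0)
  have hcA : c ∈ A.erase u := mem_erase.2 ⟨huc.ne.symm, hc⟩
  have haα : ∀ v ∈ A.erase u, ∀ x, a v (α x) = - α (a v x) := by
    intro v hv x
    rw [hf.ca v hv x, neg_neg]
  have haβ : ∀ v ∈ A.erase u, ∀ x, a v (β x) = - β (a v x) := by
    intro v hv x
    rw [hf.da v hv x, neg_neg]
  have hab2 : ∀ v ∈ A.erase u, ∀ x, a v (α (β x)) = α (β (a v x)) := by
    intro v hv x
    rw [haα v hv, haβ v hv, map_neg, neg_neg]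
  obtain ⟨z, hz⟩ : ∃ z : Finset V → U, z = fun s => α (β (z0 s)) := ⟨_, rfl⟩
  have hzα : ∀ s, α (z s) = 0 := by
    intro s
    rw [hz]
    exact hf.aa _
  have hαβ : ∀ w : U, α w = 0 → α (β w) = w := by
    intro w hw
    have := hf.ab w
    rw [hw, map_zero, add_zero] at this
    exact this
  have hzc : ∀ s, Cl (contract G u c) (A.erase u) s → s.card + 1 = i → z s ∈ Cell a s := by
    intro s hs hi v hv
    rw [hz]
    simp only
    rw [hab2 v (hs.1 hv), hz0 s hs hi v hv, map_zero, map_zero]
  have hzy : ∀ s, Cl (contract G u c) (A.erase u) s → s.card = i →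
      cob a z s = sp2_y1 G A α u c y s := by
    intro s hs hi
    have e1 : cob a z s = (α * β) (cob a z0 s) := by
      rw [hz]
      exact cob_comm (T := α * β) (fun v hv x => hab2 v (hs.1 hv) x)
    rw [e1, ← hz1 s hs hi]
    exact hαβ _ (sp2_y1_alpha hf y s)
  have hcl2 : ∀ t, u ∉ t → c ∉ t → Cl G A (insert u t) →
      Cl (contract G u c) (A.erase u) (insert c t) := fun t h1 h2 h3 =>
    (sp_clc hu hc huc h4 h1 h2).2 (Or.inl h3)
  have hcl3 : ∀ s, u ∉ s → Cl G A s → Cl (contract G u c) (A.erase u) s := by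
    intro s h1 h2
    by_cases hcs : c ∈ s
    · have h3 : insert c (s.erase c) = s := insert_erase hcs
      rw [← h3]
      exact (sp_clc hu hc huc h4 (fun h => h1 (mem_of_mem_erase h)) (notMem_erase c s)).2
        (Or.inr (by rw [h3]; exact h2))
    · exact (sp_cl0 h1 hcs).1 h2
  -- facts about vectors killed by `a c` and `α`
  have f1 : ∀ w : U, a c w = 0 → a c (β w) = 0 := by
    intro w hw
    rw [haβ c hcA, hw, map_zero, neg_zero]
  have f2 : ∀ w : U, a c w = 0 → a c (b c w) = w := by
    intro w hw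
    have := h.ab c hcA w
    rw [hw, map_zero, add_zero] at this
    exact this
  have f3 : ∀ w : U, α w = 0 → α (b c w) = 0 := by
    intro w hw
    rw [hf.cb c hcA, hw, map_zero, neg_zero]
  have f4 : ∀ t v, v ∈ t → c ∉ t → Cl (contract G u c) (A.erase u) (insert c t) →
      ∀ w, a v (b c w) = - b c (a v w) := by
    intro t v hv hct hs w
    have hvc : v ≠ c := fun e => hct (e ▸ hv)
    exact h.cab v (hs.1 (mem_insert_of_mem hv)) c hcA
      (hs.adj (mem_insert_of_mem hv) (mem_insert_self c t) hvc) w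
  have X2 : ∀ s, Cl G A s → s.card = i → u ∈ s → c ∈ s →
      cob (sa a α u c) (sp2_x b β u c z) s = 0 := by
    intro s hs hi hus hcs
    obtain ⟨t, ht⟩ : ∃ t, t = (s.erase u).erase c := ⟨_, rfl⟩
    have hcu : c ∈ s.erase u := mem_erase.2 ⟨huc.ne.symm, hcs⟩
    have hst : s = insert u (insert c t) := by
      rw [ht, insert_erase hcu, insert_erase hus]
    have hct : c ∉ t := by rw [ht]; exact notMem_erase _ _
    have hut : u ∉ t := by
      rw [ht]
      intro h1
      exact notMem_erase u s (mem_of_mem_erase h1)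
    have hn : u ∉ insert c t := by
      rw [mem_insert, not_or]
      exact ⟨huc.ne, hut⟩
    rw [hst] at hs hi ⊢
    have hs2 : Cl G A (insert c t) := hs.subset (subset_insert _ _)
    have hi2 : (insert c t).card + 1 = i := by
      rw [← hi, card_insert_of_notMem hn]
    have hzt := hzc _ (hcl3 _ hn hs2) hi2 c (mem_insert_self c t)
    have hza := hzα (insert c t)
    rw [sp2_cob_uc hut hct huc.ne, sum_eq_zero, add_zero, sp2_x_off hn, sp2_x_u hut hct huc.ne,
      map_neg, map_neg, map_neg, map_sub, f1 _ hzt, f2 _ hzt, hαβ _ hza]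
    · abel
    · intro v hv
      rw [sp2_x_uc (mem_insert_self _ _) (mem_insert_of_mem (mem_insert_self _ _)), map_zero]
  refine ⟨sp2_x b β u c z, fun s hs hi => ?_, X2, fun s hs hi => ?_⟩
  · by_cases hus : u ∈ s
    · by_cases hcs : c ∈ s
      · rw [sp2_x_uc hus hcs]
        exact Submodule.zero_mem _
      · obtain ⟨t, ht⟩ : ∃ t, t = s.erase u := ⟨_, rfl⟩
        have hst : s = insert u t := by rw [ht, insert_erase hus]
        have hut : u ∉ t := by rw [ht]; exact notMem_erase u s
        have hct : c ∉ t := fun h1 => hcs (by rw [hst]; exact mem_insert_of_mem h1)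
        rw [hst] at hs hi ⊢
        have hsH := hcl2 t hut hct hs
        have hzt := hzc _ hsH (by
          rw [card_insert_of_notMem hct, ← hi, card_insert_of_notMem hut])
        have hz2 := hzt c (mem_insert_self c t)
        have hza := hzα (insert c t)
        rw [sp2_x_u hut hct huc.ne, sp2_cell_insert hut]
        refine ⟨?_, Submodule.neg_mem _ ?_⟩
        · rw [map_neg, map_neg, map_sub, map_sub, f1 _ hz2, f2 _ hz2, f3 _ hza, hαβ _ hza]
          abel
        · intro v hv
          rw [map_sub, haβ v (hsH.1 (mem_insert_of_mem hv)), f4 t v hv hct hsH,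
            hzt v (mem_insert_of_mem hv), map_zero, map_zero, sub_self]
    · rw [sp2_x_off hus, sp2_cell hus]
      have hsH := hcl3 s hus hs
      intro v hv
      rw [map_neg, haβ v (hsH.1 hv), hzc s hsH hi v hv, map_zero, neg_zero, neg_zero]
  · by_cases hus : u ∈ s
    · by_cases hcs : c ∈ s
      · rw [X2 s hs hi hus hcs, h0 s hs hi hus hcs]
      · obtain ⟨t, ht⟩ : ∃ t, t = s.erase u := ⟨_, rfl⟩
        have hst : s = insert u t := by rw [ht, insert_erase hus]
        have hut : u ∉ t := by rw [ht]; exact notMem_erase u s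
        have hct : c ∉ t := fun h1 => hcs (by rw [hst]; exact mem_insert_of_mem h1)
        rw [hst] at hs hi ⊢
        have hsH := hcl2 t hut hct hs
        have hiH : (insert c t).card = i := by
          rw [card_insert_of_notMem hct, ← hi, card_insert_of_notMem hut]
        have hy1 := hzy _ hsH hiH
        rw [sp2_y1_u hct hs, cob_insert hct] at hy1
        rw [← hy1, sp2_cob_insert hut, sp2_x_off hut]
        obtain ⟨K, hK⟩ : ∃ K, K = ∑ v ∈ t, a v (z (insert c (t.erase v))) := ⟨_, rfl⟩
        have hKα : α K = 0 := by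
          rw [hK, map_sum]
          refine sum_eq_zero fun v hv => ?_
          rw [hf.ca v (hsH.1 (mem_insert_of_mem hv)), hzα, map_zero, neg_zero]
        have e1 : ∑ v ∈ t, a v (sp2_x b β u c z (insert u (t.erase v))) = β K - b c K := by
          rw [hK, map_sum, map_sum, ← sum_sub_distrib]
          refine sum_congr rfl fun v hv => ?_
          rw [sp2_x_u (fun h1 => hut (mem_of_mem_erase h1)) (fun h1 => hct (mem_of_mem_erase h1))
            huc.ne, map_neg, map_sub, haβ v (hsH.1 (mem_insert_of_mem hv)),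
            f4 t v hv hct hsH]
          abel
        rw [e1, ← hK, map_add, map_add, map_neg, map_neg, map_neg, map_neg, hf.aa, neg_zero,
          add_zero, hf.ca c hcA, neg_neg, hαβ _ (hzα t), map_sub, hαβ _ hKα, f3 _ hKα, sub_zero]
    · have hsH := hcl3 s hus hs
      rw [sp2_cob hus]
      have e1 : cob a (sp2_x b β u c z) s = β (cob a z s) := by
        have e2 : cob a (sp2_x b β u c z) s = cob a (fun s => - β (z s)) s := by
          refine cob_congr fun v hv => ?_
          exact sp2_x_off (fun h1 => hus (mem_of_mem_erase h1))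
        rw [e2, cob_neg (fun s => β (z s)), cob_anti (fun v hv => haβ v (hsH.1 hv)), neg_neg]
      rw [e1, hzy s hsH hi, hαβ _ (sp2_y1_alpha hf y s)]
      by_cases hcs : c ∈ s
      · have hst : insert c (s.erase c) = s := insert_erase hcs
        have h7 := sp2_y1_c hu hc huc hy hcl h0 (t := s.erase c)
          (fun h1 => hus (mem_of_mem_erase h1)) (notMem_erase c s) (by rw [hst]; exact hs) (by
            rw [card_erase_of_mem hcs, ← hi]
            have := card_pos.2 ⟨c, hcs⟩
            omega)
        rw [hst] at h7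
        exact h7
      · exact sp2_y1_off hcs

end Pool.Agent.H31.GS
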