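import Pool.Agent.H31.GS.Cob

/-!
# helper31, GS, module TW1: deformations of a graded system, the conjugating operators

`TwD`: `(c, d)` is a graded system on `E` and `c' v` anticommutes with all `c w`, `d w` (`w ∈ E`, also `w = v`), squares to zero
and anticommutes with `c' w` for adjacent `v`, `w`. Then `(c + t c', d)` is a graded system for every `t` (`tw_sys`).

`w1 v = 1 + t • (c' v * d v)`, `(c' v * d v)^2 = - c' v c' v d v d v = 0`, so `w1 t v * w1 (-t) v = 1`.
`w1_c`: `w1 v (c v x) = (c v + t • c' v) (w1 v x)`: left `c v x + t c' d c x`; right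
`c v x + t c v c' v d v x + t c' v x + t^2 c' v c' v d v x = c v x - t c' v c v d v x + t c' v x = c v x + t c' v d v c v x`.
`w1_comm_c`, ...: for adjacent `v`, `w`: `c' v * d v` commutes with `c w`, `d w`, `c' w` (two anticommutations), hence with `c' w * d w`.

`wS t s` is the product of the `w1 t v` over the sorted list of `s`. For a simplex `s` the factors commute, so with
`List.Perm.prod_eq'` and the permutation `(insert v s).sort ~ v :: s.sort` (`List.perm_of_nodup_nodup_toFinset_eq` or
`List.perm_ext_iff_of_nodup`) one gets `wS_insert`. The other statements by induction on the list or on `s`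
(`Finset.induction_on` with `wS_insert`):
`wS_inv`: `wS t s * wS (-t) s = 1`. `wS_c`: for `v ∈ s` write `s = insert v (s.erase v)`.
`wS_comm_out`: for `v ∉ s`, `insert v s` a simplex, `wS t s` commutes with `c v`, `c' v`, `d v`.
-/

namespace Pool.Agent.H31.GS

open Finset

set_option linter.unusedSectionVars false
set_option linter.unusedVariables false

variable {V : Type} [Fintype V] [LinearOrder V] {G : SimpleGraph V}
variable {U : Type} [AddCommGroup U] [Module ℝ U] {c d c' : V → Module.End ℝ U} {E : Finset V}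

/-- data of a deformation `c + t c'` of the graded system `(c, d)` -/
structure TwD (G : SimpleGraph V) (E : Finset V) (c d c' : V → Module.End ℝ U) : Prop where
  sys : GSys G E c d
  h1 : ∀ v ∈ E, ∀ w ∈ E, ∀ x, c' v (c w x) = - c w (c' v x)
  h2 : ∀ v ∈ E, ∀ w ∈ E, ∀ x, c' v (d w x) = - d w (c' v x)
  h3 : ∀ v ∈ E, ∀ x, c' v (c' v x) = 0
  h4 : ∀ v ∈ E, ∀ w ∈ E, G.Adj v w → ∀ x, c' v (c' w x) = - c' w (c' v x)

/-- conjugating operator of a vertex -/
def w1 (d c' : V → Module.End ℝ U) (t : ℝ) (v : V) : Module.End ℝ U := 1 + t • (c' v * d v)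

/-- conjugating operator of a simplex -/
noncomputable def wS (d c' : V → Module.End ℝ U) (t : ℝ) (s : Finset V) : Module.End ℝ U :=
  ((s.sort (· ≤ ·)).map (w1 d c' t)).prod

theorem tw_sys (h : TwD G E c d c') (t : ℝ) : GSys G E (fun v => c v + t • c' v) d := by
  constructor
  · intro v hv x
    simp only [LinearMap.add_apply, LinearMap.smul_apply, map_add, map_smul]
    rw [h.sys.aa v hv, h.h1 v hv v hv, h.h3 v hv]
    module
  · exact h.sys.bb
  · intro v hv x
    simp only [LinearMap.add_apply, LinearMap.smul_apply, map_add, map_smul]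
    rw [h.h2 v hv v hv]
    have := h.sys.ab v hv x
    calc c v (d v x) + t • -(d v) (c' v x) + (d v (c v x) + t • d v (c' v x))
        = c v (d v x) + d v (c v x) := by module
      _ = x := this
  · intro v hv w hw e x
    simp only [LinearMap.add_apply, LinearMap.smul_apply, map_add, map_smul]
    rw [h.sys.caa v hv w hw e, h.h1 v hv w hw, h.h4 v hv w hw e, h.h1 w hw v hv]
    module
  · intro v hv w hw e x
    simp only [LinearMap.add_apply, LinearMap.smul_apply, map_add, map_smul]
    rw [h.sys.cab v hv w hw e, h.h2 v hv w hw]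
    module
  · exact h.sys.cbb

theorem w1_apply (t : ℝ) (v : V) (x : U) : w1 d c' t v x = x + t • c' v (d v x) := by
  simp [w1]

/-- the other order in `h2` -/
theorem tw1_dc (h : TwD G E c d c') {v w : V} (hv : v ∈ E) (hw : w ∈ E) (x : U) :
    d v (c' w x) = - c' w (d v x) := by
  rw [h.h2 w hw v hv, neg_neg]

theorem w1_inv (h : TwD G E c d c') (t : ℝ) {v : V} (hv : v ∈ E) :
    w1 d c' t v * w1 d c' (-t) v = 1 := by
  ext x
  rw [Module.End.mul_apply, w1_apply, w1_apply, Module.End.one_apply]
  simp only [map_add, map_smul]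
  rw [tw1_dc h hv hv, h.sys.bb v hv, map_zero, neg_zero, map_zero]
  module

theorem w1_c (h : TwD G E c d c') (t : ℝ) {v : V} (hv : v ∈ E) (x : U) :
    w1 d c' t v (c v x) = (c v + t • c' v) (w1 d c' t v x) := by
  rw [w1_apply, w1_apply]
  have e1 : d v (c v x) = x - c v (d v x) := by
    rw [eq_sub_iff_add_eq, add_comm]
    exact h.sys.ab v hv x
  rw [e1]
  simp only [LinearMap.add_apply, LinearMap.smul_apply, map_add, map_smul, map_sub]
  rw [h.h1 v hv v hv, h.h3 v hv]
  module

theorem w1_comm_out (h : TwD G E c d c') (t : ℝ) {v w : V} (hv : v ∈ E) (hw : w ∈ E)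
    (e : G.Adj v w) (x : U) :
    w1 d c' t v (c w x) = c w (w1 d c' t v x) ∧ w1 d c' t v (d w x) = d w (w1 d c' t v x) ∧
      w1 d c' t v (c' w x) = c' w (w1 d c' t v x) := by
  refine ⟨?_, ?_, ?_⟩
  · rw [w1_apply, w1_apply, h.sys.cba hv hw e]
    simp only [map_add, map_smul, map_neg]
    rw [h.h1 v hv w hw]
    module
  · rw [w1_apply, w1_apply, h.sys.cbb v hv w hw e]
    simp only [map_add, map_smul, map_neg]
    rw [h.h2 v hv w hw]
    module
  · rw [w1_apply, w1_apply, tw1_dc h hv hw]
    simp only [map_add, map_smul, map_neg]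
    rw [h.h4 v hv w hw e]
    module

theorem w1_comm (h : TwD G E c d c') (t u : ℝ) {v w : V} (hv : v ∈ E) (hw : w ∈ E)
    (e : G.Adj v w) : Commute (w1 d c' t v) (w1 d c' u w) := by
  apply LinearMap.ext
  intro x
  rw [Module.End.mul_apply, Module.End.mul_apply, w1_apply u, w1_apply u, map_add, map_smul,
    (w1_comm_out h t hv hw e _).2.2, (w1_comm_out h t hv hw e _).2.1]

theorem tw1_empty (t : ℝ) : wS d c' t ∅ = 1 := by
  simp [wS]

theorem wS_insert (h : TwD G E c d c') (t : ℝ) {v : V} {s : Finset V} (hs : Cl G E (insert v s))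
    (hv : v ∉ s) : wS d c' t (insert v s) = w1 d c' t v * wS d c' t s := by
  unfold wS
  have hp : List.Perm ((insert v s).sort (· ≤ ·)) (v :: s.sort (· ≤ ·)) := by
    rw [List.perm_ext_iff_of_nodup (Finset.sort_nodup _ _)
      (List.nodup_cons.2 ⟨by simpa using hv, Finset.sort_nodup _ _⟩)]
    intro a
    simp
  have hc : (((insert v s).sort (· ≤ ·)).map (w1 d c' t)).Pairwise Commute := by
    rw [List.pairwise_map]
    apply (Finset.sort_nodup (insert v s) (· ≤ ·)).pairwise_of_forall_ne
    intro a ha b hb hab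
    rw [Finset.mem_sort] at ha hb
    exact w1_comm h t t (hs.1 ha) (hs.1 hb) (hs.adj ha hb hab)
  rw [(hp.map (w1 d c' t)).prod_eq' hc, List.map_cons, List.prod_cons]

theorem wS_comm_out (h : TwD G E c d c') (t : ℝ) {v : V} {s : Finset V}
    (hs : Cl G E (insert v s)) (hv : v ∉ s) (x : U) :
    wS d c' t s (c v x) = c v (wS d c' t s x) ∧ wS d c' t s (d v x) = d v (wS d c' t s x) ∧
      wS d c' t s (c' v x) = c' v (wS d c' t s x) := by
  induction s using Finset.induction_on with
  | empty =>
    rw [tw1_empty]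
    exact ⟨rfl, rfl, rfl⟩
  | @insert u s hu ih =>
    have hs1 : Cl G E (insert u s) := hs.subset (subset_insert _ _)
    have hs2 : Cl G E (insert v s) := hs.subset (insert_subset_insert _ (subset_insert _ _))
    have hv2 : v ∉ s := fun h' => hv (mem_insert_of_mem h')
    have huv : u ≠ v := fun h' => hv (h' ▸ mem_insert_self _ _)
    have huE : u ∈ E := hs1.1 (mem_insert_self _ _)
    have hvE : v ∈ E := hs.1 (mem_insert_self _ _)
    have e : G.Adj u v := hs.adj (mem_insert_of_mem (mem_insert_self _ _)) (mem_insert_self _ _) huv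
    obtain ⟨i1, i2, i3⟩ := ih hs2 hv2
    rw [wS_insert h t hs1 hu]
    simp only [Module.End.mul_apply]
    rw [i1, i2, i3]
    exact w1_comm_out h t huE hvE e _

/-- `wS` of the other vertices commutes with `w1` -/
theorem tw1_wS_w1 (h : TwD G E c d c') (t u : ℝ) {v : V} {s : Finset V}
    (hs : Cl G E (insert v s)) (hv : v ∉ s) (x : U) :
    wS d c' t s (w1 d c' u v x) = w1 d c' u v (wS d c' t s x) := by
  rw [w1_apply, w1_apply, map_add, map_smul, (wS_comm_out h t hs hv _).2.2,
    (wS_comm_out h t hs hv _).2.1]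

theorem wS_inv (h : TwD G E c d c') (t : ℝ) {s : Finset V} (hs : Cl G E s) (x : U) :
    wS d c' t s (wS d c' (-t) s x) = x := by
  induction s using Finset.induction_on generalizing x with
  | empty =>
    rw [tw1_empty, tw1_empty]
    rfl
  | @insert u s hu ih =>
    have hs1 : Cl G E s := hs.subset (subset_insert _ _)
    rw [wS_insert h t hs hu, wS_insert h (-t) hs hu, Module.End.mul_apply, Module.End.mul_apply,
      tw1_wS_w1 h t (-t) hs hu, ih hs1, ← Module.End.mul_apply,
      w1_inv h t (hs.1 (mem_insert_self _ _))]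
    rfl

theorem wS_c (h : TwD G E c d c') (t : ℝ) {s : Finset V} (hs : Cl G E s) {v : V} (hv : v ∈ s)
    (x : U) : wS d c' t s (c v x) = (c v + t • c' v) (wS d c' t s x) := by
  have he : insert v (s.erase v) = s := insert_erase hv
  have hs' : Cl G E (insert v (s.erase v)) := by rw [he]; exact hs
  have hn : v ∉ s.erase v := notMem_erase _ _
  have e1 : wS d c' t s = w1 d c' t v * wS d c' t (s.erase v) := by
    rw [← wS_insert h t hs' hn, he]
  rw [e1, Module.End.mul_apply, Module.End.mul_apply, (wS_comm_out h t hs' hn _).1,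
    w1_c h t (hs.1 hv)]

end Pool.Agent.H31.GS
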