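import Pool.Agent.H31.GS.Tw1

/-!
# helper31, GS, module TW2: transport of the deformed complex to the cells of `c`

`dt t z s = ∑ v ∈ s, c v (z (s.erase v) - t • c' v (d v (z (s.erase v))))`.

`tw_cob`: if `y s' = wS t s' (z s')` for all faces `s'` of the simplex `s` then `cob (c + t c') y s = wS t s (dt t z s)`: for `v ∈ s`,
`s = insert v (s.erase v)`, `wS t s = w1 t v * wS t (s.erase v)`, and
`wS t s (c v (w1 (-t) v z')) = (c v + t c' v) (wS t s (w1 (-t) v z'))` (`wS_c`), `wS t s (w1 (-t) v z') =
w1 t v (wS t (s.erase v) (w1 (-t) v z')) = w1 t v (w1 (-t) v (wS t (s.erase v) z')) = wS t (s.erase v) z'`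
(`wS_comm_out` for `c' v`, `d v`, so `wS t (s.erase v)` commutes with `w1 (-t) v`; `w1_inv`). `w1 (-t) v z' = z' - t • c' v (d v z')`.

`tw_cell`: `wS t s` is bijective (`wS_inv` for `t` and `-t`) and `wS t s (c v x) = (c v + t c' v) (wS t s x)`.

`dt_dt`: put `y s' = wS t s' (z s')`; `0 = cob (cob y) s = wS t s (dt (dt z) s)` (`cob_cob` with `tw_sys`, `tw_cob` twice; `wS t s` injective).
`dt_mem`: from `tw_cell`, `tw_cob` and `cob_mem`, or directly.

`tw_ex_iff`. (→) Given `z` total (all degrees at once), for every `i` let `y_i s = wS t s (z s)` if `s.card = i`; it is closed of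
degree `i` for `c + t c'` (the closedness `dt z s = 0` at a simplex `s` only involves faces with `s.card - 1` elements); get `x_i`
of degree `i - 1`; put `x s = wS (-t) s (x_{s.card + 1} s)`. (←) Given `y` closed of degree `i` put
`z s = wS (-t) s (y s)` if `s` is a simplex with `s.card = i`, and `0` otherwise; `dt z s = 0` for all simplices; get `x`, and
`wS t s (x s)` (on simplices with `s.card + 1 = i`) does it.
-/

namespace Pool.Agent.H31.GS

open Finset

set_option linter.unusedSectionVars false
set_option linter.unusedVariables false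

variable {V : Type} [Fintype V] [LinearOrder V] {G : SimpleGraph V}
variable {U : Type} [AddCommGroup U] [Module ℝ U] {c d c' : V → Module.End ℝ U} {E : Finset V}

/-- the transported coboundary -/
def dt (c d c' : V → Module.End ℝ U) (t : ℝ) (z : Finset V → U) (s : Finset V) : U :=
  ∑ v ∈ s, c v (z (s.erase v) - t • c' v (d v (z (s.erase v))))

theorem tw2_inj (h : TwD G E c d c') (t : ℝ) {s : Finset V} (hs : Cl G E s) {x y : U}
    (e : wS d c' t s x = wS d c' t s y) : x = y := by
  have h1 := wS_inv h (-t) hs x
  have h2 := wS_inv h (-t) hs y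
  rw [neg_neg] at h1 h2
  rw [← h1, ← h2, e]

theorem tw_cob (h : TwD G E c d c') (t : ℝ) {s : Finset V} (hs : Cl G E s) {y z : Finset V → U}
    (hy : ∀ v ∈ s, y (s.erase v) = wS d c' t (s.erase v) (z (s.erase v))) :
    cob (fun v => c v + t • c' v) y s = wS d c' t s (dt c d c' t z s) := by
  unfold cob dt
  rw [map_sum]
  refine sum_congr rfl (fun v hv => ?_)
  have he : insert v (s.erase v) = s := insert_erase hv
  have hs' : Cl G E (insert v (s.erase v)) := by rw [he]; exact hs
  have hn : v ∉ s.erase v := notMem_erase _ _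
  have e1 : wS d c' t s = w1 d c' t v * wS d c' t (s.erase v) := by
    rw [← wS_insert h t hs' hn, he]
  have e2 : z (s.erase v) - t • c' v (d v (z (s.erase v))) = w1 d c' (-t) v (z (s.erase v)) := by
    rw [w1_apply]
    module
  rw [e2, wS_c h t hs hv, hy v hv]
  congr 1
  rw [e1, Module.End.mul_apply, tw1_wS_w1 h t (-t) hs' hn, ← Module.End.mul_apply,
    w1_inv h t (hs.1 hv)]
  rfl

theorem tw_cell (h : TwD G E c d c') (t : ℝ) {s : Finset V} (hs : Cl G E s) (x : U) :
    wS d c' t s x ∈ Cell (fun v => c v + t • c' v) s ↔ x ∈ Cell c s := by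
  rw [mem_Cell, mem_Cell]
  constructor
  · intro h1 v hv
    apply tw2_inj h t hs
    rw [wS_c h t hs hv, map_zero]
    exact h1 v hv
  · intro h1 v hv
    rw [← wS_c h t hs hv, h1 v hv, map_zero]

theorem dt_dt (h : TwD G E c d c') (t : ℝ) {s : Finset V} (hs : Cl G E s) (z : Finset V → U) :
    dt c d c' t (fun s' => dt c d c' t z s') s = 0 := by
  apply tw2_inj h t hs
  rw [map_zero, ← tw_cob h t hs (y := fun s' => cob (fun v => c v + t • c' v)
    (fun s'' => wS d c' t s'' (z s'')) s')]
  · exact cob_cob (tw_sys h t) _ hs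
  · intro v hv
    exact tw_cob h t (hs.erase v) (fun w _ => rfl)

theorem dt_mem (h : TwD G E c d c') (t : ℝ) {s : Finset V} (hs : Cl G E s) {z : Finset V → U}
    (hz : ∀ v ∈ s, z (s.erase v) ∈ Cell c (s.erase v)) : dt c d c' t z s ∈ Cell c s := by
  rw [← tw_cell h t hs, ← tw_cob h t hs (y := fun s' => wS d c' t s' (z s')) (fun v _ => rfl)]
  exact cob_mem (tw_sys h t) hs (fun v hv => (tw_cell h t (hs.erase v) _).2 (hz v hv))

theorem tw_ex_iff (h : TwD G E c d c') (t : ℝ) :
    (∀ i, ExC G (fun v => c v + t • c' v) E i) ↔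
      ∀ z : Finset V → U, (∀ s, Cl G E s → z s ∈ Cell c s) →
        (∀ s, Cl G E s → dt c d c' t z s = 0) →
        ∃ x : Finset V → U, (∀ s, Cl G E s → x s ∈ Cell c s) ∧
          ∀ s, Cl G E s → z s = dt c d c' t x s := by
  constructor
  · intro hE z hz hdz
    have hb : ∀ i, Bd G (fun v => c v + t • c' v) E i (fun s => wS d c' t s (z s)) := by
      intro i
      apply hE i
      · intro s hs _
        exact (tw_cell h t hs _).2 (hz s hs)
      · intro s hs _
        rw [tw_cob h t hs (fun v _ => rfl), hdz s hs, map_zero]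
    choose x hx1 hx2 using hb
    refine ⟨fun s => wS d c' (-t) s (x (s.card + 1) s), fun s hs => ?_, fun s hs => ?_⟩
    · rw [← tw_cell h t hs, wS_inv h t hs]
      exact hx1 (s.card + 1) s hs rfl
    · apply tw2_inj h t hs
      rw [← tw_cob h t hs (y := x s.card)]
      · exact hx2 s.card s hs rfl
      · intro v hv
        have hcard : (s.erase v).card + 1 = s.card := card_erase_add_one hv
        rw [wS_inv h t (hs.erase v), hcard]
  · intro H i y hy hcl
    have hz1 : ∀ s, Cl G E s → (fun s : Finset V => if s.card = i then wS d c' (-t) s (y s) else 0) s ∈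
        Cell c s := by
      intro s hs
      simp only
      split_ifs with hi
      · rw [← tw_cell h t hs, wS_inv h t hs]
        exact hy s hs hi
      · exact Submodule.zero_mem _
    have hz2 : ∀ s, Cl G E s →
        dt c d c' t (fun s : Finset V => if s.card = i then wS d c' (-t) s (y s) else 0) s = 0 := by
      intro s hs
      by_cases hi : s.card = i + 1
      · apply tw2_inj h t hs
        rw [map_zero, ← tw_cob h t hs (y := y)]
        · exact hcl s hs hi
        · intro v hv
          have hcard : (s.erase v).card = i := by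
            rw [card_erase_of_mem hv, hi, Nat.add_sub_cancel]
          simp only [hcard, if_true]
          rw [wS_inv h t (hs.erase v)]
      · unfold dt
        apply sum_eq_zero
        intro v hv
        have hcard : (s.erase v).card ≠ i := by
          have := card_erase_add_one hv
          omega
        simp only [hcard, if_false]
        rw [map_zero, map_zero, smul_zero, sub_zero, map_zero]
    obtain ⟨x, hx1, hx2⟩ := H _ hz1 hz2
    refine ⟨fun s => wS d c' t s (x s), fun s hs _ => (tw_cell h t hs _).2 (hx1 s hs),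
      fun s hs hi => ?_⟩
    rw [tw_cob h t hs (fun v _ => rfl), ← hx2 s hs]
    simp only [hi, if_true]
    rw [wS_inv h t hs]

end Pool.Agent.H31.GS
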