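import Pool.Agent.H31.GS.Rules

/-!
# helper31, GS, module UPPER: vanishing above the middle, for all full subcomplexes

`ExAll G a L e`: `L` is thought of as a sphere of rank `e`; all links of simplices are exact outside the middle degree.

`upper_weak`: induction on `E` (`Finset.induction_on` / on the cardinality): `E = ∅`: `exC_empty` (`0 < i`).
Otherwise `w ∈ E`, `i = j + 1`, `R1` with `E.erase w` (induction) and `lk G E {w} ⊆ lk G L {w}` (`lk_mono`), `e ≤ 2 * j`.

`upper_strong`: induction on `(L \ E).card` (`E = L` is `hL`): `w ∈ L \ E`, `E = (insert w E).erase w`, `R2` with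
`insert w E` (induction) and `lk G (insert w E) {w} ⊆ lk G L {w}` (`hUp`, `e ≤ 2 * i`).

`up_of_ex`: induction on `e` generalizing `L`, for `r = ∅` first: show `∀ E ⊆ L, ∀ i, e < 2 * i → ExC G a E i` from
`ExAll G a L e`. For `w ∈ L`, `ExAll G a (lk G L {w}) (e - 1)` (by `lk_lk`, `lk_insert`, `cl_insert`), so by induction
`hUp` of `upper_strong` holds (`e = 0`: then `L = ∅` because `FlagSphere G 0 L`). For general `r` apply this to `lk G L r`
(a sphere of rank `e - r.card`, `sphere_lk`), with `ExAll G a (lk G L r) (e - r.card)`.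
-/

namespace Pool.Agent.H31.GS

open Finset

set_option linter.unusedSectionVars false
set_option linter.unusedVariables false

variable {V : Type} [Fintype V] [LinearOrder V] {G : SimpleGraph V}
variable {U : Type} [AddCommGroup U] [Module ℝ U] {a b : V → Module.End ℝ U}

/-- all links in `L` (sphere of rank `e`) are exact outside the middle degree -/
def ExAll (G : SimpleGraph V) (a : V → Module.End ℝ U) (L : Finset V) (e : ℕ) : Prop :=
  ∀ r, Cl G L r → ∀ i, 2 * i + r.card ≠ e → ExC G a (lk G L r) i

theorem upper_weak {L : Finset V} (h : GSys G L a b) {e : ℕ}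
    (hUp : ∀ w ∈ L, ∀ E, E ⊆ lk G L {w} → ∀ i, e ≤ 2 * i → ExC G a E i) :
    ∀ E, E ⊆ L → ∀ i, e + 1 < 2 * i → ExC G a E i := by
  classical
  intro E
  induction E using Finset.induction_on with
  | empty =>
    intro _ i hi
    exact exC_empty (by omega)
  | insert w E' hw ih =>
    intro hE i hi
    obtain ⟨j, rfl⟩ : ∃ j, i = j + 1 := ⟨i - 1, by omega⟩
    refine R1 (h.mono hE) (mem_insert_self w E') ?_ ?_
    · rw [erase_insert hw]
      exact ih ((subset_insert w E').trans hE) _ hi
    · exact hUp w (hE (mem_insert_self w E')) _ (lk_mono hE {w}) j (by omega)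

theorem upper_strong {L : Finset V} (h : GSys G L a b) {e : ℕ}
    (hUp : ∀ w ∈ L, ∀ E, E ⊆ lk G L {w} → ∀ i, e ≤ 2 * i → ExC G a E i)
    (hL : ∀ i, e < 2 * i → ExC G a L i) :
    ∀ E, E ⊆ L → ∀ i, e < 2 * i → ExC G a E i := by
  classical
  have key : ∀ n : ℕ, ∀ E, E ⊆ L → (L \ E).card = n → ∀ i, e < 2 * i → ExC G a E i := by
    intro n
    induction n with
    | zero =>
      intro E hE hn i hi
      have h1 : L \ E = ∅ := card_eq_zero.1 hn
      have h2 : E = L := Subset.antisymm hE (sdiff_eq_empty_iff_subset.1 h1)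
      rw [h2]
      exact hL i hi
    | succ n ih =>
      intro E hE hn i hi
      obtain ⟨w, hw⟩ : (L \ E).Nonempty := card_pos.1 (by omega)
      rw [mem_sdiff] at hw
      have hins : insert w E ⊆ L := insert_subset hw.1 hE
      have hcard : (L \ insert w E).card = n := by
        rw [sdiff_insert, card_erase_of_mem (mem_sdiff.2 hw), hn]
        rfl
      have hA := ih (insert w E) hins hcard i hi
      have := R2 (h.mono hins) (mem_insert_self w E) hA
        (hUp w hw.1 _ (lk_mono hins {w}) i (by omega))
      rwa [erase_insert hw.2] at this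
  intro E hE i hi
  exact key _ E hE rfl i hi

private theorem upper_aux : ∀ (e : ℕ) (L : Finset V), GSys G L a b → FlagSphere G e L →
    ExAll G a L e → ∀ E, E ⊆ L → ∀ i, e < 2 * i → ExC G a E i := by
  classical
  intro e
  induction e with
  | zero =>
    intro L h hS hex E hE i hi
    have hL : L = ∅ := hS
    rw [hL] at hE
    rw [subset_empty.1 hE]
    exact exC_empty (by omega)
  | succ e ih =>
    intro L h hS hex
    refine upper_strong h ?_ ?_
    · intro w hw E hE i hi
      refine ih (lk G L {w}) (h.mono (lk_subset L {w})) (hS.2 w hw).1 ?_ E hE i (by omega)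
      intro r hr j hj
      rw [lk_lk]
      obtain ⟨h1, h2⟩ := cl_union (cl_singleton hw) hr
      refine hex _ h1 j ?_
      rw [card_union_of_disjoint h2, card_singleton]
      omega
    · intro i hi
      have := hex ∅ (cl_empty L) i (by rw [card_empty]; omega)
      rwa [lk_empty] at this

theorem up_of_ex {L : Finset V} (h : GSys G L a b) {e : ℕ} (hS : FlagSphere G e L)
    (hex : ExAll G a L e) {r : Finset V} (hr : Cl G L r) :
    ∀ E, E ⊆ lk G L r → ∀ i, e < 2 * i + r.card → ExC G a E i := by
  classical
  intro E hE i hi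
  obtain ⟨h1, h2⟩ := sphere_lk hS hr
  refine upper_aux (e - r.card) (lk G L r) (h.mono (lk_subset L r)) h2 ?_ E hE i (by omega)
  intro r' hr' j hj
  rw [lk_lk]
  obtain ⟨h3, h4⟩ := cl_union hr hr'
  refine hex _ h3 j ?_
  rw [card_union_of_disjoint h4]
  omega

end Pool.Agent.H31.GS
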