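import Pool.Agent.H31.GS.Cob
import Pool.Agent.H31.GS.Row

/-!
# helper31, GS, module ZIGDL: the descending step of the zigzag

Setting of the ZIG modules: `L` a flag complex, `x ∈ L`, `far G L x` the vertices outside the star of `x`. We consider
functions `Y r s` of pairs with `Pr G L x r s`: `r ⊆ far G L x` and `r ∪ s` a simplex of `L` (`r` and `s` may
intersect), bidegree `(r.card, s.card)`, values in `Cell a s`; horizontal differential
`(d Y) r s = ∑ v ∈ r, sgn v r • Y (r.erase v) s`, vertical differential `cob a (Y r) s`. They commute.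
`hRE`: rows are exact for `s` not containing `x`. (For `x ∈ s` only `r = ∅` gives a pair, because vertices of `far G L x` are
not adjacent to `x`.)

`zigDL`: for every simplex `s` of `L` with `x ∉ s`, `s.card = i`, apply `row_exact` with `D = nb G (far G L x) s`
(`cl_nb`), degree `p + 1`, `W = Cell a s` and `f r = Y' r s - cob a (W' r) s` (in `Cell a s` by `cob_mem`; closed by `c`):
get `h_s` with `Y' r s - cob a (W' r) s = ∑ v ∈ r, sgn v r • h_s (r.erase v)`. Put `W r s = h_s r` (choice; `0` if `s` is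
not such a simplex). For a pair `(r, s)` with `r.card = p + 1`, `s.card = i` this equation holds (then `x ∉ s` as `r ≠ ∅`).
For `r.card = p + 1`, `s.card = i + 1`:
`∑ v, sgn v r • Y (r.erase v) s = cob a (Y' r) s = ∑ u ∈ s, a u (Y' r (s.erase u))
 = ∑ u ∈ s, a u (cob a (W' r) (s.erase u)) + ∑ u ∈ s, a u (∑ v ∈ r, sgn v r • W (r.erase v) (s.erase u))
 = 0 + ∑ v ∈ r, sgn v r • cob a (W (r.erase v)) s` (`cob_cob`).
-/

namespace Pool.Agent.H31.GS

open Finset

set_option linter.unusedSectionVars false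
set_option linter.unusedVariables false

variable {V : Type} [Fintype V] [LinearOrder V] {G : SimpleGraph V}
variable {U : Type} [AddCommGroup U] [Module ℝ U] [FiniteDimensional ℝ U]
variable {a b : V → Module.End ℝ U}

/-- admissible pairs -/
def Pr (G : SimpleGraph V) (L : Finset V) (x : V) (r s : Finset V) : Prop :=
  r ⊆ far G L x ∧ Cl G L (r ∪ s)

theorem zigDL {L : Finset V} (h : GSys G L a b) {x : V} (hx : x ∈ L)
    (hRE : ∀ s, Cl G L s → x ∉ s → AcyclicR G (nb G (far G L x) s)) {p i : ℕ}
    {Y Y' W' : Finset V → Finset V → U}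
    (hY' : ∀ r s, Pr G L x r s → r.card = p + 1 → s.card = i → Y' r s ∈ Cell a s)
    (hW' : ∀ r s, Pr G L x r s → r.card = p + 1 → s.card + 1 = i → W' r s ∈ Cell a s)
    (e : ∀ r s, Pr G L x r s → r.card = p + 1 → s.card = i + 1 →
      ∑ v ∈ r, sgn v r • Y (r.erase v) s = cob a (Y' r) s)
    (c : ∀ r s, Pr G L x r s → r.card = p + 2 → s.card = i →
      ∑ v ∈ r, sgn v r • (Y' (r.erase v) s - cob a (W' (r.erase v)) s) = 0) :
    ∃ W : Finset V → Finset V → U,
      (∀ r s, Pr G L x r s → r.card = p → s.card + 1 = i + 1 → W r s ∈ Cell a s) ∧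
      ∀ r s, Pr G L x r s → r.card = p + 1 → s.card = i + 1 →
        ∑ v ∈ r, sgn v r • (Y (r.erase v) s - cob a (W (r.erase v)) s) = 0 := by
  classical
  have hxs : ∀ r s, Pr G L x r s → 0 < r.card → x ∉ s := by
    intro r s hp hr hxs
    obtain ⟨v, hv⟩ := card_pos.1 hr
    have h1 := mem_far.1 (hp.1 hv)
    exact h1.2.2 (hp.2.adj (mem_union_right _ hxs) (mem_union_left _ hv) (Ne.symm h1.2.1))
  have hPe : ∀ r s u, Pr G L x r s → Pr G L x r (s.erase u) := fun r s u hp =>
    ⟨hp.1, hp.2.subset (union_subset_union (Subset.refl r) (erase_subset _ _))⟩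
  have key : ∀ s, ∃ g : Finset V → U, (∀ r, g r ∈ Cell a s) ∧
      (Cl G L s → x ∉ s → s.card = i → ∀ r, Cl G (nb G (far G L x) s) r → r.card = p + 1 →
        Y' r s - cob a (W' r) s = ∑ v ∈ r, sgn v r • g (r.erase v)) := by
    intro s
    by_cases hc : Cl G L s ∧ x ∉ s ∧ s.card = i
    · obtain ⟨h1, h2, h3⟩ := hc
      have hPr : ∀ r, Cl G (nb G (far G L x) s) r → Pr G L x r s := fun r hr =>
        (cl_nb (far_subset L x) h1).1 hr
      obtain ⟨g, hg1, hg2⟩ := row_exact (hRE s h1 h2) (Cell a s) (p + 1)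
        (fun r => Y' r s - cob a (W' r) s)
        (fun r hr hrc => by
          refine Submodule.sub_mem _ (hY' r s (hPr r hr) hrc h3) (cob_mem h h1 (fun v hv => ?_))
          refine hW' r (s.erase v) (hPe r s v (hPr r hr)) hrc ?_
          rw [card_erase_of_mem hv, h3]
          have : 0 < s.card := card_pos.2 ⟨v, hv⟩
          omega)
        (fun r hr hrc => c r s (hPr r hr) hrc h3)
      exact ⟨g, hg1, fun _ _ _ r hr hrc => hg2 r hr hrc⟩
    · exact ⟨fun _ => 0, fun _ => Submodule.zero_mem _, fun h1 h2 h3 => absurd ⟨h1, h2, h3⟩ hc⟩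
  choose g hg1 hg2 using key
  refine ⟨fun r s => g s r, fun r s _ _ _ => hg1 s r, ?_⟩
  intro r s hp hr hs
  have hxs' := hxs r s hp (by omega)
  have hCs : Cl G L s := hp.2.subset subset_union_right
  have h2 : cob a (Y' r) s = ∑ v ∈ r, sgn v r • cob a (fun t => g t (r.erase v)) s := by
    have h3 : cob a (Y' r) s = cob a (fun t => cob a (W' r) t +
        ∑ v ∈ r, sgn v r • g t (r.erase v)) s := by
      refine cob_congr (fun u hu => ?_)
      have hCe : Cl G L (s.erase u) := hCs.erase u
      have h4 := hg2 (s.erase u) hCe (fun hx' => hxs' (mem_of_mem_erase hx')) (by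
        rw [card_erase_of_mem hu, hs]; omega) r
        ((cl_nb (far_subset L x) hCe).2 (hPe r s u hp)) hr
      show Y' r (s.erase u) = cob a (W' r) (s.erase u) +
        ∑ v ∈ r, sgn v r • g (s.erase u) (r.erase v)
      rw [← h4]
      abel
    rw [h3, cob_add (fun t => cob a (W' r) t), cob_cob h _ hCs, zero_add,
      cob_sum r (fun v t => sgn v r • g t (r.erase v))]
    exact sum_congr rfl (fun v _ => cob_smul _ _ _)
  have h5 := e r s hp hr hs
  simp only [smul_sub, sum_sub_distrib]
  rw [h5, h2, sub_self]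

end Pool.Agent.H31.GS
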