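import Pool.Agent.H31.GS.ZigDL
import Pool.Agent.H31.GS.Star

/-!
# helper31, GS, module ZIGQ: the ascending part of the zigzag

Induction on `i` generalizing `p`.

`i = 0`: take `W = 0`. For `r.card = p + 1`, `s = ∅`, `Pr`: `u = ∑ v ∈ r, sgn v r • Y (r.erase v) ∅` is killed by `a w` for
all `w ∈ lk G L r` (hypothesis `hc` for `s = {w}`, `cob a y {w} = a w (y ∅)`, linearity). `ExC G a (lk G L r) 0` for the
constant function `fun _ => u` gives `u = cob a _ ∅ = 0`. (`Cell a ∅` is everything.)

`i = j + 1`: for every `r` with `r ⊆ far G L x`, `Cl G L r`, `r.card = p + 1` put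
`y_r s = ∑ v ∈ r, sgn v r • Y (r.erase v) s`. By `cl_star` the simplices `s` of `r ∪ lk G L r` are exactly the `s` with
`Pr G L x r s`. `y_r` is a closed cochain of degree `i` on `r ∪ lk G L r` (hypothesis `hc`, linearity of `cob`), its
restriction to `lk G L r` is `Bd` by `hcol` (`j' = i`), so by `star_clique` it is `Bd` on `r ∪ lk G L r`: choose
`Y' r` of degree `j` with `y_r = cob a (Y' r)`. Apply the induction hypothesis to `p + 1`, `j`, `Y'`: its hypothesis is
`∑ v ∈ r, sgn v r • cob a (Y' (r.erase v)) s = ∑ v ∈ r, sgn v r • ∑ w ∈ r.erase v, sgn w (r.erase v) • Y .. s = 0`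
(`sgn_dd`). Then `zigDL`.
-/

namespace Pool.Agent.H31.GS

open Finset

set_option linter.unusedSectionVars false
set_option linter.unusedVariables false

variable {V : Type} [Fintype V] [LinearOrder V] {G : SimpleGraph V}
variable {U : Type} [AddCommGroup U] [Module ℝ U] [FiniteDimensional ℝ U]
variable {a b : V → Module.End ℝ U}

theorem zigQ {L : Finset V} (h : GSys G L a b) {x : V} (hx : x ∈ L)
    (hRE : ∀ s, Cl G L s → x ∉ s → AcyclicR G (nb G (far G L x) s)) (i p : ℕ)
    (hcol : ∀ r, r ⊆ far G L x → Cl G L r → p + 1 ≤ r.card → ∀ j, j + r.card = p + i + 1 →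
      ExC G a (lk G L r) j)
    (Y : Finset V → Finset V → U)
    (hY : ∀ r s, Pr G L x r s → r.card = p → s.card = i → Y r s ∈ Cell a s)
    (hc : ∀ r s, Pr G L x r s → r.card = p + 1 → s.card = i + 1 →
      ∑ v ∈ r, sgn v r • cob a (Y (r.erase v)) s = 0) :
    ∃ W : Finset V → Finset V → U,
      (∀ r s, Pr G L x r s → r.card = p → s.card + 1 = i → W r s ∈ Cell a s) ∧
      ∀ r s, Pr G L x r s → r.card = p + 1 → s.card = i →
        ∑ v ∈ r, sgn v r • (Y (r.erase v) s - cob a (W (r.erase v)) s) = 0 := by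
  classical
  induction i generalizing p Y with
  | zero =>
    refine ⟨fun _ _ => 0, fun r s _ _ _ => Submodule.zero_mem _, ?_⟩
    intro r s hp hr hs
    have hs0 : s = ∅ := card_eq_zero.1 hs
    subst hs0
    have hrL : Cl G L r := by
      have h1 := hp.2
      rwa [union_empty] at h1
    obtain ⟨X, -, hX⟩ := hcol r hp.1 hrL (by omega) 0 (by omega)
      (fun _ => ∑ v ∈ r, sgn v r • Y (r.erase v) ∅)
      (by
        intro t _ ht
        rw [card_eq_zero.1 ht]
        intro v hv
        exact absurd hv (notMem_empty v))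
      (by
        intro t ht hc1
        obtain ⟨w, rfl⟩ := card_eq_one.1 hc1
        have hPr : Pr G L x r {w} := ⟨hp.1, (cl_union hrL ht).1⟩
        have h2 := hc r {w} hPr hr (by rw [card_singleton])
        rw [← h2]
        unfold cob
        rw [sum_singleton, map_sum]
        refine sum_congr rfl fun v _ => ?_
        rw [sum_singleton, map_smul, erase_singleton])
    have h3 := hX ∅ (cl_empty _) card_empty
    have h4 : (∑ v ∈ r, sgn v r • Y (r.erase v) ∅) = 0 := by
      refine h3.trans ?_
      unfold cob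
      exact sum_empty
    refine Eq.trans (sum_congr rfl fun v _ => ?_) h4
    have h5 : cob a (fun _ : Finset V => (0 : U)) ∅ = 0 := by
      unfold cob
      exact sum_empty
    rw [h5, sub_zero]
  | succ j ih =>
    have hPe : ∀ r s, Pr G L x r s → ∀ v, Pr G L x (r.erase v) s := by
      intro r s hrs v
      exact ⟨(erase_subset v r).trans hrs.1,
        hrs.2.subset (union_subset_union (erase_subset v r) (Subset.refl s))⟩
    have key : ∀ r : Finset V, ∃ X : Finset V → U, r ⊆ far G L x → Cl G L r → r.card = p + 1 →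
        (∀ s, Cl G (r ∪ lk G L r) s → s.card + 1 = j + 1 → X s ∈ Cell a s) ∧
        ∀ s, Cl G (r ∪ lk G L r) s → s.card = j + 1 →
          (∑ v ∈ r, sgn v r • Y (r.erase v) s) = cob a X s := by
      intro r
      by_cases hr : r ⊆ far G L x ∧ Cl G L r ∧ r.card = p + 1
      · obtain ⟨hr1, hr2, hr3⟩ := hr
        have hin : InC G a (r ∪ lk G L r) (j + 1) (fun s => ∑ v ∈ r, sgn v r • Y (r.erase v) s) := by
          intro s hs hsc
          refine Submodule.sum_mem _ fun v hv => Submodule.smul_mem _ _ ?_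
          refine hY (r.erase v) s (hPe r s ⟨hr1, (cl_star hr2).1 hs⟩ v) ?_ hsc
          rw [card_erase_of_mem hv, hr3]
          rfl
        have hclo : Clo G a (r ∪ lk G L r) (j + 1)
            (fun s => ∑ v ∈ r, sgn v r • Y (r.erase v) s) := by
          intro s hs hsc
          have h1 := hc r s ⟨hr1, (cl_star hr2).1 hs⟩ hr3 hsc
          rw [← h1]
          rw [cob_sum r (fun v s => sgn v r • Y (r.erase v) s) s]
          refine sum_congr rfl fun v _ => ?_
          exact cob_smul _ _ _
        have hbd : Bd G a (lk G L r) (j + 1) (fun s => ∑ v ∈ r, sgn v r • Y (r.erase v) s) :=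
          hcol r hr1 hr2 (by omega) (j + 1) (by omega) _ (hin.mono subset_union_right)
            (hclo.mono subset_union_right)
        obtain ⟨X, hX1, hX2⟩ := star_clique h hr2 hin hclo hbd
        exact ⟨X, fun _ _ _ => ⟨hX1, hX2⟩⟩
      · exact ⟨fun _ => 0, fun h1 h2 h3 => absurd ⟨h1, h2, h3⟩ hr⟩
    choose Y' hY' using key
    have hPr : ∀ r s, Pr G L x r s → Cl G L r ∧ Cl G (r ∪ lk G L r) s := by
      intro r s hrs
      have h1 : Cl G L r := hrs.2.subset subset_union_left
      exact ⟨h1, (cl_star h1).2 hrs.2⟩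
    have hY'1 : ∀ r s, Pr G L x r s → r.card = p + 1 → s.card = j → Y' r s ∈ Cell a s := by
      intro r s hrs hr hs
      obtain ⟨h1, h2⟩ := hPr r s hrs
      exact (hY' r hrs.1 h1 hr).1 s h2 (by rw [hs])
    have hY'2 : ∀ r s, Pr G L x r s → r.card = p + 1 → s.card = j + 1 →
        ∑ v ∈ r, sgn v r • Y (r.erase v) s = cob a (Y' r) s := by
      intro r s hrs hr hs
      obtain ⟨h1, h2⟩ := hPr r s hrs
      exact (hY' r hrs.1 h1 hr).2 s h2 hs
    obtain ⟨W', hW'1, hW'2⟩ := ih (p + 1)
      (fun r h1 h2 h3 j' h4 => hcol r h1 h2 (by omega) j' (by omega)) Y' hY'1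
      (by
        intro r s hrs hr hs
        rw [← sgn_dd (fun t => Y t s) r]
        refine sum_congr rfl fun v hv => ?_
        rw [← hY'2 (r.erase v) s (hPe r s hrs v) (by rw [card_erase_of_mem hv, hr]; rfl) hs])
    exact zigDL h hx hRE hY'1 hW'1 hY'2 hW'2

end Pool.Agent.H31.GS
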